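import Pool.Agent.Lib.MP_32fe36_lc.ER.Omino

/-!
The interior of a polyomino whose boundary is one lattice cycle is an obstacle.
-/

namespace Pool.Agent.Lib.MP_32fe36_lc.ER

open Set Filter Topology

/-- The point `x` lies in the closed unit cell with lower left corner `(i, j)`. -/
def Cl (i j : ℤ) (x : Pt) : Prop := ((i : ℝ) ≤ x.1 ∧ x.1 ≤ i + 1) ∧ ((j : ℝ) ≤ x.2 ∧ x.2 ≤ j + 1)

/-- The interior of the union of the cells. -/
def In (T : ℤ → ℤ → Prop) : Set Pt := {x | ∀ i j, Cl i j x → T i j}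

/-- The centre of a cell. -/
noncomputable def ctr (i j : ℤ) : Pt := ((i : ℝ) + 1 / 2, (j : ℝ) + 1 / 2)

/-- A lattice point as a point of the plane. -/
def lat (a : ℤ × ℤ) : Pt := ((a.1 : ℝ), (a.2 : ℝ))

theorem cl_floor (x : Pt) : Cl ⌊x.1⌋ ⌊x.2⌋ x :=
  ⟨⟨Int.floor_le _, (Int.lt_floor_add_one _).le⟩, Int.floor_le _, (Int.lt_floor_add_one _).le⟩

theorem In.mono {T T' : ℤ → ℤ → Prop} (h : ∀ i j, T i j → T' i j) : In T ⊆ In T' :=
  fun _ hx i j hc => h i j (hx i j hc)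

theorem near_int (x : ℝ) : ∀ᶠ y in 𝓝 x, ∀ i : ℤ, (i : ℝ) ≤ y ∧ y ≤ i + 1 → (i : ℝ) ≤ x ∧ x ≤ i + 1 := by
  have h1 : (⌈x⌉ : ℝ) - 1 < x := by linarith [Int.ceil_lt_add_one x]
  filter_upwards [Ioo_mem_nhds h1 (Int.lt_floor_add_one x)] with y hy i hi
  constructor
  · have : i < ⌊x⌋ + 1 := by exact_mod_cast hi.1.trans_lt hy.2
    exact Int.le_floor.1 (by omega)
  · have : ⌈x⌉ - 1 < i + 1 := by exact_mod_cast hy.1.trans_le hi.2
    have : x ≤ ((i + 1 : ℤ) : ℝ) := Int.ceil_le.1 (by omega)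
    exact_mod_cast this

theorem isOpen_In (T : ℤ → ℤ → Prop) : IsOpen (In T) := by
  refine isOpen_iff_mem_nhds.2 fun x hx => ?_
  filter_upwards [continuous_fst.continuousAt.eventually (near_int x.1),
    continuous_snd.continuousAt.eventually (near_int x.2)] with y h1 h2 i j hc
  exact hx i j ⟨h1 i hc.1, h2 j hc.2⟩

theorem int_between {i k : ℤ} {x : ℝ} {m : ℕ} (h1 : (i : ℝ) < x) (h2 : x < i + m)
    (h : (k : ℝ) ≤ x ∧ x ≤ k + 1) : i ≤ k ∧ k < i + m := by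
  have a : i < k + 1 := by exact_mod_cast h1.trans_le h.2
  have b : k < i + m := by exact_mod_cast h.1.trans_lt h2
  omega

/-- An open lattice rectangle made of cells of `T` lies in the interior. -/
theorem rect_sub {T : ℤ → ℤ → Prop} {i j : ℤ} {m n : ℕ}
    (h : ∀ k l, i ≤ k → k < i + m → j ≤ l → l < j + n → T k l) :
    Ioo (i : ℝ) (i + m) ×ˢ Ioo (j : ℝ) (j + n) ⊆ In T := by
  rintro x ⟨⟨a, b⟩, c, d⟩ k l hc
  obtain ⟨e, f⟩ := int_between a b hc.1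
  obtain ⟨g, g'⟩ := int_between c d hc.2
  exact h k l e f g g'

theorem seg_ctr {T : ℤ → ℤ → Prop} {x : Pt} (hx : x ∈ In T) {i j : ℤ} (hc : Cl i j x) :
    segment ℝ x (ctr i j) ⊆ In T := by
  intro y hy
  obtain ⟨t, t0, t1, y1, y2⟩ := mem_seg.1 hy
  rcases t0.eq_or_lt with rfl | t0
  · have : y = x := Prod.ext (by simpa using y1) (by simpa using y2)
    rwa [this]
  refine rect_sub (i := i) (j := j) (m := 1) (n := 1) (fun k l a b c d => ?_) ?_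
  · rw [show k = i by omega, show l = j by omega]; exact hx i j hc
  · obtain ⟨⟨a, b⟩, c, d⟩ := hc
    simp only [ctr] at y1 y2
    refine ⟨⟨?_, ?_⟩, ?_, ?_⟩ <;> simp only [Nat.cast_one, y1, y2] <;> nlinarith

theorem seg_adj {T : ℤ → ℤ → Prop} {c d e f : ℤ} (hd : Dir e f) (h1 : T (c - e) (d - f)) (h2 : T c d) :
    segment ℝ (ctr (c - e) (d - f)) (ctr c d) ⊆ In T := by
  have cv : ∀ a b a' b' : ℝ, Convex ℝ (Ioo a b ×ˢ Ioo a' b') := fun _ _ _ _ =>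
    (convex_Ioo _ _).prod (convex_Ioo _ _)
  rcases hd with ⟨rfl, rfl⟩ | ⟨rfl, rfl⟩ | ⟨rfl, rfl⟩ | ⟨rfl, rfl⟩
  · refine ((cv _ _ _ _).segment_subset ?_ ?_).trans
      (rect_sub (i := c - 1) (j := d) (m := 2) (n := 1) fun k l a b g g' => ?_)
    · simp only [ctr]; refine ⟨⟨?_, ?_⟩, ?_, ?_⟩ <;> push_cast <;> linarith
    · simp only [ctr]; refine ⟨⟨?_, ?_⟩, ?_, ?_⟩ <;> push_cast <;> linarith
    · grind
  · refine ((cv _ _ _ _).segment_subset ?_ ?_).trans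
      (rect_sub (i := c) (j := d - 1) (m := 1) (n := 2) fun k l a b g g' => ?_)
    · simp only [ctr]; refine ⟨⟨?_, ?_⟩, ?_, ?_⟩ <;> push_cast <;> linarith
    · simp only [ctr]; refine ⟨⟨?_, ?_⟩, ?_, ?_⟩ <;> push_cast <;> linarith
    · grind
  · refine ((cv _ _ _ _).segment_subset ?_ ?_).trans
      (rect_sub (i := c) (j := d) (m := 2) (n := 1) fun k l a b g g' => ?_)
    · simp only [ctr]; refine ⟨⟨?_, ?_⟩, ?_, ?_⟩ <;> push_cast <;> linarith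
    · simp only [ctr]; refine ⟨⟨?_, ?_⟩, ?_, ?_⟩ <;> push_cast <;> linarith
    · grind
  · refine ((cv _ _ _ _).segment_subset ?_ ?_).trans
      (rect_sub (i := c) (j := d) (m := 1) (n := 2) fun k l a b g g' => ?_)
    · simp only [ctr]; refine ⟨⟨?_, ?_⟩, ?_, ?_⟩ <;> push_cast <;> linarith
    · simp only [ctr]; refine ⟨⟨?_, ?_⟩, ?_, ?_⟩ <;> push_cast <;> linarith
    · grind

theorem be_not_in {T : ℤ → ℤ → Prop} {a b : ℤ × ℤ} (h : BE T a b) {x : Pt}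
    (hx : x ∈ segment ℝ (lat a) (lat b)) : x ∉ In T := by
  obtain ⟨t, t0, t1, y1, y2⟩ := mem_seg.1 hx
  simp only [lat] at y1 y2
  intro hi
  rcases h with ⟨e1, e2, -, g⟩ | ⟨e1, e2, -, g⟩ | ⟨e1, e2, -, g⟩ | ⟨e1, e2, -, g⟩ <;>
    refine g (hi _ _ ?_) <;> rw [e1] at y1 <;> rw [e2] at y2 <;> push_cast at y1 y2 <;>
    refine ⟨⟨?_, ?_⟩, ?_, ?_⟩ <;> push_cast <;> linarith

theorem int_adj {i k : ℤ} {x : ℝ} (h1 : (i : ℝ) ≤ x ∧ x ≤ i + 1) (h2 : (k : ℝ) ≤ x ∧ x ≤ k + 1)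
    (h : i ≠ k) : (k = i + 1 ∧ x = k) ∨ (i = k + 1 ∧ x = i) := by
  have a : i ≤ k + 1 := by exact_mod_cast h1.1.trans h2.2
  have b : k ≤ i + 1 := by exact_mod_cast h2.1.trans h1.2
  rcases (by omega : k = i + 1 ∨ i = k + 1) with rfl | rfl
  · exact Or.inl ⟨rfl, le_antisymm (by push_cast; exact h1.2) h2.1⟩
  · exact Or.inr ⟨rfl, le_antisymm (by push_cast; exact h2.2) h1.1⟩

theorem be_cover {T : ℤ → ℤ → Prop} {x : Pt} (h1 : x ∉ In T) (h2 : x ∉ In fun i j => ¬ T i j) :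
    ∃ a b, BE T a b ∧ x ∈ segment ℝ (lat a) (lat b) := by
  simp only [In, mem_ofPred_eq, not_forall, not_not] at h1 h2
  obtain ⟨i, j, ⟨c1, c2⟩, g⟩ := h1
  obtain ⟨k, l, ⟨c3, c4⟩, g'⟩ := h2
  by_cases hm : T k j
  · rcases int_adj c1 c3 (by rintro rfl; exact g hm) with ⟨rfl, e⟩ | ⟨rfl, e⟩
    · refine ⟨(i + 1, j + 1), (i + 1, j), by simp [BE, g, hm], mem_seg.2
        ⟨j + 1 - x.2, by linarith [c2.2], by linarith [c2.1], ?_, ?_⟩⟩ <;> simp [lat, e]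
    · refine ⟨(k + 1, j), (k + 1, j + 1), by simp [BE, g, hm], mem_seg.2
        ⟨x.2 - j, by linarith [c2.1], by linarith [c2.2], ?_, ?_⟩⟩ <;> simp [lat, e]
  · rcases int_adj c2 c4 (by rintro rfl; exact hm g') with ⟨rfl, e⟩ | ⟨rfl, e⟩
    · refine ⟨(k, j + 1), (k + 1, j + 1), by simp [BE, g', hm], mem_seg.2
        ⟨x.1 - k, by linarith [c3.1], by linarith [c3.2], ?_, ?_⟩⟩ <;> simp [lat, e]
    · refine ⟨(k + 1, l + 1), (k, l + 1), by simp [BE, g', hm], mem_seg.2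
        ⟨k + 1 - x.1, by linarith [c3.2], by linarith [c3.1], ?_, ?_⟩⟩ <;> simp [lat, e]

theorem int_frac {a b p q : ℤ} {s t : ℝ} (s0 : 0 ≤ s) (s1 : s < 1) (t0 : 0 ≤ t) (t1 : t < 1)
    (hp : p = 0 ∨ p = 1 ∨ p = -1) (hq : q = 0 ∨ q = 1 ∨ q = -1)
    (h : (a : ℝ) + s * p = b + t * q) :
    (a = b ∧ s * p = t * q) ∨ (p = 1 ∧ q = -1 ∧ b = a + 1 ∧ 0 < s ∧ 0 < t) ∨
      (p = -1 ∧ q = 1 ∧ a = b + 1 ∧ 0 < s ∧ 0 < t) := by
  by_cases e : a = b
  · exact Or.inl ⟨e, by rw [e] at h; linarith⟩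
  right
  have key : ∀ u v : ℤ, (u : ℝ) < v + 1 → (v : ℝ) < u + 1 → u = v := fun u v h1 h2 => by
    have : u < v + 1 := by exact_mod_cast h1
    have : v < u + 1 := by exact_mod_cast h2
    omega
  rcases hp with rfl | rfl | rfl <;> rcases hq with rfl | rfl | rfl <;> push_cast at h
  any_goals (refine absurd (key a b ?_ ?_) e <;> linarith)
  · have h1 : a - 1 < b := by exact_mod_cast (by linarith : (a : ℝ) - 1 < b)
    have h2 : b < a + 2 := by exact_mod_cast (by linarith : (b : ℝ) < a + 2)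
    have h3 : b = a + 1 := by omega
    subst h3; push_cast at h
    exact Or.inl ⟨rfl, rfl, rfl, by linarith, by linarith⟩
  · have h1 : b - 1 < a := by exact_mod_cast (by linarith : (b : ℝ) - 1 < a)
    have h2 : a < b + 2 := by exact_mod_cast (by linarith : (a : ℝ) < b + 2)
    have h3 : a = b + 1 := by omega
    subst h3; push_cast at h
    exact Or.inr ⟨rfl, rfl, rfl, by linarith, by linarith⟩

theorem be_meet {T : ℤ → ℤ → Prop} {a b c d : ℤ × ℤ} (h : BE T a b) (h' : BE T c d) {s t : ℝ}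
    (s0 : 0 ≤ s) (s1 : s < 1) (t0 : 0 ≤ t) (t1 : t < 1)
    (e : lat a + s • (lat b - lat a) = lat c + t • (lat d - lat c)) : a = c := by
  have e1 := congrArg Prod.fst e
  have e2 := congrArg Prod.snd e
  simp only [lat, Prod.fst_add, Prod.snd_add, Prod.smul_fst, Prod.smul_snd, Prod.fst_sub,
    Prod.snd_sub, smul_eq_mul] at e1 e2
  have f1 := int_frac (a := a.1) (b := c.1) (p := b.1 - a.1) (q := d.1 - c.1) s0 s1 t0 t1
    (by unfold BE at h; omega) (by unfold BE at h'; omega) (by push_cast; exact e1)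
  have f2 := int_frac (a := a.2) (b := c.2) (p := b.2 - a.2) (q := d.2 - c.2) s0 s1 t0 t1
    (by unfold BE at h; omega) (by unfold BE at h'; omega) (by push_cast; exact e2)
  have g1 : a.1 = c.1 ∨ (b.1 - a.1 = 1 ∧ d.1 - c.1 = -1 ∧ c.1 = a.1 + 1) ∨
      (b.1 - a.1 = -1 ∧ d.1 - c.1 = 1 ∧ a.1 = c.1 + 1) := by tauto
  have g2 : a.2 = c.2 ∨ (b.2 - a.2 = 1 ∧ d.2 - c.2 = -1 ∧ c.2 = a.2 + 1) ∨
      (b.2 - a.2 = -1 ∧ d.2 - c.2 = 1 ∧ a.2 = c.2 + 1) := by tauto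
  clear f1 f2 e e1 e2
  rw [Prod.ext_iff]
  unfold BE at h h'
  grind

theorem be_ne {T : ℤ → ℤ → Prop} {a b : ℤ × ℤ} (h : BE T a b) : lat b - lat a ≠ 0 := by
  intro e
  have e' := sub_eq_zero.1 e
  simp only [lat, Prod.mk.injEq, Int.cast_inj] at e'
  unfold BE at h
  omega

/-- A finite polyomino with one boundary cycle and connected interior. -/
structure Tree (T : ℤ → ℤ → Prop) : Prop where
  cyc : Cyc (BE T)
  bd : ∃ M : ℤ, ∀ i j, T i j → |i| ≤ M ∧ |j| ≤ M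
  conn : ∃ S : Set Pt, IsPreconnected S ∧ S ⊆ In T ∧ ∀ i j, T i j → ctr i j ∈ S

theorem Tree.isObstacle {T : ℤ → ℤ → Prop} (h : Tree T) : IsObstacle (In T) := by
  obtain ⟨⟨n, w, h0, h1, h2⟩, ⟨M, hM⟩, S, hS, hS1, hS2⟩ := h
  have hw : (fun i => lat (w i)) (n + 3) = (fun i => lat (w i)) 0 := congrArg lat h0
  have hb : ∀ x, x ∈ polygonBoundary (fun i : Fin (n + 3) => lat (w i)) ↔
      ∃ a b, BE T a b ∧ x ∈ segment ℝ (lat a) (lat b) := fun x => by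
    rw [mem_boundary_iff (fun i => lat (w i)) hw]
    constructor
    · rintro ⟨i, hi, g⟩
      exact ⟨_, _, (h2 _ _).2 ⟨i, hi, rfl, rfl⟩, g⟩
    · rintro ⟨a, b, g, g'⟩
      obtain ⟨i, hi, rfl, rfl⟩ := (h2 _ _).1 g
      exact ⟨i, hi, g'⟩
  obtain ⟨c, d, hc⟩ : ∃ c d, T c d := by
    rcases (h2 _ _).2 ⟨0, by omega, rfl, rfl⟩ with g | g | g | g <;> exact ⟨_, _, g.2.2.1⟩
  have ho : ctr c d ∈ In T := hS1 (hS2 c d hc)
  have hdis : ∀ x ∈ In T, x ∉ polygonBoundary (fun i : Fin (n + 3) => lat (w i)) := fun x hx g => by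
    obtain ⟨a, b, g, g'⟩ := (hb x).1 g
    exact be_not_in g g' hx
  have hpre : IsPreconnected (In T) := by
    refine isPreconnected_of_forall (ctr c d) fun x hx => ?_
    have := hS2 _ _ (hx _ _ (cl_floor x))
    exact ⟨segment ℝ x (ctr ⌊x.1⌋ ⌊x.2⌋) ∪ S, union_subset (seg_ctr hx (cl_floor x)) hS1,
      Or.inr (hS2 c d hc), Or.inl (left_mem_segment _ _ _),
      (convex_segment _ _).isPreconnected.union _ (right_mem_segment _ _ _) this hS⟩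
  refine ⟨n, fun i => lat (w i), ctr c d, ?_, hdis _ ho, ?_, ?_⟩
  · intro i j s t s0 s1 t0 t1 e
    dsimp only at e
    rw [fin_succ_val (fun i => lat (w i)) hw, fin_succ_val (fun i => lat (w i)) hw] at e
    have b1 := (h2 _ _).2 ⟨i, i.2, rfl, rfl⟩
    have hij : i = j := Fin.ext (h1 _ i.2 _ j.2 (be_meet b1 ((h2 _ _).2 ⟨j, j.2, rfl, rfl⟩) s0 s1 t0 t1 e))
    subst hij
    exact ⟨rfl, smul_left_injective ℝ (be_ne b1) (add_left_cancel e)⟩
  · refine subset_antisymm (hpre.subset_connectedComponentIn ho hdis) ?_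
    refine isPreconnected_connectedComponentIn.subset_left_of_subset_union (isOpen_In T)
      (isOpen_In fun i j => ¬ T i j) ?_ ?_ ⟨_, mem_connectedComponentIn (hdis _ ho), ho⟩
    · exact Set.disjoint_left.2 fun x g g' => g' _ _ (cl_floor x) (g _ _ (cl_floor x))
    · intro x hx
      by_contra hn
      rw [mem_union, not_or] at hn
      exact connectedComponentIn_subset _ _ hx ((hb x).2 (be_cover hn.1 hn.2))
  · refine ((Metric.isBounded_Icc (-M : ℝ) (M + 1)).prod (Metric.isBounded_Icc (-M : ℝ) (M + 1))).subset ?_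
    intro x hx
    obtain ⟨g1, g2⟩ := hM _ _ (hx _ _ (cl_floor x))
    obtain ⟨⟨a1, a2⟩, a3, a4⟩ := cl_floor x
    have b1 : ((-M : ℤ) : ℝ) ≤ ⌊x.1⌋ := by exact_mod_cast (abs_le.1 g1).1
    have b2 : (⌊x.1⌋ : ℝ) ≤ M := by exact_mod_cast (abs_le.1 g1).2
    have b3 : ((-M : ℤ) : ℝ) ≤ ⌊x.2⌋ := by exact_mod_cast (abs_le.1 g2).1
    have b4 : (⌊x.2⌋ : ℝ) ≤ M := by exact_mod_cast (abs_le.1 g2).2
    push_cast at b1 b3
    exact ⟨⟨by linarith, by linarith⟩, by linarith, by linarith⟩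

theorem ctr_mem {T : ℤ → ℤ → Prop} {c d : ℤ} (h : T c d) : ctr c d ∈ In T := by
  refine rect_sub (i := c) (j := d) (m := 1) (n := 1) (fun k l a b g g' => ?_) ?_
  · rwa [show k = c by omega, show l = d by omega]
  · simp only [ctr]; refine ⟨⟨?_, ?_⟩, ?_, ?_⟩ <;> push_cast <;> linarith

theorem tree_single (c d : ℤ) : Tree fun i j => i = c ∧ j = d := by
  refine ⟨cyc_single c d, ⟨|c| + |d|, ?_⟩, {ctr c d}, isPreconnected_singleton,
    singleton_subset_iff.2 (ctr_mem ⟨rfl, rfl⟩), ?_⟩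
  · rintro i j ⟨rfl, rfl⟩
    constructor <;> linarith [abs_nonneg i, abs_nonneg j]
  · rintro _ _ ⟨rfl, rfl⟩; rfl

theorem Tree.grow {T : ℤ → ℤ → Prop} (h : Tree T) {c d e f : ℤ} (hd : Dir e f)
    (h1 : T (c - e) (d - f)) (h2 : ¬ T c d) (h3 : ¬ T (c + e) (d + f)) (h4 : ¬ T (c - f) (d + e))
    (h5 : ¬ T (c + f) (d - e)) (h6 : ¬ T (c + e - f) (d + f + e)) (h7 : ¬ T (c + e + f) (d + f - e)) :
    Tree fun i j => T i j ∨ (i = c ∧ j = d) := by
  obtain ⟨g, ⟨M, hM⟩, S, hS, hS1, hS2⟩ := h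
  refine ⟨cyc_grow g hd h1 h2 h3 h4 h5 h6 h7, ⟨max M (max |c| |d|), ?_⟩,
    S ∪ segment ℝ (ctr (c - e) (d - f)) (ctr c d),
    hS.union _ (hS2 _ _ h1) (left_mem_segment _ _ _) (convex_segment _ _).isPreconnected,
    union_subset (hS1.trans (In.mono fun _ _ => Or.inl))
      (seg_adj hd (Or.inl h1) (Or.inr ⟨rfl, rfl⟩)), ?_⟩
  · rintro i j (g | ⟨rfl, rfl⟩)
    · exact ⟨le_max_of_le_left (hM i j g).1, le_max_of_le_left (hM i j g).2⟩
    · exact ⟨le_max_of_le_right (le_max_left _ _), le_max_of_le_right (le_max_right _ _)⟩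
  · rintro i j (g | ⟨rfl, rfl⟩)
    · exact Or.inl (hS2 i j g)
    · exact Or.inr (right_mem_segment _ _ _)

end Pool.Agent.Lib.MP_32fe36_lc.ER
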