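import Mathlib

/-!
Replacing every point and line of a constructible configuration by a cluster of four.
-/

namespace Pool.Agent.Lib.MP_32fe36_lc.ER

open Filter Topology

abbrev V3 : Type := ℝ × ℝ × ℝ

/-- The inner product. -/
def dot (u v : V3) : ℝ := u.1 * v.1 + u.2.1 * v.2.1 + u.2.2 * v.2.2

/-- `x` has the strict sign `b`. -/
def Sg (b : Bool) (x : ℝ) : Prop := if b = true then 0 < x else x < 0

theorem dot_comm (u v : V3) : dot u v = dot v u := by unfold dot; ring

theorem sg_true {x : ℝ} : Sg true x ↔ 0 < x := by simp [Sg]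
theorem sg_false {x : ℝ} : Sg false x ↔ x < 0 := by simp [Sg]

theorem Sg.ne {b : Bool} {x : ℝ} (h : Sg b x) : x ≠ 0 := by
  cases b
  · exact (sg_false.1 h).ne
  · exact (sg_true.1 h).ne'

theorem Sg.mul {b : Bool} {x t : ℝ} (h : Sg b x) (ht : 0 < t) : Sg b (t * x) := by
  cases b
  · exact sg_false.2 (mul_neg_of_pos_of_neg ht (sg_false.1 h))
  · exact sg_true.2 (mul_pos ht (sg_true.1 h))

theorem Sg.add {b : Bool} {x y : ℝ} (h : Sg b x) (h' : Sg b y) : Sg b (x + y) := by
  cases b
  · exact sg_false.2 (add_neg (sg_false.1 h) (sg_false.1 h'))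
  · exact sg_true.2 (add_pos (sg_true.1 h) (sg_true.1 h'))

theorem ev_sg {b : Bool} {g : ℝ → ℝ} (hg : Continuous g) (h : Sg b (g 0)) :
    ∀ᶠ t in 𝓝[>] 0, Sg b (g t) := by
  cases b
  · exact ((hg.tendsto 0).eventually (gt_mem_nhds (sg_false.1 h))).filter_mono nhdsWithin_le_nhds
      |>.mono fun t ht => sg_false.2 ht
  · exact ((hg.tendsto 0).eventually (lt_mem_nhds (sg_true.1 h))).filter_mono nhdsWithin_le_nhds
      |>.mono fun t ht => sg_true.2 ht

theorem ev_par {b : Bool} {x y W : V3} (W' : V3) {a c : ℕ} (hac : a < c) (h0 : dot x y = 0)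
    (h : Sg b (dot W y)) : ∀ᶠ t : ℝ in 𝓝[>] 0, Sg b (dot (x + t ^ a • W) (y + t ^ c • W')) := by
  obtain ⟨c, rfl⟩ := Nat.exists_eq_add_of_lt hac
  have := ev_sg (b := b) (g := fun t => dot W y + t ^ (c + 1) * dot x W' + t ^ (a + c + 1) * dot W W')
    (by fun_prop) (by simpa using h)
  filter_upwards [this, self_mem_nhdsWithin] with t h1 h2
  convert h1.mul (pow_pos h2 a) using 1
  simp only [dot, Prod.fst_add, Prod.snd_add, Prod.smul_fst, Prod.smul_snd, smul_eq_mul] at h0 ⊢
  linear_combination h0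

theorem ev_non {b : Bool} {x y : V3} (W W' : V3) {a c : ℕ} (ha : 0 < a) (hc : 0 < c)
    (h : Sg b (dot x y)) : ∀ᶠ t : ℝ in 𝓝[>] 0, Sg b (dot (x + t ^ a • W) (y + t ^ c • W')) :=
  ev_sg (g := fun t => dot (x + t ^ a • W) (y + t ^ c • W')) (by unfold dot; fun_prop)
    (by simpa [ha.ne', hc.ne'] using h)

theorem four_quadrants {u v : Bool → Bool → ℝ} (hu : ∀ i j, Sg i (u i j)) (hv : ∀ i j, Sg j (v i j)) :
    ∃ a b c d : ℝ, 0 < a ∧ 0 < b ∧ 0 < c ∧ 0 < d ∧
      a * u true true + b * u true false + c * u false true + d * u false false = 0 ∧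
      a * v true true + b * v true false + c * v false true + d * v false false = 0 := by
  have u1 := sg_true.1 (hu true true)
  have u2 := sg_true.1 (hu true false)
  have u3 := neg_pos.2 (sg_false.1 (hu false true))
  have u4 := neg_pos.2 (sg_false.1 (hu false false))
  have v1 := sg_true.1 (hv true true)
  have v2 := neg_pos.2 (sg_false.1 (hv true false))
  have v3 := sg_true.1 (hv false true)
  have v4 := neg_pos.2 (sg_false.1 (hv false false))
  refine ⟨(-u false false * -v true false + u true false * -v false false) * -u false true,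
    (-u false true * v true true + u true true * v false true) * -u false false,
    (-u false false * -v true false + u true false * -v false false) * u true true,
    (-u false true * v true true + u true true * v false true) * u true false,
    by positivity, by positivity, by positivity, by positivity, by ring, by ring⟩

theorem exists_dir {u v : V3} (h : u.1 * v.2.1 - u.2.1 * v.1 ≠ 0 ∨ u.1 * v.2.2 - u.2.2 * v.1 ≠ 0 ∨
    u.2.1 * v.2.2 - u.2.2 * v.2.1 ≠ 0) (i j : Bool) : ∃ W, Sg i (dot W u) ∧ Sg j (dot W v) := by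
  have key : ∀ a b : ℝ, ∃ W D, 0 < D ∧ dot W u = D * a ∧ dot W v = D * b := by
    intro a b
    rcases h with h | h | h
    · exact ⟨((a * v.2.1 - b * u.2.1) * (u.1 * v.2.1 - u.2.1 * v.1),
        (b * u.1 - a * v.1) * (u.1 * v.2.1 - u.2.1 * v.1), 0), _, mul_self_pos.2 h,
        by simp only [dot]; ring, by simp only [dot]; ring⟩
    · exact ⟨((a * v.2.2 - b * u.2.2) * (u.1 * v.2.2 - u.2.2 * v.1), 0,
        (b * u.1 - a * v.1) * (u.1 * v.2.2 - u.2.2 * v.1)), _, mul_self_pos.2 h,
        by simp only [dot]; ring, by simp only [dot]; ring⟩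
    · exact ⟨(0, (a * v.2.2 - b * u.2.2) * (u.2.1 * v.2.2 - u.2.2 * v.2.1),
        (b * u.2.1 - a * v.2.1) * (u.2.1 * v.2.2 - u.2.2 * v.2.1)), _, mul_self_pos.2 h,
        by simp only [dot]; ring, by simp only [dot]; ring⟩
  obtain ⟨W, D, hD, h1, h2⟩ := key (if i = true then 1 else -1) (if j = true then 1 else -1)
  refine ⟨W, ?_, ?_⟩
  · rw [h1]; refine Sg.mul ?_ hD; cases i <;> simp [Sg]
  · rw [h2]; refine Sg.mul ?_ hD; cases j <;> simp [Sg]

/-- A sign pattern realised by vectors. -/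
def WeakReal {P : Type} (pts lns : List P) (sg : P → P → Bool) : Prop :=
  ∃ p l : P → V3, ∀ a ∈ pts, ∀ b ∈ lns, Sg (sg a b) (dot (p a) (l b))

/-- A sign pattern realised by points and non-vertical lines in the plane. -/
def StrongReal {P : Type} (pts lns : List P) (sg : P → P → Bool) : Prop :=
  ∃ (q : P → ℝ × ℝ) (s c : P → ℝ), ∀ a ∈ pts, ∀ b ∈ lns, Sg (sg a b) (s b * (q a).1 + c b - (q a).2)

/-- A configuration in which every object is incident with at most two earlier ones. -/
structure Conf (O : Type) where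
  pts : List O
  lns : List O
  par1 : O → O
  par2 : O → O
  sg : O → O → Bool

namespace Conf

variable {O : Type} [DecidableEq O] (c : Conf O)

/-- A point and a line. -/
def Opp (a b : O) : Prop := (a ∈ c.pts ∧ b ∈ c.lns) ∨ (a ∈ c.lns ∧ b ∈ c.pts)

/-- One object is a parent of the other. -/
def IsPar (a b : O) : Prop := b = c.par1 a ∨ b = c.par2 a ∨ a = c.par1 b ∨ a = c.par2 b

/-- The signs between cluster members. -/
def csg (m m' : O × Bool × Bool) : Bool :=
  if m'.1 = c.par1 m.1 then m.2.1 else if m'.1 = c.par2 m.1 then m.2.2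
  else if m.1 = c.par1 m'.1 then m'.2.1 else if m.1 = c.par2 m'.1 then m'.2.2 else c.sg m.1 m'.1

/-- The members of the clusters. -/
def mem (l : List O) : List (O × Bool × Bool) :=
  l.flatMap fun o => [(o, true, true), (o, true, false), (o, false, true), (o, false, false)]

/-- An exact realisation. -/
def Exact (E : O → V3) : Prop := ∀ a ∈ c.pts, ∀ b ∈ c.lns,
  (c.IsPar a b → dot (E a) (E b) = 0) ∧ (¬ c.IsPar a b → Sg (c.sg a b) (dot (E a) (E b)))

/-- The parent relation is well founded. -/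
structure Ranked (rk : O → ℕ) : Prop where
  disj : ∀ a ∈ c.pts, a ∉ c.lns
  rk1 : ∀ a, c.Opp a (c.par1 a) → rk (c.par1 a) < rk a
  rk2 : ∀ a, c.Opp a (c.par2 a) → rk (c.par2 a) < rk a
  ne : ∀ a, c.Opp a (c.par2 a) → c.par2 a ≠ c.par1 a

omit [DecidableEq O] in
theorem mem_mem {l : List O} {m : O × Bool × Bool} : m ∈ mem l ↔ m.1 ∈ l := by
  obtain ⟨o, i, j⟩ := m
  cases i <;> cases j <;> simp [mem]

variable {c} {rk : O → ℕ}

omit [DecidableEq O] in
theorem exists_rk_bound (c : Conf O) (rk : O → ℕ) : ∃ R, ∀ a, a ∈ c.pts ∨ a ∈ c.lns → rk a < R := by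
  obtain ⟨R, hR⟩ := ((c.pts ++ c.lns).finite_toSet.image rk).bddAbove
  exact ⟨R + 1, fun a ha => Nat.lt_succ_of_le (hR ⟨a, List.mem_append.2 ha, rfl⟩)⟩

theorem Ranked.sound (H : c.Ranked rk) (h : WeakReal (mem c.pts) (mem c.lns) c.csg) :
    ∃ E, c.Exact E := by
  classical
  obtain ⟨p, l, h⟩ := h
  let w : O × Bool × Bool → V3 := fun m => if m.1 ∈ c.pts then p m else l m
  have hw : ∀ a ∈ c.pts, ∀ b ∈ c.lns, ∀ i j, Sg (c.csg (a, i) (b, j)) (dot (w (a, i)) (w (b, j))) := by
    intro a ha b hb i j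
    have : b ∉ c.pts := fun h => H.disj b h hb
    simp only [w, ha, this, if_true, if_false]
    exact h _ (mem_mem.2 ha) _ (mem_mem.2 hb)
  have h1 : ∀ a, c.Opp a (c.par1 a) → ∀ i j, Sg i.1 (dot (w (a, i)) (w (c.par1 a, j))) := by
    intro a ha i j
    have r := H.rk1 a ha
    rcases ha with ha | ha
    · simpa [csg] using hw _ ha.1 _ ha.2 i j
    · have := hw _ ha.2 _ ha.1 j i
      rw [csg, if_neg, if_neg, if_pos rfl, dot_comm] at this
      · exact this
      · intro e
        have := H.rk2 _ (Or.inl ⟨ha.2, (e : a = _) ▸ ha.1⟩)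
        rw [← (e : a = _)] at this; exact lt_asymm r this
      · intro e
        have := H.rk1 _ (Or.inl ⟨ha.2, (e : a = _) ▸ ha.1⟩)
        rw [← (e : a = _)] at this; exact lt_asymm r this
  have h2 : ∀ a, c.Opp a (c.par2 a) → ∀ i j, Sg i.2 (dot (w (a, i)) (w (c.par2 a, j))) := by
    intro a ha i j
    have r := H.rk2 a ha
    have n := H.ne a ha
    rcases ha with ha | ha
    · simpa [csg, n] using hw _ ha.1 _ ha.2 i j
    · have := hw _ ha.2 _ ha.1 j i
      rw [csg, if_neg, if_neg, if_neg n, if_pos rfl, dot_comm] at this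
      · exact this
      · intro e
        have := H.rk2 _ (Or.inl ⟨ha.2, (e : a = _) ▸ ha.1⟩)
        rw [← (e : a = _)] at this; exact lt_asymm r this
      · intro e
        have := H.rk1 _ (Or.inl ⟨ha.2, (e : a = _) ▸ ha.1⟩)
        rw [← (e : a = _)] at this; exact lt_asymm r this
  let Cone : O → V3 → Prop := fun o x => ∃ a b c d : ℝ, 0 < a ∧ 0 < b ∧ 0 < c ∧ 0 < d ∧ ∀ y,
    dot x y = a * dot (w (o, true, true)) y + b * dot (w (o, true, false)) y +
      c * dot (w (o, false, true)) y + d * dot (w (o, false, false)) y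
  have cs : ∀ {o x y b}, Cone o x → (∀ i, Sg b (dot (w (o, i)) y)) → Sg b (dot x y) := by
    rintro o x y b ⟨a1, a2, a3, a4, p1, p2, p3, p4, e⟩ h
    rw [e]
    exact ((((h _).mul p1).add ((h _).mul p2)).add ((h _).mul p3)).add ((h _).mul p4)
  have step : ∀ o u v, ∃ x, Cone o x ∧ (c.Opp o (c.par1 o) → Cone (c.par1 o) u → dot x u = 0) ∧
      (c.Opp o (c.par2 o) → Cone (c.par2 o) v → dot x v = 0) := by
    intro o u v
    obtain ⟨a1, a2, a3, a4, p1, p2, p3, p4, e1, e2⟩ := four_quadrants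
      (u := fun i j => if c.Opp o (c.par1 o) ∧ Cone (c.par1 o) u then dot (w (o, i, j)) u
        else if i = true then 1 else -1)
      (v := fun i j => if c.Opp o (c.par2 o) ∧ Cone (c.par2 o) v then dot (w (o, i, j)) v
        else if j = true then 1 else -1) (fun i j => by
          split_ifs with h h'
          · rw [dot_comm]
            exact cs h.2 fun k => by rw [dot_comm]; exact h1 o h.1 (i, j) k
          · simp [Sg, h']
          · simp [Sg, h']) (fun i j => by
          split_ifs with h h'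
          · rw [dot_comm]
            exact cs h.2 fun k => by rw [dot_comm]; exact h2 o h.1 (i, j) k
          · simp [Sg, h']
          · simp [Sg, h'])
    have e : ∀ y, dot (a1 • w (o, true, true) + a2 • w (o, true, false) + a3 • w (o, false, true) +
        a4 • w (o, false, false)) y = a1 * dot (w (o, true, true)) y +
        a2 * dot (w (o, true, false)) y + a3 * dot (w (o, false, true)) y +
        a4 * dot (w (o, false, false)) y := fun y => by
      simp only [dot, Prod.fst_add, Prod.snd_add, Prod.smul_fst, Prod.smul_snd, smul_eq_mul]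
      ring
    refine ⟨_, ⟨a1, a2, a3, a4, p1, p2, p3, p4, e⟩, fun g1 g2 => ?_, fun g1 g2 => ?_⟩
    · simp only [if_pos (And.intro g1 g2)] at e1
      rw [e, e1]
    · simp only [if_pos (And.intro g1 g2)] at e2
      rw [e, e2]
  choose st s1 s2 s3 using step
  have main : ∀ r, ∃ E : O → V3, (∀ o, Cone o (E o)) ∧ ∀ o, rk o < r →
      (c.Opp o (c.par1 o) → dot (E o) (E (c.par1 o)) = 0) ∧
      (c.Opp o (c.par2 o) → dot (E o) (E (c.par2 o)) = 0) := by
    intro r
    induction r with
    | zero => exact ⟨fun o => st o 0 0, fun o => s1 _ _ _, by simp⟩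
    | succ r ih =>
      obtain ⟨E, e1, e2⟩ := ih
      refine ⟨fun o => if rk o = r then st o (E (c.par1 o)) (E (c.par2 o)) else E o, fun o => ?_,
        fun o ho => ⟨fun g => ?_, fun g => ?_⟩⟩
      · beta_reduce
        split_ifs
        · exact s1 _ _ _
        · exact e1 o
      · have := H.rk1 o g
        beta_reduce
        rw [if_neg (by omega : rk (c.par1 o) ≠ r)]
        split_ifs
        · exact s2 _ _ _ g (e1 _)
        · exact (e2 o (by omega)).1 g
      · have := H.rk2 o g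
        beta_reduce
        rw [if_neg (by omega : rk (c.par2 o) ≠ r)]
        split_ifs
        · exact s3 _ _ _ g (e1 _)
        · exact (e2 o (by omega)).2 g
  obtain ⟨R, hR⟩ := exists_rk_bound c rk
  obtain ⟨E, e1, e2⟩ := main R
  refine ⟨E, fun a ha b hb => ⟨?_, fun hn => ?_⟩⟩
  · rintro (rfl | rfl | rfl | rfl)
    · exact (e2 a (hR a (Or.inl ha))).1 (Or.inl ⟨ha, hb⟩)
    · exact (e2 a (hR a (Or.inl ha))).2 (Or.inl ⟨ha, hb⟩)
    · rw [dot_comm]; exact (e2 b (hR b (Or.inr hb))).1 (Or.inr ⟨hb, ha⟩)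
    · rw [dot_comm]; exact (e2 b (hR b (Or.inr hb))).2 (Or.inr ⟨hb, ha⟩)
  · simp only [IsPar, not_or] at hn
    refine cs (e1 a) fun i => ?_
    rw [dot_comm]
    refine cs (e1 b) fun j => ?_
    rw [dot_comm]
    simpa [csg, hn] using hw a ha b hb i j

theorem Ranked.complete (H : c.Ranked rk) {E : O → V3} (hE : c.Exact E)
    (hW : ∀ o i j, ∃ W, (c.Opp o (c.par1 o) → Sg i (dot W (E (c.par1 o)))) ∧
      (c.Opp o (c.par2 o) → Sg j (dot W (E (c.par2 o)))))
    (hp : ∀ a ∈ c.pts, 0 < dot (E a) (1, 1, 1)) (hl : ∀ b ∈ c.lns, 0 < dot (E b) (-2, -1, 3)) :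
    StrongReal (mem c.pts) (mem c.lns) c.csg := by
  obtain ⟨R, hR⟩ := exists_rk_bound c rk
  choose W w1 w2 using hW
  let w : ℝ → O × Bool × Bool → V3 := fun t m => E m.1 + t ^ (R - rk m.1) • W m.1 m.2.1 m.2.2
  have ev : ∀ᶠ t : ℝ in 𝓝[>] 0, (∀ a ∈ mem c.pts, ∀ b ∈ mem c.lns,
      Sg (c.csg a b) (dot (w t a) (w t b))) ∧
      (∀ a ∈ mem c.pts, Sg true (dot (w t a) ((1, 1, 1) + t ^ 1 • 0))) ∧
      ∀ b ∈ mem c.lns, Sg true (dot (w t b) ((-2, -1, 3) + t ^ 1 • 0)) := by
    refine Eventually.and ?_ (Eventually.and ?_ ?_)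
    · refine (eventually_all_finite (mem c.pts).finite_toSet).2 fun a ha =>
        (eventually_all_finite (mem c.lns).finite_toSet).2 fun b hb => ?_
      have ha : a.1 ∈ c.pts := mem_mem.1 ha
      have hb : b.1 ∈ c.lns := mem_mem.1 hb
      have ra := hR _ (Or.inl ha)
      have rb := hR _ (Or.inr hb)
      obtain ⟨e1, e2⟩ := hE _ ha _ hb
      unfold csg
      split_ifs with g1 g2 g3 g4
      · have o : c.Opp a.1 (c.par1 a.1) := Or.inl ⟨ha, g1 ▸ hb⟩
        have := H.rk1 _ o
        rw [← g1] at this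
        exact ev_par _ (by omega) (e1 (Or.inl g1)) (g1 ▸ w1 _ _ _ o)
      · have o : c.Opp a.1 (c.par2 a.1) := Or.inl ⟨ha, g2 ▸ hb⟩
        have := H.rk2 _ o
        rw [← g2] at this
        exact ev_par _ (by omega) (e1 (Or.inr (Or.inl g2))) (g2 ▸ w2 _ _ _ o)
      · have o : c.Opp b.1 (c.par1 b.1) := Or.inr ⟨hb, g3 ▸ ha⟩
        have := H.rk1 _ o
        rw [← g3] at this
        simp only [dot_comm (w _ a)]
        exact ev_par _ (by omega) (dot_comm _ _ ▸ e1 (Or.inr (Or.inr (Or.inl g3))))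
          (g3 ▸ w1 _ _ _ o)
      · have o : c.Opp b.1 (c.par2 b.1) := Or.inr ⟨hb, g4 ▸ ha⟩
        have := H.rk2 _ o
        rw [← g4] at this
        simp only [dot_comm (w _ a)]
        exact ev_par _ (by omega) (dot_comm _ _ ▸ e1 (Or.inr (Or.inr (Or.inr g4))))
          (g4 ▸ w2 _ _ _ o)
      · exact ev_non _ _ (by omega) (by omega) (e2 (by simp [IsPar, g1, g2, g3, g4]))
    · refine (eventually_all_finite (mem c.pts).finite_toSet).2 fun a ha => ?_
      have ha : a.1 ∈ c.pts := mem_mem.1 ha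
      have ra := hR _ (Or.inl ha)
      exact ev_non _ _ (by omega) one_pos (sg_true.2 (hp _ ha))
    · refine (eventually_all_finite (mem c.lns).finite_toSet).2 fun a ha => ?_
      have ha : a.1 ∈ c.lns := mem_mem.1 ha
      have ra := hR _ (Or.inr ha)
      exact ev_non _ _ (by omega) one_pos (sg_true.2 (hl _ ha))
  obtain ⟨t, h1, h2, h3⟩ := ev.exists
  simp only [smul_zero, add_zero, sg_true] at h2 h3
  refine ⟨fun a => (((w t a).1 - 2 * (w t a).2.1) / 3 / dot (w t a) (1, 1, 1),
      ((w t a).1 + (w t a).2.1) / 3 / dot (w t a) (1, 1, 1)),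
    fun b => dot (w t b) (1, -1, 0) / dot (w t b) (-2, -1, 3),
    fun b => dot (w t b) (0, 0, 1) / dot (w t b) (-2, -1, 3), fun a ha b hb => ?_⟩
  have p1 := h2 a ha
  have p2 := h3 b hb
  convert (h1 a ha b hb).mul (inv_pos.2 (mul_pos p1 p2)) using 1
  field_simp
  simp only [dot]
  ring

end Conf

end Pool.Agent.Lib.MP_32fe36_lc.ER
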