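import Pool.Agent.Lib.MP_32fe36_lc.ER.Machine
import Pool.Agent.Shared.PolyTime.Extra
import Pool.Agent.Shared.PolyTime.BaseProblems

/-! The translation of formulas into equations runs in polynomial time. -/

namespace Pool.Agent.Lib.MP_32fe36_lc.ER

open N68a2faeb Pool.Agent.Shared.PolyTime N487b59b3

set_option synthInstance.maxSize 2000

section
variable {α : Type} [N487b59b3 α]

@[fun_prop] theorem pt_ar {f : α → ℕ} (hf : IsPolyTime f) : IsPolyTime fun x => ar (f x) := by
  unfold ar; fun_prop

@[fun_prop] theorem pt_okb {f : α → ℕ} {g : α → List Item} (hf : IsPolyTime f) (hg : IsPolyTime g) :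
    IsPolyTime fun x => okb (f x) (g x) := by
  unfold okb; fun_prop

@[fun_prop] theorem pt_newc {f : α → ℕ} {g : α → List Item} (hf : IsPolyTime f) (hg : IsPolyTime g) :
    IsPolyTime fun x => newc (f x) (g x) := by
  unfold newc opA opB; fun_prop

theorem bsize_mstep (st : List Item) (k : ℕ) : bsize (mstep st k) ≤ bsize st + (4 * bsize k + 9) := by
  unfold mstep
  split_ifs with hok
  swap
  · omega
  have ha : ar k = 0 ∨ ar k = 1 ∨ ar k = 2 := by unfold ar; split_ifs <;> omega
  rcases ha with ha | ha | ha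
  · simp [newc, ha]; omega
  · obtain ⟨B, r, rfl⟩ := ok_one hok ha
    simp [newc, ha, opB]; omega
  · obtain ⟨A, B, r, rfl⟩ := ok_two hok ha
    simp [newc, ha, opA, opB]; omega

theorem pt_stk : IsPolyTime stk := by
  unfold stk
  refine IsPolyTime.foldl_grow (f := fun _ s b => mstep s b) (by unfold mstep; fun_prop) (by fun_prop)
    (by fun_prop) (fun w => 4 * bsize w + 9) (by fun_prop) fun w s b hb => ?_
  have := bsize_le_of_mem hb
  have := bsize_mstep s b
  omega

@[fun_prop] theorem pt_gen {k : α → ℕ} {f g h : α → List ℕ} (hk : IsPolyTime k) (hf : IsPolyTime f)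
    (hg : IsPolyTime g) (hh : IsPolyTime h) : IsPolyTime fun x => gen (k x) (f x) (g x) (h x) := by
  unfold gen ltg; fun_prop

theorem pt_tse : IsPolyTime tse := by
  have := pt_stk
  unfold tse nodeCons opA opB; fun_prop

end

/-- the word coded by a bit string (the empty word if there is none) -/
def wordOf (s : List Bool) : List ℕ :=
  if bitEncode ((bitDecode s : Option (List ℕ)).getD []) = s then (bitDecode s).getD [] else []

theorem pt_wordOf : IsPolyTime wordOf := by
  unfold wordOf; fun_prop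

theorem code_ne_nil (φ : Fm) : φ.code ≠ [] := by
  cases φ <;> simp [Fm.code]

theorem etr_iff (s : List Bool) : ETR s = true ↔
    ∃ f : RV → ℝ, f vZ = 0 ∧ f vO = 1 ∧ RSat f (tse (wordOf s)) := by
  simp only [ETR, decide_eq_true_eq]
  constructor
  · rintro ⟨φ, rfl, x, hx⟩
    have : wordOf (bitEncode φ.code) = φ.code := by simp [wordOf]
    rw [this]
    exact tse_complete φ x hx
  · rintro ⟨f, h0, h1, h⟩
    obtain ⟨φ, e, x, hx⟩ := tse_sound h0 h1 h
    refine ⟨φ, ?_, x, hx⟩
    unfold wordOf at e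
    split_ifs at e with hs
    · rw [← e, hs]
    · exact absurd e.symm (code_ne_nil φ)

/-- conjunction of a list of formulas -/
def bigAnd (l : List Fm) : Fm := l.foldl .and (.eq .zero .zero)

variable {x : ℕ → ℝ}

theorem holds_bigAnd (l : List Fm) : (bigAnd l).Holds x ↔ ∀ φ ∈ l, φ.Holds x := by
  have : ∀ ψ : Fm, (l.foldl .and ψ).Holds x ↔ ψ.Holds x ∧ ∀ φ ∈ l, φ.Holds x := by
    induction l with
    | nil => simp
    | cons a l ih => intro ψ; simp [ih, Fm.Holds, and_assoc]
  simp [bigAnd, this, Fm.Holds]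

theorem code_bigAnd (l : List Fm) :
    (bigAnd l).code = [0, 0, 5] ++ (l.map Fm.code).flatMap (fun c => c ++ [9]) := by
  have : ∀ ψ : Fm, (l.foldl .and ψ).code = ψ.code ++ (l.map Fm.code).flatMap (fun c => c ++ [9]) := by
    induction l with
    | nil => simp
    | cons a l ih => intro ψ; simp [ih, Fm.code]
  simp [bigAnd, this, Fm.code, Tm.code]

theorem etr_code (φ : Fm) : ETR (bitEncode φ.code) = true ↔ ∃ x, φ.Holds x := by
  simp only [ETR, decide_eq_true_eq]
  refine ⟨?_, fun h => ⟨φ, rfl, h⟩⟩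
  rintro ⟨ψ, e, x, hx⟩
  have h := ev_fm x φ []
  rw [bitEncode_injective e, ev_fm] at h
  refine ⟨x, ?_⟩
  by_contra hn
  simp [ind, hx, hn] at h

theorem etr_nil : ETR [] = false := by
  simp only [ETR, decide_eq_false_iff_not]
  rintro ⟨φ, e, -⟩
  exact code_ne_nil φ (bitEncode_injective (a₂ := ([] : List ℕ)) e.symm)

end Pool.Agent.Lib.MP_32fe36_lc.ER
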