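import Pool.Agent.Lib.MP_32fe36_lc.ER.Thick
import Pool.Agent.Lib.MP_32fe36_lc.Complete

/-!
Faces of a straight-line drawing are described by polynomially many sample points.
-/

namespace Pool.Agent.Lib.MP_32fe36_lc.ER

open Set Filter Topology

/-- Sauer-Shelah bound for open half-planes. -/
theorem card_patterns {ι : Type} [Fintype ι] [DecidableEq ι] (A B C : ι → ℝ) (F : Finset (Finset ι))
    (h : ∀ s ∈ F, ∃ z : Pt, ∀ i, i ∈ s ↔ 0 < A i * z.1 + B i * z.2 + C i) :
    F.card ≤ (Fintype.card ι + 1) ^ 3 := by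
  have vc : F.vcDim ≤ 3 := by
    refine Finset.sup_le fun s hs => ?_
    rw [Finset.mem_shatterer] at hs
    by_contra hc
    have key : ∀ g : s → ℝ, ∑ i, g i • ((A i, B i, C i) : ℝ × ℝ × ℝ) = 0 → ∀ i, g i ≤ 0 := by
      intro g hg i0
      by_contra h0
      obtain ⟨u, hu, e⟩ := hs (t := (Finset.univ.filter fun i : s => 0 < g i).image Subtype.val)
        (fun a ha => by obtain ⟨i, -, rfl⟩ := Finset.mem_image.1 ha; exact i.2)
      obtain ⟨z, hz⟩ := h u hu
      have m : ∀ i : s, 0 < g i ↔ 0 < A i * z.1 + B i * z.2 + C i := fun i => by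
        rw [← hz, ← and_iff_right i.2 (b := i.1 ∈ u), ← Finset.mem_inter, e]
        simp
      have e1 := congrArg (fun v : ℝ × ℝ × ℝ => v.1 * z.1 + v.2.1 * z.2 + v.2.2) hg
      simp only [Prod.fst_sum, Prod.snd_sum, Prod.smul_mk, smul_eq_mul, Finset.sum_mul,
        ← Finset.sum_add_distrib, Prod.fst_zero, Prod.snd_zero, zero_mul, add_zero] at e1
      refine (Finset.sum_pos' (fun i _ => ?_) ⟨i0, Finset.mem_univ _, ?_⟩).ne' e1
      · by_cases c : 0 < g i
        · nlinarith [mul_pos c ((m i).1 c)]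
        · nlinarith [mul_nonneg_of_nonpos_of_nonpos (not_lt.1 c) (not_lt.1 (mt (m i).2 c))]
      · nlinarith [mul_pos (not_le.1 h0) ((m i0).1 (not_le.1 h0))]
    have li : LinearIndependent ℝ fun i : s => ((A i, B i, C i) : ℝ × ℝ × ℝ) := by
      refine Fintype.linearIndependent_iff.2 fun g hg i => le_antisymm (key g hg i) ?_
      have := key (fun i => -g i) (by simp only [neg_smul, Finset.sum_neg_distrib, hg, neg_zero]) i
      linarith
    have := li.fintype_card_le_finrank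
    simp at this
    exact hc this
  refine F.card_le_card_shatterer.trans (Finset.card_shatterer_le_sum_vcDim.trans ?_)
  refine (Finset.sum_le_sum_of_subset (Finset.Iic_subset_Iic.2 vc)).trans ?_
  refine (Finset.sum_le_sum fun k _ => Nat.choose_le_pow _ k).trans ?_
  rw [show Finset.Iic 3 = {0, 1, 2, 3} from rfl]
  simp
  nlinarith [Nat.zero_le (Fintype.card ι), Nat.zero_le (Fintype.card ι ^ 2)]

theorem exists_chain {X κ : Type} [TopologicalSpace X] [DecidableEq κ] {F : Set X}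
    (hF : IsPreconnected F) (σ : X → κ) (R : κ → κ → Prop) (hr : ∀ a, R a a)
    (hloc : ∀ x ∈ F, ∀ᶠ y in 𝓝 x, R (σ x) (σ y)) {N : ℕ}
    (hN : ∀ S : Finset κ, (∀ s ∈ S, ∃ x, σ x = s) → S.card ≤ N) {x : X} (hx : x ∈ F) :
    ∃ z : ℕ → X, z 0 = x ∧ (∀ i, z i ∈ F) ∧
      (∀ i, 0 < i → i ≤ N → ∃ j < i, R (σ (z j)) (σ (z i)) ∨ R (σ (z i)) (σ (z j))) ∧
      ∀ y ∈ F, ∃ i ≤ N, σ (z i) = σ y := by
  have main : ∀ k, ∃ z : ℕ → X, z 0 = x ∧ (∀ i, z i ∈ F) ∧
      (∀ i, 0 < i → i ≤ k → ∃ j < i, R (σ (z j)) (σ (z i)) ∨ R (σ (z i)) (σ (z j))) ∧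
      ((∀ y ∈ F, ∃ i ≤ k, σ (z i) = σ y) ∨
        k + 1 ≤ ((Finset.range (k + 1)).image fun i => σ (z i)).card) := by
    intro k
    induction k with
    | zero => exact ⟨fun _ => x, rfl, fun _ => hx, fun i a b => by omega, Or.inr (by simp)⟩
    | succ k ih =>
      obtain ⟨z, h0, h1, h2, h3⟩ := ih
      have ext : ∀ y ∈ F, ∀ j ≤ k, R (σ (z j)) (σ y) ∨ R (σ y) (σ (z j)) →
          ∃ z' : ℕ → X, z' 0 = x ∧ (∀ i, z' i ∈ F) ∧ (∀ i, 0 < i → i ≤ k + 1 →
            ∃ j < i, R (σ (z' j)) (σ (z' i)) ∨ R (σ (z' i)) (σ (z' j))) ∧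
            (∀ i ≤ k, z' i = z i) ∧ z' (k + 1) = y := by
        intro y hy j hj g
        have e : ∀ i ≤ k, Function.update z (k + 1) y i = z i := fun i hi =>
          Function.update_of_ne (by omega) _ _
        refine ⟨Function.update z (k + 1) y, by rw [e 0 (by omega), h0], fun i => ?_,
          fun i a b => ?_, e, Function.update_self ..⟩
        · rw [Function.update_apply]; split_ifs
          exacts [hy, h1 i]
        · rcases b.eq_or_lt with rfl | b
          · exact ⟨j, by omega, by rwa [e j hj, Function.update_self]⟩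
          · obtain ⟨l, hl, g'⟩ := h2 i a (by omega)
            exact ⟨l, hl, by rwa [e l (by omega), e i (by omega)]⟩
      by_cases hc : ∀ y ∈ F, ∃ i ≤ k, σ (z i) = σ y
      · obtain ⟨z', a, b, c, d, -⟩ := ext _ (h1 0) 0 (by omega) (Or.inl (hr _))
        refine ⟨z', a, b, c, Or.inl fun y hy => ?_⟩
        obtain ⟨i, hi, g⟩ := hc y hy
        exact ⟨i, by omega, by rwa [d i hi]⟩
      have h3 := h3.resolve_left hc
      obtain ⟨y, hy, j, hj, g, g'⟩ : ∃ y ∈ F, ∃ j ≤ k, (R (σ (z j)) (σ y) ∨ R (σ y) (σ (z j))) ∧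
          ¬ ∃ i ≤ k, σ (z i) = σ y := by
        by_contra hn
        refine hc fun y hy => ?_
        have := hF.induction₂' (fun u v => (∃ i ≤ k, σ (z i) = σ u) → ∃ i ≤ k, σ (z i) = σ v)
          (fun u hu => ?_) (fun _ _ _ _ _ _ a b c => b (a c)) (h1 0) hy
        · exact this ⟨0, by omega, rfl⟩
        filter_upwards [mem_nhdsWithin_of_mem_nhds (hloc u hu), self_mem_nhdsWithin] with v g hv
        constructor <;> rintro ⟨i, hi, e⟩ <;> by_contra c
        · exact hn ⟨v, hv, i, hi, Or.inl (e ▸ g), c⟩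
        · exact hn ⟨u, hu, i, hi, Or.inr (e ▸ g), c⟩
      obtain ⟨z', a, b, c, d, e⟩ := ext y hy j hj g
      refine ⟨z', a, b, c, Or.inr ?_⟩
      rw [Finset.range_add_one, Finset.image_insert, e,
        Finset.image_congr (g := fun i => σ (z i)) fun i hi => by
          rw [d i (Nat.lt_succ_iff.1 (Finset.mem_range.1 hi))],
        Finset.card_insert_of_notMem]
      · omega
      · simpa only [Finset.mem_image, Finset.mem_range, Nat.lt_succ_iff] using g'
  obtain ⟨z, h0, h1, h2, h3⟩ := main N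
  refine ⟨z, h0, h1, h2, h3.resolve_right fun h => ?_⟩
  have := hN _ fun s hs => by
    obtain ⟨i, -, e⟩ := (Finset.mem_image (s := Finset.range (N + 1)) (f := fun i => σ (z i))).1 hs
    exact ⟨_, e⟩
  omega

/-- Every strict sign of the five test functions at `z` is kept at `w`. -/
def Le5 (a b z w : Pt) : Prop := (0 < cr a b z → 0 < cr a b w) ∧ (a.1 < z.1 → a.1 < w.1) ∧
  (z.1 < a.1 → w.1 < a.1) ∧ (a.2 < z.2 → a.2 < w.2) ∧ (z.2 < a.2 → w.2 < a.2)

/-- Sign description of a segment. -/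
def OnSeg (a b z : Pt) : Prop := ¬ 0 < cr a b z ∧ ¬ 0 < cr b a z ∧ ¬ (a.1 < z.1 ∧ b.1 < z.1) ∧
  ¬ (z.1 < a.1 ∧ z.1 < b.1) ∧ ¬ (a.2 < z.2 ∧ b.2 < z.2) ∧ ¬ (z.2 < a.2 ∧ z.2 < b.2)

theorem between {a b z : ℝ} (h : a ≠ b) (h1 : ¬ (a < z ∧ b < z)) (h2 : ¬ (z < a ∧ z < b)) :
    0 ≤ (z - a) / (b - a) ∧ (z - a) / (b - a) ≤ 1 := by
  rcases lt_or_gt_of_ne h with h | h
  · exact ⟨div_nonneg (by grind) (by linarith), (div_le_one (by linarith)).2 (by grind)⟩
  · exact ⟨div_nonneg_of_nonpos (by grind) (by linarith), (div_le_one_of_neg (by linarith)).2 (by grind)⟩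

theorem onSeg_iff {a b z : Pt} : OnSeg a b z ↔ z ∈ segment ℝ a b := by
  rw [mem_seg]
  constructor
  · rintro ⟨h1, h2, h3, h4, h5, h6⟩
    rw [cr_swap12] at h2
    have h0 : cr a b z = 0 := by linarith [not_lt.1 h1, not_lt.1 h2]
    unfold cr at h0
    by_cases c : a.1 = b.1
    · by_cases c' : a.2 = b.2
      · exact ⟨0, le_rfl, zero_le_one, by grind, by grind⟩
      · have := sub_ne_zero.2 (Ne.symm c')
        exact ⟨_, (between c' h5 h6).1, (between c' h5 h6).2, by grind, by field_simp; ring⟩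
    · have := sub_ne_zero.2 (Ne.symm c)
      exact ⟨_, (between c h3 h4).1, (between c h3 h4).2, by field_simp; ring,
        by field_simp; linarith⟩
  · rintro ⟨t, t0, t1, e1, e2⟩
    have h0 : cr a b z = 0 := by unfold cr; rw [e1, e2]; ring
    have k : ∀ u v w : ℝ, w = u + t * (v - u) → ¬ (u < w ∧ v < w) ∧ ¬ (w < u ∧ w < v) := by
      rintro u v _ rfl
      rcases le_total u v with g | g <;> constructor <;> rintro ⟨a, b⟩ <;>
        nlinarith [mul_nonneg t0 (sub_nonneg.2 g), mul_nonneg (sub_nonneg.2 t1) (sub_nonneg.2 g)]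
    exact ⟨by rw [h0]; simp, by rw [cr_swap12, h0]; simp, (k _ _ _ e1).1, (k _ _ _ e1).2,
      (k _ _ _ e2).1, (k _ _ _ e2).2⟩

variable {V : Type} {G : SimpleGraph V} {p : V → Pt}

/-- The sign pattern of `z` is below the sign pattern of `w`. -/
def Le (p : V → Pt) (z w : Pt) : Prop := ∀ a b, Le5 (p a) (p b) z w

theorem Le.seg {z w : Pt} (h : Le p z w) {a b : V} (hw : w ∈ segment ℝ (p a) (p b)) :
    z ∈ segment ℝ (p a) (p b) := by
  rw [← onSeg_iff] at hw ⊢
  obtain ⟨a1, a2, a3, a4, a5⟩ := h a b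
  obtain ⟨b1, b2, b3, b4, b5⟩ := h b a
  obtain ⟨c1, c2, c3, c4, c5, c6⟩ := hw
  exact ⟨mt a1 c1, mt b1 c2, fun g => c3 ⟨a2 g.1, b2 g.2⟩, fun g => c4 ⟨a3 g.1, b3 g.2⟩,
    fun g => c5 ⟨a4 g.1, b4 g.2⟩, fun g => c6 ⟨a5 g.1, b5 g.2⟩⟩

theorem mem_drawing {x : Pt} :
    x ∈ drawing G p ↔ ∃ a b, (a = b ∨ G.Adj a b) ∧ x ∈ segment ℝ (p a) (p b) := by
  constructor
  · rintro (⟨a, rfl⟩ | ⟨a, b, h, g⟩)
    exacts [⟨a, a, Or.inl rfl, left_mem_segment _ _ _⟩, ⟨a, b, Or.inr h, g⟩]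
  · rintro ⟨a, b, rfl | h, g⟩
    exacts [Or.inl ⟨a, Eq.symm (by simpa using g)⟩, Or.inr ⟨a, b, h, g⟩]

theorem Le.subset {z w : Pt} (h : Le p z w) (hz : z ∉ drawing G p) :
    segment ℝ z w ⊆ (drawing G p)ᶜ := by
  intro y hy g
  obtain ⟨a, b, g, g'⟩ := mem_drawing.1 g
  refine hz (mem_drawing.2 ⟨a, b, g, Le.seg (fun c d => ?_) g'⟩)
  obtain ⟨t, t0, t1, e1, e2⟩ := mem_seg.1 hy
  have k : ∀ u v : ℝ, 0 < u → 0 < v → 0 < u + t * (v - u) := fun u v hu hv => by
    rcases t0.eq_or_lt with rfl | t0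
    · linarith
    · nlinarith [mul_pos t0 hv]
  obtain ⟨h1, h2, h3, h4, h5⟩ := h c d
  refine ⟨fun a => ?_, fun a => ?_, fun a => ?_, fun a => ?_, fun a => ?_⟩
  · convert k _ _ a (h1 a) using 1
    unfold cr; rw [e1, e2]; ring
  · linarith [k _ _ (sub_pos.2 a) (sub_pos.2 (h2 a))]
  · linarith [k _ _ (sub_pos.2 a) (sub_pos.2 (h3 a))]
  · linarith [k _ _ (sub_pos.2 a) (sub_pos.2 (h4 a))]
  · linarith [k _ _ (sub_pos.2 a) (sub_pos.2 (h5 a))]

theorem isClosed_drawing [Finite V] : IsClosed (drawing G p) := by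
  have : drawing G p = ⋃ a, ⋃ b, ⋃ _ : a = b ∨ G.Adj a b, segment ℝ (p a) (p b) := by
    ext x; simp only [mem_drawing, mem_iUnion, exists_prop]
  rw [this]
  refine isClosed_iUnion_of_finite fun a => isClosed_iUnion_of_finite fun b =>
    isClosed_iUnion_of_finite fun _ => IsCompact.isClosed ?_
  rw [segment_eq_image]
  exact isCompact_Icc.image (by fun_prop)

/-- Sample points `z 0, …, z N` of one face that meet every missing edge. -/
def Chain (G : SimpleGraph V) (p : V → Pt) (N : ℕ) (z : ℕ → Pt) : Prop :=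
  (∀ i ≤ N, z i ∉ drawing G p) ∧ (∀ i, 0 < i → i ≤ N → ∃ j < i, Le p (z j) (z i) ∨ Le p (z i) (z j)) ∧
    ∀ a b, a ≠ b → ¬ G.Adj a b → ∃ i ≤ N, z i ∈ segment ℝ (p a) (p b)

/-- Distinct points in general position. -/
def Gen (p : V → Pt) : Prop :=
  Function.Injective p ∧ ∀ a b c, a ≠ b → a ≠ c → b ≠ c → cr (p a) (p b) (p c) ≠ 0

theorem IsVisibilityRep.gen {C : Set Pt} (h : IsVisibilityRep G C p) : Gen p :=
  ⟨h.1, fun a b c u v w e => h.2.1 a b c u v w ((collinear_iff_cr _ _ _).2 e)⟩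

theorem rep_of_chain [Finite V] (hp : Gen p) {N : ℕ} {z : ℕ → Pt} (h : Chain G p N z) :
    ∃ C, IsObstacle C ∧ IsVisibilityRep G C p ∧ C ⊆ connectedComponentIn (drawing G p)ᶜ (z 0) := by
  obtain ⟨h1, h2, h3⟩ := h
  have h0 := mem_connectedComponentIn (F := (drawing G p)ᶜ) (h1 0 (by omega))
  have hz : ∀ i ≤ N, z i ∈ connectedComponentIn (drawing G p)ᶜ (z 0) := by
    intro i
    induction i using Nat.strong_induction_on with
    | _ i ih =>
      intro hi
      rcases Nat.eq_zero_or_pos i with rfl | h0'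
      · exact h0
      obtain ⟨j, hj, g⟩ := h2 i h0' hi
      rw [connectedComponentIn_eq (ih j hj (by omega))]
      refine (convex_segment (z j) (z i)).isPreconnected.subset_connectedComponentIn
        (left_mem_segment _ _ _) ?_ (right_mem_segment _ _ _)
      rcases g with g | g
      · exact g.subset (h1 j (by omega))
      · rw [segment_symm]; exact g.subset (h1 i hi)
  obtain ⟨C, a, b, c⟩ := thicken (isClosed_drawing.isOpen_compl.connectedComponentIn)
    isPreconnected_connectedComponentIn h0 ((finite_Iic N).image z)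
    (by rintro _ ⟨i, hi, rfl⟩; exact hz i hi)
  have d := c.trans (connectedComponentIn_subset _ _)
  refine ⟨C, a, ⟨hp.1, fun a b c u v w e => hp.2 a b c u v w ((collinear_iff_cr _ _ _).1 e),
    fun a g => d g (Or.inl ⟨a, rfl⟩), fun u v huv => ⟨fun g => ?_, fun g => ?_⟩⟩, c⟩
  · exact Set.disjoint_left.2 fun x hx hx' => d hx' (Or.inr ⟨u, v, g, hx⟩)
  · by_contra hn
    obtain ⟨i, hi, g'⟩ := h3 u v huv hn
    exact Set.disjoint_left.1 g g' (b ⟨i, hi, rfl⟩)

theorem chain_of_rep [Fintype V] {C : Set Pt} (h : IsVisibilityRep G C p) {x : Pt}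
    (hx : x ∉ drawing G p) (hC : C ⊆ connectedComponentIn (drawing G p)ᶜ x) {N : ℕ}
    (hN : (Fintype.card V * Fintype.card V * 5 + 1) ^ 3 ≤ N) : ∃ z, z 0 = x ∧ Chain G p N z := by
  classical
  let A : V × V × Fin 5 → ℝ := fun i => ![(p i.1).2 - (p i.2.1).2, 1, -1, 0, 0] i.2.2
  let B : V × V × Fin 5 → ℝ := fun i => ![(p i.2.1).1 - (p i.1).1, 0, 0, 1, -1] i.2.2
  let D : V × V × Fin 5 → ℝ := fun i => ![(p i.1).1 * (p i.2.1).2 - (p i.1).2 * (p i.2.1).1,
    -(p i.1).1, (p i.1).1, -(p i.1).2, (p i.1).2] i.2.2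
  let σ : Pt → Finset (V × V × Fin 5) := fun z =>
    Finset.univ.filter fun i => 0 < A i * z.1 + B i * z.2 + D i
  have hσ : ∀ z w, σ z ⊆ σ w → Le p z w := fun z w g a b => by
    have k : ∀ k : Fin 5, 0 < A (a, b, k) * z.1 + B (a, b, k) * z.2 + D (a, b, k) →
        0 < A (a, b, k) * w.1 + B (a, b, k) * w.2 + D (a, b, k) := fun k e => by
      simpa [σ] using g (Finset.mem_filter.2 ⟨Finset.mem_univ (a, b, k), e⟩)
    have k0 := k 0
    have k1 := k 1
    have k2 := k 2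
    have k3 := k 3
    have k4 := k 4
    simp [A, B, D] at k0 k1 k2 k3 k4
    refine ⟨fun e => ?_, k1, fun e => by linarith [k2 (by linarith)], k3,
      fun e => by linarith [k4 (by linarith)]⟩
    unfold cr at e ⊢
    linarith [k0 (by linarith)]
  have l1 : ∀ u : Pt, ∀ᶠ y in 𝓝 u, σ u ⊆ σ y := fun u => by
    have : ∀ᶠ y in 𝓝 u, ∀ i ∈ σ u, 0 < A i * y.1 + B i * y.2 + D i :=
      (eventually_all_finset _).2 fun i hi => (isOpen_lt continuous_const (by fun_prop)).mem_nhds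
        (Finset.mem_filter.1 hi).2
    exact this.mono fun y g i hi => Finset.mem_filter.2 ⟨Finset.mem_univ _, g i hi⟩
  have l2 : ∀ S : Finset (Finset (V × V × Fin 5)), (∀ s ∈ S, ∃ x, σ x = s) → S.card ≤ N := by
    intro S hS
    refine (card_patterns A B D S fun s hs => ?_).trans (le_of_eq_of_le ?_ hN)
    · obtain ⟨z, rfl⟩ := hS s hs
      exact ⟨z, fun i => by simp [σ]⟩
    · simp [mul_assoc]
  obtain ⟨z, h0, h1, h2, h3⟩ := exists_chain (F := connectedComponentIn (drawing G p)ᶜ x)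
    isPreconnected_connectedComponentIn σ (· ⊆ ·) (fun _ => subset_rfl) (fun u _ => l1 u) l2
    (mem_connectedComponentIn hx)
  refine ⟨z, h0, fun i _ => connectedComponentIn_subset _ _ (h1 i), fun i a b => ?_,
    fun a b hab hn => ?_⟩
  · obtain ⟨j, hj, g⟩ := h2 i a b
    exact ⟨j, hj, g.imp (hσ _ _) (hσ _ _)⟩
  · obtain ⟨y, hy, hy'⟩ := Set.not_disjoint_iff.1 (mt (h.2.2.2 a b hab).2 hn)
    obtain ⟨i, hi, e⟩ := h3 y (hC hy')
    exact ⟨i, hi, (hσ _ _ e.le).seg hy⟩

theorem IsObstacle.sub {C : Set Pt} (hC : IsObstacle C) (h : IsVisibilityRep G C p) :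
    ∃ x ∈ C, C ⊆ connectedComponentIn (drawing G p)ᶜ x := by
  obtain ⟨n, v, x, -, h2, h3, -⟩ := hC
  have hx : x ∈ C := h3 ▸ mem_connectedComponentIn h2
  exact ⟨x, hx, (h3 ▸ isPreconnected_connectedComponentIn : IsPreconnected C).subset_connectedComponentIn
    hx fun y hy => drawing_disjoint h hy⟩

/-- A point beyond all vertices lies in the unbounded face. -/
theorem ray {A B : ℝ} {x : Pt} (h : ∀ v, A * (p v).1 + B * (p v).2 < A * x.1 + B * x.2) :
    x ∈ unboundedFace (drawing G p) := by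
  obtain ⟨s, hs, hA⟩ : ∃ s : ℝ, |s| = 1 ∧ 0 ≤ A * s := by
    rcases le_total 0 A with g | g
    exacts [⟨1, abs_one, by linarith⟩, ⟨-1, by simp, by linarith⟩]
  have key : ∀ t : ℝ, 0 ≤ t → ((x.1 + t * s, x.2) : Pt) ∉ drawing G p := by
    intro t ht g
    obtain ⟨a, b, -, g⟩ := mem_drawing.1 g
    obtain ⟨u, u0, u1, e1, e2⟩ := mem_seg.1 g
    dsimp only at e1 e2
    have e : A * (x.1 + t * s) + B * x.2 = (1 - u) * (A * (p a).1 + B * (p a).2) +
        u * (A * (p b).1 + B * (p b).2) := by rw [e1, e2]; ring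
    have := mul_nonneg ht hA
    have ha := h a
    have hb := h b
    rcases u0.eq_or_lt with rfl | u0
    · nlinarith
    · nlinarith [mul_pos u0 (sub_pos.2 hb), mul_nonneg (sub_nonneg.2 u1) (sub_pos.2 ha).le]
  refine ⟨by simpa using key 0 le_rfl, fun hb => ?_⟩
  have sub : (fun t : ℝ => ((x.1 + t * s, x.2) : Pt)) '' Ici 0 ⊆
      connectedComponentIn (drawing G p)ᶜ x :=
    (isPreconnected_Ici.image _ (by fun_prop)).subset_connectedComponentIn ⟨0, self_mem_Ici, by simp⟩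
      (by rintro _ ⟨t, ht, rfl⟩; exact key t ht)
  obtain ⟨R, hR⟩ := hb.subset_closedBall x
  have := hR (sub ⟨|R| + 1, mem_Ici.2 (by positivity), rfl⟩)
  rw [Metric.mem_closedBall, Prod.dist_eq, max_le_iff, Real.dist_eq, add_sub_cancel_left, abs_mul, hs,
    abs_of_pos (by positivity)] at this
  linarith [this.1, le_abs_self R]

theorem outside_iff [Fintype V] {N : ℕ} (hN : (Fintype.card V * Fintype.card V * 5 + 1) ^ 3 ≤ N) :
    HasOutsideRep G ↔ ∃ p z, Gen p ∧ Chain G p N z ∧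
      ∀ v, (z 0).1 * (p v).1 + (z 0).2 * (p v).2 < (z 0).1 * (z 0).1 + (z 0).2 * (z 0).2 := by
  constructor
  · rintro ⟨C, p, h1, h2, h3⟩
    obtain ⟨x, hx, hC⟩ := IsObstacle.sub h1 h2
    obtain ⟨M, M0, hM⟩ := exists_bound fun v => ‖p v‖
    obtain ⟨y, hy, hy'⟩ : ∃ y ∈ connectedComponentIn (drawing G p)ᶜ x, 2 * M < ‖y‖ := by
      by_contra hn
      push Not at hn
      exact (h3 hx).2 (isBounded_iff_forall_norm_le.2 ⟨_, hn⟩)
    rw [connectedComponentIn_eq hy] at hC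
    obtain ⟨z, rfl, hz⟩ := chain_of_rep h2 (connectedComponentIn_subset _ _ hy) hC hN
    refine ⟨p, z, IsVisibilityRep.gen h2, hz, fun v => ?_⟩
    have := hM v
    rw [abs_norm, Prod.norm_def, max_lt_iff, Real.norm_eq_abs, Real.norm_eq_abs] at this
    rw [Prod.norm_def, lt_max_iff, Real.norm_eq_abs, Real.norm_eq_abs] at hy'
    have a1 := le_abs_self ((z 0).1 * (p v).1)
    have a2 := le_abs_self ((z 0).2 * (p v).2)
    rw [abs_mul] at a1 a2
    rw [← abs_mul_abs_self (z 0).1, ← abs_mul_abs_self (z 0).2]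
    have a3 := mul_le_mul_of_nonneg_left this.1.le (abs_nonneg (z 0).1)
    have a4 := mul_le_mul_of_nonneg_left this.2.le (abs_nonneg (z 0).2)
    generalize |(z 0).1| = a at *
    generalize |(z 0).2| = b at *
    rcases hy' with g | g
    · nlinarith [sq_nonneg (b - M / 2)]
    · nlinarith [sq_nonneg (a - M / 2)]
  · rintro ⟨p, z, h1, h2, h3⟩
    obtain ⟨C, a, b, c⟩ := rep_of_chain h1 h2
    refine ⟨C, p, a, b, fun y hy => ⟨drawing_disjoint b hy, ?_⟩⟩
    rw [← connectedComponentIn_eq (c hy)]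
    exact (ray h3).2

theorem nhds_seg (h : ∀ a b, a ≠ b → ¬ G.Adj a b → ∃ c, 0 < cr (p a) (p b) (p c)) {a b : V} {x : Pt}
    (hx : x ∈ segment ℝ (p a) (p b)) (hD : x ∉ drawing G p) : convexHull ℝ (range p) ∈ 𝓝 x := by
  have hn : ¬ (a = b ∨ G.Adj a b) := fun g => hD (mem_drawing.2 ⟨a, b, g, hx⟩)
  rw [not_or] at hn
  obtain ⟨c, hc⟩ := h a b hn.1 hn.2
  obtain ⟨d, hd⟩ := h b a (Ne.symm hn.1) fun g => hn.2 g.symm
  obtain ⟨t, t0, t1, e1, e2⟩ := mem_seg.1 hx
  have t0' : 0 < t := t0.lt_of_ne fun e => hD (Or.inl ⟨a, Prod.ext (by simp [e1, ← e]) (by simp [e2, ← e])⟩)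
  have t1' : t < 1 := t1.lt_of_ne fun e => hD (Or.inl ⟨b, Prod.ext (by simp [e1, e]) (by simp [e2, e])⟩)
  have o : ∀ f : Pt → ℝ, Continuous f → 0 < f x → ∀ᶠ y in 𝓝 x, 0 < f y := fun f hf g =>
    (isOpen_lt continuous_const hf).mem_nhds g
  have tri : ∀ a b c, Tri (p a) (p b) (p c) ⊆ convexHull ℝ (range p) := fun a b c =>
    tri_subset (convex_convexHull _ _) (subset_convexHull _ _ ⟨a, rfl⟩) (subset_convexHull _ _ ⟨b, rfl⟩)
      (subset_convexHull _ _ ⟨c, rfl⟩)
  have k1 : 0 < cr x (p b) (p c) := by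
    refine (mul_pos (sub_pos.2 t1') hc).trans_eq ?_; unfold cr; rw [e1, e2]; ring
  have k2 : 0 < cr (p a) x (p c) := by
    refine (mul_pos t0' hc).trans_eq ?_; unfold cr; rw [e1, e2]; ring
  have k3 : 0 < cr x (p a) (p d) := by
    refine (mul_pos t0' hd).trans_eq ?_; unfold cr; rw [e1, e2]; ring
  have k4 : 0 < cr (p b) x (p d) := by
    refine (mul_pos (sub_pos.2 t1') hd).trans_eq ?_; unfold cr; rw [e1, e2]; ring
  filter_upwards [o (fun y => cr y (p b) (p c)) (by unfold cr; fun_prop) k1,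
    o (fun y => cr (p a) y (p c)) (by unfold cr; fun_prop) k2,
    o (fun y => cr y (p a) (p d)) (by unfold cr; fun_prop) k3,
    o (fun y => cr (p b) y (p d)) (by unfold cr; fun_prop) k4] with y g1 g2 g3 g4
  rcases le_total 0 (cr (p a) (p b) y) with g | g
  · exact tri a b c (mem_tri_of_cr hc.ne' (by positivity) (by positivity) (by positivity))
  · have : 0 ≤ cr (p b) (p a) y := by rw [cr_swap12]; linarith
    exact tri b a d (mem_tri_of_cr hd.ne' (by positivity) (by positivity) (by positivity))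

theorem nhds_hull (hp : Gen p) (h : ∀ a b, a ≠ b → ¬ G.Adj a b → ∃ c, 0 < cr (p a) (p b) (p c))
    {x : Pt} (hx : x ∈ convexHull ℝ (range p)) (hD : x ∉ drawing G p) :
    convexHull ℝ (range p) ∈ 𝓝 x := by
  obtain ⟨_, ⟨a, rfl⟩, _, ⟨b, rfl⟩, _, ⟨c, rfl⟩, g⟩ := exists_tri_of_mem_convexHull hx
  by_cases hab : a = b
  · subst hab; exact nhds_seg h (tri_self_subset _ _ g) hD
  by_cases hbc : b = c
  · subst hbc; rw [← tri_rot] at g; exact nhds_seg h (tri_self_subset _ _ g) hD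
  by_cases hac : a = c
  · subst hac; rw [tri_rot] at g; exact nhds_seg h (tri_self_subset _ _ g) hD
  have hcr := hp.2 a b c hab hac hbc
  by_contra hn
  have cl : IsClosed (segment ℝ (p a) (p b) ∪ (segment ℝ (p b) (p c) ∪ segment ℝ (p c) (p a))) := by
    have : ∀ u v : Pt, IsClosed (segment ℝ u v) := fun u v => IsCompact.isClosed (by
      rw [segment_eq_image]; exact isCompact_Icc.image (by fun_prop))
    exact (this _ _).union ((this _ _).union (this _ _))
  obtain ⟨r, hr, hb⟩ := Metric.isOpen_iff.1 cl.isOpen_compl x (by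
    rintro (g | g | g) <;> exact hn (nhds_seg h g hD))
  refine hn (mem_of_superset (Metric.ball_mem_nhds x hr) ((subset_tri
    (convex_ball x r).isPreconnected hcr ?_ ?_ ?_ (Metric.mem_ball_self hr) g).trans
    (tri_subset (convex_convexHull _ _) (subset_convexHull _ _ ⟨a, rfl⟩)
      (subset_convexHull _ _ ⟨b, rfl⟩) (subset_convexHull _ _ ⟨c, rfl⟩))))
  · exact Set.disjoint_left.2 fun y g g' => hb g' (Or.inl g)
  · exact Set.disjoint_left.2 fun y g g' => hb g' (Or.inr (Or.inl g))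
  · exact Set.disjoint_left.2 fun y g g' => hb g' (Or.inr (Or.inr g))

theorem inside_iff [Fintype V] {N : ℕ} (hN : (Fintype.card V * Fintype.card V * 5 + 1) ^ 3 ≤ N) :
    HasInsideRep G ↔ ∃ p z, Gen p ∧ Chain G p N z ∧ (∃ a b c, z 0 ∈ Tri (p a) (p b) (p c)) ∧
      ∀ a b, a ≠ b → ¬ G.Adj a b → ∃ c, 0 < cr (p a) (p b) (p c) := by
  constructor
  · rintro ⟨C, p, h1, h2, h3⟩
    obtain ⟨x, hx, hC⟩ := IsObstacle.sub h1 h2
    obtain ⟨z, rfl, hz⟩ := chain_of_rep h2 (drawing_disjoint h2 hx) hC hN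
    refine ⟨p, z, IsVisibilityRep.gen h2, hz, ?_, fun a b hab hn => ?_⟩
    · have : z 0 ∈ convexHull ℝ (range p) := by
        by_contra hn
        obtain ⟨f, u, g1, g2⟩ := geometric_hahn_banach_closed_point (convex_convexHull ℝ (range p))
          ((finite_range p).isClosed_convexHull ℝ) hn
        have hf : ∀ y : Pt, f (1, 0) * y.1 + f (0, 1) * y.2 = f y := fun y => by
          conv_rhs => rw [show y = y.1 • ((1 : ℝ), (0 : ℝ)) + y.2 • ((0 : ℝ), (1 : ℝ)) by ext <;> simp]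
          rw [map_add, map_smul, map_smul]
          simp [mul_comm]
        refine h3 hx (ray (A := f (1, 0)) (B := f (0, 1)) fun v => ?_)
        rw [hf, hf]
        exact (g1 _ (subset_convexHull _ _ ⟨v, rfl⟩)).trans g2
      obtain ⟨_, ⟨a, rfl⟩, _, ⟨b, rfl⟩, _, ⟨c, rfl⟩, g⟩ := exists_tri_of_mem_convexHull this
      exact ⟨a, b, c, g⟩
    · by_contra hc
      push Not at hc
      obtain ⟨y, hy, hy'⟩ := Set.not_disjoint_iff.1 (mt (h2.2.2.2 a b hab).2 hn)
      have hne : p a ≠ p b := h2.1.ne hab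
      have ho : IsOpen (connectedComponentIn (drawing G p)ᶜ (z 0)) :=
        isClosed_drawing.isOpen_compl.connectedComponentIn
      let A := (p a).2 - (p b).2
      let B := (p b).1 - (p a).1
      have hAB : 0 < A * A + B * B := by
        by_contra g
        exact hne (Prod.ext (by nlinarith [mul_self_nonneg A, mul_self_nonneg B])
          (by nlinarith [mul_self_nonneg A, mul_self_nonneg B]))
      have ct : ContinuousAt (fun t : ℝ => ((y.1 + t * A, y.2 + t * B) : Pt)) 0 := by fun_prop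
      have ev := ct.eventually_mem (ho.mem_nhds (by simpa using hC hy'))
      obtain ⟨t, g, t0⟩ := ((ev.filter_mono nhdsWithin_le_nhds).and
        (self_mem_nhdsWithin (s := Ioi (0 : ℝ)))).exists
      have := ray (G := G) (p := p) (A := A) (B := B) (x := (y.1 + t * A, y.2 + t * B)) fun v => by
        have k := hc v
        have k' := (onSeg_iff.2 hy).2.1
        have := mul_pos t0 hAB
        unfold cr at k k'
        simp only [A, B] at this ⊢
        nlinarith
      exact h3 hx ⟨drawing_disjoint h2 hx, by rw [connectedComponentIn_eq g]; exact this.2⟩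
  · rintro ⟨p, z, h1, h2, ⟨a, b, c, h3⟩, h4⟩
    obtain ⟨C, g1, g2, g3⟩ := rep_of_chain h1 h2
    refine ⟨C, p, g1, g2, fun y hy g => g.2 ?_⟩
    rw [← connectedComponentIn_eq (g3 hy)]
    have h0 : z 0 ∈ convexHull ℝ (range p) := tri_subset (convex_convexHull ℝ (range p))
      (subset_convexHull _ _ ⟨a, rfl⟩) (subset_convexHull _ _ ⟨b, rfl⟩) (subset_convexHull _ _ ⟨c, rfl⟩) h3
    refine ((isBounded_convexHull.2 (finite_range p).isBounded).subset interior_subset).subset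
      (isPreconnected_connectedComponentIn.subset_left_of_subset_union isOpen_interior
        ((finite_range p).isClosed_convexHull ℝ).isOpen_compl
        (disjoint_compl_right.mono_left interior_subset) (fun u hu => ?_)
        ⟨z 0, mem_connectedComponentIn (h2.1 0 (by omega)),
          mem_interior_iff_mem_nhds.2 (nhds_hull h1 h4 h0 (h2.1 0 (by omega)))⟩)
    by_cases hu' : u ∈ convexHull ℝ (range p)
    · exact Or.inl (mem_interior_iff_mem_nhds.2 (nhds_hull h1 h4 hu' (connectedComponentIn_subset _ _ hu)))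
    · exact Or.inr hu'

end Pool.Agent.Lib.MP_32fe36_lc.ER
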