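import Pool.Agent.Lib.MP_32fe36_lc.Sound
import Pool.Agent.Lib.MP_32fe36_lc.ER.Cluster

/-!
A frame of eight hull vertices forces the neighbourhoods of the line vertices to be cut out by lines.
-/

namespace Pool.Agent.Lib.MP_32fe36_lc.ER

open Set

variable {V : Type}

theorem cone_side {q : V → Pt} {K : Set V} {v a b k : V} (ha : a ∈ K) (hb : b ∈ K) (hk : k ∈ K)
    (hav : a ≠ v) (hbv : b ≠ v) (hkv : k ≠ v) (hab : a ≠ b) (h1 : HE q K v a) (h2 : HE q K v b)
    {σ : ℝ} (e1 : 0 < σ * ((q a).1 - (q v).1)) (e2 : 0 < σ * ((q b).1 - (q v).1)) :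
    0 < σ * ((q k).1 - (q v).1) := by
  by_cases ka : k = a
  · rwa [ka]
  by_cases kb : k = b
  · rwa [kb]
  have id : cr (q v) (q a) (q b) * (σ * ((q k).1 - (q v).1)) =
      -cr (q v) (q b) (q k) * (σ * ((q a).1 - (q v).1)) +
        cr (q v) (q a) (q k) * (σ * ((q b).1 - (q v).1)) := by unfold cr; ring
  have s := cr_swap23 (q v) (q a) (q b)
  rcases h1 with h1 | h1 <;> rcases h2 with h2 | h2
  · linarith [h1 b hb hbv hab.symm, h2 a ha hav hab]
  · have := mul_pos (neg_pos.2 (h2 k hk hkv kb)) e1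
    have := mul_pos (h1 k hk hkv ka) e2
    exact (mul_pos_iff_of_pos_left (h1 b hb hbv hab.symm)).1 (by linarith)
  · have := mul_pos (h2 k hk hkv kb) e1
    have := mul_pos (neg_pos.2 (h1 k hk hkv ka)) e2
    exact (mul_pos_iff_of_pos_left (neg_pos.2 (h1 b hb hbv hab.symm))).1 (by linarith)
  · linarith [h1 b hb hbv hab.symm, h2 a ha hav hab]

theorem two_left {q : V → Pt} {K : Set V} (hq : GP q K) {u v : V} (hu : u ∈ K) (hv : v ∈ K)
    (huv : (q u).1 < (q v).1) (h : ∀ k ∈ K, k ≠ u → k ≠ v → (q v).1 < (q k).1) (ev : Ext q K v) :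
    HE q K u v := by
  by_contra hn
  have n : u ≠ v := by rintro rfl; exact lt_irrefl _ huv
  obtain ⟨⟨a, ha, a1, a2, a3⟩, b, hb, b1, b2, b3⟩ := not_HE hq hu hv n hn
  have := h a ha a1 a2
  have := h b hb b1 b2
  refine ev u hu a ha b hb n a2 b2 ⟨?_, ?_, ?_⟩
  · rw [cr_swap12]; linarith
  · unfold cr at *
    exact cross_trans (d1 := (q v).1 - (q u).1) (d2 := (q v).2 - (q u).2) (by linarith)
      (by linarith) (by linarith) (by linarith) (by linarith)
  · rw [cr_rot]; exact b3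

theorem two_right {q : V → Pt} {K : Set V} (hq : GP q K) {u v : V} (hu : u ∈ K) (hv : v ∈ K)
    (huv : (q v).1 < (q u).1) (h : ∀ k ∈ K, k ≠ u → k ≠ v → (q k).1 < (q v).1) (ev : Ext q K v) :
    HE q K u v := by
  by_contra hn
  have n : u ≠ v := by rintro rfl; exact lt_irrefl _ huv
  obtain ⟨⟨a, ha, a1, a2, a3⟩, b, hb, b1, b2, b3⟩ := not_HE hq hu hv n hn
  have := h a ha a1 a2
  have := h b hb b1 b2
  refine ev u hu a ha b hb n a2 b2 ⟨?_, ?_, ?_⟩
  · rw [cr_swap12]; linarith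
  · unfold cr at *
    have := cross_trans (d1 := (q u).1 - (q v).1) (d2 := (q u).2 - (q v).2)
      (u1 := (q v).1 - (q a).1) (u2 := (q v).2 - (q a).2)
      (v1 := (q v).1 - (q b).1) (v2 := (q v).2 - (q b).2) (by linarith)
      (by linarith) (by linarith) (by linarith) (by linarith)
    linarith
  · rw [cr_rot]; exact b3

variable {S : Scene V} {K : Set V}

theorem radial_good' (hfin : K.Finite) (hfree : Disjoint S.C (S.hull K)) {b : V}
    (hb : S.Good K b) (hbK : b ∉ K) {k0 : V} (hk0 : k0 ∈ K) (hnv : ¬ S.Vis b k0) :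
    ∃ q : V → Pt, SameOr q S.p K ∧ (∀ u ∈ K, ∀ v ∈ K, u ≠ v → (q u).1 ≠ (q v).1) ∧
      (∀ u ∈ K, ∀ v ∈ K, ((q u).1 < (q v).1 ↔ 0 < cr (S.p b) (S.p u) (S.p v))) ∧
      ∀ k ∈ K, ∀ u ∈ K, ∀ v ∈ K, S.Vis b u → S.Vis b v →
        (q u).1 ≤ (q k).1 → (q k).1 ≤ (q v).1 → S.Vis b k := by
  have hbh : S.p b ∉ S.hull K := by
    intro h
    exact hnv (hfree.symm.mono_left ((convex_convexHull ℝ _).segment_subset h (Scene.mem_hull hk0)))
  obtain ⟨a, c, hac⟩ := Scene.sep_hull hfin hbh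
  obtain ⟨q, h1, h2, h3⟩ := Scene.radial (S.p b) hac
  refine ⟨q, h1, ?_, h2, ?_⟩
  · intro u hu v hv huv
    have hne := S.gp b u v (by rintro rfl; exact hbK hu) (by rintro rfl; exact hbK hv) huv
    rcases lt_or_gt_of_ne hne with h | h
    · exact ((h2 v hv u hu).2 (by rw [cr_swap23]; linarith)).ne'
    · exact ((h2 u hu v hv).2 h).ne
  · intro k hk u hu v hv hbu hbv e1 e2
    obtain ⟨l, m, l0, m0, f1, f2⟩ := h3 u hu v hv k hk e1 e2
    by_contra hcon
    obtain ⟨x, hxC, t, t0, t1, hx1, hx2⟩ := Scene.exists_blocked hcon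
    rcases Scene.seg_subset_of_cone l0 m0 f1 f2 t0.le t1.le hx1 hx2 with h | h
    · exact Set.disjoint_left.1 (hb u hu v hv hbu hbv) hxC h
    · exact Set.disjoint_left.1 hfree hxC (Scene.tri_subset_hull hu hv hk h)

theorem triple_seen (hfin : K.Finite) (hfree : Disjoint S.C (S.hull K)) {b : V}
    (hb : S.Good K b) (hbK : b ∉ K) {k0 : V} (hk0 : k0 ∈ K) (hnv : ¬ S.Vis b k0)
    {x y z : V} (hx : x ∈ K) (hy : y ∈ K) (hz : z ∈ K) (hxy : x ≠ y) (hxz : x ≠ z) (hyz : y ≠ z)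
    (ex : Ext S.p K x) (ey : Ext S.p K y) (ez : Ext S.p K z)
    (hv : ∀ k ∈ K, S.Vis b k ↔ k = x ∨ k = y ∨ k = z) :
    HE S.p K x y ∨ HE S.p K y z ∨ HE S.p K x z := by
  obtain ⟨q, h1, h2, h3⟩ := Scene.radial_good hfin hfree hb hbK hk0 hnv
  have hm : ∀ n, (n = x ∨ n = y ∨ n = z) → n ∈ K := by rintro n (rfl | rfl | rfl) <;> assumption
  have := triple_HE (h1.gp (Scene.gp_on K)) h2 hx hy hz hxy hxz hyz
    (fun k hk n1 n2 a1 a2 e1 e2 => (hv k hk).1 (h3 k hk n1 (hm _ a1) n2 (hm _ a2)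
      ((hv _ (hm _ a1)).2 a1) ((hv _ (hm _ a2)).2 a2) e1 e2))
    (h1.symm.ext hx ex) (h1.symm.ext hy ey) (h1.symm.ext hz ez)
  exact this.imp (h1.he hx hy) (Or.imp (h1.he hy hz) (h1.he hx hz))

theorem triple_blocked (hfin : K.Finite) (hfree : Disjoint S.C (S.hull K)) {b : V}
    (hb : S.Good K b) (hbK : b ∉ K)
    {x y z : V} (hx : x ∈ K) (hy : y ∈ K) (hz : z ∈ K) (hxy : x ≠ y) (hxz : x ≠ z) (hyz : y ≠ z)
    (ex : Ext S.p K x) (ey : Ext S.p K y) (ez : Ext S.p K z)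
    (hv : ∀ k ∈ K, ¬ S.Vis b k ↔ k = x ∨ k = y ∨ k = z) :
    HE S.p K x y ∨ HE S.p K y z ∨ HE S.p K x z := by
  obtain ⟨q, h1, h2, h3⟩ := Scene.radial_good hfin hfree hb hbK hx ((hv x hx).2 (Or.inl rfl))
  have key : ∀ a ∈ K, ∀ m ∈ K, ∀ c ∈ K, (q a).1 < (q m).1 → (q m).1 < (q c).1 → Ext S.p K m →
      (∀ k ∈ K, ¬ S.Vis b k ↔ k = a ∨ k = m ∨ k = c) → HE S.p K a m ∨ HE S.p K m c := by
    intro a ha m hm c hc e1 e2 em h
    have nm := (h m hm).2 (by simp)
    have ne : ∀ k ∈ K, S.Vis b k → (q k).1 ≠ (q m).1 := fun k hk hk' =>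
      h2 k hk m hm (by rintro rfl; exact nm hk')
    by_cases g : ∃ u ∈ K, S.Vis b u ∧ (q u).1 ≤ (q m).1
    · obtain ⟨u, hu, u1, u2⟩ := g
      refine Or.inr (h1.he hm hc (two_right (h1.gp (Scene.gp_on K)) hc hm e2 (fun k hk k1 k2 => ?_)
        (h1.symm.ext hm em)).symm)
      by_cases g' : S.Vis b k
      · by_contra g''
        exact nm (h3 m hm u hu k hk u1 g' u2 (not_lt.1 g''))
      · rcases (h k hk).1 g' with rfl | rfl | rfl
        · exact e1
        · exact absurd rfl k2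
        · exact absurd rfl k1
    · push Not at g
      refine Or.inl (h1.he ha hm (two_left (h1.gp (Scene.gp_on K)) ha hm e1 (fun k hk k1 k2 => ?_)
        (h1.symm.ext hm em)))
      by_cases g' : S.Vis b k
      · exact g k hk g'
      · rcases (h k hk).1 g' with rfl | rfl | rfl
        · exact absurd rfl k1
        · exact absurd rfl k2
        · exact e2
  rcases lt_or_gt_of_ne (h2 x hx y hy hxy) with g1 | g1 <;>
  rcases lt_or_gt_of_ne (h2 y hy z hz hyz) with g2 | g2 <;>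
  rcases lt_or_gt_of_ne (h2 x hx z hz hxz) with g3 | g3
  · exact (key x hx y hy z hz g1 g2 ey hv).imp_right Or.inl
  · linarith
  · exact (key x hx z hz y hy g3 g2 ez fun k hk => (hv k hk).trans (by tauto)).elim
      (fun h => Or.inr (Or.inr h)) fun h => Or.inr (Or.inl h.symm)
  · exact (key z hz x hx y hy g3 g1 ex fun k hk => (hv k hk).trans (by tauto)).elim
      (fun h => Or.inr (Or.inr h.symm)) Or.inl
  · exact (key y hy x hx z hz g1 g3 ex fun k hk => (hv k hk).trans (by tauto)).elim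
      (fun h => Or.inl h.symm) fun h => Or.inr (Or.inr h)
  · exact (key y hy z hz x hx g2 g3 ez fun k hk => (hv k hk).trans (by tauto)).elim
      (fun h => Or.inr (Or.inl h)) fun h => Or.inr (Or.inr h.symm)
  · linarith
  · exact (key z hz y hy x hx g2 g1 ey fun k hk => (hv k hk).trans (by tauto)).elim
      (fun h => Or.inr (Or.inl h.symm)) fun h => Or.inl h.symm

/-- Abscissa of a frame point. -/
def fx (j : ℕ) : ℤ := if j = 0 ∨ 8 ≤ j then 0 else j - 4
/-- Ordinate of a frame point. -/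
def fy (j : ℕ) : ℤ := if j = 0 then 2 else if 8 ≤ j then 0 else (j - 4) * (j - 4) - 13
/-- The strips of the helper vertices. -/
def tab : List (ℤ × ℤ × ℤ) := [(0, -53, 1), (5, -59, 9), (-7, -63, 27), (-3, -53, 9), (0, -49, 9),
  (3, -53, 9), (7, -63, 27), (-5, -59, 9), (-7, -65, -57), (-5, -57, -45), (-3, -49, -33),
  (-1, -41, -21), (1, -33, -9), (-7, -65, -57), (-3, -55, -47), (-1, -51, -39), (1, -47, -31),
  (3, -43, -23), (-7, -63, -51), (-3, -55, -47), (0, -53, -47), (3, -53, -41), (5, -53, -37),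
  (-5, -53, -37), (-3, -53, -41), (0, -53, -47), (3, -55, -47), (7, -63, -51), (-3, -43, -23),
  (-1, -47, -31), (1, -51, -39), (3, -55, -47), (7, -65, -57), (-1, -33, -9), (1, -41, -21),
  (3, -49, -33), (5, -57, -45), (7, -65, -57), (3, -53, 1), (-3, -53, 1)]
/-- Helper `h` sees the points with index `j`. -/
def hsee (h j : ℕ) : Bool :=
  decide ((tab.getD h (0, 0, 0)).2.1 < 4 * fy j - 2 * (tab.getD h (0, 0, 0)).1 * fx j ∧
    4 * fy j - 2 * (tab.getD h (0, 0, 0)).1 * fx j < (tab.getD h (0, 0, 0)).2.2)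

theorem tab1 : ∀ i < 8, ∀ j < 9, (hsee i j = true ↔ j ≠ i) := by decide +kernel
theorem tab2 : ∀ x < 7, ∀ y < 8, x ≠ 0 ∧ y ≠ 0 ∧ y ≠ x ∧ y ≠ x + 1 →
    ∃ h ∈ List.range 40, ∀ j < 9, (hsee h j = true ↔ j = x ∨ j = x + 1 ∨ j = y) := by
  have : ∀ x < 7, ∀ y < 8, (x = 0 ∨ y = 0 ∨ y = x ∨ y = x + 1) ∨ ((List.range 40).any fun h =>
      (List.range 9).all fun j => hsee h j == decide (j = x ∨ j = x + 1 ∨ j = y)) = true := by
    decide +kernel
  intro x hx y hy h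
  obtain ⟨a, ha, h'⟩ := List.any_eq_true.1 ((this x hx y hy).resolve_left (by omega))
  refine ⟨a, ha, fun j hj => ?_⟩
  have := List.all_eq_true.1 h' j (List.mem_range.2 hj)
  rw [beq_iff_eq] at this
  rw [this, decide_eq_true_eq]
theorem tab3 : ∀ j < 9, (¬ hsee 38 j = true ↔ j = 0 ∨ j = 1 ∨ j = 5) ∧
    (¬ hsee 39 j = true ↔ j = 0 ∨ j = 7 ∨ j = 3) := by decide +kernel
theorem tab4 : ∀ h < 40, (-7 ≤ (tab.getD h (0, 0, 0)).1 ∧ (tab.getD h (0, 0, 0)).1 ≤ 7) ∧
    -99 ≤ (tab.getD h (0, 0, 0)).2.1 ∧ (tab.getD h (0, 0, 0)).2.1 < (tab.getD h (0, 0, 0)).2.2 ∧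
    (tab.getD h (0, 0, 0)).2.2 ≤ 99 ∧ ∀ j < 9,
      (tab.getD h (0, 0, 0)).2.1 ≠ 4 * fy j - 2 * (tab.getD h (0, 0, 0)).1 * fx j ∧
      (tab.getD h (0, 0, 0)).2.2 ≠ 4 * fy j - 2 * (tab.getD h (0, 0, 0)).1 * fx j ∧
      -99 ≤ 4 * fy j - 2 * (tab.getD h (0, 0, 0)).1 * fx j ∧
      4 * fy j - 2 * (tab.getD h (0, 0, 0)).1 * fx j ≤ 99 := by decide +kernel
theorem tab5 : ∀ j < 9, (-3 ≤ fx j ∧ fx j ≤ 3) ∧ (-13 ≤ fy j ∧ fy j ≤ 2) ∧ (j = 0 → fy j = 2) ∧
    (j ≠ 0 → j ≠ 8 → fy j ≤ -4) := by decide +kernel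

section frame
variable (hfin : K.Finite) (hfree : Disjoint S.C (S.hull K)) {ix : V → ℕ} {f : ℕ → V}
  (hf : ∀ j < 8, f j ∈ K ∧ ix (f j) = j) (hix : ∀ k ∈ K, ix k < 9 ∧ (ix k < 8 → k = f (ix k)))
  (hh : ∀ h < 40, ∃ b, S.Good K b ∧ b ∉ K ∧ ∀ k ∈ K, S.Vis b k ↔ hsee h (ix k) = true)
include hfin hfree hf hix hh

theorem frame_cycle : ∀ j < 8, HE S.p K (f j) (f ((j + 1) % 8)) := by
  have e : ∀ k ∈ K, ∀ j < 8, (ix k = j ↔ k = f j) := fun k hk j hj =>
    ⟨fun h => h ▸ (hix k hk).2 (h ▸ hj), fun h => h ▸ (hf j hj).2⟩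
  have ne : ∀ i < 8, ∀ j < 8, i ≠ j → f i ≠ f j := fun i hi j hj h g =>
    h (by rw [← (hf i hi).2, g, (hf j hj).2])
  have ext : ∀ j < 8, Ext S.p K (f j) := fun j hj => by
    obtain ⟨b, b1, b2, b3⟩ := hh j (by omega)
    refine Scene.ext_of_good hfin hfree b1 b2 (hf j hj).1 ?_ fun k hk hk' => ?_
    · rw [b3 _ (hf j hj).1, tab1 j hj _ (hix _ (hf j hj).1).1, (hf j hj).2]; simp
    · rw [b3 _ hk, tab1 j hj _ (hix _ hk).1, Ne, e k hk j hj]; exact hk'
  have deg : ∀ v < 8, ∀ a < 8, ∀ b < 8, ∀ c < 8, a ≠ v → b ≠ v → c ≠ v → a ≠ b → a ≠ c → b ≠ c →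
      HE S.p K (f v) (f a) → HE S.p K (f v) (f b) → HE S.p K (f v) (f c) → False :=
    fun v hv a ha b hb c hc h1 h2 h3 h4 h5 h6 => HE.deg (hf a ha).1 (hf b hb).1 (hf c hc).1
      (ne _ ha _ hv h1) (ne _ hb _ hv h2) (ne _ hc _ hv h3) (ne _ ha _ hb h4) (ne _ ha _ hc h5)
      (ne _ hb _ hc h6)
  have low : ∀ x < 7, x ≠ 0 → HE S.p K (f x) (f (x + 1)) := by
    intro x hx x0
    by_contra hn
    have t : ∀ y < 8, y ≠ 0 → y ≠ x → y ≠ x + 1 →
        HE S.p K (f (x + 1)) (f y) ∨ HE S.p K (f x) (f y) := by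
      intro y hy y0 y1 y2
      obtain ⟨h, h1, h2⟩ := tab2 x hx y hy ⟨x0, y0, y1, y2⟩
      obtain ⟨b, b1, b2, b3⟩ := hh h (List.mem_range.1 h1)
      refine (triple_seen hfin hfree b1 b2 (hf 0 (by omega)).1 ?_ (hf x (by omega)).1
        (hf (x + 1) (by omega)).1 (hf y hy).1 (ne _ (by omega) _ (by omega) (by omega))
        (ne _ (by omega) _ hy y1.symm) (ne _ (by omega) _ hy y2.symm) (ext _ (by omega))
        (ext _ (by omega)) (ext _ hy) fun k hk => ?_).resolve_left hn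
      · rw [b3 _ (hf 0 (by omega)).1, (hf 0 (by omega)).2, h2 0 (by omega)]; omega
      · rw [b3 k hk, h2 _ (hix k hk).1, e k hk _ (by omega), e k hk _ (by omega), e k hk _ hy]
    obtain ⟨g, g1, g2⟩ : ∃ g : ℕ → ℕ, (∀ i < 5, g i < 8 ∧ g i ≠ 0 ∧ g i ≠ x ∧ g i ≠ x + 1) ∧
        ∀ i j, i < j → g i ≠ g j := ⟨fun i => if i + 1 < x then i + 1 else i + 3,
      fun i hi => by dsimp only; split_ifs <;> omega, fun i j h => by dsimp only; split_ifs <;> omega⟩
    have t' := fun i hi => t _ (g1 i hi).1 (g1 i hi).2.1 (g1 i hi).2.2.1 (g1 i hi).2.2.2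
    have d1 := fun a ha b hb c hc (h1 : a < b) (h2 : b < c) => deg x (by omega) _ (g1 a ha).1 _
      (g1 b hb).1 _ (g1 c hc).1 (g1 a ha).2.2.1 (g1 b hb).2.2.1 (g1 c hc).2.2.1 (g2 _ _ h1)
      (g2 _ _ (h1.trans h2)) (g2 _ _ h2)
    have d2 := fun a ha b hb c hc (h1 : a < b) (h2 : b < c) => deg (x + 1) (by omega) _ (g1 a ha).1 _
      (g1 b hb).1 _ (g1 c hc).1 (g1 a ha).2.2.2 (g1 b hb).2.2.2 (g1 c hc).2.2.2 (g2 _ _ h1)
      (g2 _ _ (h1.trans h2)) (g2 _ _ h2)
    rcases t' 0 (by omega) with a0 | a0 <;> rcases t' 1 (by omega) with a1 | a1 <;>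
      rcases t' 2 (by omega) with a2 | a2 <;> rcases t' 3 (by omega) with a3 | a3 <;>
      rcases t' 4 (by omega) with a4 | a4 <;>
      first
        | exact d1 _ (by omega) _ (by omega) _ (by omega) (by omega) (by omega) a0 a1 a2
        | exact d2 _ (by omega) _ (by omega) _ (by omega) (by omega) (by omega) a0 a1 a2
        | exact d1 _ (by omega) _ (by omega) _ (by omega) (by omega) (by omega) a0 a1 a3
        | exact d2 _ (by omega) _ (by omega) _ (by omega) (by omega) (by omega) a0 a1 a3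
        | exact d1 _ (by omega) _ (by omega) _ (by omega) (by omega) (by omega) a0 a1 a4
        | exact d2 _ (by omega) _ (by omega) _ (by omega) (by omega) (by omega) a0 a1 a4
        | exact d1 _ (by omega) _ (by omega) _ (by omega) (by omega) (by omega) a0 a2 a3
        | exact d2 _ (by omega) _ (by omega) _ (by omega) (by omega) (by omega) a0 a2 a3
        | exact d1 _ (by omega) _ (by omega) _ (by omega) (by omega) (by omega) a0 a2 a4
        | exact d2 _ (by omega) _ (by omega) _ (by omega) (by omega) (by omega) a0 a2 a4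
        | exact d1 _ (by omega) _ (by omega) _ (by omega) (by omega) (by omega) a0 a3 a4
        | exact d2 _ (by omega) _ (by omega) _ (by omega) (by omega) (by omega) a0 a3 a4
        | exact d1 _ (by omega) _ (by omega) _ (by omega) (by omega) (by omega) a1 a2 a3
        | exact d2 _ (by omega) _ (by omega) _ (by omega) (by omega) (by omega) a1 a2 a3
        | exact d1 _ (by omega) _ (by omega) _ (by omega) (by omega) (by omega) a1 a2 a4
        | exact d2 _ (by omega) _ (by omega) _ (by omega) (by omega) (by omega) a1 a2 a4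
        | exact d1 _ (by omega) _ (by omega) _ (by omega) (by omega) (by omega) a1 a3 a4
        | exact d2 _ (by omega) _ (by omega) _ (by omega) (by omega) (by omega) a1 a3 a4
        | exact d1 _ (by omega) _ (by omega) _ (by omega) (by omega) (by omega) a2 a3 a4
        | exact d2 _ (by omega) _ (by omega) _ (by omega) (by omega) (by omega) a2 a3 a4
  have top : ∀ h < 40, ∀ y < 8, ∀ z < 7, y ≠ 0 → 2 ≤ z → y + 1 ≠ z → y ≠ z → y ≠ z + 1 →
      (∀ j < 9, (¬ hsee h j = true ↔ j = 0 ∨ j = y ∨ j = z)) → HE S.p K (f 0) (f y) := by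
    intro h h1 y hy z hz y0 z2 n1 n2 n3 h2
    obtain ⟨b, b1, b2, b3⟩ := hh h h1
    have l1 := (low (z - 1) (by omega) (by omega)).symm
    rw [show z - 1 + 1 = z by omega] at l1
    have l2 := low z hz (by omega)
    rcases triple_blocked hfin hfree b1 b2 (hf 0 (by omega)).1 (hf y hy).1 (hf z (by omega)).1
      (ne _ (by omega) _ hy y0.symm) (ne _ (by omega) _ (by omega) (by omega))
      (ne _ hy _ (by omega) n2) (ext _ (by omega)) (ext _ hy) (ext _ (by omega)) (fun k hk => by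
        rw [b3 k hk, h2 _ (hix k hk).1, e k hk _ (by omega), e k hk _ hy, e k hk _ (by omega)]) with
      g | g | g
    · exact g
    · exact (deg z (by omega) _ (by omega) _ (by omega) _ hy (by omega) (by omega) n2 (by omega)
        (by omega) (by omega) l1 l2 g.symm).elim
    · exact (deg z (by omega) _ (by omega) _ (by omega) _ (by omega) (by omega) (by omega) (by omega)
        (by omega) (by omega) (by omega) l1 l2 g.symm).elim
  intro j hj
  by_cases j0 : j = 0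
  · subst j0
    exact top 38 (by omega) 1 (by omega) 5 (by omega) (by omega) (by omega) (by omega) (by omega)
      (by omega) fun j hj => (tab3 j hj).1
  by_cases j7 : j = 7
  · subst j7
    exact (top 39 (by omega) 7 (by omega) 3 (by omega) (by omega) (by omega) (by omega) (by omega)
      (by omega) fun j hj => (tab3 j hj).2).symm
  · rw [Nat.mod_eq_of_lt (by omega)]
    exact low j (by omega) j0

theorem line_cut {b : V} (hb : S.Good K b) (hbK : b ∉ K) (h0 : ¬ S.Vis b (f 0))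
    (h1 : ∀ j < 8, j ≠ 0 → S.Vis b (f j)) : ∃ l : V3, ∀ k ∈ K,
      (S.Vis b k → 0 < dot ((S.p k).1, (S.p k).2, 1) l) ∧
        (¬ S.Vis b k → dot ((S.p k).1, (S.p k).2, 1) l < 0) := by
  have cyc := frame_cycle hfin hfree hf hix hh
  have ne : ∀ i < 8, ∀ j < 8, i ≠ j → f i ≠ f j := fun i hi j hj h g =>
    h (by rw [← (hf i hi).2, g, (hf j hj).2])
  obtain ⟨q, q1, q2, q3, q4⟩ := radial_good' hfin hfree hb hbK (hf 0 (by omega)).1 h0
  have extr : ∀ σ : ℝ, σ ≠ 0 → ∃ j < 8, ∀ k ∈ K, 0 ≤ σ * ((q k).1 - (q (f j)).1) := by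
    intro σ hσ
    obtain ⟨j, hj, hm⟩ := Set.exists_min_image (Iio 8) (fun j => σ * (q (f j)).1) (finite_Iio 8)
      ⟨0, by simp⟩
    have hj : j < 8 := hj
    have lt : ∀ i < 8, i ≠ j → 0 < σ * ((q (f i)).1 - (q (f j)).1) := fun i hi h => by
      have h1 := hm i hi
      have h2 := mul_ne_zero hσ (sub_ne_zero.2 (q2 _ (hf i hi).1 _ (hf j hj).1 (ne i hi j hj h)))
      exact lt_of_le_of_ne (by linarith) h2.symm
    refine ⟨j, hj, fun k hk => ?_⟩
    by_cases e : k = f j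
    · simp [e]
    have c1 := cyc j hj
    have c2 := (cyc ((j + 7) % 8) (by omega)).symm
    rw [show ((j + 7) % 8 + 1) % 8 = j by omega] at c2
    exact (cone_side (hf _ (by omega)).1 (hf _ (by omega)).1 hk (ne _ (by omega) _ hj (by omega))
      (ne _ (by omega) _ hj (by omega)) e (ne _ (by omega) _ (by omega) (by omega))
      (q1.symm.he (hf j hj).1 (hf _ (by omega)).1 c1) (q1.symm.he (hf j hj).1 (hf _ (by omega)).1 c2)
      (lt _ (by omega) (by omega)) (lt _ (by omega) (by omega))).le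
  have sep : ∀ A B : Set V, A ⊆ K → B ⊆ K → A.Nonempty → B.Nonempty →
      (∀ u ∈ A, ∀ v ∈ B, (q u).1 < (q v).1) → ∃ l : V3,
        (∀ k ∈ A, dot ((S.p k).1, (S.p k).2, 1) l < 0) ∧ ∀ k ∈ B, 0 < dot ((S.p k).1, (S.p k).2, 1) l := by
    intro A B hA hB nA nB h
    obtain ⟨u, hu, hu'⟩ := Set.exists_max_image A (fun k => (q k).1) (hfin.subset hA) nA
    obtain ⟨v, hv, hv'⟩ := Set.exists_min_image B (fun k => (q k).1) (hfin.subset hB) nB
    have e : ∃ l : V3, ∀ z : Pt, dot (z.1, z.2, 1) l =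
        cr (S.p b) (S.p u) z + cr (S.p b) (S.p v) z :=
      ⟨(2 * (S.p b).2 - (S.p u).2 - (S.p v).2, (S.p u).1 + (S.p v).1 - 2 * (S.p b).1,
        cr (S.p b) (S.p u) 0 + cr (S.p b) (S.p v) 0), fun z => by simp [dot, cr]; ring⟩
    obtain ⟨l, e⟩ := e
    refine ⟨l, fun k hk => ?_, fun k hk => ?_⟩
    · have g1 := (q3 k (hA hk) v (hB hv)).1 (h k hk v hv)
      have g2 := (q3 u (hA hu) k (hA hk)).not.1 (not_lt.2 (hu' k hk))
      rw [cr_swap23] at g1
      rw [e]; linarith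
    · have g1 := (q3 u (hA hu) k (hB hk)).1 (h u hu k hk)
      rw [e]
      by_cases g : k = v
      · have : cr (S.p b) (S.p v) (S.p k) = 0 := by rw [g]; unfold cr; ring
        linarith
      · have := (q3 v (hB hv) k (hB hk)).1 ((hv' k hk).lt_of_ne (q2 _ (hB hv) _ (hB hk) (Ne.symm g)))
        linarith
  obtain ⟨i, hi, hi'⟩ := extr 1 one_ne_zero
  obtain ⟨j, hj, hj'⟩ := extr (-1) (by norm_num)
  have n1 : ({k ∈ K | S.Vis b k} : Set V).Nonempty :=
    ⟨f 1, (hf 1 (by omega)).1, h1 1 (by omega) (by omega)⟩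
  have n0 : ({k ∈ K | ¬ S.Vis b k} : Set V).Nonempty := ⟨f 0, (hf 0 (by omega)).1, h0⟩
  by_cases i0 : i = 0
  · have j0 : j ≠ 0 := by
      rintro rfl
      subst i0
      have a1 := hi' _ (hf 1 (by omega)).1
      have a2 := hj' _ (hf 1 (by omega)).1
      exact q2 _ (hf 1 (by omega)).1 _ (hf 0 (by omega)).1 (ne _ (by omega) _ (by omega) (by omega))
        (by linarith)
    obtain ⟨l, l1, l2⟩ := sep _ _ (sep_subset _ _) (sep_subset _ _) n0 n1 fun u hu v hv => by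
      by_contra g
      exact hu.2 (q4 u hu.1 v hv.1 _ (hf j hj).1 hv.2 (h1 j hj j0) (not_lt.1 g)
        (by linarith [hj' u hu.1]))
    exact ⟨l, fun k hk => ⟨fun g => l2 k ⟨hk, g⟩, fun g => l1 k ⟨hk, g⟩⟩⟩
  · obtain ⟨l, l1, l2⟩ := sep _ _ (sep_subset _ _) (sep_subset _ _) n1 n0 fun u hu v hv => by
      by_contra g
      exact hv.2 (q4 v hv.1 _ (hf i hi).1 u hu.1 (h1 i hi i0) hu.2 (by linarith [hi' v hv.1])
        (not_lt.1 g))
    refine ⟨-l, fun k hk => ⟨fun g => ?_, fun g => ?_⟩⟩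
    · have := l1 k ⟨hk, g⟩
      simp only [dot, Prod.fst_neg, Prod.snd_neg] at this ⊢
      linarith
    · have := l2 k ⟨hk, g⟩
      simp only [dot, Prod.fst_neg, Prod.snd_neg] at this ⊢
      linarith

end frame

end Pool.Agent.Lib.MP_32fe36_lc.ER
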