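import Pool.Agent.Lib.MP_32fe36_lc.ER.SM

/-!
Effective bounds for real zeros of a nonnegative quartic polynomial.
-/

namespace Pool.Agent.Lib.MP_32fe36_lc.ER

open Finset

variable {ι : Type} [Fintype ι] [DecidableEq ι]

/-- The critical point equations. -/
def Crit (g : ι → (ι → ℝ) → ℝ) (u : ℝ) (x : ι → ℝ) : Prop := ∀ i, x i ^ 5 = -(u * g i x)

/-- Basis monomials. -/
def bm (b : ι → Fin 5) (x : ι → ℝ) : ℝ := mon (fun i => (b i : ℕ)) x

/-- On critical points `h` is a combination of the basis monomials with small coefficients. -/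
def Rep (g : ι → (ι → ℝ) → ℝ) (h : ℝ → (ι → ℝ) → ℝ) (d c : ℕ) : Prop :=
  ∃ κ : (ι → Fin 5) → ℝ → ℝ, (∀ b, SM (fun v : Bool → ℝ => κ b (v false)) d c) ∧
    ∀ u x, Crit g u x → h u x = ∑ b, κ b u * bm b x

variable {g : ι → (ι → ℝ) → ℝ} {h h' : ℝ → (ι → ℝ) → ℝ} {d d' c c' C : ℕ}

theorem Rep.mono (H : Rep g h d c) (hd : d ≤ d') (hc : c ≤ c') : Rep g h d' c' := by
  obtain ⟨κ, h1, h2⟩ := H
  exact ⟨κ, fun b => (h1 b).mono hd hc, h2⟩

theorem Rep.congr (H : Rep g h d c) (e : ∀ u x, Crit g u x → h' u x = h u x) : Rep g h' d c := by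
  obtain ⟨κ, h1, h2⟩ := H
  exact ⟨κ, h1, fun u x hx => (e u x hx).trans (h2 u x hx)⟩

theorem Rep.add (H : Rep g h d c) (H' : Rep g h' d c') :
    Rep g (fun u x => h u x + h' u x) d (c + c') := by
  obtain ⟨κ, h1, h2⟩ := H
  obtain ⟨κ', h1', h2'⟩ := H'
  exact ⟨fun b u => κ b u + κ' b u, fun b => (h1 b).add (h1' b), fun u x hx => by
    simp only [h2 u x hx, h2' u x hx, add_mul, sum_add_distrib]⟩

theorem Rep.neg (H : Rep g h d c) : Rep g (fun u x => -h u x) d c := by
  obtain ⟨κ, h1, h2⟩ := H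
  exact ⟨fun b u => -κ b u, fun b => (h1 b).neg, fun u x hx => by
    simp only [h2 u x hx, neg_mul, sum_neg_distrib]⟩

theorem Rep.mulU (H : Rep g h d c) : Rep g (fun u x => u * h u x) (d + 1) c := by
  obtain ⟨κ, h1, h2⟩ := H
  exact ⟨fun b u => u * κ b u, fun b => ((SM.coord false).mul (h1 b)).mono (by omega) (by omega),
    fun u x hx => by simp only [h2 u x hx, mul_sum, mul_assoc]⟩

theorem Rep.zero : Rep g (fun _ _ => 0) d c := ⟨fun _ _ => 0, fun _ => SM.zero, by simp⟩

theorem Rep.smul {p : (ι → ℝ) → ℝ} {D e : ℕ} (hp : SM p d c)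
    (hm : ∀ a : ι → ℕ, ∑ i, a i ≤ D → Rep g (fun _ x => mon a x) e c') (a : ι → ℕ)
    (ha : d + ∑ i, a i ≤ D) : Rep g (fun _ x => p x * mon a x) e (c * c') := by
  obtain ⟨l, h1, h2, h3⟩ := hp
  refine Rep.mono (c := l.length * c') ?_ le_rfl (Nat.mul_le_mul_right _ h1)
  refine Rep.congr (h := fun _ x => (l.map fun t => tval t x).sum * mon a x) ?_
    fun u x _ => by rw [h3]
  clear h1 h3
  induction l with
  | nil => simpa using Rep.zero
  | cons t l ih =>
    have ht := hm (t.2 + a) (by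
      have := h2 t List.mem_cons_self
      simp only [Pi.add_apply, sum_add_distrib]; omega)
    have ht' : Rep g (fun _ x => tval t x * mon a x) e c' := by
      rcases t with ⟨_ | _, b⟩
      · exact ht.neg.congr fun u x _ => by simp [tval, mon_add]
      · exact ht.congr fun u x _ => by simp [tval, mon_add]
    refine ((ht'.add (ih fun s hs => h2 s (List.mem_cons_of_mem _ hs))).mono le_rfl
      (le_of_eq ?_)).congr fun u x _ => by simp [add_mul]
    simp; ring

theorem Rep.monomial (hg : ∀ i, SM (g i) 3 C) (hC : 1 ≤ C) (D : ℕ) :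
    ∀ a : ι → ℕ, ∑ i, a i ≤ D → Rep g (fun _ x => mon a x) D (C ^ D) := by
  induction D using Nat.strong_induction_on with
  | _ D ih =>
  intro a ha
  by_cases h5 : ∀ i, a i < 5
  · refine ⟨fun b _ => if b = fun i => ⟨a i, h5 i⟩ then 1 else 0, fun b => ?_, fun u x _ => ?_⟩
    · beta_reduce
      split_ifs
      · exact SM.one.mono (by omega) (Nat.one_le_pow _ _ hC)
      · exact SM.zero
    · simp [bm]
  · push Not at h5
    obtain ⟨i, hi⟩ := h5
    have e : a = Pi.single i 5 + (a - Pi.single i 5) := by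
      funext j
      by_cases hj : j = i
      · subst hj; simp; omega
      · simp [hj]
    have e2 : ∑ j, a j = 5 + ∑ j, (a - Pi.single i 5 : ι → ℕ) j := by
      conv_lhs => rw [e]
      simp only [Pi.add_apply, sum_add_distrib]
      simp
    have := (Rep.smul (hg i) (ih (D - 2) (by omega)) (a - Pi.single i 5) (by omega)).mulU.neg
    refine (this.mono (by omega) ?_).congr fun u x hx => ?_
    · rw [← pow_succ']
      exact Nat.pow_le_pow_right hC (by omega)
    · conv_lhs => rw [e]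
      rw [mon_add, mon_single, hx i]; ring

/-- The perturbed objective. -/
def obj (F : (ι → ℝ) → ℝ) (u : ℝ) (x : ι → ℝ) : ℝ := 6 * u * F x + ∑ i, x i ^ 6

/-- Height bound. -/
def hB (n cF C : ℕ) : ℕ := (5 ^ n * (1 + (6 * cF + n) * C ^ (4 * n + 6))) ^ 5 ^ n
/-- Degree bound. -/
def dB (n : ℕ) : ℕ := 5 ^ n * (4 * n + 7)

theorem exists_elim {F : (ι → ℝ) → ℝ} {cF : ℕ} (hF : SM F 4 cF) (hg : ∀ i, SM (g i) 3 C)
    (hC : 1 ≤ C) : ∃ f : (Bool → ℝ) → ℝ,
      SM f (dB (Fintype.card ι)) (hB (Fintype.card ι) cF C) ∧ (∃ v, f v ≠ 0) ∧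
      ∀ v x, Crit g (v false) x → v true = obj F (v false) x → f v = 0 := by
  set n := Fintype.card ι with hn
  have hm := Rep.monomial hg hC (4 * n + 6)
  have hb : ∀ b : ι → Fin 5, ∑ i, (b i : ℕ) ≤ 4 * n := fun b => by
    have : ∑ i, (b i : ℕ) ≤ ∑ _i : ι, 4 := sum_le_sum fun i _ => by have := (b i).2; omega
    simpa [mul_comm] using this
  have hS : SM (fun x : ι → ℝ => ∑ i, x i ^ 6) 6 n := by
    have := SM.sum univ (fun i (x : ι → ℝ) => x i ^ 6) (d := 6) (c := 1) fun i _ =>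
      ((SM.monomial (Pi.single i 6)).mono (by simp) le_rfl).congr fun x => (mon_single i 6 x).symm
    simpa using this
  have hR : ∀ b : ι → Fin 5, Rep g (fun u x => obj F u x * bm b x) (4 * n + 7)
      ((6 * cF + n) * C ^ (4 * n + 6)) := fun b => by
    have h1 := (Rep.smul ((SM.nat 6).mul hF) hm (fun i => (b i : ℕ)) (by have := hb b; omega)).mulU
    have h2 := (Rep.smul hS hm (fun i => (b i : ℕ)) (by have := hb b; omega)).mono
      (d' := 4 * n + 6 + 1) (by omega) le_rfl
    refine ((h1.add h2).mono le_rfl (le_of_eq (by ring))).congr fun u x _ => ?_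
    simp only [obj, bm]; push_cast; ring
  choose κ k1 k2 using hR
  let M : ℝ → Matrix (ι → Fin 5) (ι → Fin 5) ℝ := fun u => Matrix.of fun b b' => κ b b' u
  have hD : Fintype.card (ι → Fin 5) = 5 ^ n := by simp [hn]
  refine ⟨fun v => (Matrix.scalar _ (v true) - M (v false)).det, ?_, ?_, fun v x hx hy => ?_⟩
  · have he : ∀ b b' : ι → Fin 5, SM (fun v : Bool → ℝ =>
        (Matrix.scalar (ι → Fin 5) (v true) - M (v false) : Matrix _ _ ℝ) b b')
        (4 * n + 7) (1 + (6 * cF + n) * C ^ (4 * n + 6)) := fun b b' => by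
      by_cases e : b = b'
      · exact (((SM.coord true).mono (by omega) le_rfl).sub (k1 b b')).congr fun v => by
          simp [e, M]
      · exact ((SM.zero (c := 1)).sub (k1 b b')).congr fun v => by simp [e, M]
    have := SM.sum univ (fun (σ : Equiv.Perm (ι → Fin 5)) (v : Bool → ℝ) =>
      ((Equiv.Perm.sign σ : ℤ) : ℝ) * ∏ i,
        (Matrix.scalar (ι → Fin 5) (v true) - M (v false) : Matrix _ _ ℝ) (σ i) i)
      (d := dB n) (c := (1 + (6 * cF + n) * C ^ (4 * n + 6)) ^ 5 ^ n) fun σ _ => by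
        have hp := SM.prod univ (fun i (v : Bool → ℝ) =>
          (Matrix.scalar (ι → Fin 5) (v true) - M (v false) : Matrix _ _ ℝ) (σ i) i)
          fun i _ => he (σ i) i
        rw [card_univ, hD] at hp
        rcases Int.units_eq_one_or (Equiv.Perm.sign σ) with h | h
        · exact hp.congr fun v => by simp [h]
        · exact hp.neg.congr fun v => by simp [h]
    refine (this.mono le_rfl ?_).congr fun v => Matrix.det_apply' _
    rw [card_univ, Fintype.card_perm, hD, hB, mul_pow]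
    exact Nat.mul_le_mul_right _ (Nat.factorial_le_pow _)
  · by_contra hcon
    push Not at hcon
    refine (M 0).charpoly_monic.ne_zero (Polynomial.funext fun y => ?_)
    rw [Matrix.eval_charpoly, Polynomial.eval_zero]
    exact hcon fun t => cond t y 0
  · refine Matrix.exists_mulVec_eq_zero_iff.1 ⟨fun b => bm b x, fun e => ?_, ?_⟩
    · have := congrFun e 0
      simp [bm, mon] at this
    · funext b
      rw [Matrix.sub_mulVec]
      have := k2 b _ x hx
      simp only [Matrix.scalar_apply, Pi.sub_apply, Matrix.mulVec_diagonal, Pi.zero_apply, hy, this]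
      simp [M, Matrix.mulVec, dotProduct]

omit [DecidableEq ι] in
theorem compact_S (Y : ℝ) : IsCompact {x : ι → ℝ | ∑ i, x i ^ 6 ≤ Y} := by
  refine Metric.isCompact_of_isClosed_isBounded (isClosed_le (by fun_prop) (by fun_prop)) ?_
  refine (Metric.isBounded_closedBall (x := (0 : ι → ℝ)) (r := |Y| + 1)).subset fun x hx => ?_
  rw [mem_closedBall_zero_iff, pi_norm_le_iff_of_nonneg (by positivity)]
  intro i
  have h1 : x i ^ 6 ≤ Y := (single_le_sum (f := fun i => x i ^ 6) (fun j _ => by positivity)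
    (mem_univ i)).trans hx
  by_contra h
  push Not at h
  rw [Real.norm_eq_abs] at h
  have h2 : |x i| ≤ |x i| ^ 6 := le_self_pow₀ (by linarith [abs_nonneg Y]) (by norm_num)
  rw [pow_abs, abs_of_nonneg (by positivity : 0 ≤ x i ^ 6)] at h2
  linarith [le_abs_self Y]

section main

variable {F : (ι → ℝ) → ℝ} {cF : ℕ} (hF : SM F 4 cF) (hF0 : ∀ x, 0 ≤ F x)
  (hg : ∀ i, SM (g i) 3 C) (hC : 1 ≤ C)
  (hd : ∀ i x, HasDerivAt (fun t => F (Function.update x i t)) (g i x) (x i))

include hF hF0 hd in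
theorem exists_min {u : ℝ} (hu : 0 ≤ u) (x0 : ι → ℝ) :
    ∃ x, Crit g u x ∧ obj F u x ≤ obj F u x0 := by
  have hc : Continuous (obj F u) := by
    have := hF.continuous
    unfold obj; fun_prop
  have hS : ∀ x, ∑ i, x i ^ 6 ≤ obj F u x := fun x => by
    have := mul_nonneg hu (hF0 x)
    unfold obj; linarith
  obtain ⟨x, hx, hmin⟩ := (compact_S (obj F u x0)).exists_isMinOn ⟨x0, hS x0⟩ hc.continuousOn
  have hall : ∀ y, obj F u x ≤ obj F u y := fun y => by
    by_cases hy : ∑ i, y i ^ 6 ≤ obj F u x0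
    · exact hmin hy
    · exact (hmin (hS x0)).trans ((not_le.1 hy).le.trans (hS y))
  refine ⟨x, fun i => ?_, hall x0⟩
  have h1 : HasDerivAt (fun t => obj F u (Function.update x i t)) (6 * u * g i x + 6 * x i ^ 5) (x i) := by
    have e : (fun t => obj F u (Function.update x i t)) = fun t =>
        6 * u * F (Function.update x i t) + (t ^ 6 + ∑ j ∈ univ.erase i, x j ^ 6) := by
      funext t
      unfold obj
      rw [← add_sum_erase _ _ (mem_univ i), Function.update_self]
      congr 2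
      exact sum_congr rfl fun j hj => by rw [Function.update_of_ne (ne_of_mem_erase hj)]
    rw [e]
    have := ((hd i x).const_mul (6 * u)).fun_add ((hasDerivAt_pow 6 (x i)).add_const
      (∑ j ∈ univ.erase i, x j ^ 6))
    exact this.congr_deriv (by norm_num)
  have h2 : IsLocalMin (fun t => obj F u (Function.update x i t)) (x i) :=
    Filter.Eventually.of_forall fun t => by simpa using hall _
  have := h2.hasDerivAt_eq_zero h1
  linarith

include hF hF0 hg hC hd in
theorem key_step {u Y : ℝ} (hY : (hB (Fintype.card ι) cF C : ℝ) + 1 ≤ Y)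
    (hu : hB (Fintype.card ι) cF C * Y ^ dB (Fintype.card ι) + 1 ≤ u) {x0 : ι → ℝ}
    (h0 : obj F u x0 ≤ Y) : ∃ x, obj F u x < hB (Fintype.card ι) cF C + 1 := by
  obtain ⟨f, f1, f2, f3⟩ := exists_elim hF hg hC
  have c0 : (0 : ℝ) ≤ hB (Fintype.card ι) cF C := Nat.cast_nonneg _
  have : 0 ≤ hB (Fintype.card ι) cF C * Y ^ dB (Fintype.card ι) :=
    mul_nonneg c0 (pow_nonneg (by linarith) _)
  obtain ⟨x, hx, hle⟩ := exists_min hF hF0 hd (by linarith : 0 ≤ u) x0
  refine ⟨x, ?_⟩
  by_contra hcon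
  push Not at hcon
  have h1 := f1.root_bound f2 (f3 (fun t => cond t (obj F u x) u) x hx rfl) hcon
  simp only [cond_true, cond_false] at h1
  have h2 : obj F u x ^ dB (Fintype.card ι) ≤ Y ^ dB (Fintype.card ι) :=
    pow_le_pow_left₀ (by linarith) (hle.trans h0) _
  nlinarith

include hF hF0 in
theorem zero_of_small {c : ℝ} (h : ∀ u0 : ℝ, ∃ u ≥ u0, ∃ x, obj F u x < c) :
    ∃ z, F z = 0 ∧ ∑ i, z i ^ 6 ≤ c := by
  have hS : ∀ u x, 0 ≤ u → obj F u x < c → ∑ i, x i ^ 6 ≤ c ∧ 6 * u * F x ≤ c := fun u x hu hx => by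
    have := mul_nonneg hu (hF0 x)
    have : 0 ≤ ∑ i, x i ^ 6 := sum_nonneg fun i _ => by positivity
    unfold obj at hx
    constructor <;> linarith
  obtain ⟨u1, hu1, x1, hx1⟩ := h 0
  obtain ⟨z, hz, hmin⟩ := (compact_S c).exists_isMinOn ⟨x1, (hS _ _ hu1 hx1).1⟩
    hF.continuous.continuousOn
  refine ⟨z, (hF0 z).eq_or_lt.resolve_right (fun hp => ?_) |>.symm, hz⟩
  obtain ⟨u, hu, x, hx⟩ := h (|c| / F z + 1)
  have h0 : 0 ≤ |c| / F z := by positivity
  obtain ⟨h1, h2⟩ := hS u x (by linarith) hx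
  have h3 : F z ≤ F x := hmin h1
  have h4 : |c| / F z * F z = |c| := div_mul_cancel₀ _ hp.ne'
  nlinarith [le_abs_self c, abs_nonneg c]

include hF hF0 hg hC hd in
/-- A zero can be found in a ball of bounded radius. -/
theorem gap_one {z : ι → ℝ} (hz : F z = 0) :
    ∃ z, F z = 0 ∧ ∑ i, z i ^ 6 ≤ hB (Fintype.card ι) cF C + 1 := by
  refine zero_of_small hF hF0 fun u0 => ⟨_, le_max_left u0 _, key_step hF hF0 hg hC hd
    (le_max_left _ (∑ i, z i ^ 6)) (le_max_right _ _) (x0 := z) ?_⟩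
  simp [obj, hz]

include hF hF0 hg hC hd in
/-- A good approximate zero implies an exact zero. -/
theorem gap_two {u Y : ℝ} (hY : 2 * ((hB (Fintype.card ι) cF C : ℝ) + 1) ≤ Y)
    (hu : hB (Fintype.card ι) cF C * Y ^ dB (Fintype.card ι) + 1 ≤ u) {x0 : ι → ℝ}
    (h0 : obj F u x0 ≤ Y) : ∃ z, F z = 0 := by
  have c0 : (0 : ℝ) ≤ hB (Fintype.card ι) cF C := Nat.cast_nonneg _
  have : 0 ≤ hB (Fintype.card ι) cF C * Y ^ dB (Fintype.card ι) :=
    mul_nonneg c0 (pow_nonneg (by linarith) _)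
  have hk : ∀ k : ℕ, ∃ x, obj F (2 ^ k * u) x < hB (Fintype.card ι) cF C + 1 := by
    intro k
    induction k with
    | zero => simpa using key_step hF hF0 hg hC hd (by linarith) hu h0
    | succ k ih =>
      obtain ⟨x, hx⟩ := ih
      have h1 : (1 : ℝ) ≤ 2 ^ (k + 1) := one_le_pow₀ (by norm_num)
      refine key_step hF hF0 hg hC hd (Y := Y) (by linarith) (by nlinarith) (x0 := x) ?_
      have : 0 ≤ ∑ i, x i ^ 6 := sum_nonneg fun i _ => by positivity
      unfold obj at hx ⊢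
      rw [pow_succ]
      linarith
  obtain ⟨z, hz, -⟩ := zero_of_small hF hF0 (c := hB (Fintype.card ι) cF C + 1) fun u0 => by
    obtain ⟨k, hk'⟩ := pow_unbounded_of_one_lt u0 (by norm_num : (1 : ℝ) < 2)
    have h1 : (0 : ℝ) < 2 ^ k := by positivity
    exact ⟨_, by nlinarith, hk k⟩
  exact ⟨z, hz⟩

end main

end Pool.Agent.Lib.MP_32fe36_lc.ER
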