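import Pool.Agent.Lib.MP_32fe36_lc.Geo
import Pool.Agent.Lib.MP_32fe36_lc.ER.GSound

/-!
The split graph attached to a sign pattern of points and lines.
-/

namespace Pool.Agent.Lib.MP_32fe36_lc.ER

open Set Filter Topology

instance finite_mem_list {α : Type} (l : List α) : Finite {a // a ∈ l} := l.finite_toSet.to_subtype

theorem geo' {V : Type} [Finite V] (G : SimpleGraph V) (cls : V → Cls) (p0 : V → Pt)
    (hK : ∀ u v, cls u ≠ .ind → cls v ≠ .ind → u ≠ v → G.Adj u v)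
    (hB : ∀ u v, cls u = .ind → cls v ≠ .clq → ¬ G.Adj u v)
    (hs : ∀ b, cls b = .ind → ∃ s α β, α < β ∧ Strip G {k | cls k = .clq} p0 b s α β) :
    ((∀ v, cls v = .clq ∨ cls v = .ind) → HasOutsideRep G) ∧
      ((∃ k, cls k = .clq) → (∃ k, cls k = .top) → (∃ k, cls k = .bot) → HasInsideRep G) := by
  choose s α β h1 h2 using hs
  have := exists_gp ∅ p0 (fun k => {z | ∀ b hb, cls k = .clq →
      (G.Adj b k → α b hb < z.2 - s b hb * z.1 ∧ z.2 - s b hb * z.1 < β b hb) ∧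
      (¬ G.Adj b k → z.2 - s b hb * z.1 < α b hb ∨ β b hb < z.2 - s b hb * z.1)})
    (fun k _ => ⟨?_, p0 k, fun b hb hk => h2 b hb k hk⟩) (by simp) (by simp)
  · obtain ⟨p, -, p1, p2, p3⟩ := this
    exact geo G cls p hK hB (fun a _ b _ h => p2.ne h) (fun a _ b _ c _ => p3 a b c)
      fun b hb => ⟨_, _, _, h1 b hb, fun k hk => p1 k (by simp) b hb hk⟩
  · simp only [ofPred_forall]
    have o1 : ∀ a s : ℝ, IsOpen {z : Pt | a < z.2 - s * z.1} := fun a s =>
      isOpen_lt (by fun_prop) (by fun_prop)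
    have o2 : ∀ a s : ℝ, IsOpen {z : Pt | z.2 - s * z.1 < a} := fun a s =>
      isOpen_lt (by fun_prop) (by fun_prop)
    refine isOpen_iInter_of_finite fun b => isOpen_iInter_of_finite fun hb =>
      isOpen_iInter_of_finite fun _ => ?_
    by_cases h : G.Adj b k
    · simp only [h, forall_const, not_true_eq_false, IsEmpty.forall_iff, and_true]
      exact (o1 _ _).inter (o2 _ _)
    · simp only [h, IsEmpty.forall_iff, not_false_eq_true, forall_const, true_and]
      exact (o2 _ _).union (o1 _ _)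

/-- Names of vertices. -/
abbrev Gv (P : Type) : Type := ℕ × Bool × Bool × ℕ × P

variable {P : Type}

/-- The adjacency rule. -/
def grel (sg : P → P → Bool) (u v : Gv P) : Prop :=
  ((u.1 ≤ 1 ∨ 5 ≤ u.1) ∧ (v.1 ≤ 1 ∨ 5 ≤ v.1)) ∨
    (v.1 ≤ 1 ∧ ((u.1 = 2 ∧ u.2.1 = v.2.1 ∧
        ((v.1 = 0 ∧ sg v.2.2.2.2 u.2.2.2.2 = true) ∨ (v.1 = 1 ∧ v.2.2.2.1 ≠ 0))) ∨
      (u.1 = 3 ∧ u.2.1 = v.2.1 ∧ hsee u.2.2.2.1 v.2.2.2.1 = true) ∨ (u.1 = 4 ∧ v.2.1 = true)))

/-- The vertex list. -/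
def gverts (fl : Bool) (d : P) (pts lns : List P) : List (Gv P) :=
  [true, false].flatMap (fun cp => pts.map (fun a => (0, cp, false, 8, a)) ++
    (List.range 8).map (fun j => (1, cp, false, j, d)) ++
    [true, false].flatMap (fun tw => lns.map (fun a => (2, cp, tw, 0, a)) ++
      (List.range 40).map (fun j => (3, cp, tw, j, d)))) ++
  (4, false, false, 0, d) :: if fl then [(5, false, false, 0, d), (6, false, false, 0, d)] else []

open Classical in
/-- The graph as a pair of lists. -/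
noncomputable def ggraph (fl : Bool) (d : P) (pts lns : List P) (sg : P → P → Bool) :
    List (Gv P) × List (Gv P × Gv P) :=
  (gverts fl d pts lns, ((gverts fl d pts lns).flatMap fun u => (gverts fl d pts lns).map fun v =>
    (u, v)).filter fun e => decide (grel sg e.1 e.2))

variable {fl : Bool} {d : P} {pts lns : List P} {sg : P → P → Bool}

theorem mem_gverts {u : Gv P} : u ∈ gverts fl d pts lns ↔
    (∃ cp, (∃ a ∈ pts, u = (0, cp, false, 8, a)) ∨ (∃ j < 8, u = (1, cp, false, j, d)) ∨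
      ∃ tw, (∃ a ∈ lns, u = (2, cp, tw, 0, a)) ∨ ∃ j < 40, u = (3, cp, tw, j, d)) ∨
      u = (4, false, false, 0, d) ∨
      (fl = true ∧ (u = (5, false, false, 0, d) ∨ u = (6, false, false, 0, d))) := by
  have h : ∀ b : Bool, b ∈ [true, false] := by decide
  simp only [gverts, List.mem_append, List.mem_flatMap, h, true_and, List.mem_map, List.mem_cons,
    List.mem_range, eq_comm (a := u), or_assoc]
  cases fl <;> simp [eq_comm (a := u)]

theorem ggraph_adj (u v : {a // a ∈ (ggraph fl d pts lns sg).1}) :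
    (listGraph (ggraph fl d pts lns sg)).Adj u v ↔ u ≠ v ∧ (grel sg u.1 v.1 ∨ grel sg v.1 u.1) := by
  have hu : u.1 ∈ gverts fl d pts lns := u.2
  have hv : v.1 ∈ gverts fl d pts lns := v.2
  simp [listGraph, SimpleGraph.fromRel_adj, ggraph, hu, hv]

theorem StrongReal.small (h : StrongReal pts lns sg) : ∃ (q : P → ℝ × ℝ) (s c : P → ℝ),
    (∀ a ∈ pts, ∀ b ∈ lns, Sg (sg a b) (s b * (q a).1 + c b - (q a).2)) ∧
    (∀ a ∈ pts, |(q a).1| < 1 / 100 ∧ |(q a).2| < 1 / 100) ∧
    ∀ b ∈ lns, |s b| < 1 / 100 ∧ |c b| < 1 / 100 := by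
  obtain ⟨q, s, c, h⟩ := h
  have e : ∀ g : ℝ → ℝ, Continuous g → g 0 = 0 → ∀ᶠ t in 𝓝[>] 0, |g t| < 1 / 100 := fun g hg h0 =>
    (ev_sg (b := true) (g := fun t => 1 / 100 - |g t|) (by fun_prop) (by simp [Sg, h0])).mono
      fun t ht => by linarith [sg_true.1 ht]
  have ev : ∀ᶠ t : ℝ in 𝓝[>] 0, 0 < t ∧
      (∀ a ∈ pts, |t * (q a).1| < 1 / 100 ∧ |t * t * (q a).2| < 1 / 100) ∧
      ∀ b ∈ lns, |t * s b| < 1 / 100 ∧ |t * t * c b| < 1 / 100 :=
    Eventually.and self_mem_nhdsWithin (Eventually.and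
      ((eventually_all_finite pts.finite_toSet).2 fun a _ =>
        (e _ (by fun_prop) (by simp)).and (e _ (by fun_prop) (by simp)))
      ((eventually_all_finite lns.finite_toSet).2 fun a _ =>
        (e _ (by fun_prop) (by simp)).and (e _ (by fun_prop) (by simp))))
  obtain ⟨t, t0, h1, h2⟩ := ev.exists
  refine ⟨fun a => (t * (q a).1, t * t * (q a).2), fun b => t * s b, fun b => t * t * c b,
    fun a ha b hb => ?_, h1, h2⟩
  convert (h a ha b hb).mul (mul_pos t0 t0) using 1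
  ring

/-- The class of a vertex. -/
def gcls (u : Gv P) : Cls :=
  if u.1 ≤ 1 then .clq else if u.1 = 5 then .top else if 6 ≤ u.1 then .bot else .ind

theorem ggraph_yes (h : StrongReal pts lns sg) :
    HasOutsideRep (listGraph (ggraph false d pts lns sg)) ∧
      HasInsideRep (listGraph (ggraph true d pts lns sg)) := by
  obtain ⟨q, s, c, h1, h2, h3⟩ := h.small
  have key : ∀ fl : Bool,
      ((∀ v : {a // a ∈ (ggraph fl d pts lns sg).1}, gcls v.1 = .clq ∨ gcls v.1 = .ind) →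
        HasOutsideRep (listGraph (ggraph fl d pts lns sg))) ∧
      ((∃ k : {a // a ∈ (ggraph fl d pts lns sg).1}, gcls k.1 = .clq) →
        (∃ k : {a // a ∈ (ggraph fl d pts lns sg).1}, gcls k.1 = .top) →
        (∃ k : {a // a ∈ (ggraph fl d pts lns sg).1}, gcls k.1 = .bot) →
          HasInsideRep (listGraph (ggraph fl d pts lns sg))) := by
    intro fl
    let sh : Bool → ℝ := fun cp => if cp = true then 1000 else 0
    let p0 : Gv P → Pt := fun u => (fx u.2.2.2.1 + if u.1 = 0 then (q u.2.2.2.2).1 else 0,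
      fy u.2.2.2.1 + (if u.1 = 0 then (q u.2.2.2.2).2 else 0) + sh u.2.1)
    have hclq : ∀ u : {a // a ∈ (ggraph fl d pts lns sg).1}, gcls u.1 = .clq →
        ∃ cp, (∃ a ∈ pts, u.1 = (0, cp, false, 8, a)) ∨ ∃ j < 8, u.1 = (1, cp, false, j, d) := by
      intro u hu
      rcases mem_gverts.1 u.2 with ⟨cp, h | h | ⟨_, ⟨_, _, h⟩ | ⟨_, _, h⟩⟩⟩ | h | ⟨_, h | h⟩
      · exact ⟨cp, Or.inl h⟩
      · exact ⟨cp, Or.inr h⟩
      all_goals rw [h] at hu; simp [gcls] at hu
    have hpos : ∀ u : {a // a ∈ (ggraph fl d pts lns sg).1}, gcls u.1 = .clq →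
        u.1.1 ≤ 1 ∧ u.1.2.2.2.1 < 9 ∧ ∃ e1 e2 : ℝ, |e1| < 1 / 100 ∧ |e2| < 1 / 100 ∧
          p0 u.1 = (fx u.1.2.2.2.1 + e1, fy u.1.2.2.2.1 + e2 + sh u.1.2.1) := by
      intro u hu
      obtain ⟨cp, ⟨a, ha, e⟩ | ⟨j, hj, e⟩⟩ := hclq u hu
      · rw [e]; exact ⟨by simp, by simp, _, _, (h2 a ha).1, (h2 a ha).2, rfl⟩
      · rw [e]; exact ⟨by simp, by simp; omega, 0, 0, by simp, by simp, rfl⟩
    have t5 : ∀ j < 9, ((-3 : ℝ) ≤ fx j ∧ (fx j : ℝ) ≤ 3) ∧ ((-13 : ℝ) ≤ fy j ∧ (fy j : ℝ) ≤ 2) ∧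
        (j = 0 → (fy j : ℝ) = 2) ∧ (j ≠ 0 → j ≠ 8 → (fy j : ℝ) ≤ -4) := fun j hj => by
      exact_mod_cast tab5 j hj
    refine geo' (listGraph (ggraph fl d pts lns sg)) (fun u => gcls u.1) (fun u => p0 u.1) ?_ ?_ ?_
    · intro u v hu hv huv
      rw [ggraph_adj]
      refine ⟨huv, Or.inl (Or.inl ⟨?_, ?_⟩)⟩
      · by_contra h
        exact hu (by unfold gcls; rw [if_neg (by omega), if_neg (by omega), if_neg (by omega)])
      · by_contra h
        exact hv (by unfold gcls; rw [if_neg (by omega), if_neg (by omega), if_neg (by omega)])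
    · intro u v hu hv
      rw [ggraph_adj]
      have u0 : ¬ u.1.1 ≤ 1 := by intro h; simp [gcls, h] at hu
      have u5 : ¬ 5 ≤ u.1.1 := by
        intro h; unfold gcls at hu; split_ifs at hu; omega
      have v0 : ¬ v.1.1 ≤ 1 := by intro h; simp [gcls, h] at hv
      simp [grel, u0, u5, v0]
    · intro b hb
      have hne : ∀ k : {a // a ∈ (ggraph fl d pts lns sg).1}, gcls k.1 = .clq → b ≠ k := by
        rintro k hk rfl
        rw [hk] at hb; cases hb
      rcases mem_gverts.1 b.2 with ⟨cp, ⟨_, _, h⟩ | ⟨_, _, h⟩ | ⟨tw, ⟨l, hl, h⟩ | ⟨j, hj, h⟩⟩⟩ | h |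
        ⟨_, h | h⟩
      · rw [h] at hb; simp [gcls] at hb
      · rw [h] at hb; simp [gcls] at hb
      · obtain ⟨b1, b2⟩ := h3 l hl
        obtain ⟨b1, b1'⟩ := abs_lt.1 b1
        obtain ⟨b2, b2'⟩ := abs_lt.1 b2
        refine ⟨s l, sh cp - 100, sh cp + c l, by linarith, fun k hk => ?_⟩
        rw [ggraph_adj, and_iff_right (hne k hk)]
        obtain ⟨cp', ⟨a, ha, e⟩ | ⟨j, hj, e⟩⟩ := hclq k hk
        · obtain ⟨a1, a1'⟩ := abs_lt.1 (h2 a ha).1
          obtain ⟨a2, a2'⟩ := abs_lt.1 (h2 a ha).2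
          have := h1 a ha l hl
          have m1 : s l * (q a).1 < 1 := by nlinarith
          have m2 : -1 < s l * (q a).1 := by nlinarith
          simp only [p0, h, e, grel, fx, fy, sh]
          cases hs : sg a l <;> rw [hs] at this <;> cases cp <;> cases cp' <;>
            simp [Sg] at this ⊢ <;>
            first | (constructor <;> linarith) | (left; linarith) | (right; linarith)
        · obtain ⟨⟨a1, a2⟩, ⟨a3, a4⟩, a5, a6⟩ := t5 j (by omega)
          have m1 : s l * fx j < 1 := by nlinarith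
          have m2 : -1 < s l * fx j := by nlinarith
          simp only [p0, h, e, grel, sh]
          by_cases j0 : j = 0
          · have := a5 j0
            cases cp <;> cases cp' <;> simp [eq_true j0] <;>
              first | (left; linarith) | (right; linarith)
          · have := a6 j0 (by omega)
            cases cp <;> cases cp' <;> simp [j0] <;>
              first | (constructor <;> linarith) | (left; linarith) | (right; linarith)
      · obtain ⟨⟨c1, c2⟩, c3, c4, c5, c6⟩ := tab4 j hj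
        refine ⟨((tab.getD j (0, 0, 0)).1 : ℝ) / 2, sh cp + ((tab.getD j (0, 0, 0)).2.1 : ℝ) / 4,
          sh cp + ((tab.getD j (0, 0, 0)).2.2 : ℝ) / 4, by
            have : ((tab.getD j (0, 0, 0)).2.1 : ℝ) < (tab.getD j (0, 0, 0)).2.2 := by
              exact_mod_cast c4
            linarith, fun k hk => ?_⟩
        obtain ⟨k1, k2, e1, e2, g1, g2, e⟩ := hpos k hk
        obtain ⟨g1, g1'⟩ := abs_lt.1 g1
        obtain ⟨g2, g2'⟩ := abs_lt.1 g2
        obtain ⟨d1, d2, d3, d4⟩ := c6 _ k2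
        have adj : (listGraph (ggraph fl d pts lns sg)).Adj b k ↔
            cp = k.1.2.1 ∧ hsee j k.1.2.2.2.1 = true := by
          rw [ggraph_adj]
          simp [h, grel, hne k hk, k1]
        rw [adj, hsee, decide_eq_true_eq]
        dsimp only
        rw [e]
        generalize tab.getD j (0, 0, 0) = τ at *
        have ev : (fy k.1.2.2.2.1 : ℝ) + e2 + sh k.1.2.1 - τ.1 / 2 * (fx k.1.2.2.2.1 + e1) =
            sh k.1.2.1 + ((4 * fy k.1.2.2.2.1 - 2 * τ.1 * fx k.1.2.2.2.1 : ℤ) : ℝ) / 4 +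
              (e2 - τ.1 / 2 * e1) := by push_cast; ring
        dsimp only
        rw [ev]
        generalize 4 * fy k.1.2.2.2.1 - 2 * τ.1 * fx k.1.2.2.2.1 = v at *
        have c1' : (-7 : ℝ) ≤ τ.1 := by exact_mod_cast c1
        have c2' : (τ.1 : ℝ) ≤ 7 := by exact_mod_cast c2
        have m1 : e2 - τ.1 / 2 * e1 < 1 / 4 := by nlinarith
        have m2 : -(1 / 4) < e2 - τ.1 / 2 * e1 := by nlinarith
        generalize e2 - τ.1 / 2 * e1 = r at *
        have c3' : (-99 : ℝ) ≤ τ.2.1 := by exact_mod_cast c3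
        have c4' : (τ.2.1 : ℝ) < τ.2.2 := by exact_mod_cast c4
        have c5' : (τ.2.2 : ℝ) ≤ 99 := by exact_mod_cast c5
        have d3' : (-99 : ℝ) ≤ v := by exact_mod_cast d3
        have d4' : (v : ℝ) ≤ 99 := by exact_mod_cast d4
        refine ⟨?_, fun g => ?_⟩
        · rintro ⟨rfl, f1, f2⟩
          have f1' : (τ.2.1 : ℝ) + 1 ≤ v := by exact_mod_cast f1
          have f2' : (v : ℝ) + 1 ≤ τ.2.2 := by exact_mod_cast f2
          constructor <;> linarith
        · by_cases hc : cp = k.1.2.1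
          · subst hc
            have : v < τ.2.1 ∨ τ.2.2 < v := by
              simp only [true_and] at g; omega
            rcases this with f | f
            · have f' : (v : ℝ) + 1 ≤ τ.2.1 := by exact_mod_cast f
              left; linarith
            · have f' : (τ.2.2 : ℝ) + 1 ≤ v := by exact_mod_cast f
              right; linarith
          · revert hc
            cases cp <;> cases k.1.2.1 <;> simp [sh] <;>
              first | (left; linarith) | (right; linarith)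
      · refine ⟨0, 500, 1500, by norm_num, fun k hk => ?_⟩
        obtain ⟨k1, k2, e1, e2, g1, g2, e⟩ := hpos k hk
        obtain ⟨g2, g2'⟩ := abs_lt.1 g2
        obtain ⟨-, ⟨a3, a4⟩, -⟩ := t5 _ k2
        have adj : (listGraph (ggraph fl d pts lns sg)).Adj b k ↔ k.1.2.1 = true := by
          rw [ggraph_adj]
          simp [h, grel, hne k hk, k1]
        rw [adj]
        dsimp only
        rw [e]
        cases k.1.2.1 <;> simp [sh] <;> first | (constructor <;> linarith) | (left; linarith)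
      · rw [h] at hb; simp [gcls] at hb
      · rw [h] at hb; simp [gcls] at hb
  constructor
  · refine (key false).1 fun v => ?_
    rcases mem_gverts.1 v.2 with ⟨_, ⟨_, _, h⟩ | ⟨_, _, h⟩ | ⟨_, ⟨_, _, h⟩ | ⟨_, _, h⟩⟩⟩ | h | ⟨h, -⟩
    · left; rw [h]; rfl
    · left; rw [h]; rfl
    · right; rw [h]; rfl
    · right; rw [h]; rfl
    · right; rw [h]; rfl
    · cases h
  · exact (key true).2 ⟨⟨(1, true, false, 0, d), mem_gverts.2 (by simp)⟩, rfl⟩
      ⟨⟨(5, false, false, 0, d), mem_gverts.2 (by simp)⟩, rfl⟩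
      ⟨⟨(6, false, false, 0, d), mem_gverts.2 (by simp)⟩, rfl⟩

theorem ggraph_no {C : Set Pt} {p : {a // a ∈ (ggraph fl d pts lns sg).1} → Pt}
    (hC : IsObstacle C) (hp : IsVisibilityRep (listGraph (ggraph fl d pts lns sg)) C p) :
    WeakReal pts lns sg := by
  classical
  obtain ⟨n, w, x0, -, -, rfl, -⟩ := hC
  let S : Scene {a // a ∈ (ggraph fl d pts lns sg).1} :=
    { C := _, p := p, conn := isPreconnected_connectedComponentIn
      gp := fun a b c h1 h2 h3 => by rw [Ne, ← collinear_iff_cr]; exact hp.2.1 a b c h1 h2 h3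
      notin := hp.2.2.1 }
  have vis : ∀ u v, S.Vis u v ↔ u = v ∨ grel sg u.1 v.1 ∨ grel sg v.1 u.1 := by
    intro u v
    by_cases h : u = v
    · subst h; exact iff_of_true (Scene.vis_refl u) (Or.inl rfl)
    · have := hp.2.2.2 u v h
      rw [ggraph_adj] at this
      simp only [h, false_or]
      exact this.symm.trans (and_iff_right h)
  let K : Bool → Set {a // a ∈ (ggraph fl d pts lns sg).1} := fun cp => {u | u.1.1 ≤ 1 ∧ u.1.2.1 = cp}
  have clq : ∀ cp, S.IsClq (K cp) := by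
    rintro cp a ⟨e, -⟩ b ⟨e', -⟩
    rw [vis]
    simp [grel, e, e']
  have nk : ∀ {u v : {a // a ∈ (ggraph fl d pts lns sg).1}}, ¬ u.1.1 ≤ 1 → v.1.1 ≤ 1 → u ≠ v := by
    rintro u v h h' rfl; exact h h'
  let β : {a // a ∈ (ggraph fl d pts lns sg).1} := ⟨(4, false, false, 0, d), mem_gverts.2 (by simp)⟩
  have hfree : ∃ cp, Disjoint S.C (S.hull (K cp)) := by
    have := Scene.free_or (Set.toFinite _) (clq true) (clq false) (b := β) (by
      rintro k ⟨e, e'⟩
      rw [vis]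
      simp [grel, β, e, e']) (by
      rintro k ⟨e, e'⟩
      rw [vis]
      simp [grel, nk (u := β) (by simp [β]) e, β, e, e'])
    exact this.elim (fun h => ⟨_, h⟩) (fun h => ⟨_, h⟩)
  obtain ⟨cp, hfree⟩ := hfree
  let f : ℕ → {a // a ∈ (ggraph fl d pts lns sg).1} := fun j =>
    if h : j < 8 then ⟨(1, cp, false, j, d), mem_gverts.2 (Or.inl ⟨cp, Or.inr (Or.inl ⟨j, h, rfl⟩)⟩)⟩
    else β
  have hf : ∀ j < 8, (f j).1 = (1, cp, false, j, d) := fun j hj => by simp [f, hj]
  have good : ∀ b : Bool → {a // a ∈ (ggraph fl d pts lns sg).1},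
      (∀ tw, ((b tw).1.1 = 2 ∨ (b tw).1.1 = 3) ∧ (b tw).1.2.2.1 = tw) → ∃ tw, S.Good (K cp) (b tw) := by
    intro b hb
    have := Scene.good_or (Set.toFinite _) (clq cp) hfree (b := b true) (b' := b false) (by
      rw [vis]
      rintro (e | e | e)
      · have := (hb true).2
        rw [e, (hb false).2] at this; cases this
      · have := (hb true).1; have := (hb false).1; unfold grel at e; omega
      · have := (hb true).1; have := (hb false).1; unfold grel at e; omega)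
    exact this.elim (fun h => ⟨_, h⟩) (fun h => ⟨_, h⟩)
  have cut := @line_cut _ S (K cp) (Set.toFinite _) hfree (fun u => u.1.2.2.2.1) f
    (fun j hj => by simp [K, hf j hj]) (fun k hk => by
      obtain ⟨k1, k2⟩ := hk
      rcases mem_gverts.1 k.2 with ⟨cp', ⟨_, _, h⟩ | ⟨j, hj, h⟩ | ⟨_, ⟨_, _, h⟩ | ⟨_, _, h⟩⟩⟩ | h |
        ⟨_, h | h⟩
      · simp [h]
      · rw [h] at k2
        simp only [h, Subtype.ext_iff]
        exact ⟨by omega, fun _ => by rw [hf j hj, ← k2]⟩
      all_goals simp [h] at k1) (fun h hh => by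
      obtain ⟨tw, g⟩ := good (fun tw => ⟨(3, cp, tw, h, d),
        mem_gverts.2 (Or.inl ⟨cp, Or.inr (Or.inr ⟨tw, Or.inr ⟨h, hh, rfl⟩⟩)⟩)⟩) (by simp)
      refine ⟨_, g, by simp [K], fun k hk => ?_⟩
      rw [vis]
      simp [grel, nk (v := k) _ hk.1, hk.1, hk.2])
  have main : ∀ b ∈ lns, ∃ l : V3, ∀ a (ha : a ∈ pts), Sg (sg a b)
      (dot ((p ⟨(0, cp, false, 8, a), mem_gverts.2 (Or.inl ⟨cp, Or.inl ⟨a, ha, rfl⟩⟩)⟩).1,
        (p ⟨(0, cp, false, 8, a), mem_gverts.2 (Or.inl ⟨cp, Or.inl ⟨a, ha, rfl⟩⟩)⟩).2, 1) l) := by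
    intro b hb
    obtain ⟨tw, g⟩ := good (fun tw => ⟨(2, cp, tw, 0, b),
      mem_gverts.2 (Or.inl ⟨cp, Or.inr (Or.inr ⟨tw, Or.inl ⟨b, hb, rfl⟩⟩)⟩)⟩) (by simp)
    obtain ⟨l, hl⟩ := cut g (by simp [K]) (by
      rw [vis, Subtype.ext_iff, hf 0 (by omega)]; simp [grel]) (fun j hj j0 => by
      rw [vis, hf j hj]; simp [grel, j0])
    refine ⟨l, fun a ha => ?_⟩
    have := hl ⟨(0, cp, false, 8, a), mem_gverts.2 (Or.inl ⟨cp, Or.inl ⟨a, ha, rfl⟩⟩)⟩ (by simp [K])
    rw [vis, Subtype.ext_iff] at this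
    cases hs : sg a b
    · exact sg_false.2 (this.2 (by simp [grel, hs]))
    · exact sg_true.2 (this.1 (by simp [grel, hs]))
  choose l hl using main
  refine ⟨fun a => if ha : a ∈ pts then
      ((p ⟨(0, cp, false, 8, a), mem_gverts.2 (Or.inl ⟨cp, Or.inl ⟨a, ha, rfl⟩⟩)⟩).1,
        (p ⟨(0, cp, false, 8, a), mem_gverts.2 (Or.inl ⟨cp, Or.inl ⟨a, ha, rfl⟩⟩)⟩).2, 1) else 0,
    fun b => if hb : b ∈ lns then l b hb else 0, fun a ha b hb => ?_⟩
  simp only [dif_pos ha, dif_pos hb]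
  exact hl b hb a ha

end Pool.Agent.Lib.MP_32fe36_lc.ER
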