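import Pool.Agent.Lib.MP_32fe36_lc.ER.Quad

/-!
From quadratic equations to homogeneous strict quadratic inequalities.
-/

namespace Pool.Agent.Lib.MP_32fe36_lc.ER

/-- Solutions of a system of strict inequalities. -/
def HSat (y : ℕ → ℝ) (H : List QC) : Prop := ∀ e ∈ H, qv y e.1 < qv y e.2

/-- Renumbering of the variables. -/
def tri (L : QL) : QL := L.map fun p => (3 * p.1, 3 * p.2)

/-- The system of strict inequalities. -/
def toHQ (n s : ℕ) (Q : List QC) : List QC :=
  [([(0, 1)], [(0, 0), (0, 0), (0, 0), (0, 0)]), ([(0, 2), (0, 2)], [(0, 0)])] ++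
  (List.range (9 * s + 18)).flatMap (fun j => [([], [(0, 3 * j + 1)]), ([], [(0, 3 * j + 2)]),
    ([(0, 3 * (j + 1) + 1)], [(3 * j + 1, 3 * j + 1)]),
    ([(0, 3 * (j + 1) + 2)], [(3 * j + 2, 3 * j + 2)])]) ++
  (List.range n).flatMap (fun i => [([(0, 3 * i)], [(0, 3 * (5 * s + 8) + 1)]),
    ([], [(0, 3 * i), (0, 3 * (5 * s + 8) + 1)])]) ++
  Q.flatMap (fun e => [(tri e.1, (0, 3 * (9 * s + 17) + 2) :: tri e.2),
    (tri e.2, (0, 3 * (9 * s + 17) + 2) :: tri e.1)])

theorem qv_nil (y : ℕ → ℝ) : qv y [] = 0 := rfl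
theorem qv_cons (y : ℕ → ℝ) (p : ℕ × ℕ) (L : QL) : qv y (p :: L) = y p.1 * y p.2 + qv y L := rfl
theorem qv_tri (y : ℕ → ℝ) (L : QL) : qv y (tri L) = qv (fun i => y (3 * i)) L := by
  simp [qv, tri, Function.comp_def]

theorem qv_smul (c : ℝ) (y : ℕ → ℝ) (L : QL) : qv (fun i => c * y i) L = c * c * qv y L := by
  unfold qv
  rw [← List.sum_map_mul_left]
  congr 1
  exact List.map_congr_left fun p _ => by ring

theorem HSat.smul {y : ℕ → ℝ} {H : List QC} (h : HSat y H) {c : ℝ} (hc : c ≠ 0) :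
    HSat (fun i => c * y i) H := fun e he => by
  rw [qv_smul, qv_smul]
  exact mul_lt_mul_of_pos_left (h e he) (mul_self_pos.2 hc)

theorem HSat.tiny {y : ℕ → ℝ} {H : List QC} (h : HSat y H) (N : ℕ) {ε : ℝ} (hε : 0 < ε) :
    ∃ y, HSat y H ∧ ∀ i < N, |y i| < ε := by
  obtain ⟨M, hM⟩ := ((Set.finite_Iio N).image fun i => |y i|).bddAbove
  have h0 : 0 < |M| + 1 := by positivity
  refine ⟨_, h.smul (c := ε / (|M| + 1)) (by positivity), fun i hi => ?_⟩
  have := hM ⟨i, hi, rfl⟩
  rw [abs_mul, abs_of_pos (by positivity : 0 < ε / (|M| + 1)), div_mul_eq_mul_div, div_lt_iff₀ h0]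
  exact mul_lt_mul_of_pos_left (by linarith [le_abs_self M]) hε

variable {n s : ℕ} {Q : List QC}

theorem hsat_toHQ {y : ℕ → ℝ} : HSat y (toHQ n s Q) ↔
    (y 0 * y 1 < 4 * (y 0 * y 0) ∧ 2 * (y 0 * y 2) < y 0 * y 0) ∧
    (∀ j < 9 * s + 18, 0 < y 0 * y (3 * j + 1) ∧ 0 < y 0 * y (3 * j + 2) ∧
      y 0 * y (3 * (j + 1) + 1) < y (3 * j + 1) * y (3 * j + 1) ∧
      y 0 * y (3 * (j + 1) + 2) < y (3 * j + 2) * y (3 * j + 2)) ∧
    (∀ i < n, y 0 * y (3 * i) < y 0 * y (3 * (5 * s + 8) + 1) ∧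
      0 < y 0 * y (3 * i) + y 0 * y (3 * (5 * s + 8) + 1)) ∧
    ∀ e ∈ Q, |qv (fun i => y (3 * i)) e.1 - qv (fun i => y (3 * i)) e.2| <
      y 0 * y (3 * (9 * s + 17) + 2) := by
  simp only [HSat, toHQ, List.forall_mem_append, List.forall_mem_flatMap, List.forall_mem_cons,
    List.not_mem_nil, qv_cons, qv_nil, qv_tri, List.mem_range, add_zero, false_imp_iff,
    implies_true, and_true, and_assoc, abs_lt]
  refine and_congr (by constructor <;> intro h <;> linarith) (and_congr
    (by constructor <;> intro h <;> linarith) (and_congr Iff.rfl (and_congr Iff.rfl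
      (forall₂_congr fun e _ => ?_))))
  constructor <;> rintro ⟨h1, h2⟩ <;> constructor <;> linarith

theorem Small.hq_iff (H : Small n s Q) : (∃ y, ESat y Q) ↔ ∃ y, HSat y (toHQ n s Q) := by
  constructor
  · rintro ⟨y, hy⟩
    obtain ⟨y, ⟨h0, hy⟩, hb⟩ := H.bounded hy
    let z : ℕ → ℝ := fun i => if i % 3 = 0 then y (i / 3) else if i % 3 = 1 then dd (i / 3) + 1
      else 2 / dd (i / 3 + 2)
    have z0 : ∀ j, z (3 * j) = y j := fun j => by simp [z]
    have z1 : ∀ j, z (3 * j + 1) = dd j + 1 := fun j => by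
      simp [z, show (3 * j + 1) / 3 = j by omega]
    have z2 : ∀ j, z (3 * j + 2) = 2 / dd (j + 2) := fun j => by
      simp [z, show (3 * j + 2) / 3 = j by omega]
    have t : ∀ j, (2 : ℝ) ≤ dd j := fun j => by exact_mod_cast two_le_dd j
    have e0 : z 0 = 1 := (z0 0).trans h0
    refine ⟨z, hsat_toHQ.2 ⟨⟨?_, ?_⟩, fun j _ => ⟨?_, ?_, ?_, ?_⟩, fun i _ => ?_, fun e he => ?_⟩⟩
    · rw [e0, z1 0, dd_zero]; norm_num
    · rw [e0, z2 0, dd_succ, dd_succ, dd_zero]; norm_num
    · rw [e0, z1]; linarith [t j]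
    · have := t (j + 2)
      rw [e0, z2]; positivity
    · rw [e0, z1, z1, dd_succ]; push_cast; nlinarith [t j]
    · have := t (j + 2)
      rw [e0, z2, z2, dd_succ (j + 2), div_mul_div_comm, one_mul]
      push_cast
      exact div_lt_div_of_pos_right (by norm_num) (by positivity)
    · rw [e0, z0, z1]
      have := abs_le.1 (hb i)
      constructor <;> linarith [this.1, this.2]
    · have := t (9 * s + 17 + 2)
      simp only [z0]
      rw [hy e he, sub_self, abs_zero, e0, z2]; positivity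
  · rintro ⟨y, hy⟩
    have hne : y 0 ≠ 0 := fun h => by
      have := ((hsat_toHQ.1 hy).2.1 0 (by omega)).1
      rw [h, zero_mul] at this
      exact lt_irrefl _ this
    have hz := hy.smul (inv_ne_zero hne)
    have e0 : (fun i => (y 0)⁻¹ * y i) 0 = 1 := inv_mul_cancel₀ hne
    generalize (fun i => (y 0)⁻¹ * y i) = z at hz e0
    obtain ⟨⟨a1, a2⟩, a3, a4, a5⟩ := hsat_toHQ.1 hz
    simp only [e0, one_mul, mul_one] at a1 a2 a3 a4 a5
    have b1 : ∀ j < 9 * s + 18, z (3 * j + 1) < dd (j + 1) := by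
      intro j
      induction j with
      | zero => intro _; rw [dd_succ, dd_zero]; norm_num; exact a1
      | succ j ih =>
        intro hj
        have := ih (by omega)
        obtain ⟨c1, -, c3, -⟩ := a3 j (by omega)
        rw [dd_succ (j + 1)]
        push_cast
        nlinarith
    have b2 : ∀ j < 9 * s + 18, z (3 * j + 2) * dd j < 1 := by
      intro j
      induction j with
      | zero => intro _; rw [dd_zero]; norm_num; linarith
      | succ j ih =>
        intro hj
        have := ih (by omega)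
        obtain ⟨-, c2, -, c4⟩ := a3 j (by omega)
        have t : (2 : ℝ) ≤ dd j := by exact_mod_cast two_le_dd j
        have c5 : 0 < z (3 * j + 2) * dd j := by positivity
        have c6 := mul_lt_mul_of_pos_right c4 (by positivity : (0 : ℝ) < dd j * dd j)
        rw [dd_succ j]
        push_cast
        nlinarith
    refine H.exact (y := fun i => z (3 * i)) e0 (fun i hi => ?_) fun e he => ?_
    · have := b1 (5 * s + 8) (by omega)
      obtain ⟨c1, c2⟩ := a4 i hi
      rw [abs_le]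
      constructor <;> linarith
    · have t : (2 : ℝ) ≤ dd (9 * s + 17) := by exact_mod_cast two_le_dd _
      have := mul_lt_mul_of_pos_right (a5 e he) (by positivity : (0 : ℝ) < dd (9 * s + 17))
      linarith [b2 (9 * s + 17) (by omega)]

theorem Small.toHQ_idx (H : Small n s Q) :
    ∀ e ∈ toHQ n s Q, ∀ p ∈ e.1 ++ e.2, p.1 < 27 * s + 57 ∧ p.2 < 27 * s + 57 := by
  have hn := H.hn
  simp only [toHQ, List.forall_mem_append, List.forall_mem_flatMap, List.forall_mem_cons,
    List.not_mem_nil, List.mem_range, false_imp_iff, implies_true, and_true, tri,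
    List.forall_mem_map, true_and]
  refine ⟨⟨⟨by omega, fun j hj => by omega⟩, fun j hj => by omega⟩, fun e he => ?_⟩
  have h1 : ∀ p ∈ e.1, 3 * p.1 < 27 * s + 57 ∧ 3 * p.2 < 27 * s + 57 := fun p hp => by
    have := H.idx e he p (List.mem_append_left _ hp); omega
  have h2 : ∀ p ∈ e.2, 3 * p.1 < 27 * s + 57 ∧ 3 * p.2 < 27 * s + 57 := fun p hp => by
    have := H.idx e he p (List.mem_append_right _ hp); omega
  exact ⟨⟨h1, by omega, h2⟩, h2, by omega, h1⟩

end Pool.Agent.Lib.MP_32fe36_lc.ER
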