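import Pool.Agent.Lib.MP_32fe36_lc.ER.SlpSound
import Pool.Agent.Lib.MP_32fe36_lc.ER.HQ

/-!
The straight-line program of a system of homogeneous strict quadratic inequalities.
-/

namespace Pool.Agent.Lib.MP_32fe36_lc.ER

abbrev Kv : Type := ℕ × ℕ × ℕ

/-- Nominal value of a variable. -/
def kk (N a : ℕ) : ℕ := 9 * (N * N) + 4 + 3 * min a N
/-- Nominal value of a basic summand. -/
def bn (N : ℕ) (k : Kv) : ℕ :=
  if k.1 = 1 then 1 else if k.1 = 2 then kk N k.2.1 else if k.1 = 3 then kk N k.2.2 * kk N k.2.1 else 0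
/-- Positive part of a product. -/
def posL (N : ℕ) (p : ℕ × ℕ) : List Kv :=
  (3, min p.1 p.2, max p.1 p.2) :: List.replicate (kk N p.1 * kk N p.2) (1, 0, 0)
/-- Negative part of a product. -/
def negL (N : ℕ) (p : ℕ × ℕ) : List Kv :=
  List.replicate (kk N p.1) (2, p.2, 0) ++ List.replicate (kk N p.2) (2, p.1, 0)
/-- One side of a comparison. -/
def side (N : ℕ) (L R : QL) : List Kv := L.flatMap (posL N) ++ R.flatMap (negL N)
/-- The nominal offset. -/
def om (N : ℕ) (H : List QC) : ℕ :=
  3 * ((H.map fun c => ((side N c.1 c.2).map (bn N)).sum).sum + kk N N * kk N N) + 1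
/-- Nominal value of a summand. -/
def pn (N : ℕ) (H : List QC) (k : Kv) : ℕ := if k.1 = 4 then om N H else bn N k
/-- The chains of additions. -/
def chain (N : ℕ) (H : List QC) (e : ℕ) : List Kv :=
  if e % 2 = 0 then side N (H.getD (e / 2) ([], [])).1 (H.getD (e / 2) ([], [])).2
  else (4, 0, 0) :: side N (H.getD (e / 2) ([], [])).2 (H.getD (e / 2) ([], [])).1
/-- Names of the sums. -/
def nm (e r : ℕ) : Kv := if r = 0 then (5, 2 * (e / 2), 0) else (5, e, r)
/-- Names of the variables. -/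
def xs (N : ℕ) : List Kv := (List.range N).map fun a => (2, a, 0)
/-- Names of the products. -/
def ss (N : ℕ) : List Kv := (List.range N).flatMap fun b => (List.range (b + 1)).map fun a => (3, a, b)

/-- The program. -/
def prog (N : ℕ) (H : List QC) : Slp Kv where
  vars := [(0, 0, 0), (1, 0, 0), (4, 0, 0)] ++ xs N ++ ss N ++
    (List.range (2 * H.length)).flatMap fun e => (List.range ((chain N H e).length + 1)).map (nm e)
  kind k := if k.1 = 3 then 2 else if k.1 = 5 ∧ k.2.2 ≠ 0 then 1 else 0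
  pred k := if k.1 = 3 then (2, k.2.1, 0) else nm k.2.1 (k.2.2 - 1)
  arg k := if k.1 = 3 then (2, k.2.2, 0) else (chain N H k.2.1).getD (k.2.2 - 1) (1, 0, 0)
  prims := [(1, 0, 0), (4, 0, 0)] ++ xs N ++ ss N
  mults := xs N
  tests := (List.range H.length).map fun i =>
    (nm (2 * i) (chain N H (2 * i)).length, nm (2 * i + 1) (chain N H (2 * i + 1)).length)
  zero := (0, 0, 0)
  one := (1, 0, 0)
  omg := (4, 0, 0)
  nom k := if k.1 = 5 then 3 * om N H * (k.2.1 / 2 + 1) +
    (((chain N H k.2.1).take k.2.2).map (pn N H)).sum else pn N H k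

/-- Ranks. -/
def rho (k : Kv) : ℕ := if k.1 = 3 then 1 else if k.1 = 5 then k.2.2 + 1 else 0

variable {N : ℕ} {H : List QC}

theorem mem_mults {k : Kv} : k ∈ (prog N H).mults ↔ ∃ a < N, k = (2, a, 0) := by
  simp [prog, xs, eq_comm (b := k)]

theorem mem_prims {k : Kv} : k ∈ (prog N H).prims ↔ k = (1, 0, 0) ∨ k = (4, 0, 0) ∨
    (∃ a < N, k = (2, a, 0)) ∨ ∃ b < N, ∃ a ≤ b, k = (3, a, b) := by
  simp [prog, xs, ss, eq_comm (b := k)]

theorem mem_vars {k : Kv} : k ∈ (prog N H).vars ↔ k = (0, 0, 0) ∨ k ∈ (prog N H).prims ∨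
    ∃ e < 2 * H.length, ∃ r ≤ (chain N H e).length, k = nm e r := by
  rw [mem_prims]
  simp [prog, xs, ss, eq_comm (b := k), or_assoc]

theorem side_sum {X : Kv → ℝ} (h1 : X (1, 0, 0) = 1) (L R : QL)
    (h : ∀ p ∈ L ++ R, X (3, min p.1 p.2, max p.1 p.2) = X (2, p.1, 0) * X (2, p.2, 0)) :
    ((side N L R).map X).sum - ((side N R L).map X).sum =
      qv (fun a => X (2, a, 0) - kk N a) L - qv (fun a => X (2, a, 0) - kk N a) R := by
  have key : ∀ L : QL, (∀ p ∈ L, X (3, min p.1 p.2, max p.1 p.2) = X (2, p.1, 0) * X (2, p.2, 0)) →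
      ((L.flatMap (posL N)).map X).sum - ((L.flatMap (negL N)).map X).sum =
        qv (fun a => X (2, a, 0) - kk N a) L := by
    intro L h
    induction L with
    | nil => simp [qv]
    | cons p L ih =>
      rw [qv_cons, ← ih fun q hq => h q (List.mem_cons_of_mem _ hq)]
      simp only [List.flatMap_cons, List.map_append, List.sum_append, posL, negL, List.map_cons,
        List.sum_cons, List.map_replicate, List.sum_replicate, h p List.mem_cons_self, h1,
        nsmul_eq_mul]
      push_cast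
      ring
  rw [← key L fun p hp => h p (List.mem_append_left _ hp),
    ← key R fun p hp => h p (List.mem_append_right _ hp)]
  simp only [side, List.map_append, List.sum_append]
  ring

theorem side_tag {L R : QL} {k : Kv} (h : k ∈ side N L R) : k = (1, 0, 0) ∨
    (∃ p ∈ L ++ R, k = (2, p.1, 0) ∨ k = (2, p.2, 0)) ∨
    ∃ p ∈ L ++ R, k = (3, min p.1 p.2, max p.1 p.2) := by
  simp only [side, List.mem_append, List.mem_flatMap, posL, negL, List.mem_cons,
    List.mem_replicate] at h ⊢
  rcases h with ⟨p, hp, h | h⟩ | ⟨p, hp, h | h⟩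
  · exact Or.inr (Or.inr ⟨p, Or.inl hp, h⟩)
  · exact Or.inl h.2
  · exact Or.inr (Or.inl ⟨p, Or.inr hp, Or.inr h.2⟩)
  · exact Or.inr (Or.inl ⟨p, Or.inr hp, Or.inl h.2⟩)

theorem cast_sum (f : Kv → ℕ) (l : List Kv) :
    (((l.map f).sum : ℕ) : ℝ) = (l.map fun k => (f k : ℝ)).sum := by
  rw [Nat.cast_list_sum, List.map_map]; rfl

theorem side_nom (L R : QL) : ((side N L R).map (bn N)).sum = ((side N R L).map (bn N)).sum := by
  have := side_sum (N := N) (X := fun k => (bn N k : ℝ)) (by simp [bn]) L R fun p _ => by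
    rcases le_total p.1 p.2 with h | h <;> simp [bn, h, mul_comm]
  simp only [bn, OfNat.ofNat_ne_one, if_false, if_true, sub_self, qv, mul_zero, List.map_const',
    List.sum_replicate, smul_zero] at this
  have h := sub_eq_zero.1 this
  have e : ∀ l : List Kv, (((l.map (bn N)).sum : ℕ) : ℝ) = _ := cast_sum (bn N)
  unfold bn at e
  rw [← e, ← e] at h
  exact_mod_cast h

theorem side_pn (L R : QL) : (side N L R).map (pn N H) = (side N L R).map (bn N) :=
  List.map_congr_left fun k hk => by
    rcases side_tag hk with rfl | ⟨p, -, rfl | rfl⟩ | ⟨p, -, rfl⟩ <;> simp [pn]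

theorem kk_le (a : ℕ) : kk N a ≤ kk N N := by unfold kk; omega

theorem prod_inj {a b c d : ℕ} (hab : a ≤ b) (hb : b < N) (hcd : c ≤ d) (hd : d < N)
    (h : kk N b * kk N a = kk N d * kk N c) : a = c ∧ b = d := by
  unfold kk at h
  rw [min_eq_left hb.le, min_eq_left hd.le, min_eq_left (hab.trans hb.le),
    min_eq_left (hcd.trans hd.le)] at h
  have h1 : a * b < N * N := Nat.mul_lt_mul'' (hab.trans_lt hb) hb
  have h2 : c * d < N * N := Nat.mul_lt_mul'' (hcd.trans_lt hd) hd
  generalize N * N = n at *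
  have e : (9 * n + 4) * (a + b) + 3 * (a * b) = (9 * n + 4) * (c + d) + 3 * (c * d) := by nlinarith
  have e1 : a + b = c + d := by
    rcases lt_trichotomy (a + b) (c + d) with g | g | g
    · nlinarith
    · exact g
    · nlinarith
  have e2 : a * b = c * d := by rw [e1] at e; omega
  rcases lt_trichotomy a c with g | g | g
  · nlinarith
  · omega
  · nlinarith

theorem take_sum_succ {R : Type} [AddCommMonoid R] (f : Kv → R) (l : List Kv) {r : ℕ}
    (hr : r < l.length) (d : Kv) :
    ((l.take (r + 1)).map f).sum = ((l.take r).map f).sum + f (l.getD r d) := by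
  rw [List.take_add_one, List.getElem?_eq_getElem hr, List.getD_eq_getElem _ _ hr, List.map_append,
    List.sum_append]
  simp

theorem nom_nm (e r : ℕ) : (prog N H).nom (nm e r) =
    3 * om N H * (e / 2 + 1) + (((chain N H e).take r).map (pn N H)).sum := by
  unfold nm
  split_ifs with h
  · simp [prog, h]
  · simp [prog]

theorem nom_prim {k : Kv} (h : k ∈ (prog N H).prims) : (prog N H).nom k = pn N H k ∧
    pn N H k % 3 = 1 ∧ pn N H k ≤ om N H ∧ rho k ≤ 1 := by
  have h1 : ∀ a, kk N a % 3 = 1 := fun a => by unfold kk; omega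
  have h2 : ∀ a b, kk N a * kk N b ≤ kk N N * kk N N := fun a b => Nat.mul_le_mul (kk_le a) (kk_le b)
  have h3 : kk N N * kk N N < om N H := by unfold om; omega
  rcases mem_prims.1 h with rfl | rfl | ⟨a, -, rfl⟩ | ⟨b, -, a, -, rfl⟩
  · simp [prog, pn, bn, rho]; omega
  · simp [prog, pn, rho]; unfold om; omega
  · simp [prog, pn, bn, rho, h1]
    have := kk_le (N := N) a
    nlinarith
  · simp [prog, pn, bn, rho, h1, Nat.mul_mod]
    have := h2 b a
    omega

section
variable (hH : ∀ e ∈ H, ∀ p ∈ e.1 ++ e.2, p.1 < N ∧ p.2 < N)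
include hH

theorem chain_prims {e : ℕ} (he : e < 2 * H.length) : ∀ k ∈ chain N H e, k ∈ (prog N H).prims := by
  have hc : H.getD (e / 2) ([], []) ∈ H := by
    rw [List.getD_eq_getElem _ _ (by omega)]; exact List.getElem_mem _
  have key : ∀ {L R : QL}, (∀ p ∈ L ++ R, p.1 < N ∧ p.2 < N) → ∀ k ∈ side N L R,
      k ∈ (prog N H).prims := by
    intro L R h k hk
    rw [mem_prims]
    rcases side_tag hk with rfl | ⟨p, hp, rfl | rfl⟩ | ⟨p, hp, rfl⟩
    · simp
    · exact Or.inr (Or.inr (Or.inl ⟨_, (h p hp).1, rfl⟩))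
    · exact Or.inr (Or.inr (Or.inl ⟨_, (h p hp).2, rfl⟩))
    · exact Or.inr (Or.inr (Or.inr ⟨_, max_lt (h p hp).1 (h p hp).2, _, min_le_max, rfl⟩))
  unfold chain
  split_ifs
  · exact key (hH _ hc)
  · exact List.forall_mem_cons.2 ⟨mem_prims.2 (by simp), key fun p hp => hH _ hc p
      (by simpa [or_comm] using hp)⟩

theorem chain_mono {e : ℕ} (he : e < 2 * H.length) {r r' : ℕ} (h : r < r')
    (hr : r' ≤ (chain N H e).length) :
    (((chain N H e).take r).map (pn N H)).sum < (((chain N H e).take r').map (pn N H)).sum := by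
  induction r' with
  | zero => omega
  | succ s ih =>
    have := (nom_prim (chain_prims hH he ((chain N H e).getD s (1, 0, 0)) (by
      rw [List.getD_eq_getElem _ _ (by omega)]; exact List.getElem_mem _))).2.1
    rw [take_sum_succ _ _ hr (1, 0, 0)]
    rcases Nat.lt_succ_iff_lt_or_eq.1 h with h | rfl
    · have := ih h (by omega); omega
    · omega

omit hH in
theorem chain_range {e : ℕ} (he : e < 2 * H.length) (r : ℕ) :
    (e % 2 = 0 ∨ r = 0 → (((chain N H e).take r).map (pn N H)).sum < om N H) ∧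
    (e % 2 = 1 → r ≠ 0 → om N H ≤ (((chain N H e).take r).map (pn N H)).sum ∧
      (((chain N H e).take r).map (pn N H)).sum < 2 * om N H) := by
  have hc : H.getD (e / 2) ([], []) ∈ H := by
    rw [List.getD_eq_getElem _ _ (by omega)]; exact List.getElem_mem _
  have h1 : ((side N (H.getD (e / 2) ([], [])).1 (H.getD (e / 2) ([], [])).2).map (bn N)).sum <
      om N H := by
    have := List.single_le_sum (l := H.map fun c => ((side N c.1 c.2).map (bn N)).sum)
      (fun _ _ => Nat.zero_le _) _ (List.mem_map_of_mem hc)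
    unfold om; omega
  have h2 : ∀ (l : List Kv) (r : ℕ), ((l.take r).map (pn N H)).sum ≤ (l.map (pn N H)).sum :=
    fun l r => ((List.take_sublist r l).map _).sum_le_sum fun _ _ => Nat.zero_le _
  refine ⟨?_, fun h hr => ?_⟩
  · rintro (h | rfl)
    · refine (h2 _ _).trans_lt ?_
      rwa [chain, if_pos h, side_pn]
    · simp only [List.take_zero, List.map_nil, List.sum_nil]; omega
  · obtain ⟨r, rfl⟩ := Nat.exists_eq_succ_of_ne_zero hr
    rw [chain, if_neg (by omega), List.take_succ_cons, List.map_cons, List.sum_cons]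
    have := h2 (side N (H.getD (e / 2) ([], [])).2 (H.getD (e / 2) ([], [])).1) r
    rw [side_pn, side_nom] at this
    have e : pn N H (4, 0, 0) = om N H := by simp [pn]
    omega

theorem nm_inj {e e' r r' : ℕ} (he : e < 2 * H.length) (he' : e' < 2 * H.length)
    (hr : r ≤ (chain N H e).length) (hr' : r' ≤ (chain N H e').length)
    (h : (prog N H).nom (nm e r) = (prog N H).nom (nm e' r')) : nm e r = nm e' r' := by
  rw [nom_nm, nom_nm] at h
  obtain ⟨a1, a2⟩ := chain_range (N := N) he r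
  obtain ⟨b1, b2⟩ := chain_range (N := N) he' r'
  have a3 : (((chain N H e).take r).map (pn N H)).sum < 2 * om N H := by
    by_cases g : e % 2 = 0 ∨ r = 0
    · have := a1 g; omega
    · exact (a2 (by omega) (by omega)).2
  have b3 : (((chain N H e').take r').map (pn N H)).sum < 2 * om N H := by
    by_cases g : e' % 2 = 0 ∨ r' = 0
    · have := b1 g; omega
    · exact (b2 (by omega) (by omega)).2
  have e1 : e / 2 = e' / 2 := by
    rcases lt_trichotomy (e / 2) (e' / 2) with g | g | g
    · have := Nat.mul_le_mul_left (3 * om N H) (show e / 2 + 1 + 1 ≤ e' / 2 + 1 by omega)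
      rw [mul_add _ _ 1] at this
      omega
    · exact g
    · have := Nat.mul_le_mul_left (3 * om N H) (show e' / 2 + 1 + 1 ≤ e / 2 + 1 by omega)
      rw [mul_add _ _ 1] at this
      omega
  rw [e1, Nat.add_left_cancel_iff] at h
  have z : ∀ {e r}, e < 2 * H.length → r ≤ (chain N H e).length →
      (((chain N H e).take r).map (pn N H)).sum = 0 → r = 0 := fun he hr h => by
    by_contra g
    have := chain_mono hH he (Nat.pos_of_ne_zero g) hr
    omega
  by_cases g : r = 0
  · subst g
    rw [z he' hr' (by simpa using h.symm), nm, nm, e1]; simp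
  by_cases g' : r' = 0
  · subst g'
    exact absurd (z he hr (by simpa using h)) g
  have e2 : e = e' := by
    by_cases p : e % 2 = 0 <;> by_cases p' : e' % 2 = 0
    · omega
    · have := a1 (Or.inl p); have := b2 (by omega) g'; omega
    · have := b1 (Or.inl p'); have := a2 (by omega) g; omega
    · omega
  subst e2
  rcases lt_trichotomy r r' with g | g | g
  · exact absurd h (chain_mono hH he g hr').ne
  · rw [g]
  · exact absurd h (chain_mono hH he g hr).ne'

theorem prog_wf : (prog N H).WF rho := by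
  have pv : ∀ b ∈ (prog N H).prims, b ∈ (prog N H).vars := fun b hb => mem_vars.2 (Or.inr (Or.inl hb))
  have mp : ∀ b ∈ (prog N H).mults, b ∈ (prog N H).prims := fun b hb =>
    mem_prims.2 (Or.inr (Or.inr (Or.inl (mem_mults.1 hb))))
  have nv : ∀ {e r}, e < 2 * H.length → r ≤ (chain N H e).length → nm e r ∈ (prog N H).vars :=
    fun he hr => mem_vars.2 (Or.inr (Or.inr ⟨_, he, _, hr, rfl⟩))
  have n2 : ∀ b ∈ (prog N H).mults, 2 ≤ (prog N H).nom b := fun b hb => by
    obtain ⟨a, -, rfl⟩ := mem_mults.1 hb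
    simp [prog, pn, bn, kk]; omega
  have o1 : 1 ≤ om N H := by unfold om; omega
  have n3 : ∀ e r, 3 * om N H ≤ (prog N H).nom (nm e r) := fun e r => by
    rw [nom_nm, mul_add]; omega
  have cases : ∀ k ∈ (prog N H).vars, (prog N H).kind k ≠ 0 →
      (∃ b < N, ∃ a ≤ b, k = (3, a, b)) ∨
        ∃ e < 2 * H.length, ∃ r < (chain N H e).length, k = (5, e, r + 1) := by
    intro k hk hk'
    rcases mem_vars.1 hk with rfl | hk | ⟨e, he, r, hr, rfl⟩
    · simp [prog] at hk'
    · rcases mem_prims.1 hk with rfl | rfl | ⟨a, -, rfl⟩ | h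
      · simp [prog] at hk'
      · simp [prog] at hk'
      · simp [prog] at hk'
      · exact Or.inl h
    · rcases r with _ | r
      · simp [prog, nm] at hk'
      · exact Or.inr ⟨e, he, r, hr, by simp [nm]⟩
  have ga : ∀ {e r}, e < 2 * H.length → r < (chain N H e).length →
      (chain N H e).getD r (1, 0, 0) ∈ (prog N H).prims := fun he hr => chain_prims hH he _ (by
    rw [List.getD_eq_getElem _ _ hr]; exact List.getElem_mem _)
  refine ⟨mem_vars.2 (Or.inl rfl), pv _ (mem_prims.2 (Or.inl rfl)), rfl, rfl, pv,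
    fun b hb => pv b (mp b hb), ?_, mem_prims.2 (Or.inr (Or.inl rfl)), fun k hk hk' => ?_,
    fun k hk hk' => ?_, fun k hk hk' hk'' => ?_, rfl, rfl, fun a ha b hb h => ?_, fun b hb => ?_,
    fun b hb => ⟨n2 b hb, fun c hc => ?_⟩, ?_⟩
  · refine List.forall_mem_map.2 fun i hi => ?_
    have := List.mem_range.1 hi
    exact ⟨nv (by omega) le_rfl, nv (by omega) le_rfl⟩
  · rcases cases k hk hk' with ⟨b, hb, a, ha, rfl⟩ | ⟨e, he, r, hr, rfl⟩
    · exact ⟨pv _ (mp _ (mem_mults.2 ⟨a, by omega, rfl⟩)), by simp [prog, rho], by simp [prog, rho]⟩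
    · refine ⟨nv he hr.le, ?_, ((nom_prim (ga he hr)).2.2.2).trans_lt (by simp [rho])⟩
      by_cases g : r = 0 <;> simp [prog, rho, nm, g]
  · rcases cases k hk (by omega) with ⟨b, hb, a, ha, rfl⟩ | ⟨e, he, r, hr, rfl⟩
    · simp [prog] at hk'
    · have e1 : (prog N H).nom (5, e, r + 1) = (prog N H).nom (nm e r) +
          (prog N H).nom ((chain N H e).getD r (1, 0, 0)) := by
        rw [(nom_prim (ga he hr)).1, nom_nm, add_assoc, ← take_sum_succ _ _ hr, ← nom_nm]
        simp [nm]
      refine ⟨ga he hr, e1, fun c hc => ?_⟩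
      have := n2 c hc
      have := n3 e r
      obtain ⟨g1, -, g2, -⟩ := nom_prim (ga he hr)
      change _ * (prog N H).nom (nm e r) ≠ _
      rw [e1, g1]
      nlinarith
  · rcases cases k hk hk' with ⟨b, hb, a, ha, rfl⟩ | ⟨e, he, r, hr, rfl⟩
    · refine ⟨mem_mults.2 ⟨b, hb, rfl⟩, by simp [prog, pn, bn], by simp [prog, pn, bn, kk],
        fun c hc => ?_⟩
      obtain ⟨g1, g2, -⟩ := nom_prim hc
      obtain ⟨g3, g4, -⟩ := nom_prim (H := H) (mem_prims.2 (Or.inr (Or.inr (Or.inr ⟨b, hb, a, ha, rfl⟩))))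
      obtain ⟨g5, g6, -⟩ := nom_prim (H := H) (mp _ (mem_mults.2 ⟨a, by omega, rfl⟩))
      change (prog N H).nom (2, a, 0) + _ ≠ _
      omega
    · simp [prog] at hk''
  · have q1 : ∀ a, 4 ≤ kk N a ∧ kk N a < 9 * (N * N) + 4 + 3 * N + 1 := fun a => by unfold kk; omega
    have q2 : ∀ a b, 9 * (N * N) + 4 + 3 * N + 1 ≤ kk N a * kk N b ∧ kk N a * kk N b < om N H := by
      intro a b
      have h2 : kk N a * kk N b ≤ kk N N * kk N N := Nat.mul_le_mul (kk_le a) (kk_le b)
      have h3 : 4 * (9 * (N * N) + 4) ≤ kk N a * kk N b :=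
        Nat.mul_le_mul (q1 a).1 (by unfold kk; omega)
      have h4 : N ≤ N * N := Nat.le_mul_self N
      unfold om
      omega
    have q3 := q2 0 0
    have v : ∀ a ∈ (prog N H).vars, (a = (0, 0, 0) ∧ (prog N H).nom a = 0) ∨
        (a = (1, 0, 0) ∧ (prog N H).nom a = 1) ∨ (a = (4, 0, 0) ∧ (prog N H).nom a = om N H) ∨
        (∃ i < N, a = (2, i, 0) ∧ (prog N H).nom a = kk N i) ∨
        (∃ j < N, ∃ i ≤ j, a = (3, i, j) ∧ (prog N H).nom a = kk N j * kk N i) ∨
        ∃ e < 2 * H.length, ∃ r ≤ (chain N H e).length, a = nm e r ∧ 3 * om N H ≤ (prog N H).nom a := by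
      intro a ha
      rcases mem_vars.1 ha with rfl | ha | ⟨e, he, r, hr, rfl⟩
      · exact Or.inl ⟨rfl, rfl⟩
      · rcases mem_prims.1 ha with rfl | rfl | ⟨i, hi, rfl⟩ | ⟨j, hj, i, hi, rfl⟩
        · exact Or.inr (Or.inl ⟨rfl, rfl⟩)
        · exact Or.inr (Or.inr (Or.inl ⟨rfl, rfl⟩))
        · exact Or.inr (Or.inr (Or.inr (Or.inl ⟨i, hi, rfl, rfl⟩)))
        · exact Or.inr (Or.inr (Or.inr (Or.inr (Or.inl ⟨j, hj, i, hi, rfl, rfl⟩))))
      · exact Or.inr (Or.inr (Or.inr (Or.inr (Or.inr ⟨e, he, r, hr, rfl, n3 e r⟩))))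
    rcases v a ha with ⟨e1, e2⟩ | ⟨e1, e2⟩ | ⟨e1, e2⟩ | ⟨i, hi, e1, e2⟩ | ⟨j, hj, i, hi, e1, e2⟩ |
      ⟨e, he, r, hr, e1, e2⟩ <;>
    rcases v b hb with ⟨f1, f2⟩ | ⟨f1, f2⟩ | ⟨f1, f2⟩ | ⟨i', hi', f1, f2⟩ | ⟨j', hj', i', hi', f1, f2⟩ |
      ⟨e', he', r', hr', f1, f2⟩
    all_goals first
      | exact e1.trans f1.symm
      | omega
      | (have := q1 i'; omega)
      | (have := q2 j' i'; omega)
      | (have := q1 i; omega)
      | (have := q2 j i; omega)
      | (have := q1 i; have := q2 j' i'; omega)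
      | (have := q1 i'; have := q2 j i; omega)
      | skip
    · rw [e1, f1, show i = i' by unfold kk at e2 f2; omega]
    · obtain ⟨rfl, rfl⟩ := prod_inj hi hj hi' hj' (by omega)
      exact e1.trans f1.symm
    · subst e1 f1
      exact nm_inj hH he he' hr hr' h
  · obtain ⟨g1, g2, -⟩ := nom_prim hb
    omega
  · obtain ⟨g1, g2, -⟩ := nom_prim hc
    obtain ⟨g3, g4, -⟩ := nom_prim (mp b hb)
    omega
  · refine List.forall_mem_map.2 fun i hi => ?_
    have e1 : (prog N H).nom (nm (2 * i + 1) (chain N H (2 * i + 1)).length) =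
        (prog N H).nom (nm (2 * i) (chain N H (2 * i)).length) + om N H := by
      rw [nom_nm, nom_nm, List.take_length, List.take_length, chain, chain, if_neg (by omega),
        if_pos (by omega), List.map_cons, List.sum_cons, side_pn, side_pn, side_nom,
        show (2 * i + 1) / 2 = 2 * i / 2 by omega]
      have e : pn N H (4, 0, 0) = om N H := by simp [pn]
      omega
    have := n3 (2 * i) (chain N H (2 * i)).length
    refine ⟨e1, by dsimp only; omega, fun c hc => ?_⟩
    have := n2 c hc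
    dsimp only
    rw [e1]
    nlinarith

theorem hsat_of_sol {X : Kv → ℝ} (hX : (prog N H).Sol X) : ∃ y, HSat y H := by
  refine ⟨fun a => X (2, a, 0) - kk N a, fun c hc => ?_⟩
  obtain ⟨i, hi, rfl⟩ := List.getElem_of_mem hc
  have key : ∀ e < 2 * H.length, ∀ r ≤ (chain N H e).length,
      X (nm e r) = X (nm e 0) + (((chain N H e).take r).map X).sum := by
    intro e he r
    induction r with
    | zero => simp
    | succ r ih =>
      intro hr
      rw [take_sum_succ _ _ hr (1, 0, 0), ← add_assoc, ← ih (by omega)]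
      exact hX.add (nm e (r + 1)) (mem_vars.2 (Or.inr (Or.inr ⟨e, he, _, hr, rfl⟩))) (by simp [prog, nm])
  have h := hX.test _ (List.mem_map_of_mem (List.mem_range.2 hi))
  rw [key _ (by omega) _ le_rfl, key _ (by omega) _ le_rfl, List.take_length, List.take_length, chain,
    chain, if_pos (by omega), if_neg (by omega), show (2 * i + 1) / 2 = i by omega,
    show 2 * i / 2 = i by omega, List.getD_eq_getElem _ _ hi, List.map_cons, List.sum_cons,
    show nm (2 * i + 1) 0 = nm (2 * i) 0 by simp [nm]; omega] at h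
  have := side_sum (N := N) hX.o H[i].1 H[i].2 fun p hp => by
    obtain ⟨h1, h2⟩ := hH _ hc p hp
    have := hX.mul (3, min p.1 p.2, max p.1 p.2) (mem_vars.2 (Or.inr (Or.inl (mem_prims.2
      (Or.inr (Or.inr (Or.inr ⟨_, max_lt h1 h2, _, min_le_max, rfl⟩))))))) (by simp [prog])
      (by simp [prog])
    rw [this]
    rcases le_total p.1 p.2 with h | h <;> simp [prog, h, mul_comm]
  change _ + X (4, 0, 0) < _ at h
  linarith

omit hH in
theorem sol_of_hsat {y : ℕ → ℝ} (hy : HSat y H) : ∃ X : ℝ → Kv → ℝ,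
    (∀ k, Continuous fun t => X t k) ∧ (∀ k, X 0 k = (prog N H).nom k) ∧
      ∀ t, 0 < t → (prog N H).Sol (X t) := by
  let P : ℝ → Kv → ℝ := fun t k => if k.1 = 4 then om N H else if k.1 = 1 then 1
    else if k.1 = 2 then kk N k.2.1 + t * y k.2.1
    else if k.1 = 3 then (kk N k.2.2 + t * y k.2.2) * (kk N k.2.1 + t * y k.2.1) else 0
  have cP : ∀ k, Continuous fun t => P t k := fun k => by
    simp only [P]
    split_ifs <;> fun_prop
  have P0 : P 0 = fun k => (pn N H k : ℝ) := funext fun k => by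
    simp only [P, pn, bn]
    split_ifs <;> simp
  let X : ℝ → Kv → ℝ := fun t k => if k.1 = 5 then 3 * om N H * (k.2.1 / 2 + 1 : ℕ) +
    (((chain N H k.2.1).take k.2.2).map (P t)).sum else P t k
  have Xn : ∀ t e r, X t (nm e r) = 3 * om N H * (e / 2 + 1 : ℕ) +
      (((chain N H e).take r).map (P t)).sum := fun t e r => by
    unfold nm
    split_ifs with h
    · simp [X, h]
    · simp [X]
  have tg : ∀ e, ∀ k ∈ chain N H e, k.1 ≠ 5 := fun e k hk => by
    have : ∀ {L R}, k ∈ side N L R → k.1 ≠ 5 := fun hk => by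
      rcases side_tag hk with rfl | ⟨p, -, rfl | rfl⟩ | ⟨p, -, rfl⟩ <;> simp
    unfold chain at hk
    split_ifs at hk
    · exact this hk
    · rcases List.mem_cons.1 hk with rfl | hk
      · simp
      · exact this hk
  refine ⟨X, fun k => ?_, fun k => ?_, fun t ht => ⟨by simp [X, P, prog], by simp [X, P, prog],
    fun k hk hk' => ?_, fun k hk hk' hk'' => ?_, ?_⟩⟩
  · simp only [X]
    split_ifs
    · exact continuous_const.add (continuous_list_sum _ fun k _ => cP k)
    · exact cP k
  · simp only [X, prog, P0]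
    split_ifs
    · rw [← cast_sum]; push_cast; rfl
    · rfl
  · rcases mem_vars.1 hk with rfl | hk | ⟨e, he, r, hr, rfl⟩
    · simp [prog] at hk'
    · rcases mem_prims.1 hk with rfl | rfl | ⟨a, -, rfl⟩ | ⟨b, -, a, -, rfl⟩ <;> simp [prog] at hk'
    · rcases r with _ | r
      · simp [prog, nm] at hk'
      · change _ = X t (nm e r) + X t ((chain N H e).getD r (1, 0, 0))
        rw [Xn, Xn, take_sum_succ _ _ hr (1, 0, 0), add_assoc]
        simp only [X]
        rw [if_neg (tg e _ (by rw [List.getD_eq_getElem _ _ hr]; exact List.getElem_mem _))]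
  · have : k.1 = 3 := by
      by_contra g
      simp only [prog, g, if_false] at hk' hk''
      split_ifs at hk' hk'' <;> omega
    simp [prog, X, P, this]
  · refine List.forall_mem_map.2 fun i hi => ?_
    have hi := List.mem_range.1 hi
    rw [Xn, Xn, List.take_length, List.take_length, chain, chain, if_pos (by omega),
      if_neg (by omega), show (2 * i + 1) / 2 = i by omega, show 2 * i / 2 = i by omega,
      List.getD_eq_getElem _ _ hi, List.map_cons, List.sum_cons]
    have := side_sum (N := N) (X := P t) (by simp [P]) H[i].1 H[i].2 fun p _ => by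
      rcases le_total p.1 p.2 with h | h <;> simp [P, h, mul_comm]
    have h := hy.smul ht.ne' _ (List.getElem_mem hi)
    simp only [P, OfNat.ofNat_ne_one, Nat.reduceEqDiff, if_false, if_true, add_sub_cancel_left] at this
    change _ + P t (4, 0, 0) < _
    linarith

theorem prog_sound (h : WeakReal (Conf.mem (prog N H).conf.pts) (Conf.mem (prog N H).conf.lns)
    (prog N H).conf.csg) : ∃ y, HSat y H := by
  obtain ⟨E, hE⟩ := (prog_wf hH).ranked.sound h
  obtain ⟨X, hX⟩ := (prog_wf hH).sound hE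
  exact hsat_of_sol hH hX

theorem prog_complete {y : ℕ → ℝ} (hy : HSat y H) : StrongReal (Conf.mem (prog N H).conf.pts)
    (Conf.mem (prog N H).conf.lns) (prog N H).conf.csg := by
  obtain ⟨X, h1, h2, h3⟩ := sol_of_hsat (N := N) hy
  exact (prog_wf hH).complete h1 h2 h3

end

end Pool.Agent.Lib.MP_32fe36_lc.ER
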