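import Pool.Agent.Lib.MP_32fe36_lc.ER.EtrPoly
import Pool.Agent.Lib.MP_32fe36_lc.ER.Prog
import Pool.Agent.Lib.MP_32fe36_lc.ER.Graph

/-!
The polynomial-time reduction from the existential theory of the reals.
-/

namespace Pool.Agent.Lib.MP_32fe36_lc.ER

open Set N68a2faeb Pool.Agent.Shared.PolyTime N487b59b3

set_option synthInstance.maxSize 2000

theorem rep_iso {V W : Type} {G : SimpleGraph V} {G' : SimpleGraph W} (e : G' ≃g G) {C : Set Pt}
    {p : V → Pt} (h : IsVisibilityRep G C p) :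
    IsVisibilityRep G' C (p ∘ e) ∧ drawing G' (p ∘ e) = drawing G p := by
  obtain ⟨h1, h2, h3, h4⟩ := h
  refine ⟨⟨h1.comp e.injective, fun a b c n1 n2 n3 => h2 _ _ _ (e.injective.ne n1)
    (e.injective.ne n2) (e.injective.ne n3), fun a => h3 _, fun a b n => ?_⟩, ?_⟩
  · rw [← e.map_adj_iff]
    exact h4 _ _ (e.injective.ne n)
  · unfold drawing
    rw [e.surjective.range_comp]
    congr 1
    ext x
    constructor
    · rintro ⟨a, b, hab, hx⟩
      exact ⟨e a, e b, e.map_adj_iff.2 hab, hx⟩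
    · rintro ⟨a, b, hab, hx⟩
      obtain ⟨a, rfl⟩ := e.surjective a
      obtain ⟨b, rfl⟩ := e.surjective b
      exact ⟨a, b, e.map_adj_iff.1 hab, hx⟩

theorem outside_iso {V W : Type} {G : SimpleGraph V} {G' : SimpleGraph W} (e : G' ≃g G)
    (h : HasOutsideRep G) : HasOutsideRep G' := by
  obtain ⟨C, p, h1, h2, h3⟩ := h
  exact ⟨C, p ∘ e, h1, (rep_iso e h2).1, (rep_iso e h2).2 ▸ h3⟩

theorem inside_iso {V W : Type} {G : SimpleGraph V} {G' : SimpleGraph W} (e : G' ≃g G)
    (h : HasInsideRep G) : HasInsideRep G' := by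
  obtain ⟨C, p, h1, h2, h3⟩ := h
  exact ⟨C, p ∘ e, h1, (rep_iso e h2).1, (rep_iso e h2).2 ▸ h3⟩

/-- Rename the vertices. -/
def renameG {α β : Type} (f : α → β) (I : List α × List (α × α)) : List β × List (β × β) :=
  (I.1.map f, I.2.map fun e => (f e.1, f e.2))

/-- Renaming by an injective map gives an isomorphic graph. -/
noncomputable def renameGIso {α β : Type} {f : α → β} (hf : Function.Injective f)
    (I : List α × List (α × α)) : listGraph I ≃g listGraph (renameG f I) where
  toEquiv := Equiv.ofBijective (fun a => ⟨f a.1, List.mem_map_of_mem a.2⟩) ⟨fun a b h =>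
    Subtype.ext (hf (congrArg Subtype.val h)), fun ⟨_, hb⟩ => by
      obtain ⟨a, ha, rfl⟩ := List.mem_map.1 hb
      exact ⟨⟨a, ha⟩, rfl⟩⟩
  map_rel_iff' := by
    intro a b
    have key : ∀ u v : α, (f u, f v) ∈ (renameG f I).2 ↔ (u, v) ∈ I.2 := by
      intro u v
      simp [renameG, hf.eq_iff]
    simp only [listGraph, SimpleGraph.fromRel_adj, Equiv.ofBijective_apply, key, ne_eq,
      Subtype.ext_iff, hf.eq_iff]

/-- The variables of a system of equations. -/
def rvars (cs : List RCon) : List RV := vO :: vZ :: cs.flatMap fun c => [c.2.1, c.2.2.1, c.2.2.2]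

/-- The numbered system. -/
def toQ (cs : List RCon) : List QC := ([(1, 0)], []) :: cs.map fun c =>
  (if c.1 = true then [((rvars cs).idxOf c.2.1, 0), ((rvars cs).idxOf c.2.2.1, 0)]
    else [((rvars cs).idxOf c.2.1, (rvars cs).idxOf c.2.2.1)], [((rvars cs).idxOf c.2.2.2, 0)])

theorem mem_rvars {cs : List RCon} {c : RCon} (h : c ∈ cs) :
    c.2.1 ∈ rvars cs ∧ c.2.2.1 ∈ rvars cs ∧ c.2.2.2 ∈ rvars cs := by
  refine ⟨?_, ?_, ?_⟩ <;>
    exact List.mem_cons_of_mem _ (List.mem_cons_of_mem _ (List.mem_flatMap.2 ⟨c, h, by simp⟩))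

theorem small_toQ (cs : List RCon) : Small (rvars cs).length (rvars cs).length (toQ cs) := by
  have h2 : 2 ≤ (rvars cs).length := by simp [rvars]
  refine ⟨le_rfl, ?_, ?_, ?_⟩
  · simp [toQ, rvars, List.length_flatMap]; omega
  · refine List.forall_mem_cons.2 ⟨by simp, List.forall_mem_map.2 fun c _ => ?_⟩
    split_ifs <;> simp
  · refine List.forall_mem_cons.2 ⟨by simp; omega, List.forall_mem_map.2 fun c hc => ?_⟩
    obtain ⟨h1, h3, h4⟩ := mem_rvars hc
    have h1 := List.idxOf_lt_length_of_mem h1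
    have h3 := List.idxOf_lt_length_of_mem h3
    have h4 := List.idxOf_lt_length_of_mem h4
    split_ifs <;> simp only [List.cons_append, List.nil_append, List.forall_mem_cons] <;>
      simp <;> omega

theorem toQ_iff (cs : List RCon) :
    (∃ f : RV → ℝ, f vZ = 0 ∧ f vO = 1 ∧ RSat f cs) ↔ ∃ y, ESat y (toQ cs) := by
  constructor
  · rintro ⟨f, h0, h1, h⟩
    have e : ∀ v ∈ rvars cs, (rvars cs).getD ((rvars cs).idxOf v) vZ = v := fun v hv => by
      rw [List.getD_eq_getElem _ _ (List.idxOf_lt_length_of_mem hv), List.getElem_idxOf]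
    have e0 : (rvars cs).getD 0 vZ = vO := rfl
    have e1 : (rvars cs).getD 1 vZ = vZ := rfl
    refine ⟨fun i => f ((rvars cs).getD i vZ), h1, List.forall_mem_cons.2 ⟨?_,
      List.forall_mem_map.2 fun c hc => ?_⟩⟩
    · simp only [qv_cons, qv_nil, e1, h0]; simp
    · obtain ⟨g1, g2, g3⟩ := mem_rvars hc
      have := h c hc
      unfold RHolds at this
      split_ifs at this ⊢ <;> simp only [qv_cons, qv_nil, e _ g1, e _ g2, e _ g3, e0, h1] <;> linarith
  · rintro ⟨y, h0, h⟩
    obtain ⟨h1, h⟩ := List.forall_mem_cons.1 h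
    refine ⟨fun v => y ((rvars cs).idxOf v), ?_, h0, fun c hc => ?_⟩
    · have : (rvars cs).idxOf vZ = 1 := by simp [rvars, vZ, vO]
      simpa [this, qv, h0] using h1
    · have := List.forall_mem_map.1 h c hc
      unfold RHolds
      split_ifs at this ⊢ <;> simp only [qv_cons, qv_nil, h0] at this <;> linarith

/-- The program attached to a system of equations. -/
def progOf (cs : List RCon) : Slp Kv :=
  prog (27 * (rvars cs).length + 57) (toHQ (rvars cs).length (rvars cs).length (toQ cs))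

/-- The graph attached to a system of equations. -/
noncomputable def red (fl : Bool) (cs : List RCon) : List ℕ × List (ℕ × ℕ) :=
  renameG numberOf (ggraph fl ((0, (0, 0, 0), (0, 0, 0)), true, true)
    (Conf.mem (progOf cs).conf.pts) (Conf.mem (progOf cs).conf.lns) (progOf cs).conf.csg)

theorem red_yes {cs : List RCon} (h : ∃ f : RV → ℝ, f vZ = 0 ∧ f vO = 1 ∧ RSat f cs) :
    HasOutsideRep (listGraph (red false cs)) ∧ HasInsideRep (listGraph (red true cs)) := by
  obtain ⟨y, hy⟩ := (small_toQ cs).hq_iff.1 ((toQ_iff cs).1 h)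
  have := ggraph_yes (d := ((0, (0, 0, 0), (0, 0, 0)), true, true))
    (prog_complete (small_toQ cs).toHQ_idx hy)
  exact ⟨outside_iso (renameGIso numberOf_injective _).symm this.1,
    inside_iso (renameGIso numberOf_injective _).symm this.2⟩

theorem red_no {fl : Bool} {cs : List RCon} {C : Set Pt} {p} (h1 : IsObstacle C)
    (h2 : IsVisibilityRep (listGraph (red fl cs)) C p) :
    ∃ f : RV → ℝ, f vZ = 0 ∧ f vO = 1 ∧ RSat f cs :=
  (toQ_iff cs).2 ((small_toQ cs).hq_iff.2 (prog_sound (small_toQ cs).toHQ_idx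
    (ggraph_no h1 (rep_iso (renameGIso numberOf_injective _) h2).1)))

section
variable {α : Type} [N487b59b3 α] {N : α → ℕ} {H : α → List QC}

theorem pt_rvars : IsPolyTime rvars := by unfold rvars; fun_prop

theorem pt_toQ : IsPolyTime toQ := by
  have := pt_rvars
  unfold toQ; fun_prop

theorem pt_toHQ {Q : α → List QC} (hN : IsPolyTime N) (bN : PolyBdd N) (hQ : IsPolyTime Q) :
    IsPolyTime fun x => toHQ (N x) (N x) (Q x) := by
  unfold toHQ tri; fun_prop

@[fun_prop] theorem pt_kk {a : α → ℕ} (hN : IsPolyTime N) (ha : IsPolyTime a) :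
    IsPolyTime fun x => kk (N x) (a x) := by
  unfold kk; fun_prop

@[fun_prop] theorem pb_kk {a : α → ℕ} (bN : PolyBdd N) : PolyBdd fun x => kk (N x) (a x) :=
  PolyBdd.of_le (g := fun x => 9 * (N x * N x) + 4 + 3 * N x) (by fun_prop) fun x => by
    unfold kk; omega

@[fun_prop] theorem pt_bn {k : α → Kv} (hN : IsPolyTime N) (hk : IsPolyTime k) :
    IsPolyTime fun x => bn (N x) (k x) := by
  unfold bn; fun_prop

@[fun_prop] theorem pt_side {L R : α → QL} (hN : IsPolyTime N) (bN : PolyBdd N) (hL : IsPolyTime L)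
    (hR : IsPolyTime R) : IsPolyTime fun x => side (N x) (L x) (R x) := by
  have h1 : IsPolyTime fun x : α × ℕ × ℕ => N x.1 := by fun_prop
  have h2 : PolyBdd fun x : α × ℕ × ℕ => N x.1 := bN.comp (by fun_prop)
  unfold side posL negL; fun_prop

@[fun_prop] theorem pt_om (hN : IsPolyTime N) (bN : PolyBdd N) (hH : IsPolyTime H) :
    IsPolyTime fun x => om (N x) (H x) := by
  have h2 : PolyBdd fun x : α × QC => N x.1 := bN.comp (by fun_prop)
  unfold om; fun_prop

@[fun_prop] theorem pt_pn {k : α → Kv} (hN : IsPolyTime N) (bN : PolyBdd N) (hH : IsPolyTime H)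
    (hk : IsPolyTime k) : IsPolyTime fun x => pn (N x) (H x) (k x) := by
  unfold pn; fun_prop

@[fun_prop] theorem pt_chain {e : α → ℕ} (hN : IsPolyTime N) (bN : PolyBdd N) (hH : IsPolyTime H)
    (he : IsPolyTime e) : IsPolyTime fun x => chain (N x) (H x) (e x) := by
  unfold chain; fun_prop

@[fun_prop] theorem pt_nm {e r : α → ℕ} (he : IsPolyTime e) (hr : IsPolyTime r) :
    IsPolyTime fun x => nm (e x) (r x) := by
  unfold nm; fun_prop

@[fun_prop] theorem pt_xs (hN : IsPolyTime N) (bN : PolyBdd N) : IsPolyTime fun x => xs (N x) := by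
  unfold xs; fun_prop

@[fun_prop] theorem pt_ss (hN : IsPolyTime N) (bN : PolyBdd N) : IsPolyTime fun x => ss (N x) := by
  have h2 : PolyBdd fun x : α × ℕ => N x.1 := bN.comp (by fun_prop)
  refine IsPolyTime.of_eq (f := fun x => (List.range (N x)).flatMap fun b =>
    (List.range (min b (N x) + 1)).map fun a => (3, a, b)) (by fun_prop) fun x => ?_
  exact List.flatMap_congr fun b hb => by rw [min_eq_left (List.mem_range.1 hb).le]

/-- All parts of the program are computable in polynomial time. -/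
structure PtSlp (S : α → Slp Kv) : Prop where
  vars : IsPolyTime fun x => (S x).vars
  kind : IsPolyTime fun x : α × Kv => (S x.1).kind x.2
  pred : IsPolyTime fun x : α × Kv => (S x.1).pred x.2
  arg : IsPolyTime fun x : α × Kv => (S x.1).arg x.2
  prims : IsPolyTime fun x => (S x).prims
  mults : IsPolyTime fun x => (S x).mults
  tests : IsPolyTime fun x => (S x).tests
  zero : IsPolyTime fun x => (S x).zero
  one : IsPolyTime fun x => (S x).one
  nom : IsPolyTime fun x : α × Kv => (S x.1).nom x.2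

theorem pt_prog (hN : IsPolyTime N) (bN : PolyBdd N) (hH : IsPolyTime H) :
    PtSlp fun x => prog (N x) (H x) := by
  have h1 : PolyBdd fun x : α × ℕ => N x.1 := bN.comp (by fun_prop)
  have h2 : PolyBdd fun x : α × Kv => N x.1 := bN.comp (by fun_prop)
  have h3 : PolyBdd fun x : (α × Kv) × Kv => N x.1.1 := bN.comp (by fun_prop)
  constructor <;> simp only [prog] <;> fun_prop

variable {S : α → Slp Kv}

theorem PtSlp.pts (h : PtSlp S) : IsPolyTime fun x => (S x).pts := by
  obtain ⟨h1, h2, h3, h4, h5, h6, h7, h8, h9, h10⟩ := h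
  have g1 : IsPolyTime fun x => (S x).vars.filter fun k => decide ((S x).kind k ≠ 0) :=
    IsPolyTime.filter (by fun_prop) h1
  have g2 : IsPolyTime fun x => ((S x).vars.filter fun k => decide ((S x).kind k ≠ 0)).map
      fun k => ((2, (S x).pred k, k) : Ob Kv) :=
    IsPolyTime.map (IsPolyTime.pair (by fun_prop) (h3.pair (by fun_prop))) g1
  have g3 : IsPolyTime fun x : α × Kv => (S x.1).zero := h8.comp (by fun_prop)
  have g4 : IsPolyTime fun x : α × Kv => (S x.1).one := h9.comp (by fun_prop)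
  unfold Slp.pts
  exact IsPolyTime.append (IsPolyTime.append (by fun_prop) g2) (by fun_prop)

theorem PtSlp.lns (h : PtSlp S) : IsPolyTime fun x => (S x).lns := by
  obtain ⟨h1, h2, h3, h4, h5, h6, h7, h8, h9, h10⟩ := h
  unfold Slp.lns; fun_prop

theorem PtSlp.par1 (h : PtSlp S) : IsPolyTime fun x : α × Ob Kv => (S x.1).par1 x.2 := by
  have h8 : IsPolyTime fun x : α × Ob Kv => (S x.1).zero := h.zero.comp (by fun_prop)
  unfold Slp.par1; fun_prop

theorem PtSlp.par2 (h : PtSlp S) : IsPolyTime fun x : α × Ob Kv => (S x.1).par2 x.2 := by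
  have h8 : IsPolyTime fun x : α × Ob Kv => (S x.1).zero := h.zero.comp (by fun_prop)
  have h9 : IsPolyTime fun x : α × Ob Kv => (S x.1).one := h.one.comp (by fun_prop)
  have h1 : IsPolyTime fun x : α × Ob Kv => (S x.1).kind x.2.2.1 :=
    h.kind.comp (g := fun x : α × Ob Kv => (x.1, x.2.2.1)) (by fun_prop)
  have h2 : IsPolyTime fun x : α × Ob Kv => (S x.1).kind x.2.2.2 :=
    h.kind.comp (g := fun x : α × Ob Kv => (x.1, x.2.2.2)) (by fun_prop)
  have h3 : IsPolyTime fun x : α × Ob Kv => (S x.1).arg x.2.2.2 :=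
    h.arg.comp (g := fun x : α × Ob Kv => (x.1, x.2.2.2)) (by fun_prop)
  have h4 : IsPolyTime fun x : α × Ob Kv => (S x.1).pred x.2.2.1 :=
    h.pred.comp (g := fun x : α × Ob Kv => (x.1, x.2.2.1)) (by fun_prop)
  unfold Slp.par2; fun_prop

theorem PtSlp.vec (h : PtSlp S) :
    IsPolyTime fun x : α × Ob Kv => vec (fun k => ((S x.1).nom k : ℤ)) x.2 := by
  have h1 : IsPolyTime fun x : α × Ob Kv => (S x.1).nom x.2.2.1 :=
    h.nom.comp (g := fun x : α × Ob Kv => (x.1, x.2.2.1)) (by fun_prop)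
  have h2 : IsPolyTime fun x : α × Ob Kv => (S x.1).nom x.2.2.2 :=
    h.nom.comp (g := fun x : α × Ob Kv => (x.1, x.2.2.2)) (by fun_prop)
  unfold ER.vec; fun_prop

theorem PtSlp.csg (h : PtSlp S) : IsPolyTime
    fun x : α × (Ob Kv × Bool × Bool) × (Ob Kv × Bool × Bool) => (S x.1).conf.csg x.2.1 x.2.2 := by
  have h0 : IsPolyTime fun x : (ℤ × ℤ × ℤ) × (ℤ × ℤ × ℤ) => decide (0 < dotZ x.1 x.2) := by
    unfold dotZ; fun_prop
  have e1 : IsPolyTime fun x : α × (Ob Kv × Bool × Bool) × (Ob Kv × Bool × Bool) => (x.1, x.2.1.1) := by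
    fun_prop
  have e2 : IsPolyTime fun x : α × (Ob Kv × Bool × Bool) × (Ob Kv × Bool × Bool) => (x.1, x.2.2.1) := by
    fun_prop
  have h1 := h.par1.comp e1
  have h2 := h.par1.comp e2
  have h3 := h.par2.comp e1
  have h4 := h.par2.comp e2
  have h5 := h0.comp ((h.vec.comp e1).pair (h.vec.comp e2))
  unfold Conf.csg Slp.conf Slp.sg
  dsimp only at h1 h2 h3 h4 h5 ⊢
  refine IsPolyTime.ite (IsPolyTime.decide_eq (by fun_prop) h1) (by fun_prop)
    (IsPolyTime.ite (IsPolyTime.decide_eq (by fun_prop) h3) (by fun_prop)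
    (IsPolyTime.ite (IsPolyTime.decide_eq (by fun_prop) h2) (by fun_prop)
    (IsPolyTime.ite (IsPolyTime.decide_eq (by fun_prop) h4) (by fun_prop) h5)))

@[fun_prop] theorem pt_hsee {a b : α → ℕ} (ha : IsPolyTime a) (hb : IsPolyTime b) :
    IsPolyTime fun x => hsee (a x) (b x) := by
  unfold hsee fx fy; fun_prop

theorem pt_ggraph {P : Type} [N487b59b3 P] (fl : Bool) (d : P) {pts lns : α → List P}
    {sg : α → P → P → Bool} (h1 : IsPolyTime pts) (h2 : IsPolyTime lns)
    (h3 : IsPolyTime fun x : α × P × P => sg x.1 x.2.1 x.2.2) :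
    IsPolyTime fun x => renameG numberOf (ggraph fl d (pts x) (lns x) (sg x)) := by
  classical
  have g1 : IsPolyTime fun x => gverts fl d (pts x) (lns x) := by
    unfold gverts; fun_prop
  have g2 := isPolyTime_numberOf (V := Gv P)
  have g3 : IsPolyTime fun x : α × Gv P × Gv P => sg x.1 x.2.2.2.2.2.2 x.2.1.2.2.2.2 :=
    h3.comp (g := fun x : α × Gv P × Gv P => (x.1, x.2.2.2.2.2.2, x.2.1.2.2.2.2)) (by fun_prop)
  unfold renameG ggraph
  refine IsPolyTime.pair (by fun_prop) (IsPolyTime.map (by fun_prop) (IsPolyTime.filter ?_ ?_))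
  · unfold grel
    fun_prop
  · have h4 : IsPolyTime (fun l : List (Gv P) => l.flatMap fun u => l.map fun v => (u, v)) := by
      fun_prop
    exact h4.comp g1

end

theorem pt_red (fl : Bool) : IsPolyTime (red fl) := by
  have h1 := pt_rvars
  have h : PtSlp progOf := pt_prog (by fun_prop) (by fun_prop)
    (pt_toHQ (by fun_prop) (by fun_prop) pt_toQ)
  have hm : IsPolyTime (Conf.mem (O := Ob Kv)) := by unfold Conf.mem; fun_prop
  exact pt_ggraph fl _ (hm.comp h.pts) (hm.comp h.lns) h.csg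

theorem etr_outside : ∃ f : List Bool → List ℕ × List (ℕ × ℕ), IsPolyTime f ∧
    ∀ s, (ETR s = true ↔ HasOutsideRep (listGraph (f s))) :=
  ⟨_, (pt_red false).comp (pt_tse.comp pt_wordOf), fun s => (etr_iff s).trans
    ⟨fun h => (red_yes h).1, fun ⟨_, _, h1, h2, _⟩ => red_no h1 h2⟩⟩

theorem etr_inside : ∃ f : List Bool → List ℕ × List (ℕ × ℕ), IsPolyTime f ∧
    ∀ s, (ETR s = true ↔ HasInsideRep (listGraph (f s))) :=
  ⟨_, (pt_red true).comp (pt_tse.comp pt_wordOf), fun s => (etr_iff s).trans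
    ⟨fun h => (red_yes h).2, fun ⟨_, _, h1, h2, _⟩ => red_no h1 h2⟩⟩

end Pool.Agent.Lib.MP_32fe36_lc.ER
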