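import Pool.Agent.Lib.MP_32fe36_lc.ER.Faces
import Pool.Agent.Lib.MP_32fe36_lc.ER.Hard

/-!
Both recognition problems reduce to the existential theory of the reals, and so does every
problem in NP.
-/

namespace Pool.Agent.Lib.MP_32fe36_lc.ER

open N68a2faeb N793a5b8e Pool.Agent.Shared.PolyTime N487b59b3

abbrev TP : Type := Tm × Tm

def pev (x : ℕ → ℝ) (P : TP) : Pt := (P.1.eval x, P.2.eval x)
def pv (k i : ℕ) : TP := (.var (6 * i + 2 * k), .var (6 * i + 2 * k + 1))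
def subT (s t : Tm) : Tm := .add s (.neg t)
def crT (A B C : TP) : Tm :=
  subT (.mul (subT B.1 A.1) (subT C.2 A.2)) (.mul (subT B.2 A.2) (subT C.1 A.1))
def allF {β : Type} (l : List β) (f : β → Fm) : Fm := bigAnd (l.map f)
def anyF {β : Type} (l : List β) (f : β → Fm) : Fm := .not (allF l fun b => .not (f b))
def impF (φ ψ : Fm) : Fm := .or (.not φ) ψ
def ifF (c : Prop) [Decidable c] (φ : Fm) : Fm := if c then φ else .eq .zero .zero

def le5F (A B Z W : TP) : Fm :=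
  .and (impF (.lt .zero (crT A B Z)) (.lt .zero (crT A B W))) (.and (impF (.lt A.1 Z.1) (.lt A.1 W.1))
    (.and (impF (.lt Z.1 A.1) (.lt W.1 A.1)) (.and (impF (.lt A.2 Z.2) (.lt A.2 W.2))
      (impF (.lt Z.2 A.2) (.lt W.2 A.2)))))
def segF (A B Z : TP) : Fm :=
  .and (.not (.lt .zero (crT A B Z))) (.and (.not (.lt .zero (crT B A Z)))
    (.and (.not (.and (.lt A.1 Z.1) (.lt B.1 Z.1))) (.and (.not (.and (.lt Z.1 A.1) (.lt Z.1 B.1)))
      (.and (.not (.and (.lt A.2 Z.2) (.lt B.2 Z.2))) (.not (.and (.lt Z.2 A.2) (.lt Z.2 B.2)))))))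
def triF (A B C Z W : TP) : Fm :=
  .and (.le .zero W.1) (.and (.le .zero W.2) (.and (.le (.add W.1 W.2) .one)
    (.and (.eq Z.1 (.add C.1 (.add (.mul W.1 (subT A.1 C.1)) (.mul W.2 (subT B.1 C.1)))))
      (.eq Z.2 (.add C.2 (.add (.mul W.1 (subT A.2 C.2)) (.mul W.2 (subT B.2 C.2))))))))

def genF (V : List ℕ) : Fm :=
  .and (allF V fun a => allF V fun b =>
      ifF (a ≠ b) (.not (.and (.eq (pv 0 a).1 (pv 0 b).1) (.eq (pv 0 a).2 (pv 0 b).2))))
    (allF V fun a => allF V fun b => allF V fun c =>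
      ifF (a ≠ b ∧ a ≠ c ∧ b ≠ c) (.not (.eq (crT (pv 0 a) (pv 0 b) (pv 0 c)) .zero)))
def leF (V : List ℕ) (j i : ℕ) : Fm :=
  allF V fun a => allF V fun b => le5F (pv 0 a) (pv 0 b) (pv 1 j) (pv 1 i)
def chainF (V : List ℕ) (E : List (ℕ × ℕ)) (R : List ℕ) : Fm :=
  .and (allF R fun i => allF V fun a => allF V fun b =>
      ifF (a = b ∨ (a, b) ∈ E ∨ (b, a) ∈ E) (.not (segF (pv 0 a) (pv 0 b) (pv 1 i))))
    (.and (allF R fun i => ifF (0 < i)
        (anyF (R.filter fun j => decide (j < i)) fun j => .or (leF V j i) (leF V i j)))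
      (allF V fun a => allF V fun b => ifF (¬ (a = b ∨ (a, b) ∈ E ∨ (b, a) ∈ E))
        (anyF R fun i => segF (pv 0 a) (pv 0 b) (pv 1 i))))
def outF (V : List ℕ) : Fm :=
  allF V fun v => .lt (.add (.mul (pv 1 0).1 (pv 0 v).1) (.mul (pv 1 0).2 (pv 0 v).2))
    (.add (.mul (pv 1 0).1 (pv 1 0).1) (.mul (pv 1 0).2 (pv 1 0).2))
def inF (V : List ℕ) (E : List (ℕ × ℕ)) : Fm :=
  .and (anyF V fun a => anyF V fun b => anyF V fun c =>
      triF (pv 0 a) (pv 0 b) (pv 0 c) (pv 1 0) (pv 2 0))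
    (allF V fun a => allF V fun b => ifF (¬ (a = b ∨ (a, b) ∈ E ∨ (b, a) ∈ E))
      (anyF V fun c => .lt .zero (crT (pv 0 a) (pv 0 b) (pv 0 c))))
def nOf (V : List ℕ) : ℕ := (V.length * V.length * 5 + 1) ^ 3
def baseF (I : List ℕ × List (ℕ × ℕ)) : Fm :=
  .and (genF I.1) (chainF I.1 I.2 (List.range (nOf I.1 + 1)))

variable {x : ℕ → ℝ}

theorem ev_cr (A B C : TP) : (crT A B C).eval x = cr (pev x A) (pev x B) (pev x C) := by
  simp [crT, subT, Tm.eval, cr, pev, sub_eq_add_neg]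

theorem holds_allF {β : Type} (l : List β) (f : β → Fm) :
    (allF l f).Holds x ↔ ∀ b ∈ l, (f b).Holds x := by
  simp [allF, holds_bigAnd]

theorem holds_anyF {β : Type} (l : List β) (f : β → Fm) :
    (anyF l f).Holds x ↔ ∃ b ∈ l, (f b).Holds x := by
  simp [anyF, holds_allF, Fm.Holds]

theorem holds_ifF (c : Prop) [Decidable c] (φ : Fm) : (ifF c φ).Holds x ↔ (c → φ.Holds x) := by
  unfold ifF; split_ifs with h <;> simp [h, Fm.Holds]

theorem holds_le5F (A B Z W : TP) :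
    (le5F A B Z W).Holds x ↔ Le5 (pev x A) (pev x B) (pev x Z) (pev x W) := by
  simp only [le5F, impF, Fm.Holds, ev_cr, ← imp_iff_not_or]; rfl

theorem holds_segF (A B Z : TP) :
    (segF A B Z).Holds x ↔ pev x Z ∈ segment ℝ (pev x A) (pev x B) := by
  rw [← onSeg_iff]
  simp only [segF, Fm.Holds, ev_cr]; rfl

theorem exists_assign (g : ℕ → ℕ → Pt) : ∃ x, ∀ k < 3, ∀ i, pev x (pv k i) = g k i := by
  refine ⟨fun n => if n % 2 = 0 then (g (n % 6 / 2) (n / 6)).1 else (g (n % 6 / 2) (n / 6)).2,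
    fun k hk i => ?_⟩
  simp only [pev, pv, Tm.eval]
  rw [if_pos (by omega), if_neg (by omega), show (6 * i + 2 * k) % 6 / 2 = k by omega,
    show (6 * i + 2 * k) / 6 = i by omega, show (6 * i + 2 * k + 1) % 6 / 2 = k by omega,
    show (6 * i + 2 * k + 1) / 6 = i by omega]

variable {V : List ℕ} {E : List (ℕ × ℕ)}

theorem adj_iff (a b : {a // a ∈ V}) : (a = b ∨ (listGraph (V, E)).Adj a b) ↔
    (a.1 = b.1 ∨ (a.1, b.1) ∈ E ∨ (b.1, a.1) ∈ E) := by
  simp only [listGraph, SimpleGraph.fromRel_adj, Subtype.val_inj]; tauto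

theorem nadj_iff (a b : {a // a ∈ V}) {P : Prop} : (a ≠ b → ¬ (listGraph (V, E)).Adj a b → P) ↔
    (¬ (a.1 = b.1 ∨ (a.1, b.1) ∈ E ∨ (b.1, a.1) ∈ E) → P) := by
  rw [← adj_iff]; tauto

theorem holds_baseF : (baseF (V, E)).Holds x ↔
    Gen (fun a : {a // a ∈ V} => pev x (pv 0 a)) ∧
      Chain (listGraph (V, E)) (fun a => pev x (pv 0 a)) (nOf V) fun i => pev x (pv 1 i) := by
  simp only [baseF, genF, chainF, leF, Fm.Holds, holds_allF, holds_anyF, holds_ifF, holds_le5F,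
    holds_segF, ev_cr, List.mem_range, List.mem_filter, decide_eq_true_eq, Nat.lt_succ_iff, Gen, Chain,
    mem_drawing, adj_iff, nadj_iff, Le]
  refine and_congr (and_congr ?_ ?_) (and_congr ?_ (and_congr ?_ ?_))
  · exact ⟨fun h a b e => Subtype.ext (by_contra fun g => h a a.2 b b.2 g (Prod.ext_iff.1 e)),
      fun h a ha b hb g e => g (congrArg Subtype.val (@h ⟨a, ha⟩ ⟨b, hb⟩ (Prod.ext_iff.2 e)))⟩
  · exact ⟨fun h a b c u v w => h a a.2 b b.2 c c.2
        ⟨Subtype.val_injective.ne u, Subtype.val_injective.ne v, Subtype.val_injective.ne w⟩,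
      fun h a ha b hb c hc g => h ⟨a, ha⟩ ⟨b, hb⟩ ⟨c, hc⟩ (fun e => g.1 (congrArg Subtype.val e))
        (fun e => g.2.1 (congrArg Subtype.val e)) fun e => g.2.2 (congrArg Subtype.val e)⟩
  · exact forall₂_congr fun i _ => ⟨fun h ⟨a, b, u, v⟩ => h a a.2 b b.2 u v,
      fun h a ha b hb u v => h ⟨⟨a, ha⟩, ⟨b, hb⟩, u, v⟩⟩
  · simp only [Subtype.forall]
    refine forall_congr' fun i => ⟨fun h a b => ?_, fun h a b => ?_⟩
    · obtain ⟨j, u, v⟩ := h b a
      exact ⟨j, u.2, v⟩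
    · obtain ⟨j, u, v⟩ := h b a
      exact ⟨j, ⟨by omega, u⟩, v⟩
  · simp only [Subtype.forall]

theorem card_le : (Fintype.card {a // a ∈ V} * Fintype.card {a // a ∈ V} * 5 + 1) ^ 3 ≤ nOf V := by
  have : Fintype.card {a // a ∈ V} ≤ V.length := by
    rw [Fintype.card_of_subtype V.toFinset (by simp)]
    exact V.toFinset_card_le
  unfold nOf
  gcongr

theorem exists_assign' (p : {a // a ∈ V} → Pt) (z : ℕ → Pt) (w : Pt) : ∃ x,
    (fun a : {a // a ∈ V} => pev x (pv 0 a)) = p ∧ (fun i => pev x (pv 1 i)) = z ∧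
      pev x (pv 2 0) = w := by
  obtain ⟨x, h⟩ := exists_assign fun k i => if k = 0 then Function.extend Subtype.val p 0 i
    else if k = 1 then z i else w
  refine ⟨x, funext fun a => ?_, funext fun i => ?_, ?_⟩ <;> rw [h _ (by omega)]
  · rw [if_pos rfl, Subtype.val_injective.extend_apply]
  · rfl
  · rfl

theorem out_iff : (∃ x, (Fm.and (baseF (V, E)) (outF V)).Holds x) ↔ HasOutsideRep (listGraph (V, E)) := by
  rw [outside_iff (G := listGraph (V, E)) card_le]
  simp only [Fm.Holds, holds_baseF, outF, holds_allF, Tm.eval]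
  constructor
  · rintro ⟨x, ⟨h1, h2⟩, h3⟩
    exact ⟨_, _, h1, h2, fun v => h3 v v.2⟩
  · rintro ⟨p, z, h1, h2, h3⟩
    obtain ⟨x, rfl, rfl, -⟩ := exists_assign' p z 0
    exact ⟨x, ⟨h1, h2⟩, fun v hv => h3 ⟨v, hv⟩⟩

theorem in_iff : (∃ x, (Fm.and (baseF (V, E)) (inF V E)).Holds x) ↔ HasInsideRep (listGraph (V, E)) := by
  rw [inside_iff (G := listGraph (V, E)) card_le]
  simp only [Fm.Holds, holds_baseF, inF, holds_allF, holds_anyF, holds_ifF, Tm.eval, nadj_iff, ev_cr,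
    triF, subT]
  constructor
  · rintro ⟨x, ⟨h1, h2⟩, ⟨a, ha, b, hb, c, hc, t1, t2, t3, t4, t5⟩, h4⟩
    refine ⟨_, _, h1, h2, ⟨⟨a, ha⟩, ⟨b, hb⟩, ⟨c, hc⟩, _, _, _, t1, t2, sub_nonneg.2 t3, by ring,
      t4.trans (by simp only [pev]; ring), t5.trans (by simp only [pev]; ring)⟩, fun a b g => ?_⟩
    obtain ⟨c, hc, g'⟩ := h4 a a.2 b b.2 g
    exact ⟨⟨c, hc⟩, g'⟩
  · rintro ⟨p, z, h1, h2, ⟨a, b, c, u, v, w, t1, t2, t3, t4, t5, t6⟩, h4⟩
    obtain ⟨x, rfl, rfl, e⟩ := exists_assign' p z (u, v)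
    have e1 : (pv 2 0).1.eval x = u := congrArg Prod.fst e
    have e2 : (pv 2 0).2.eval x = v := congrArg Prod.snd e
    have e3 : w = 1 - u - v := by linarith
    rw [e3] at t5 t6
    refine ⟨x, ⟨h1, h2⟩, ⟨a, a.2, b, b.2, c, c.2, ?_⟩, fun a ha b hb g => ?_⟩
    · rw [e1, e2]
      exact ⟨t1, t2, by linarith, t5.trans (by simp only [pev]; ring),
        t6.trans (by simp only [pev]; ring)⟩
    · obtain ⟨c, g'⟩ := h4 ⟨a, ha⟩ ⟨b, hb⟩ g
      exact ⟨c, c.2, g'⟩

section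
variable {α β : Type} [N487b59b3 α] [N487b59b3 β]

set_option synthInstance.maxSize 2000

/-- formulas whose code is computed in polynomial time -/
def PtF (φ : α → Fm) : Prop := IsPolyTime fun a => (φ a).code

theorem PtF.all {l : α → List β} {f : α → β → Fm} (hl : IsPolyTime l)
    (hf : PtF fun p : α × β => f p.1 p.2) : PtF fun a => allF (l a) (f a) := by
  simp only [PtF, allF, code_bigAnd, List.flatMap_map] at hf ⊢
  exact IsPolyTime.append (by fun_prop) (IsPolyTime.flatMap (hf.append (by fun_prop)) hl)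

theorem PtF.not {f : α → Fm} (hf : PtF f) : PtF fun a => (f a).not :=
  IsPolyTime.append hf (by fun_prop)

theorem PtF.and {f g : α → Fm} (hf : PtF f) (hg : PtF g) : PtF fun a => (f a).and (g a) :=
  (IsPolyTime.append hf hg).append (by fun_prop)

theorem PtF.or {f g : α → Fm} (hf : PtF f) (hg : PtF g) : PtF fun a => (f a).or (g a) :=
  (IsPolyTime.append hf hg).append (by fun_prop)

theorem PtF.any {l : α → List β} {f : α → β → Fm} (hl : IsPolyTime l)
    (hf : PtF fun p : α × β => f p.1 p.2) : PtF fun a => anyF (l a) (f a) :=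
  (PtF.all (f := fun a b => (f a b).not) hl hf.not).not

theorem PtF.ifF {c : α → Prop} [∀ a, Decidable (c a)] {f : α → Fm}
    (hc : IsPolyTime fun a => decide (c a)) (hf : PtF f) : PtF fun a => ifF (c a) (f a) := by
  simp only [PtF, ER.ifF, apply_ite Fm.code]
  exact IsPolyTime.ite hc hf (by fun_prop)

theorem pt_segF {a b i : α → ℕ} (ha : IsPolyTime a) (hb : IsPolyTime b) (hi : IsPolyTime i) :
    PtF fun s => segF (pv 0 (a s)) (pv 0 (b s)) (pv 1 (i s)) := by
  simp only [PtF, segF, crT, subT, pv, Fm.code, Tm.code]; fun_prop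

theorem pt_leF {l : α → List ℕ} {i j : α → ℕ} (hl : IsPolyTime l) (hi : IsPolyTime i)
    (hj : IsPolyTime j) : PtF fun s => leF (l s) (i s) (j s) := by
  refine PtF.all hl (PtF.all (by fun_prop) ?_)
  simp only [PtF, le5F, impF, crT, subT, pv, Fm.code, Tm.code]; fun_prop

theorem pt_baseF : PtF baseF := by
  have hR : IsPolyTime fun I : List ℕ × List (ℕ × ℕ) => List.range (nOf I.1 + 1) := by
    unfold nOf; fun_prop
  refine PtF.and (PtF.and ?_ ?_) (PtF.and ?_ (PtF.and ?_ ?_))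
  · refine PtF.all (by fun_prop) (PtF.all (by fun_prop) (PtF.ifF (by fun_prop) ?_))
    simp only [PtF, pv, Fm.code, Tm.code]; fun_prop
  · refine PtF.all (by fun_prop) (PtF.all (by fun_prop) (PtF.all (by fun_prop) (PtF.ifF (by fun_prop) ?_)))
    simp only [PtF, crT, subT, pv, Fm.code, Tm.code]; fun_prop
  · exact PtF.all hR (PtF.all (by fun_prop) (PtF.all (by fun_prop) (PtF.ifF (by fun_prop)
      (pt_segF (by fun_prop) (by fun_prop) (by fun_prop)).not)))
  · exact PtF.all hR (PtF.ifF (by fun_prop) (PtF.any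
      (IsPolyTime.filter (by fun_prop) (hR.comp (by fun_prop)))
      ((pt_leF (by fun_prop) (by fun_prop) (by fun_prop)).or
        (pt_leF (by fun_prop) (by fun_prop) (by fun_prop)))))
  · exact PtF.all (by fun_prop) (PtF.all (by fun_prop) (PtF.ifF (by fun_prop)
      (PtF.any (hR.comp (by fun_prop)) (pt_segF (by fun_prop) (by fun_prop) (by fun_prop)))))

theorem pt_outF : PtF fun I : List ℕ × List (ℕ × ℕ) => outF I.1 := by
  refine PtF.all (by fun_prop) ?_
  simp only [PtF, pv, Fm.code, Tm.code]; fun_prop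

theorem pt_inF : PtF fun I : List ℕ × List (ℕ × ℕ) => inF I.1 I.2 := by
  refine PtF.and (PtF.any (by fun_prop) (PtF.any (by fun_prop) (PtF.any (by fun_prop) ?_)))
    (PtF.all (by fun_prop) (PtF.all (by fun_prop) (PtF.ifF (by fun_prop) (PtF.any (by fun_prop) ?_))))
  · simp only [PtF, triF, subT, pv, Fm.code, Tm.code]; fun_prop
  · simp only [PtF, crT, subT, pv, Fm.code, Tm.code]; fun_prop

end

theorem np_subset : ∀ L ∈ NP, L ∈ ExistsR := by
  refine (npHard_satCNF.reduce (B := fun w : List ℕ => ETR (bitEncode w) = true)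
    (fun φ => (allF φ fun c => anyF c fun l =>
      if l.2 = true then .lt .zero (.var l.1) else .not (.lt .zero (.var l.1))).code)
    (PtF.all (by fun_prop) (PtF.any (by fun_prop) ?_)) fun φ => ?_).manyOneReducible ETR
    fun _ => Iff.rfl
  · simp only [PtF, apply_ite Fm.code, Fm.code, Tm.code]; fun_prop
  · simp only [etr_code, holds_allF, holds_anyF, SatCNF]
    constructor
    · rintro ⟨ν, h⟩
      refine ⟨fun i => if ν i = true then 1 else 0, fun c hc => ?_⟩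
      obtain ⟨l, hl, e⟩ := h c hc
      refine ⟨l, hl, ?_⟩
      cases hb : l.2 <;> simp [Fm.Holds, Tm.eval, e, hb]
    · rintro ⟨x, h⟩
      refine ⟨fun i => decide (0 < x i), fun c hc => ?_⟩
      obtain ⟨l, hl, e⟩ := h c hc
      refine ⟨l, hl, ?_⟩
      cases hb : l.2 <;> simpa [Fm.Holds, Tm.eval, hb] using e

open Classical in
theorem complete_of {A : List ℕ × List (ℕ × ℕ) → Prop} {φ : List ℕ × List (ℕ × ℕ) → Fm} (hφ : PtF φ)
    (h1 : ∀ I, (∃ x, (φ I).Holds x) ↔ A I)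
    (h2 : ∃ f : List Bool → List ℕ × List (ℕ × ℕ), IsPolyTime f ∧ ∀ s, (ETR s = true ↔ A (f s)))
    {L : DecisionProblem} (hL : ∀ w, L w = true ↔ ∃ V E, w = bitEncode (V, E) ∧ A (V, E)) :
    IsCompleteFor ExistsR L ∧ ∀ K ∈ NP, ManyOneReducible K L := by
  have hard : ∀ K ∈ ExistsR, ManyOneReducible K L := fun K hK => by
    obtain ⟨f, hf, h⟩ := h2
    refine manyOneReducible_trans hK ⟨fun s => bitEncode (f s), hf.bitEncode, fun s => ?_⟩
    rw [Bool.eq_iff_iff, h, hL]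
    exact ⟨fun g => ⟨_, _, rfl, g⟩, fun ⟨V, E, e, g⟩ => by rwa [bitEncode_injective e]⟩
  refine ⟨⟨?_, hard⟩, fun K hK => hard K (np_subset K hK)⟩
  let d : List Bool → List ℕ × List (ℕ × ℕ) := fun w => (bitDecode w).getD ([], [])
  have hd : IsPolyTime d := by fun_prop
  refine ⟨fun w => if bitEncode (d w) = w then bitEncode (φ (d w)).code else [],
    IsPolyTime.ite (by fun_prop) (IsPolyTime.bitEncode (hφ.comp hd)) (by fun_prop), fun w => ?_⟩
  rw [Bool.eq_iff_iff, hL]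
  beta_reduce
  split_ifs with h
  · rw [etr_code, h1]
    exact ⟨fun ⟨V, E, e, g⟩ => by rwa [bitEncode_injective (h.trans e)], fun g => ⟨_, _, h.symm, g⟩⟩
  · rw [etr_nil]
    refine iff_of_false ?_ (by simp)
    rintro ⟨V, E, rfl, -⟩
    exact h (by simp [d])

theorem complete_outside {L : DecisionProblem}
    (hL : ∀ w, L w = true ↔ ∃ (V : List ℕ) (E : List (ℕ × ℕ)), w = bitEncode (V, E) ∧
      HasOutsideRep (listGraph (V, E))) :
    IsCompleteFor ExistsR L ∧ ∀ K ∈ NP, ManyOneReducible K L :=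
  complete_of (A := fun I => HasOutsideRep (listGraph I)) (pt_baseF.and pt_outF) (fun _ => out_iff)
    etr_outside hL

theorem complete_inside {L : DecisionProblem}
    (hL : ∀ w, L w = true ↔ ∃ (V : List ℕ) (E : List (ℕ × ℕ)), w = bitEncode (V, E) ∧
      HasInsideRep (listGraph (V, E))) :
    IsCompleteFor ExistsR L ∧ ∀ K ∈ NP, ManyOneReducible K L :=
  complete_of (A := fun I => HasInsideRep (listGraph I)) (pt_baseF.and pt_inF) (fun _ => in_iff)
    etr_inside hL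

end Pool.Agent.Lib.MP_32fe36_lc.ER
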