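import Pool.Agent.Lib.MP_32fe36_lc.ER.Single
import Pool.Agent.Lib.MP_32fe36_lc.ObsDefs

/-!
Representations with several obstacles are described by an existential formula.
-/

namespace Pool.Agent.Lib.MP_32fe36_lc.ER

open Set N68a2faeb N793a5b8e Pool.Agent.Shared.PolyTime N487b59b3

section
variable {V : Type} {G : SimpleGraph V} {p : V → Pt}

/-- Sample points in `m` blocks, each block inside one face. -/
def MChain (G : SimpleGraph V) (p : V → Pt) (m N : ℕ) (z : ℕ → Pt) : Prop :=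
  (∀ i < m * (N + 1), z i ∉ drawing G p) ∧
    (∀ i < m * (N + 1), i % (N + 1) ≠ 0 → ∃ j < i, Le p (z j) (z i) ∨ Le p (z i) (z j)) ∧
    ∀ a b, a ≠ b → ¬ G.Adj a b → ∃ i < m * (N + 1), z i ∈ segment ℝ (p a) (p b)

theorem rep_of_mchain [Finite V] (hp : Gen p) {m N : ℕ} {z : ℕ → Pt} (h : MChain G p m N z) :
    HasObsRep G m := by
  classical
  obtain ⟨h1, h2, h3⟩ := h
  have hz : ∀ i < m * (N + 1), ∃ t < m,
      z i ∈ connectedComponentIn (drawing G p)ᶜ (z (t * (N + 1))) := by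
    intro i
    induction i using Nat.strong_induction_on with
    | _ i ih =>
      intro hi
      by_cases e : i % (N + 1) = 0
      · refine ⟨i / (N + 1), Nat.div_lt_of_lt_mul (by rwa [mul_comm]), ?_⟩
        rw [Nat.div_mul_cancel (Nat.dvd_of_mod_eq_zero e)]
        exact mem_connectedComponentIn (h1 i hi)
      obtain ⟨j, hj, g⟩ := h2 i hi e
      obtain ⟨t, ht, k⟩ := ih j hj (by omega)
      refine ⟨t, ht, ?_⟩
      rw [connectedComponentIn_eq k]
      refine (convex_segment (z j) (z i)).isPreconnected.subset_connectedComponentIn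
        (left_mem_segment _ _ _) ?_ (right_mem_segment _ _ _)
      rcases g with g | g
      · exact g.subset (h1 j (by omega))
      · rw [segment_symm]; exact g.subset (h1 i hi)
  have key : ∀ F : Set Pt, ∃ C : Set Pt, ∀ y ∉ drawing G p,
      F = connectedComponentIn (drawing G p)ᶜ y →
        IsObstacle C ∧ z '' Iio (m * (N + 1)) ∩ F ⊆ C ∧ C ⊆ F := by
    intro F
    by_cases e : ∃ y ∉ drawing G p, F = connectedComponentIn (drawing G p)ᶜ y
    · obtain ⟨y, hy, rfl⟩ := e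
      obtain ⟨C, hC⟩ := thicken (isClosed_drawing.isOpen_compl.connectedComponentIn)
        isPreconnected_connectedComponentIn (mem_connectedComponentIn (F := (drawing G p)ᶜ) hy)
        (((finite_Iio (m * (N + 1))).image z).inter_of_left _) inter_subset_right
      exact ⟨C, fun _ _ _ => hC⟩
    · exact ⟨∅, fun y hy k => absurd ⟨y, hy, k⟩ e⟩
  choose C hC using key
  have hr : ∀ t < m, z (t * (N + 1)) ∉ drawing G p := fun t ht =>
    h1 _ (Nat.mul_lt_mul_of_pos_right ht N.succ_pos)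
  let S := (Finset.range m).image fun t =>
    C (connectedComponentIn (drawing G p)ᶜ (z (t * (N + 1))))
  have hS : ∀ D ∈ S, ∃ t < m, D = C (connectedComponentIn (drawing G p)ᶜ (z (t * (N + 1)))) :=
    fun D hD => by
      obtain ⟨t, ht, rfl⟩ := Finset.mem_image.1 hD
      exact ⟨t, Finset.mem_range.1 ht, rfl⟩
  have d : ∀ x ∈ ⋃ D ∈ S, D, x ∉ drawing G p := fun x hx => by
    obtain ⟨D, hD, k⟩ := mem_iUnion₂.1 hx
    obtain ⟨t, ht, rfl⟩ := hS D hD
    exact connectedComponentIn_subset _ _ ((hC _ _ (hr t ht) rfl).2.2 k)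
  refine ⟨S, p, Finset.card_image_le.trans (Finset.card_range m).le, fun D hD => ?_,
    fun D hD D' hD' n => ?_, hp.1,
    fun a b c u v w e => hp.2 a b c u v w ((collinear_iff_cr _ _ _).1 e),
    fun a g => d _ g (Or.inl ⟨a, rfl⟩), fun u v huv => ⟨fun g => ?_, fun g => ?_⟩⟩
  · obtain ⟨t, ht, rfl⟩ := hS D hD
    exact (hC _ _ (hr t ht) rfl).1
  · obtain ⟨t, ht, rfl⟩ := hS D hD
    obtain ⟨s, hs, rfl⟩ := hS D' hD'
    refine Set.disjoint_left.2 fun x k k' => n (congrArg C ?_)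
    rw [connectedComponentIn_eq ((hC _ _ (hr t ht) rfl).2.2 k),
      connectedComponentIn_eq ((hC _ _ (hr s hs) rfl).2.2 k')]
  · exact Set.disjoint_left.2 fun x hx hx' => d _ hx' (Or.inr ⟨u, v, g, hx⟩)
  · by_contra hn
    obtain ⟨i, hi, g'⟩ := h3 u v huv hn
    obtain ⟨t, ht, k⟩ := hz i hi
    exact Set.disjoint_left.1 g g' (mem_iUnion₂.2 ⟨_, Finset.mem_image_of_mem _
      (Finset.mem_range.2 ht), (hC _ _ (hr t ht) rfl).2.1 ⟨⟨i, hi, rfl⟩, k⟩⟩)

theorem exists_off [Finite V] (G : SimpleGraph V) (p : V → Pt) : ∃ x, x ∉ drawing G p := by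
  obtain ⟨M, -, hM⟩ := exists_bound fun v => (p v).1
  exact ⟨(M, 0), (ray (A := 1) (B := 0) fun v => by simpa using (abs_lt.1 (hM v)).2).1⟩

theorem Le.rfl (z : Pt) : Le p z z := fun _ _ => ⟨id, id, id, id, id⟩

theorem mchain_of_rep [Fintype V] {k m N : ℕ} (h : HasObsRep G k)
    (hm : min k (Fintype.card V * Fintype.card V) ≤ m)
    (hN : (Fintype.card V * Fintype.card V * 5 + 1) ^ 3 ≤ N) : ∃ p z, Gen p ∧ MChain G p m N z := by
  classical
  obtain ⟨S, p, h1, h2, -, h3⟩ := h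
  have key : ∀ C : Set Pt, ∃ z : ℕ → Pt, (∀ i ≤ N, z i ∉ drawing G p) ∧
      (∀ i, 0 < i → i ≤ N → ∃ j < i, Le p (z j) (z i) ∨ Le p (z i) (z j)) ∧
      (C ∈ S → ∀ a b, a ≠ b → ¬ Disjoint (segment ℝ (p a) (p b)) C →
        ∃ i ≤ N, z i ∈ segment ℝ (p a) (p b)) := by
    intro C
    by_cases hC : C ∈ S
    · have sub : C ⊆ ⋃ D ∈ S, D := subset_biUnion_of_mem (u := id) hC
      let H : SimpleGraph V := ⟨fun a b => a ≠ b ∧ Disjoint (segment ℝ (p a) (p b)) C,
        ⟨fun a b g => ⟨g.1.symm, by rw [segment_symm]; exact g.2⟩⟩, ⟨fun a g => g.1 rfl⟩⟩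
      have e : IsVisibilityRep H C p := ⟨h3.1, h3.2.1, fun a g => h3.2.2.1 a (sub g),
        fun a b n => ⟨fun g => g.2, fun g => ⟨n, g⟩⟩⟩
      obtain ⟨y, hy, k⟩ := IsObstacle.sub (h2 C hC) e
      obtain ⟨z, -, a1, a2, a3⟩ := chain_of_rep e (drawing_disjoint e hy) k hN
      refine ⟨z, fun i hi g => a1 i hi ?_, a2, fun _ a b n g => a3 a b n fun g' => g g'.2⟩
      rcases g with g | ⟨a, b, g, g'⟩
      exacts [Or.inl g, Or.inr ⟨a, b, ⟨g.ne, ((h3.2.2.2 a b g.ne).1 g).mono_right sub⟩, g'⟩]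
    · obtain ⟨x, hx⟩ := exists_off G p
      exact ⟨fun _ => x, fun _ _ => hx, fun i hi _ => ⟨0, hi, Or.inl (Le.rfl x)⟩,
        fun g => absurd g hC⟩
  choose ch c1 c2 c3 using key
  have bl : ∀ e : V × V, ∃ C, e.1 ≠ e.2 → ¬ G.Adj e.1 e.2 →
      C ∈ S ∧ ¬ Disjoint (segment ℝ (p e.1) (p e.2)) C := by
    intro e
    by_cases g : e.1 ≠ e.2 ∧ ¬ G.Adj e.1 e.2
    · obtain ⟨y, hy, hy'⟩ := Set.not_disjoint_iff.1 (mt (h3.2.2.2 _ _ g.1).2 g.2)
      obtain ⟨C, hC, k⟩ := mem_iUnion₂.1 hy'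
      exact ⟨C, fun _ _ => ⟨hC, Set.not_disjoint_iff.2 ⟨y, hy, k⟩⟩⟩
    · exact ⟨∅, fun a b => absurd ⟨a, b⟩ g⟩
  choose B hB using bl
  let l := (S ∩ Finset.univ.image B).toList
  have hl : l.length ≤ m := by
    rw [Finset.length_toList]
    refine le_trans (le_min ((Finset.card_le_card Finset.inter_subset_left).trans h1)
      ((Finset.card_le_card Finset.inter_subset_right).trans (Finset.card_image_le.trans ?_))) hm
    simp
  refine ⟨p, fun i => ch (l.getD (i / (N + 1)) ∅) (i % (N + 1)), IsVisibilityRep.gen h3,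
    fun i _ => c1 _ _ (Nat.lt_succ_iff.1 (Nat.mod_lt _ N.succ_pos)), fun i _ e => ?_,
    fun a b n g => ?_⟩
  · have : i % (N + 1) < N + 1 := Nat.mod_lt i N.succ_pos
    obtain ⟨j, hj, g⟩ := c2 (l.getD (i / (N + 1)) ∅) (i % (N + 1)) (by omega) (by omega)
    refine ⟨j + (N + 1) * (i / (N + 1)), by have := Nat.mod_add_div i (N + 1); omega, ?_⟩
    simp only [Nat.add_mul_mod_self_left, Nat.add_mul_div_left _ _ N.succ_pos,
      Nat.mod_eq_of_lt (hj.trans this), Nat.div_eq_of_lt (hj.trans this), zero_add]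
    exact g
  · obtain ⟨k1, k2⟩ := hB (a, b) n g
    obtain ⟨t, ht, e⟩ := List.getElem_of_mem (l := l) (Finset.mem_toList.2
      (Finset.mem_inter.2 ⟨k1, Finset.mem_image_of_mem B (Finset.mem_univ (a, b))⟩))
    obtain ⟨j, hj, g'⟩ := c3 _ k1 a b n k2
    have hj' : j < N + 1 := by omega
    refine ⟨j + (N + 1) * t, by nlinarith, ?_⟩
    simp only [Nat.add_mul_mod_self_left, Nat.add_mul_div_left _ _ N.succ_pos,
      Nat.mod_eq_of_lt hj', Nat.div_eq_of_lt hj', zero_add, List.getD_eq_getElem _ _ ht, e]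
    exact g'

theorem obs_mono {k m : ℕ} (h : HasObsRep G k) (e : k ≤ m) : HasObsRep G m :=
  let ⟨S, p, h1, h2⟩ := h; ⟨S, p, h1.trans e, h2⟩

theorem rep_one [Finite V] : HasObsRep G 1 ↔ ∃ C p, IsObstacle C ∧ IsVisibilityRep G C p := by
  constructor
  · rintro ⟨S, p, h1, h2, -, h3⟩
    rcases Finset.card_le_one_iff_subset_singleton.1 h1 |>.imp fun _ =>
      Finset.subset_singleton_iff.1 with ⟨C, rfl | rfl⟩
    · obtain ⟨x, hx⟩ := exists_off G p
      obtain ⟨C, a, b, -⟩ := rep_of_chain (G := G) (N := 0) (z := fun _ => x)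
        (IsVisibilityRep.gen h3) ⟨fun _ _ => hx, fun i a b => by omega,
          fun a b n g => absurd ((h3.2.2.2 a b n).2 (by simp)) g⟩
      exact ⟨C, p, a, b⟩
    · exact ⟨C, p, h2 C (by simp), by simpa using h3⟩
  · rintro ⟨C, p, h1, h2⟩
    exact ⟨{C}, p, by simp, by simpa using h1, by simp, by simpa using h2⟩

end

/-- the indices of the sample points -/
def idxs (V : List ℕ) (k : ℕ) : List ℕ :=
  (List.range (V.length * V.length * (nOf V + 1))).filter fun i => decide (i < k * (nOf V + 1))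

/-- the formula for at most `k` obstacles -/
def multiF (I : (List ℕ × List (ℕ × ℕ)) × ℕ) : Fm :=
  .and (genF I.1.1) (.and (allF (idxs I.1.1 I.2) fun i => allF I.1.1 fun a => allF I.1.1 fun b =>
      ifF (a = b ∨ (a, b) ∈ I.1.2 ∨ (b, a) ∈ I.1.2) (.not (segF (pv 0 a) (pv 0 b) (pv 1 i))))
    (.and (allF (idxs I.1.1 I.2) fun i => ifF (i % (nOf I.1.1 + 1) ≠ 0)
        (anyF ((idxs I.1.1 I.2).filter fun j => decide (j < i)) fun j =>
          .or (leF I.1.1 j i) (leF I.1.1 i j)))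
      (allF I.1.1 fun a => allF I.1.1 fun b => ifF (¬ (a = b ∨ (a, b) ∈ I.1.2 ∨ (b, a) ∈ I.1.2))
        (anyF (idxs I.1.1 I.2) fun i => segF (pv 0 a) (pv 0 b) (pv 1 i)))))

theorem mem_idxs {V : List ℕ} {k i : ℕ} :
    i ∈ idxs V k ↔ i < min k (V.length * V.length) * (nOf V + 1) := by
  simp only [idxs, List.mem_filter, List.mem_range, decide_eq_true_eq, ← Nat.mul_min_mul_right,
    lt_min_iff, and_comm]

theorem holds_multiF {x : ℕ → ℝ} {V : List ℕ} {E : List (ℕ × ℕ)} {k : ℕ} :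
    (multiF ((V, E), k)).Holds x ↔ Gen (fun a : {a // a ∈ V} => pev x (pv 0 a)) ∧
      MChain (listGraph (V, E)) (fun a => pev x (pv 0 a)) (min k (V.length * V.length)) (nOf V)
        fun i => pev x (pv 1 i) := by
  simp only [multiF, genF, leF, Fm.Holds, holds_allF, holds_anyF, holds_ifF, holds_le5F,
    holds_segF, ev_cr, mem_idxs, List.mem_filter, decide_eq_true_eq, Gen, MChain,
    mem_drawing, adj_iff, nadj_iff, Le]
  refine and_congr (and_congr ?_ ?_) (and_congr ?_ (and_congr ?_ ?_))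
  · exact ⟨fun h a b e => Subtype.ext (by_contra fun g => h a a.2 b b.2 g (Prod.ext_iff.1 e)),
      fun h a ha b hb g e => g (congrArg Subtype.val (@h ⟨a, ha⟩ ⟨b, hb⟩ (Prod.ext_iff.2 e)))⟩
  · exact ⟨fun h a b c u v w => h a a.2 b b.2 c c.2
        ⟨Subtype.val_injective.ne u, Subtype.val_injective.ne v, Subtype.val_injective.ne w⟩,
      fun h a ha b hb c hc g => h ⟨a, ha⟩ ⟨b, hb⟩ ⟨c, hc⟩ (fun e => g.1 (congrArg Subtype.val e))
        (fun e => g.2.1 (congrArg Subtype.val e)) fun e => g.2.2 (congrArg Subtype.val e)⟩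
  · exact forall₂_congr fun i _ => ⟨fun h ⟨a, b, u, v⟩ => h a a.2 b b.2 u v,
      fun h a ha b hb u v => h ⟨⟨a, ha⟩, ⟨b, hb⟩, u, v⟩⟩
  · simp only [Subtype.forall]
    refine forall_congr' fun i => ⟨fun h a b => ?_, fun h a b => ?_⟩
    · obtain ⟨j, u, v⟩ := h a b
      exact ⟨j, u.2, v⟩
    · obtain ⟨j, u, v⟩ := h a b
      exact ⟨j, ⟨u.trans a, u⟩, v⟩
  · simp only [Subtype.forall]

theorem multi_iff {V : List ℕ} {E : List (ℕ × ℕ)} {k : ℕ} :
    (∃ x, (multiF ((V, E), k)).Holds x) ↔ HasObsRep (listGraph (V, E)) k := by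
  simp only [holds_multiF]
  refine ⟨fun ⟨x, h1, h2⟩ => obs_mono (rep_of_mchain h1 h2) (min_le_left _ _), fun h => ?_⟩
  have : Fintype.card {a // a ∈ V} ≤ V.length := by
    rw [Fintype.card_of_subtype V.toFinset (by simp)]
    exact V.toFinset_card_le
  obtain ⟨p, z, h1, h2⟩ := mchain_of_rep h (min_le_min_left k (Nat.mul_le_mul this this)) card_le
  obtain ⟨x, rfl, rfl, -⟩ := exists_assign' p z 0
  exact ⟨x, h1, h2⟩

set_option synthInstance.maxSize 2000

theorem pt_multiF : PtF multiF := by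
  have hN : IsPolyTime fun I : (List ℕ × List (ℕ × ℕ)) × ℕ => nOf I.1.1 := by
    unfold nOf; fun_prop
  have hR : IsPolyTime fun I : (List ℕ × List (ℕ × ℕ)) × ℕ => idxs I.1.1 I.2 :=
    IsPolyTime.filter (by unfold nOf; fun_prop) (by unfold nOf; fun_prop)
  refine PtF.and (PtF.and ?_ ?_) (PtF.and ?_ (PtF.and ?_ ?_))
  · refine PtF.all (by fun_prop) (PtF.all (by fun_prop) (PtF.ifF (by fun_prop) ?_))
    simp only [PtF, pv, Fm.code, Tm.code]; fun_prop
  · refine PtF.all (by fun_prop) (PtF.all (by fun_prop) (PtF.all (by fun_prop)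
      (PtF.ifF (by fun_prop) ?_)))
    simp only [PtF, crT, subT, pv, Fm.code, Tm.code]; fun_prop
  · exact PtF.all hR (PtF.all (by fun_prop) (PtF.all (by fun_prop) (PtF.ifF (by fun_prop)
      (pt_segF (by fun_prop) (by fun_prop) (by fun_prop)).not)))
  · exact PtF.all hR (PtF.ifF (by unfold nOf; fun_prop) (PtF.any
      (IsPolyTime.filter (by fun_prop) (hR.comp (by fun_prop)))
      ((pt_leF (by fun_prop) (by fun_prop) (by fun_prop)).or
        (pt_leF (by fun_prop) (by fun_prop) (by fun_prop)))))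
  · exact PtF.all (by fun_prop) (PtF.all (by fun_prop) (PtF.ifF (by fun_prop)
      (PtF.any (hR.comp (by fun_prop)) (pt_segF (by fun_prop) (by fun_prop) (by fun_prop)))))

theorem gap_obs {L : DecisionProblem} (hL : L ∈ ExistsR ∨ L ∈ NP) :
    ∃ c : List Bool → List RCon, (IsPolyTime fun w => red false (c w)) ∧
      ∀ w, (L w = true ↔ HasObsRep (listGraph (red false (c w))) 1) := by
  obtain ⟨c, hc, h⟩ := gap hL
  refine ⟨c, hc false, fun w => (h w).trans (Iff.trans ?_ rep_one.symm)⟩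
  exact ⟨fun h => let ⟨C, p, h1, h2, _⟩ := (red_yes h).1; ⟨C, p, h1, h2⟩,
    fun ⟨_, _, h1, h2⟩ => red_no h1 h2⟩

open Classical in
theorem complete_multi {L : DecisionProblem} (hL : ∀ w, L w = true ↔
    ∃ V E k, w = bitEncode ((V, E), k) ∧ HasObsRep (listGraph (α := ℕ) (V, E)) k) :
    IsCompleteFor ExistsR L := by
  refine ⟨?_, fun K hK => ?_⟩
  · let d : List Bool → (List ℕ × List (ℕ × ℕ)) × ℕ := fun w => (bitDecode w).getD (([], []), 0)
    have hd : IsPolyTime d := by fun_prop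
    refine ⟨fun w => if bitEncode (d w) = w then bitEncode (multiF (d w)).code else [],
      IsPolyTime.ite (by fun_prop) (IsPolyTime.bitEncode (pt_multiF.comp hd)) (by fun_prop),
      fun w => ?_⟩
    rw [Bool.eq_iff_iff, hL]
    beta_reduce
    split_ifs with h
    · rw [etr_code, show (∃ x, (multiF (d w)).Holds x) ↔
        HasObsRep (listGraph (d w).1) (d w).2 from multi_iff]
      exact ⟨fun ⟨V, E, k, e, g⟩ => by rwa [bitEncode_injective (h.trans e)],
        fun g => ⟨_, _, _, h.symm, g⟩⟩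
    · rw [etr_nil]
      refine iff_of_false ?_ (by simp)
      rintro ⟨V, E, k, rfl, -⟩
      exact h (by simp [d])
  · obtain ⟨c, hc, h⟩ := gap_obs (Or.inl hK)
    refine ⟨fun s => bitEncode (red false (c s), 1),
      IsPolyTime.bitEncode (by fun_prop), fun s => ?_⟩
    rw [Bool.eq_iff_iff, h, hL]
    refine ⟨fun g => ⟨_, _, _, rfl, g⟩, fun ⟨V, E, k, e, g⟩ => ?_⟩
    obtain ⟨e1, rfl⟩ := Prod.ext_iff.1 (bitEncode_injective e)
    simp only at e1
    rwa [e1]

end Pool.Agent.Lib.MP_32fe36_lc.ER
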