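import Pool.Agent.Lib.MP_32fe36_lc.Comb

/-!
Polyominoes whose boundary is a single lattice cycle.
-/

namespace Pool.Agent.Lib.MP_32fe36_lc.ER

open Set Filter Topology

/-- The relation `R` is the successor relation of one cycle. -/
def Cyc (R : ℤ × ℤ → ℤ × ℤ → Prop) : Prop :=
  ∃ (n : ℕ) (w : ℕ → ℤ × ℤ), w (n + 3) = w 0 ∧ (∀ i < n + 3, ∀ j < n + 3, w i = w j → i = j) ∧
    ∀ a b, R a b ↔ ∃ i < n + 3, w i = a ∧ w (i + 1) = b

theorem Cyc.insert {R R' : ℤ × ℤ → ℤ × ℤ → Prop} (h : Cyc R) {a b a' b' : ℤ × ℤ} (hab : R a b)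
    (ha : ∀ x, ¬ R a' x) (hb : ∀ x, ¬ R b' x) (hne : a' ≠ b')
    (hR : ∀ x y, R' x y ↔ (R x y ∧ ¬ (x = a ∧ y = b)) ∨ (x = a ∧ y = a') ∨ (x = a' ∧ y = b') ∨
      (x = b' ∧ y = b)) : Cyc R' := by
  obtain ⟨n, w, h0, h1, h2⟩ := h
  obtain ⟨k, hk, rfl, rfl⟩ := (h2 a b).1 hab
  have na : ∀ i < n + 3, w i ≠ a' := fun i hi e => ha _ ((h2 _ _).2 ⟨i, hi, e, rfl⟩)
  have nb : ∀ i < n + 3, w i ≠ b' := fun i hi e => hb _ ((h2 _ _).2 ⟨i, hi, e, rfl⟩)
  let v : ℕ → ℤ × ℤ := fun j => if j ≤ k then w j else if j = k + 1 then a' else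
    if j = k + 2 then b' else w (j - 2)
  have v1 : ∀ j ≤ k, v j = w j := fun j hj => by simp [v, hj]
  have v2 : v (k + 1) = a' := by simp [v]
  have v3 : v (k + 2) = b' := by simp [v]
  have v4 : ∀ j, k < j → v (j + 2) = w j := fun j hj => by
    simp only [v]
    rw [if_neg (by omega), if_neg (by omega), if_neg (by omega)]; rfl
  have cs : ∀ i, i ≤ k ∨ i = k + 1 ∨ i = k + 2 ∨ ∃ j, k < j ∧ i = j + 2 := fun i => by
    by_cases h : k + 2 < i
    · exact Or.inr (Or.inr (Or.inr ⟨i - 2, by omega, by omega⟩))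
    · omega
  refine ⟨n + 2, v, ?_, fun i hi j hj e => ?_, fun x y => ?_⟩
  · rw [show n + 2 + 3 = n + 3 + 2 by ring, v4 _ hk, v1 0 (by omega), h0]
  · rcases cs i with g | rfl | rfl | ⟨i, g, rfl⟩ <;> rcases cs j with g' | rfl | rfl | ⟨j, g', rfl⟩
    · rw [v1 _ g, v1 _ g'] at e; exact h1 _ (by omega) _ (by omega) e
    · rw [v1 _ g, v2] at e; exact absurd e (na _ (by omega))
    · rw [v1 _ g, v3] at e; exact absurd e (nb _ (by omega))
    · rw [v1 _ g, v4 _ g'] at e; have := h1 _ (by omega) _ (by omega) e; omega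
    · rw [v1 _ g', v2] at e; exact absurd e.symm (na _ (by omega))
    · rfl
    · rw [v2, v3] at e; exact absurd e hne
    · rw [v2, v4 _ g'] at e; exact absurd e.symm (na _ (by omega))
    · rw [v1 _ g', v3] at e; exact absurd e.symm (nb _ (by omega))
    · rw [v2, v3] at e; exact absurd e.symm hne
    · rfl
    · rw [v3, v4 _ g'] at e; exact absurd e.symm (nb _ (by omega))
    · rw [v1 _ g', v4 _ g] at e; have := h1 _ (by omega) _ (by omega) e; omega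
    · rw [v2, v4 _ g] at e; exact absurd e (na _ (by omega))
    · rw [v3, v4 _ g] at e; exact absurd e (nb _ (by omega))
    · rw [v4 _ g', v4 _ g] at e; have := h1 _ (by omega) _ (by omega) e; omega
  · rw [hR, h2]
    constructor
    · rintro (⟨⟨i, hi, rfl, rfl⟩, g⟩ | ⟨rfl, rfl⟩ | ⟨rfl, rfl⟩ | ⟨rfl, rfl⟩)
      · have : i ≠ k := by rintro rfl; exact g ⟨rfl, rfl⟩
        by_cases g' : i < k
        · exact ⟨i, by omega, v1 _ g'.le, v1 _ g'⟩
        · exact ⟨i + 2, by omega, v4 _ (by omega), v4 (i + 1) (by omega)⟩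
      · exact ⟨k, by omega, v1 _ le_rfl, v2⟩
      · exact ⟨k + 1, by omega, v2, v3⟩
      · exact ⟨k + 2, by omega, v3, v4 (k + 1) (by omega)⟩
    · rintro ⟨i, hi, rfl, rfl⟩
      rcases cs i with g | rfl | rfl | ⟨i, g, rfl⟩
      · rcases g.eq_or_lt with rfl | g
        · exact Or.inr (Or.inl ⟨v1 _ le_rfl, v2⟩)
        · rw [v1 _ g.le, v1 _ g]
          exact Or.inl ⟨⟨i, by omega, rfl, rfl⟩, fun e => g.ne (h1 _ (by omega) _ hk e.1)⟩
      · exact Or.inr (Or.inr (Or.inl ⟨v2, v3⟩))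
      · exact Or.inr (Or.inr (Or.inr ⟨v3, v4 (k + 1) (by omega)⟩))
      · rw [v4 _ g, show i + 2 + 1 = i + 1 + 2 by ring, v4 _ (by omega)]
        exact Or.inl ⟨⟨i, by omega, rfl, rfl⟩, fun e => g.ne' (h1 _ (by omega) _ hk e.1)⟩

/-- Directed boundary edges, with the polyomino on the left. -/
def BE (T : ℤ → ℤ → Prop) (a b : ℤ × ℤ) : Prop :=
  (b.1 = a.1 + 1 ∧ b.2 = a.2 ∧ T a.1 a.2 ∧ ¬ T a.1 (a.2 - 1)) ∨
  (b.1 = a.1 ∧ b.2 = a.2 + 1 ∧ T (a.1 - 1) a.2 ∧ ¬ T a.1 a.2) ∨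
  (b.1 = a.1 - 1 ∧ b.2 = a.2 ∧ T (a.1 - 1) (a.2 - 1) ∧ ¬ T (a.1 - 1) a.2) ∨
  (b.1 = a.1 ∧ b.2 = a.2 - 1 ∧ T a.1 (a.2 - 1) ∧ ¬ T (a.1 - 1) (a.2 - 1))

/-- One of the four unit vectors. -/
def Dir (e f : ℤ) : Prop := (e = 1 ∧ f = 0) ∨ (e = 0 ∧ f = 1) ∨ (e = -1 ∧ f = 0) ∨ (e = 0 ∧ f = -1)

theorem cyc_grow {T : ℤ → ℤ → Prop} (h : Cyc (BE T)) {c d e f : ℤ} (hd : Dir e f)
    (h1 : T (c - e) (d - f)) (h2 : ¬ T c d) (h3 : ¬ T (c + e) (d + f)) (h4 : ¬ T (c - f) (d + e))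
    (h5 : ¬ T (c + f) (d - e)) (h6 : ¬ T (c + e - f) (d + f + e)) (h7 : ¬ T (c + e + f) (d + f - e)) :
    Cyc (BE fun i j => T i j ∨ (i = c ∧ j = d)) := by
  rcases hd with ⟨rfl, rfl⟩ | ⟨rfl, rfl⟩ | ⟨rfl, rfl⟩ | ⟨rfl, rfl⟩
  · refine h.insert (a := (c, d)) (b := (c, d + 1)) (a' := (c + 1, d)) (b' := (c + 1, d + 1))
      ?_ (fun x => ?_) (fun x => ?_) (by simp) fun x y => ?_ <;> simp only [BE, Prod.ext_iff]
    · grind
    · grind
    · grind
    · constructor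
      · rintro (g | g | g | g) <;> grind
      · rintro (⟨g | g | g | g, g'⟩ | g | g | g) <;> grind
  · refine h.insert (a := (c + 1, d)) (b := (c, d)) (a' := (c + 1, d + 1)) (b' := (c, d + 1))
      ?_ (fun x => ?_) (fun x => ?_) (by simp) fun x y => ?_ <;> simp only [BE, Prod.ext_iff]
    · grind
    · grind
    · grind
    · constructor
      · rintro (g | g | g | g) <;> grind
      · rintro (⟨g | g | g | g, g'⟩ | g | g | g) <;> grind
  · refine h.insert (a := (c + 1, d + 1)) (b := (c + 1, d)) (a' := (c, d + 1)) (b' := (c, d))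
      ?_ (fun x => ?_) (fun x => ?_) (by simp) fun x y => ?_ <;> simp only [BE, Prod.ext_iff]
    · grind
    · grind
    · grind
    · constructor
      · rintro (g | g | g | g) <;> grind
      · rintro (⟨g | g | g | g, g'⟩ | g | g | g) <;> grind
  · refine h.insert (a := (c, d + 1)) (b := (c + 1, d + 1)) (a' := (c, d)) (b' := (c + 1, d))
      ?_ (fun x => ?_) (fun x => ?_) (by simp) fun x y => ?_ <;> simp only [BE, Prod.ext_iff]
    · grind
    · grind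
    · grind
    · constructor
      · rintro (g | g | g | g) <;> grind
      · rintro (⟨g | g | g | g, g'⟩ | g | g | g) <;> grind

theorem cyc_single (c d : ℤ) : Cyc (BE fun i j => i = c ∧ j = d) := by
  refine ⟨1, fun i => if i = 1 then (c + 1, d) else if i = 2 then (c + 1, d + 1)
    else if i = 3 then (c, d + 1) else (c, d), rfl, fun i hi j hj => ?_, fun a b => ?_⟩
  · interval_cases i <;> interval_cases j <;> simp
  · constructor
    · rintro (h | h | h | h)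
      · exact ⟨0, by omega, by simp only [Prod.ext_iff]; grind⟩
      · exact ⟨1, by omega, by simp only [Prod.ext_iff]; grind⟩
      · exact ⟨2, by omega, by simp only [Prod.ext_iff]; grind⟩
      · exact ⟨3, by omega, by simp only [Prod.ext_iff]; grind⟩
    · rintro ⟨i, hi, rfl, rfl⟩
      interval_cases i <;> simp [BE]

end Pool.Agent.Lib.MP_32fe36_lc.ER
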