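import Pool.Agent.Lib.MP_32fe36_lc.ER.Gap

/-!
Systems of quadratic equations: bounded solutions, and exact solutions from approximate ones.
-/

namespace Pool.Agent.Lib.MP_32fe36_lc.ER

open Finset

abbrev QL : Type := List (ℕ × ℕ)
abbrev QC : Type := QL × QL

/-- The value of a sum of products. -/
def qv (y : ℕ → ℝ) (L : QL) : ℝ := (L.map fun p => y p.1 * y p.2).sum

/-- Doubly exponential function. -/
@[irreducible] def dd (k : ℕ) : ℕ := 2 ^ 2 ^ k

theorem dd_pow (a b : ℕ) : dd a ^ 2 ^ b = dd (a + b) := by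
  unfold dd; rw [← pow_mul, ← pow_add]

theorem dd_succ (a : ℕ) : dd (a + 1) = dd a * dd a := by
  rw [← dd_pow, pow_one, sq]

theorem dd_mono {a b : ℕ} (h : a ≤ b) : dd a ≤ dd b := by
  unfold dd
  exact Nat.pow_le_pow_right (by norm_num) (Nat.pow_le_pow_right (by norm_num) h)

theorem lt_dd (a : ℕ) : a < dd a := by
  unfold dd
  exact Nat.lt_two_pow_self.trans Nat.lt_two_pow_self

theorem dd_zero : dd 0 = 2 := by unfold dd; rfl

theorem two_le_dd (a : ℕ) : 2 ≤ dd a := dd_zero ▸ dd_mono (Nat.zero_le a)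

theorem hB_le {n m s : ℕ} (hn : n ≤ s) (hm : m ≤ s) :
    hB n (m * 9) (m * 36 + 1) + 1 ≤ dd (5 * s + 8) := by
  have hw : s < 2 ^ s := Nat.lt_two_pow_self
  have h5 : 5 ^ n ≤ 2 ^ (3 * s) := by
    rw [pow_mul]
    exact (Nat.pow_le_pow_left (by norm_num) _).trans (Nat.pow_le_pow_right (by norm_num) hn)
  have h1 : 6 * (m * 9) + n ≤ 2 ^ (s + 6) := by rw [pow_add]; omega
  have h2 : m * 36 + 1 ≤ 2 ^ (s + 6) := by rw [pow_add]; omega
  have h3 : (m * 36 + 1) ^ (4 * n + 6) ≤ 2 ^ ((s + 6) * (4 * s + 6)) := by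
    rw [pow_mul]
    exact (Nat.pow_le_pow_left h2 _).trans (Nat.pow_le_pow_right (by positivity) (by omega))
  have h4 : 1 + (6 * (m * 9) + n) * (m * 36 + 1) ^ (4 * n + 6) ≤
      2 ^ (s + 6 + (s + 6) * (4 * s + 6) + 1) := by
    have := Nat.mul_le_mul h1 h3
    rw [← pow_add] at this
    have h0 : 0 < 2 ^ (s + 6 + (s + 6) * (4 * s + 6)) := by positivity
    rw [pow_succ 2]
    omega
  have h6 : 3 * s + (s + 6 + (s + 6) * (4 * s + 6) + 1) ≤ 2 ^ (2 * s + 7) := by
    have : 2 ^ (2 * s + 7) = 128 * (2 ^ s * 2 ^ s) := by ring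
    rw [this]
    nlinarith
  have h7 : 5 ^ n * (1 + (6 * (m * 9) + n) * (m * 36 + 1) ^ (4 * n + 6)) ≤ dd (2 * s + 7) := by
    refine (Nat.mul_le_mul h5 h4).trans ?_
    rw [← pow_add, dd]
    exact Nat.pow_le_pow_right (by norm_num) h6
  have h8 : hB n (m * 9) (m * 36 + 1) ≤ dd (5 * s + 7) := by
    unfold hB
    refine (Nat.pow_le_pow_left h7 _).trans ((Nat.pow_le_pow_right
      (by have := two_le_dd (2 * s + 7); omega) h5).trans (le_of_eq ?_))
    rw [dd_pow]; congr 1; ring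
  have := two_le_dd (5 * s + 7)
  rw [dd_succ]
  nlinarith

theorem dB_le {n s : ℕ} (hn : n ≤ s) : dB n ≤ 2 ^ (4 * s + 4) := by
  have hw : s < 2 ^ s := Nat.lt_two_pow_self
  have h5 : 5 ^ n ≤ 2 ^ (3 * s) := by
    rw [pow_mul]
    exact (Nat.pow_le_pow_left (by norm_num) _).trans (Nat.pow_le_pow_right (by norm_num) hn)
  have h1 : 4 * n + 7 ≤ 2 ^ (s + 4) := by rw [pow_add]; omega
  refine (Nat.mul_le_mul h5 h1).trans (le_of_eq ?_)
  ring

theorem hasDerivAt_listSum {α : Type} (l : List α) (f : α → ℝ → ℝ) (f' : α → ℝ) (t : ℝ)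
    (h : ∀ a ∈ l, HasDerivAt (f a) (f' a) t) :
    HasDerivAt (fun t => (l.map fun a => f a t).sum) (l.map f').sum t := by
  induction l with
  | nil => simpa using hasDerivAt_const t (0 : ℝ)
  | cons a l ih =>
    simp only [List.map_cons, List.sum_cons]
    exact (h a List.mem_cons_self).fun_add (ih fun b hb => h b (List.mem_cons_of_mem _ hb))

section
variable {n : ℕ}

/-- Extension of a finite assignment. -/
def extv (x : Fin n → ℝ) (i : ℕ) : ℝ := if h : i ≠ 0 ∧ i < n then x ⟨i, h.2⟩ else 1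
/-- Its derivative. -/
def dext (j : Fin n) (i : ℕ) : ℝ := if i ≠ 0 ∧ i = j then 1 else 0
/-- Defect of an equation. -/
def qd (e : QC) (x : Fin n → ℝ) : ℝ := qv (extv x) e.1 - qv (extv x) e.2
/-- Derivative of a sum of products. -/
def dq (j : Fin n) (L : QL) (x : Fin n → ℝ) : ℝ :=
  (L.map fun p => dext j p.1 * extv x p.2 + extv x p.1 * dext j p.2).sum
/-- Sum of the squared defects. -/
def FQ (Q : List QC) (x : Fin n → ℝ) : ℝ := (Q.map fun e => qd e x * qd e x).sum
/-- Its gradient. -/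
def gQ (Q : List QC) (j : Fin n) (x : Fin n → ℝ) : ℝ :=
  (Q.map fun e => ((2 : ℕ) : ℝ) * qd e x * (dq j e.1 x - dq j e.2 x)).sum

theorem sm_extv (i : ℕ) : SM (fun x : Fin n → ℝ => extv x i) 1 1 := by
  unfold extv
  split_ifs
  · exact SM.coord _
  · exact SM.one.mono (by omega) le_rfl

theorem sm_dext (j : Fin n) (i : ℕ) : SM (fun _ : Fin n → ℝ => dext j i) 0 1 := by
  unfold dext
  split_ifs
  · exact SM.one
  · exact SM.zero

theorem sm_qd {e : QC} (he : e.1.length + e.2.length ≤ 3) : SM (qd (n := n) e) 2 3 := by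
  have h : ∀ L : QL, SM (fun x : Fin n → ℝ => qv (extv x) L) 2 (L.length * 1) := fun L =>
    SM.listSum L _ fun p _ => (sm_extv p.1).mul (sm_extv p.2)
  exact ((h e.1).sub (h e.2)).mono le_rfl (by omega)

theorem sm_FQ {Q : List QC} (hQ : ∀ e ∈ Q, e.1.length + e.2.length ≤ 3) :
    SM (FQ (n := n) Q) 4 (Q.length * 9) :=
  SM.listSum Q _ fun e he => (sm_qd (hQ e he)).mul (sm_qd (hQ e he))

theorem sm_gQ {Q : List QC} (hQ : ∀ e ∈ Q, e.1.length + e.2.length ≤ 3) (j : Fin n) :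
    SM (gQ Q j) 3 (Q.length * 36 + 1) := by
  have h : ∀ L : QL, SM (dq j L) 1 (L.length * 2) := fun L =>
    SM.listSum L _ fun p _ => ((sm_dext j p.1).mul (sm_extv p.2)).add
      ((sm_extv p.1).mul (sm_dext j p.2))
  refine (SM.listSum Q _ (c := 36) fun e he => ?_).mono le_rfl (by omega)
  have := hQ e he
  exact ((SM.nat 2).mul (sm_qd (hQ e he))).mul (((h e.1).sub (h e.2)).mono (c' := 6) le_rfl
    (by omega))

theorem deriv_extv (j : Fin n) (x : Fin n → ℝ) (i : ℕ) :
    HasDerivAt (fun t => extv (Function.update x j t) i) (dext j i) (x j) := by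
  unfold extv dext
  by_cases h : i ≠ 0 ∧ i < n
  · simp only [dif_pos h]
    by_cases h' : i = j
    · subst h'
      rw [if_pos ⟨h.1, rfl⟩]
      simpa using hasDerivAt_id' (x j)
    · rw [if_neg fun h => h' h.2]
      have : (⟨i, h.2⟩ : Fin n) ≠ j := fun e => h' (congrArg Fin.val e)
      simp only [Function.update_of_ne this]
      exact hasDerivAt_const _ _
  · simp only [dif_neg h]
    rw [if_neg fun h' : i ≠ 0 ∧ i = j => h ⟨h'.1, h'.2 ▸ j.2⟩]
    exact hasDerivAt_const _ _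

theorem deriv_FQ (Q : List QC) (j : Fin n) (x : Fin n → ℝ) :
    HasDerivAt (fun t => FQ Q (Function.update x j t)) (gQ Q j x) (x j) := by
  have h : ∀ L : QL, HasDerivAt (fun t => qv (extv (Function.update x j t)) L) (dq j L x) (x j) :=
    fun L => hasDerivAt_listSum L _ _ _ fun p _ => by
      have := (deriv_extv j x p.1).fun_mul (deriv_extv j x p.2)
      rwa [Function.update_eq_self] at this
  refine hasDerivAt_listSum Q _ _ _ fun e _ => ?_
  have h1 := (h e.1).fun_sub (h e.2)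
  have := h1.fun_mul h1
  rw [Function.update_eq_self] at this
  exact this.congr_deriv (by unfold qd; push_cast; ring)

theorem FQ_nonneg (Q : List QC) (x : Fin n → ℝ) : 0 ≤ FQ Q x :=
  List.sum_nonneg (List.forall_mem_map.2 fun _ _ => mul_self_nonneg _)

theorem FQ_eq_zero {Q : List QC} {x : Fin n → ℝ} : FQ Q x = 0 ↔ ∀ e ∈ Q, qd e x = 0 := by
  induction Q with
  | nil => simp [FQ]
  | cons e Q ih =>
    have h1 := FQ_nonneg Q x
    have h2 := mul_self_nonneg (qd e x)
    have h3 : FQ (e :: Q) x = qd e x * qd e x + FQ Q x := by simp [FQ]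
    rw [h3, List.forall_mem_cons, ← ih, ← mul_self_eq_zero (a := qd e x)]
    constructor
    · intro h; constructor <;> linarith
    · intro h; linarith [h.1, h.2]

theorem qv_congr {y y' : ℕ → ℝ} {L : QL} (h : ∀ p ∈ L, y p.1 = y' p.1 ∧ y p.2 = y' p.2) :
    qv y L = qv y' L := by
  unfold qv
  congr 1
  exact List.map_congr_left fun p hp => by rw [(h p hp).1, (h p hp).2]

theorem extv_restrict {y : ℕ → ℝ} (h0 : y 0 = 1) {i : ℕ} (hi : i < n) :
    extv (fun j : Fin n => y j) i = y i := by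
  unfold extv
  split_ifs with h
  · rfl
  · have : i = 0 := by by_contra h'; exact h ⟨h', hi⟩
    rw [this, h0]

end

/-- The size conditions on a system. -/
structure Small (n s : ℕ) (Q : List QC) : Prop where
  hn : n ≤ s
  hm : Q.length ≤ s
  len : ∀ e ∈ Q, e.1.length + e.2.length ≤ 3
  idx : ∀ e ∈ Q, ∀ p ∈ e.1 ++ e.2, p.1 < n ∧ p.2 < n

/-- Solutions of a system of equations. -/
def ESat (y : ℕ → ℝ) (Q : List QC) : Prop := y 0 = 1 ∧ ∀ e ∈ Q, qv y e.1 = qv y e.2

variable {n s : ℕ} {Q : List QC}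

theorem Small.qd_restrict (H : Small n s Q) {y : ℕ → ℝ} (h0 : y 0 = 1) {e : QC} (he : e ∈ Q) :
    qd e (fun j : Fin n => y j) = qv y e.1 - qv y e.2 := by
  unfold qd
  rw [qv_congr (y' := y) fun p hp => ?_, qv_congr (y' := y) (L := e.2) fun p hp => ?_]
  · have := H.idx e he p (List.mem_append_right _ hp)
    exact ⟨extv_restrict h0 this.1, extv_restrict h0 this.2⟩
  · have := H.idx e he p (List.mem_append_left _ hp)
    exact ⟨extv_restrict h0 this.1, extv_restrict h0 this.2⟩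

theorem esat_of_zero {z : Fin n → ℝ} (hz : FQ Q z = 0) : ESat (extv z) Q :=
  ⟨by simp [extv], fun e he => sub_eq_zero.1 (FQ_eq_zero.1 hz e he)⟩

theorem Small.bounded (H : Small n s Q) {y : ℕ → ℝ} (hy : ESat y Q) :
    ∃ y, ESat y Q ∧ ∀ i, |y i| ≤ dd (5 * s + 8) := by
  obtain ⟨z, hz, hb⟩ := gap_one (sm_FQ H.len) (FQ_nonneg Q) (sm_gQ H.len) (by omega) (deriv_FQ Q)
    (z := fun j : Fin n => y j) (FQ_eq_zero.2 fun e he => by
      rw [H.qd_restrict hy.1 he, hy.2 e he, sub_self])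
  refine ⟨_, esat_of_zero hz, fun i => ?_⟩
  have h1 : ((hB n (Q.length * 9) (Q.length * 36 + 1) : ℝ) + 1) ≤ dd (5 * s + 8) := by
    exact_mod_cast hB_le H.hn H.hm
  have h2 : (2 : ℝ) ≤ dd (5 * s + 8) := by exact_mod_cast two_le_dd _
  rw [Fintype.card_fin] at hb
  unfold extv
  split_ifs with h
  · have h3 : z ⟨i, h.2⟩ ^ 6 ≤ ∑ i, z i ^ 6 :=
      single_le_sum (f := fun i => z i ^ 6) (fun j _ => by positivity) (mem_univ _)
    by_contra hc
    push Not at hc
    have h4 : |z ⟨i, h.2⟩| ≤ |z ⟨i, h.2⟩| ^ 6 := le_self_pow₀ (by linarith) (by norm_num)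
    rw [pow_abs, abs_of_nonneg (by positivity : 0 ≤ z ⟨i, h.2⟩ ^ 6)] at h4
    linarith
  · rw [abs_one]; linarith

theorem Small.exact (H : Small n s Q) {y : ℕ → ℝ} (h0 : y 0 = 1)
    (h1 : ∀ i < n, |y i| ≤ dd (5 * s + 9))
    (h2 : ∀ e ∈ Q, |qv y e.1 - qv y e.2| * dd (9 * s + 17) ≤ 1) : ∃ y, ESat y Q := by
  have b1 := hB_le H.hn H.hm
  have b2 := dB_le H.hn
  have c1 : 2 * (hB n (Q.length * 9) (Q.length * 36 + 1) + 1) ≤ dd (5 * s + 12) := by
    refine le_trans ?_ (dd_mono (show 5 * s + 8 + 1 ≤ _ by omega))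
    rw [dd_succ]
    exact Nat.mul_le_mul (two_le_dd _) b1
  have c2 : hB n (Q.length * 9) (Q.length * 36 + 1) * dd (5 * s + 12) ^ dB n + 1 ≤
      dd (9 * s + 17) := by
    have e1 : dd (5 * s + 12) ^ dB n ≤ dd (9 * s + 16) := by
      refine (Nat.pow_le_pow_right (by have := two_le_dd (5 * s + 12); omega) b2).trans (le_of_eq ?_)
      rw [dd_pow]; congr 1; ring
    have e2 := b1.trans (dd_mono (show 5 * s + 8 ≤ 9 * s + 16 by omega))
    have e3 := two_le_dd (9 * s + 16)
    rw [dd_succ (9 * s + 16)]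
    nlinarith
  have c3 : 6 * Q.length ≤ dd (9 * s + 17) := by
    have := lt_dd (9 * s + 17)
    have := H.hm
    omega
  have c4 : n * dd (5 * s + 9) ^ 6 + 1 ≤ dd (5 * s + 12) := by
    have e1 : dd (5 * s + 12) = dd (5 * s + 9) ^ 6 * (dd (5 * s + 9) * dd (5 * s + 9)) := by
      rw [show 5 * s + 12 = 5 * s + 9 + 3 by ring, ← dd_pow]; ring
    have e2 := lt_dd (5 * s + 9)
    have e3 := H.hn
    have e4 : 0 < dd (5 * s + 9) ^ 6 := by have := two_le_dd (5 * s + 9); positivity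
    have e5 : n + 1 ≤ dd (5 * s + 9) * dd (5 * s + 9) := by nlinarith
    rw [e1]
    nlinarith
  obtain ⟨z, hz⟩ := gap_two (sm_FQ H.len) (FQ_nonneg Q) (sm_gQ H.len) (by omega) (deriv_FQ Q)
    (u := dd (9 * s + 17)) (Y := dd (5 * s + 12)) (x0 := fun j : Fin n => y j)
    (by rw [Fintype.card_fin]; exact_mod_cast c1) (by rw [Fintype.card_fin]; exact_mod_cast c2) (by
      unfold obj
      have c3' : (6 * Q.length : ℝ) ≤ dd (9 * s + 17) := by exact_mod_cast c3
      have c4' : (n * dd (5 * s + 9) ^ 6 + 1 : ℝ) ≤ dd (5 * s + 12) := by exact_mod_cast c4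
      generalize (dd (9 * s + 17) : ℝ) = u at *
      have hu : 0 ≤ u := le_trans (by positivity) c3'
      have e1 : ∑ i : Fin n, y i ^ 6 ≤ n * dd (5 * s + 9) ^ 6 := by
        have : ∀ i : Fin n, y i ^ 6 ≤ (dd (5 * s + 9) : ℝ) ^ 6 := fun i => by
          rw [← abs_of_nonneg (by positivity : 0 ≤ y i ^ 6), abs_pow]
          exact pow_le_pow_left₀ (abs_nonneg _) (h1 i i.2) _
        simpa using sum_le_sum fun i (_ : i ∈ univ) => this i
      have e2 : u * u * FQ Q (fun j : Fin n => y j) ≤ Q.length := by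
        unfold FQ
        rw [← List.sum_map_mul_left]
        have := List.sum_le_card_nsmul (Q.map fun e => u * u * (qd e (fun j : Fin n => y j) *
          qd e (fun j : Fin n => y j))) 1 (List.forall_mem_map.2 fun e he => by
            rw [H.qd_restrict h0 he, ← abs_mul_abs_self (qv y e.1 - qv y e.2)]
            have := h2 e he
            have h3 : 0 ≤ |qv y e.1 - qv y e.2| * u := by positivity
            nlinarith)
        simpa using this
      have e3 := FQ_nonneg Q (fun j : Fin n => y j)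
      have e4 : 6 * u * FQ Q (fun j : Fin n => y j) ≤ 1 := by
        rcases hu.eq_or_lt with h | h
        · rw [← h]; norm_num
        · by_contra hc
          nlinarith
      linarith)
  exact ⟨_, esat_of_zero hz⟩

end Pool.Agent.Lib.MP_32fe36_lc.ER
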