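import Mathlib

/-!
Sums of signed monomials: a bookkeeping device for degrees and heights of integer polynomials.
-/

namespace Pool.Agent.Lib.MP_32fe36_lc.ER

open Finset

variable {ι : Type} [Fintype ι]

/-- A monomial. -/
def mon (a : ι → ℕ) (x : ι → ℝ) : ℝ := ∏ i, x i ^ a i

/-- A signed monomial. -/
def tval (t : Bool × (ι → ℕ)) (x : ι → ℝ) : ℝ := (if t.1 = true then 1 else -1) * mon t.2 x

/-- `g` is a sum of at most `c` signed monomials of degree at most `d`. -/
def SM (g : (ι → ℝ) → ℝ) (d c : ℕ) : Prop :=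
  ∃ l : List (Bool × (ι → ℕ)), l.length ≤ c ∧ (∀ t ∈ l, ∑ i, t.2 i ≤ d) ∧
    ∀ x, g x = (l.map fun t => tval t x).sum

theorem mon_add (a b : ι → ℕ) (x : ι → ℝ) : mon (a + b) x = mon a x * mon b x := by
  simp [mon, pow_add, prod_mul_distrib]

theorem mon_zero (x : ι → ℝ) : mon 0 x = 1 := by simp [mon]

theorem mon_single [DecidableEq ι] (i : ι) (k : ℕ) (x : ι → ℝ) :
    mon (Pi.single i k) x = x i ^ k := by
  unfold mon
  rw [Finset.prod_eq_single i]
  · simp
  · intro j _ hj; simp [hj]
  · simp

variable {g g' : (ι → ℝ) → ℝ} {d d' c c' : ℕ}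

theorem SM.mono (h : SM g d c) (hd : d ≤ d') (hc : c ≤ c') : SM g d' c' := by
  obtain ⟨l, h1, h2, h3⟩ := h
  exact ⟨l, h1.trans hc, fun t ht => (h2 t ht).trans hd, h3⟩

theorem SM.congr (h : SM g d c) (e : ∀ x, g' x = g x) : SM g' d c := by
  obtain ⟨l, h1, h2, h3⟩ := h
  exact ⟨l, h1, h2, fun x => (e x).trans (h3 x)⟩

theorem SM.zero : SM (fun _ : ι → ℝ => 0) d c := ⟨[], by simp, by simp, by simp⟩

theorem SM.monomial (a : ι → ℕ) : SM (mon a) (∑ i, a i) 1 :=
  ⟨[(true, a)], by simp, by simp, by simp [tval]⟩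

theorem SM.one : SM (fun _ : ι → ℝ => 1) 0 1 :=
  ((SM.monomial 0).mono (by simp) le_rfl).congr fun x => (mon_zero x).symm

theorem SM.coord (i : ι) : SM (fun x : ι → ℝ => x i) 1 1 := by
  classical
  exact ((SM.monomial (Pi.single i 1)).mono (by simp) le_rfl).congr fun x => by simp [mon_single]

theorem SM.neg (h : SM g d c) : SM (fun x => - g x) d c := by
  obtain ⟨l, h1, h2, h3⟩ := h
  refine ⟨l.map fun t => (!t.1, t.2), by simpa using h1, List.forall_mem_map.2 h2, fun x => ?_⟩
  beta_reduce
  rw [h3, List.map_map]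
  clear h1 h2 h3
  induction l with
  | nil => simp
  | cons t l ih =>
    simp only [List.map_cons, List.sum_cons, neg_add, ih, Function.comp]
    congr 1
    rcases t with ⟨_ | _, a⟩ <;> simp [tval]

theorem SM.add (h : SM g d c) (h' : SM g' d c') : SM (fun x => g x + g' x) d (c + c') := by
  obtain ⟨l, h1, h2, h3⟩ := h
  obtain ⟨l', h1', h2', h3'⟩ := h'
  refine ⟨l ++ l', by simp; omega, fun t ht => ?_, fun x => by simp [h3, h3']⟩
  rcases List.mem_append.1 ht with ht | ht
  · exact h2 t ht
  · exact h2' t ht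

theorem SM.sub (h : SM g d c) (h' : SM g' d c') : SM (fun x => g x - g' x) d (c + c') :=
  (h.add h'.neg).congr fun _ => sub_eq_add_neg _ _

theorem SM.listSum {α : Type} (l : List α) (f : α → (ι → ℝ) → ℝ) (h : ∀ a ∈ l, SM (f a) d c) :
    SM (fun x => (l.map fun a => f a x).sum) d (l.length * c) := by
  induction l with
  | nil => simpa using SM.zero
  | cons a l ih =>
    refine (((h a List.mem_cons_self).add (ih fun b hb => h b (List.mem_cons_of_mem _ hb))).mono
      le_rfl (le_of_eq ?_)).congr fun x => by simp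
    simp; ring

theorem SM.tmul (t : Bool × (ι → ℕ)) (ht : ∑ i, t.2 i ≤ d) (h' : SM g' d' c') :
    SM (fun x => tval t x * g' x) (d + d') c' := by
  obtain ⟨l, h1, h2, h3⟩ := h'
  refine ⟨l.map fun s => (t.1 == s.1, t.2 + s.2), by simpa using h1, ?_, fun x => ?_⟩
  · intro s' hs'
    obtain ⟨s, hs, rfl⟩ := List.mem_map.1 hs'
    simp only [Pi.add_apply, sum_add_distrib]
    exact add_le_add ht (h2 s hs)
  · beta_reduce
    rw [h3, List.map_map, ← List.sum_map_mul_left]
    congr 1
    refine List.map_congr_left fun s _ => ?_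
    rcases t with ⟨_ | _, a⟩ <;> rcases s with ⟨_ | _, b⟩ <;> simp [tval, mon_add]

theorem SM.mul (h : SM g d c) (h' : SM g' d' c') : SM (fun x => g x * g' x) (d + d') (c * c') := by
  obtain ⟨l, h1, h2, h3⟩ := h
  refine ((SM.listSum l (fun t x => tval t x * g' x) fun t ht => SM.tmul t (h2 t ht) h').mono le_rfl
    (Nat.mul_le_mul_right _ h1)).congr fun x => ?_
  rw [h3, List.sum_map_mul_right]

theorem SM.sum {α : Type} (s : Finset α) (f : α → (ι → ℝ) → ℝ) (h : ∀ a ∈ s, SM (f a) d c) :
    SM (fun x => ∑ a ∈ s, f a x) d (s.card * c) := by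
  have := SM.listSum s.toList f fun a ha => h a (mem_toList.1 ha)
  rw [length_toList] at this
  exact this.congr fun x => (Finset.sum_map_toList s _).symm

theorem SM.prod {α : Type} (s : Finset α) (f : α → (ι → ℝ) → ℝ) (h : ∀ a ∈ s, SM (f a) d c) :
    SM (fun x => ∏ a ∈ s, f a x) (s.card * d) (c ^ s.card) := by
  classical
  induction s using Finset.induction_on with
  | empty => simpa using SM.one
  | insert a s ha ih =>
    rw [card_insert_of_notMem ha]
    refine (((h a (mem_insert_self _ _)).mul (ih fun b hb => h b (mem_insert_of_mem hb))).mono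
      (le_of_eq (by ring)) (le_of_eq (by ring))).congr fun x => prod_insert ha

theorem SM.nat (k : ℕ) : SM (fun _ : ι → ℝ => (k : ℝ)) 0 k := by
  have := SM.sum (range k) (fun _ (_ : ι → ℝ) => (1 : ℝ)) fun _ _ => SM.one
  simpa using this

theorem SM.continuous (h : SM g d c) : Continuous g := by
  obtain ⟨l, -, -, h3⟩ := h
  rw [funext h3]
  refine continuous_list_sum _ fun t _ => ?_
  unfold tval mon
  fun_prop

/-- The leading term dominates. -/
theorem dominate (a : ℕ → ℝ) (ha : ∀ k, a k = 0 ∨ 1 ≤ |a k|) {c t : ℝ} (hc : 0 ≤ c) (ht : c + 1 ≤ t)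
    (n : ℕ) (hs : ∑ k ∈ range n, |a k| ≤ c) :
    (∀ k < n, a k = 0) ∨ 1 ≤ |∑ k ∈ range n, a k * t ^ k| := by
  induction n with
  | zero => left; simp
  | succ n ih =>
    rw [sum_range_succ] at hs ⊢
    have hs' : ∑ k ∈ range n, |a k| ≤ c := by linarith [abs_nonneg (a n)]
    rcases ha n with h | h
    · rcases ih hs' with h' | h'
      · left
        intro k hk
        rcases (Nat.lt_succ_iff_lt_or_eq.1 hk) with hk | rfl
        · exact h' k hk
        · exact h
      · right; simpa [h] using h'
    · right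
      have t1 : 1 ≤ t := by linarith
      rcases n with _ | n
      · simpa using h
      have h1 : |∑ k ∈ range (n + 1), a k * t ^ k| ≤ c * t ^ n := by
        refine (abs_sum_le_sum_abs _ _).trans (le_trans ?_ (mul_le_mul_of_nonneg_right hs' (by positivity)))
        rw [sum_mul]
        refine sum_le_sum fun k hk => ?_
        rw [abs_mul, abs_of_nonneg (by positivity : 0 ≤ t ^ k)]
        exact mul_le_mul_of_nonneg_left (pow_le_pow_right₀ t1 (by simpa [Nat.lt_succ_iff] using hk))
          (abs_nonneg _)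
      have h2 : t ^ (n + 1) ≤ |a (n + 1) * t ^ (n + 1)| := by
        rw [abs_mul, abs_of_nonneg (by positivity : 0 ≤ t ^ (n + 1))]
        exact le_mul_of_one_le_left (by positivity) h
      have h3 : 1 ≤ t ^ n := one_le_pow₀ t1
      have h4 := abs_add_le (∑ k ∈ range (n + 1), a k * t ^ k + a (n + 1) * t ^ (n + 1))
        (-∑ k ∈ range (n + 1), a k * t ^ k)
      rw [abs_neg, add_neg_cancel_comm] at h4
      have h5 : (c + 1) * t ^ n ≤ t ^ (n + 1) := by
        rw [pow_succ']; exact mul_le_mul_of_nonneg_right ht (by positivity)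
      linarith

theorem SM.coeffs {f : (Bool → ℝ) → ℝ} (h : SM f d c) : ∃ κ : ℕ → ℕ → ℤ,
    ∑ k ∈ range (d + 1), ∑ j ∈ range (d + 1), |(κ k j : ℝ)| ≤ c ∧
    ∀ v, f v = ∑ k ∈ range (d + 1), (∑ j ∈ range (d + 1), κ k j * v true ^ j) * v false ^ k := by
  obtain ⟨l, h1, h2, h3⟩ := h
  induction l generalizing f c with
  | nil => exact ⟨0, by simp, by simpa using h3⟩
  | cons t l ih =>
    obtain ⟨κ, k1, k2⟩ := ih (f := fun v => (l.map fun t => tval t v).sum) le_rfl
      (fun s hs => h2 s (List.mem_cons_of_mem _ hs)) fun _ => rfl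
    have ht := h2 t List.mem_cons_self
    rw [Fintype.sum_bool] at ht
    have m1 : t.2 false ∈ range (d + 1) := by simp; omega
    have m2 : t.2 true ∈ range (d + 1) := by simp; omega
    refine ⟨fun k j => κ k j + if j = t.2 true then if k = t.2 false then
      (if t.1 = true then 1 else -1) else 0 else 0, ?_, fun v => ?_⟩
    · refine le_trans (sum_le_sum fun k _ => sum_le_sum fun j _ => (?_ : _ ≤ |(κ k j : ℝ)| +
        if j = t.2 true then if k = t.2 false then 1 else 0 else 0)) ?_
      · push_cast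
        refine (abs_add_le _ _).trans (add_le_add le_rfl ?_)
        split_ifs <;> simp
      · simp only [sum_add_distrib, sum_ite_eq', m1, m2, if_true]
        have : ((t :: l).length : ℝ) ≤ c := by exact_mod_cast h1
        simp only [List.length_cons] at this
        push_cast at this
        linarith
    · rw [h3, List.map_cons, List.sum_cons, k2 v]
      push_cast
      simp only [add_mul, sum_add_distrib, ite_mul, zero_mul, sum_ite_eq', m1, m2, if_true]
      rw [add_comm]
      congr 1
      simp only [tval, mon, Fintype.prod_bool]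
      split_ifs <;> ring

/-- A root bound for a nonzero integer polynomial in two variables. -/
theorem SM.root_bound {f : (Bool → ℝ) → ℝ} (h : SM f d c) (hne : ∃ v, f v ≠ 0) {v : Bool → ℝ}
    (hv : f v = 0) (hy : (c : ℝ) + 1 ≤ v true) : v false < c * v true ^ d + 1 := by
  obtain ⟨κ, k1, k2⟩ := h.coeffs
  by_contra hu
  push Not at hu
  have c0 : (0 : ℝ) ≤ c := Nat.cast_nonneg _
  have y1 : 1 ≤ v true := by linarith
  have hint : ∀ k j, (κ k j : ℝ) = 0 ∨ 1 ≤ |(κ k j : ℝ)| := by
    intro k j
    rcases eq_or_ne (κ k j) 0 with h | h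
    · left; simp [h]
    · right; exact_mod_cast Int.one_le_abs h
  have hk : ∀ k ∈ range (d + 1), (∀ j < d + 1, (κ k j : ℝ) = 0) ∨
      1 ≤ |∑ j ∈ range (d + 1), (κ k j : ℝ) * v true ^ j| := fun k hk =>
    dominate _ (hint k) c0 hy _ (le_trans (single_le_sum
      (f := fun k => ∑ j ∈ range (d + 1), |(κ k j : ℝ)|)
      (fun _ _ => sum_nonneg fun _ _ => abs_nonneg _) hk) k1)
  have := dominate (fun k => if k < d + 1 then ∑ j ∈ range (d + 1), (κ k j : ℝ) * v true ^ j else 0)
    (fun k => by
      split_ifs with h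
      · rcases hk k (mem_range.2 h) with h' | h'
        · left; exact sum_eq_zero fun j hj => by rw [h' j (mem_range.1 hj), zero_mul]
        · exact Or.inr h'
      · exact Or.inl rfl) (by positivity) hu (d + 1) (by
      refine le_trans ?_ (mul_le_mul_of_nonneg_right k1 (by positivity))
      rw [sum_mul]
      refine sum_le_sum fun k hk => ?_
      rw [if_pos (mem_range.1 hk), sum_mul]
      refine (abs_sum_le_sum_abs _ _).trans (sum_le_sum fun j hj => ?_)
      rw [abs_mul, abs_of_nonneg (by positivity : 0 ≤ v true ^ j)]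
      exact mul_le_mul_of_nonneg_left (pow_le_pow_right₀ y1 (by simpa [Nat.lt_succ_iff] using hj))
          (abs_nonneg _))
  rcases this with h' | h'
  · obtain ⟨w, hw⟩ := hne
    apply hw
    rw [k2]
    refine sum_eq_zero fun k hk' => ?_
    have e := h' k (mem_range.1 hk')
    rw [if_pos (mem_range.1 hk')] at e
    rcases hk k hk' with h'' | h''
    · rw [sum_eq_zero fun j hj => by rw [h'' j (mem_range.1 hj), zero_mul], zero_mul]
    · rw [e] at h''; norm_num at h''
  · rw [sum_congr rfl fun k hk => by rw [if_pos (mem_range.1 hk)], ← k2, hv] at h'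
    norm_num at h'

end Pool.Agent.Lib.MP_32fe36_lc.ER
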