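import Pool.Agent.Lib.MP_32fe36_lc.ER.Member

/-!
The reduction produces split graphs.
-/

namespace Pool.Agent.Lib.MP_32fe36_lc.ER

open N68a2faeb N793a5b8e Pool.Agent.Shared.PolyTime N487b59b3

theorem red_split (fl : Bool) (cs : List RCon) : ∃ K : Set {a // a ∈ (red fl cs).1},
    (listGraph (red fl cs)).IsClique K ∧ (listGraph (red fl cs)).IsIndepSet Kᶜ := by
  let e := (renameGIso numberOf_injective (ggraph fl ((0, (0, 0, 0), (0, 0, 0)), true, true)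
    (Conf.mem (progOf cs).conf.pts) (Conf.mem (progOf cs).conf.lns) (progOf cs).conf.csg)).symm
  refine ⟨{a | (e a).1.1 ≤ 1 ∨ 5 ≤ (e a).1.1}, fun a ha b hb n => ?_, fun a ha b hb _ h => ?_⟩
  · exact e.map_adj_iff.1 ((ggraph_adj _ _).2 ⟨e.injective.ne n, Or.inl (Or.inl ⟨ha, hb⟩)⟩)
  · rcases ((ggraph_adj _ _).1 (e.map_adj_iff.2 h)).2 with (k | k) | k | k
    exacts [ha k.1, hb (Or.inl k.1), ha k.2, ha (Or.inl k.1)]

theorem gap {L : DecisionProblem} (hL : L ∈ ExistsR ∨ L ∈ NP) :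
    ∃ c : List Bool → List RCon, (∀ fl, IsPolyTime fun w => red fl (c w)) ∧
      ∀ w, (L w = true ↔ ∃ f : RV → ℝ, f vZ = 0 ∧ f vO = 1 ∧ RSat f (c w)) := by
  obtain ⟨r, hr, h⟩ : L ∈ ExistsR := hL.elim id (np_subset L)
  exact ⟨_, fun fl => ((pt_red fl).comp (pt_tse.comp pt_wordOf)).comp hr,
    fun w => h w ▸ etr_iff (r w)⟩

end Pool.Agent.Lib.MP_32fe36_lc.ER
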