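import Pool.Agent.Lib.MP_32fe36_lc.ER.Cluster

/-!
The point-line configuration of a straight-line program with comparisons.
-/

namespace Pool.Agent.Lib.MP_32fe36_lc.ER

open Filter Topology

set_option linter.unusedSectionVars false

abbrev Ob (κ : Type) : Type := ℕ × κ × κ

/-- A straight-line program: kind `0` is a free variable, kind `1` a sum, any other kind a product. -/
structure Slp (κ : Type) where
  vars : List κ
  kind : κ → ℕ
  pred : κ → κ
  arg : κ → κ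
  prims : List κ
  mults : List κ
  tests : List (κ × κ)
  zero : κ
  one : κ
  omg : κ
  nom : κ → ℕ

/-- Homogeneous coordinates of the objects. -/
def vec {κ R : Type} [Ring R] (X : κ → R) (o : Ob κ) : R × R × R :=
  if o.1 ≤ 2 then (X o.2.1, X o.2.2, 1) else if o.1 = 3 then (1, 0, 0)
  else if o.1 = 4 then (0, 1, 0) else if o.1 = 5 then (1, 1, 0)
  else if o.1 = 6 then (-1, 0, X o.2.1) else if o.1 = 7 then (0, -1, X o.2.1)
  else if o.1 = 8 then (1, -1, X o.2.1) else if o.1 = 9 then (-X o.2.1, 1, 0)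
  else if o.1 = 10 then (-1, 1, 0) else (0, 0, 1)

/-- The integer inner product. -/
def dotZ (u v : ℤ × ℤ × ℤ) : ℤ := u.1 * v.1 + u.2.1 * v.2.1 + u.2.2 * v.2.2

theorem dotZ_cast {κ : Type} (X : κ → ℕ) (a b : Ob κ) :
    (dotZ (vec (fun k => (X k : ℤ)) a) (vec (fun k => (X k : ℤ)) b) : ℝ) =
      dot (vec (fun k => (X k : ℝ)) a) (vec (fun k => (X k : ℝ)) b) := by
  have h : ∀ o : Ob κ, (((vec (fun k => (X k : ℤ)) o).1 : ℝ), ((vec (fun k => (X k : ℤ)) o).2.1 : ℝ),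
      ((vec (fun k => (X k : ℤ)) o).2.2 : ℝ)) = vec (fun k => (X k : ℝ)) o := fun o => by
    unfold vec
    split_ifs <;> simp
  rw [← h a, ← h b]
  simp [dotZ, dot]

namespace Slp

variable {κ : Type} [DecidableEq κ] (S : Slp κ)

/-- The points. -/
def pts : List (Ob κ) :=
  S.vars.map (fun k => (0, k, k)) ++ S.prims.map (fun b => (1, S.zero, b)) ++
    S.mults.map (fun b => (1, S.one, b)) ++ S.tests.map (fun t => (1, t)) ++
    (S.vars.filter fun k => decide (S.kind k ≠ 0)).map (fun k => (2, S.pred k, k)) ++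
    [(3, S.zero, S.zero), (4, S.zero, S.zero), (5, S.zero, S.zero)]

/-- The lines. -/
def lns : List (Ob κ) :=
  S.vars.map (fun k => (6, k, k)) ++ S.vars.map (fun k => (7, k, k)) ++
    S.prims.map (fun k => (8, k, k)) ++ S.mults.map (fun k => (9, k, k)) ++
    [(10, S.zero, S.zero), (11, S.zero, S.zero)]

/-- First parent. -/
def par1 (o : Ob κ) : Ob κ :=
  if o.1 = 0 then (10, S.zero, S.zero) else if o.1 ≤ 2 then (6, o.2.1, o.2.1)
  else if o.1 ≤ 5 then (11, S.zero, S.zero) else if o.1 = 6 then (4, S.zero, S.zero)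
  else if o.1 = 7 then (3, S.zero, S.zero) else if o.1 = 9 then (0, S.zero, S.zero)
  else if o.1 ≤ 10 then (5, S.zero, S.zero) else o

/-- Second parent. -/
def par2 (o : Ob κ) : Ob κ :=
  if o.1 = 0 then (if S.kind o.2.1 = 0 then o else (7, o.2.1, o.2.1))
  else if o.1 = 1 then (7, o.2.2, o.2.2)
  else if o.1 = 2 then (if S.kind o.2.2 = 1 then 8 else 9, S.arg o.2.2, S.arg o.2.2)
  else if o.1 = 6 then (0, o.2.1, o.2.1)
  else if o.1 = 7 then (if S.kind o.2.1 = 0 then (0, o.2.1, o.2.1) else (2, S.pred o.2.1, o.2.1))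
  else if o.1 = 8 then (1, S.zero, o.2.1) else if o.1 = 9 then (1, S.one, o.2.1) else o

/-- The nominal sign. -/
def sg (a b : Ob κ) : Bool :=
  decide (0 < dotZ (vec (fun k => (S.nom k : ℤ)) a) (vec (fun k => (S.nom k : ℤ)) b))

/-- The configuration. -/
def conf : Conf (Ob κ) := ⟨S.pts, S.lns, S.par1, S.par2, S.sg⟩

/-- Rank of an object. -/
def rk (ρ : κ → ℕ) (o : Ob κ) : ℕ :=
  if o.1 = 0 then (if S.kind o.2.1 = 0 then 10 * ρ o.2.1 + 3 else 10 * ρ o.2.1 + 5)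
  else if o.1 = 1 then 10 * (ρ o.2.1 + ρ o.2.2) + 7 else if o.1 = 2 then 10 * ρ o.2.2 + 3
  else if o.1 ≤ 5 then 1 else if o.1 = 6 then 10 * ρ o.2.1 + 6
  else if o.1 = 7 then 10 * ρ o.2.1 + 4 else if o.1 ≤ 9 then 10 * ρ o.2.1 + 8
  else if o.1 = 10 then 2 else 0

/-- Well-formed programs with generic nominal values. -/
structure WF (ρ : κ → ℕ) : Prop where
  z : S.zero ∈ S.vars
  o : S.one ∈ S.vars
  rz : ρ S.zero = 0
  ro : ρ S.one = 0
  pv : ∀ b ∈ S.prims, b ∈ S.vars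
  mv : ∀ b ∈ S.mults, b ∈ S.vars
  tv : ∀ t ∈ S.tests, t.1 ∈ S.vars ∧ t.2 ∈ S.vars
  om : S.omg ∈ S.prims
  con : ∀ k ∈ S.vars, S.kind k ≠ 0 → S.pred k ∈ S.vars ∧ ρ (S.pred k) < ρ k ∧ ρ (S.arg k) < ρ k
  add : ∀ k ∈ S.vars, S.kind k = 1 → S.arg k ∈ S.prims ∧
    S.nom k = S.nom (S.pred k) + S.nom (S.arg k) ∧
    ∀ c ∈ S.mults, S.nom c * S.nom (S.pred k) ≠ S.nom k
  mul : ∀ k ∈ S.vars, S.kind k ≠ 0 → S.kind k ≠ 1 → S.arg k ∈ S.mults ∧
    S.nom k = S.nom (S.arg k) * S.nom (S.pred k) ∧ S.nom (S.pred k) ≠ 0 ∧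
    ∀ c ∈ S.prims, S.nom (S.pred k) + S.nom c ≠ S.nom k
  nz : S.nom S.zero = 0
  no : S.nom S.one = 1
  inj : ∀ a ∈ S.vars, ∀ b ∈ S.vars, S.nom a = S.nom b → a = b
  np : ∀ b ∈ S.prims, 1 ≤ S.nom b
  nm : ∀ b ∈ S.mults, 2 ≤ S.nom b ∧ ∀ c ∈ S.prims, 1 + S.nom c ≠ S.nom b
  nt : ∀ t ∈ S.tests, S.nom t.2 = S.nom t.1 + S.nom S.omg ∧ S.nom t.1 ≠ 0 ∧
    ∀ c ∈ S.mults, S.nom c * S.nom t.1 ≠ S.nom t.2

/-- Solutions. -/
structure Sol (X : κ → ℝ) : Prop where
  z : X S.zero = 0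
  o : X S.one = 1
  add : ∀ k ∈ S.vars, S.kind k = 1 → X k = X (S.pred k) + X (S.arg k)
  mul : ∀ k ∈ S.vars, S.kind k ≠ 0 → S.kind k ≠ 1 → X k = X (S.arg k) * X (S.pred k)
  test : ∀ t ∈ S.tests, X t.1 + X S.omg < X t.2

variable {S} {ρ : κ → ℕ}

theorem mem_pts {a : Ob κ} : a ∈ S.conf.pts ↔ (∃ k ∈ S.vars, a = (0, k, k)) ∨
    (∃ k ∈ S.prims, a = (1, S.zero, k)) ∨ (∃ k ∈ S.mults, a = (1, S.one, k)) ∨
    (∃ t ∈ S.tests, a = (1, t.1, t.2)) ∨ (∃ k ∈ S.vars, S.kind k ≠ 0 ∧ a = (2, S.pred k, k)) ∨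
    a = (3, S.zero, S.zero) ∨ a = (4, S.zero, S.zero) ∨ a = (5, S.zero, S.zero) := by
  simp only [conf, pts, List.mem_append, List.mem_map, List.mem_filter, List.mem_cons,
    List.not_mem_nil, or_false, decide_eq_true_eq, eq_comm (b := a), or_assoc, and_assoc]

theorem mem_lns {a : Ob κ} : a ∈ S.conf.lns ↔ (∃ k ∈ S.vars, a = (6, k, k)) ∨
    (∃ k ∈ S.vars, a = (7, k, k)) ∨ (∃ k ∈ S.prims, a = (8, k, k)) ∨
    (∃ k ∈ S.mults, a = (9, k, k)) ∨ a = (10, S.zero, S.zero) ∨ a = (11, S.zero, S.zero) := by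
  simp only [conf, lns, List.mem_append, List.mem_map, List.mem_cons,
    List.not_mem_nil, or_false, eq_comm (b := a), or_assoc]

theorem pts_tag {a : Ob κ} (h : a ∈ S.conf.pts) : a.1 ≤ 5 := by
  rcases mem_pts.1 h with ⟨k, -, rfl⟩ | ⟨k, -, rfl⟩ | ⟨k, -, rfl⟩ | ⟨k, -, rfl⟩ | ⟨k, -, -, rfl⟩ |
    rfl | rfl | rfl <;> simp

theorem lns_tag {a : Ob κ} (h : a ∈ S.conf.lns) : 6 ≤ a.1 := by
  rcases mem_lns.1 h with ⟨k, -, rfl⟩ | ⟨k, -, rfl⟩ | ⟨k, -, rfl⟩ | ⟨k, -, rfl⟩ | rfl | rfl <;> simp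

theorem not_opp {a : Ob κ} : ¬ S.conf.Opp a a := by
  rintro (⟨h, h'⟩ | ⟨h', h⟩) <;> have := pts_tag h <;> have := lns_tag h' <;> omega

theorem opp_cases {a b : Ob κ} (h : S.conf.Opp a b) {P : Ob κ → Prop}
    (h0 : ∀ k ∈ S.vars, P (0, k, k)) (h1 : ∀ i j, P (1, i, j))
    (h2 : ∀ k ∈ S.vars, S.kind k ≠ 0 → P (2, S.pred k, k)) (h3 : P (3, S.zero, S.zero))
    (h4 : P (4, S.zero, S.zero)) (h5 : P (5, S.zero, S.zero)) (h6 : ∀ k ∈ S.vars, P (6, k, k))
    (h7 : ∀ k ∈ S.vars, P (7, k, k)) (h8 : ∀ k ∈ S.prims, P (8, k, k))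
    (h9 : ∀ k ∈ S.mults, P (9, k, k)) (h10 : P (10, S.zero, S.zero))
    (h11 : P (11, S.zero, S.zero)) : P a := by
  rcases h with ⟨h, -⟩ | ⟨h, -⟩
  · rcases mem_pts.1 h with ⟨k, hk, rfl⟩ | ⟨k, -, rfl⟩ | ⟨k, -, rfl⟩ | ⟨k, -, rfl⟩ | ⟨k, hk, hk', rfl⟩ |
      rfl | rfl | rfl
    exacts [h0 k hk, h1 _ _, h1 _ _, h1 _ _, h2 k hk hk', h3, h4, h5]
  · rcases mem_lns.1 h with ⟨k, hk, rfl⟩ | ⟨k, hk, rfl⟩ | ⟨k, hk, rfl⟩ | ⟨k, hk, rfl⟩ | rfl | rfl
    exacts [h6 k hk, h7 k hk, h8 k hk, h9 k hk, h10, h11]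

theorem WF.ranked (H : S.WF ρ) : S.conf.Ranked (S.rk ρ) := by
  refine ⟨fun a h h' => not_opp (Or.inl ⟨h, h'⟩), fun a h => ?_, fun a h => ?_, fun a h => ?_⟩
  · have : S.conf.par1 a = a ∨ S.rk ρ (S.conf.par1 a) < S.rk ρ a := by
      refine opp_cases h (P := fun a => S.conf.par1 a = a ∨ S.rk ρ (S.conf.par1 a) < S.rk ρ a)
        (fun k _ => ?_) (fun i j => ?_) (fun k hk hk' => ?_) ?_ ?_ ?_ (fun k _ => ?_) (fun k _ => ?_)
        (fun k _ => ?_) (fun k _ => ?_) ?_ ?_ <;> simp [conf, par1, rk, H.rz]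
      · split_ifs <;> omega
      · have := H.con k hk hk'; omega
      · split_ifs <;> omega
    exact this.resolve_left fun e => not_opp (e ▸ h)
  · have : S.conf.par2 a = a ∨ S.rk ρ (S.conf.par2 a) < S.rk ρ a := by
      refine opp_cases h (P := fun a => S.conf.par2 a = a ∨ S.rk ρ (S.conf.par2 a) < S.rk ρ a)
        (fun k _ => ?_) (fun i j => ?_) (fun k hk hk' => ?_) ?_ ?_ ?_ (fun k _ => ?_) (fun k _ => ?_)
        (fun k _ => ?_) (fun k _ => ?_) ?_ ?_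
      · by_cases e : S.kind k = 0 <;> simp [conf, par2, rk, e]
      · simp [conf, par2, rk]; omega
      · have := H.con k hk hk'
        by_cases e : S.kind k = 1 <;> simp [conf, par2, rk, e] <;> omega
      · simp [conf, par2]
      · simp [conf, par2]
      · simp [conf, par2]
      · by_cases e : S.kind k = 0 <;> simp [conf, par2, rk, e]
      · by_cases e : S.kind k = 0 <;> simp [conf, par2, rk, e]
      all_goals simp [conf, par2, rk, H.rz, H.ro]
    exact this.resolve_left fun e => not_opp (e ▸ h)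
  · have : S.conf.par2 a = a ∨ S.conf.par2 a ≠ S.conf.par1 a := by
      refine opp_cases h (P := fun a => S.conf.par2 a = a ∨ S.conf.par2 a ≠ S.conf.par1 a)
        (fun k _ => ?_) (fun i j => ?_) (fun k hk hk' => ?_) ?_ ?_ ?_ (fun k _ => ?_) (fun k _ => ?_)
        (fun k _ => ?_) (fun k _ => ?_) ?_ ?_
      · by_cases e : S.kind k = 0 <;> simp [conf, par2, par1, e]
      · simp [conf, par2, par1]
      · by_cases e : S.kind k = 1 <;> simp [conf, par2, par1, e]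
      · simp [conf, par2]
      · simp [conf, par2]
      · simp [conf, par2]
      · simp [conf, par2, par1]
      · by_cases e : S.kind k = 0 <;> simp [conf, par2, par1, e]
      all_goals simp [conf, par2, par1]
    exact this.resolve_left fun e => not_opp (e ▸ h)

theorem Sol.par1 {X : κ → ℝ} (hX : S.Sol X) {a : Ob κ} (h : S.conf.Opp a (S.conf.par1 a)) :
    dot (vec X a) (vec X (S.conf.par1 a)) = 0 := by
  have : S.conf.par1 a = a ∨ dot (vec X a) (vec X (S.conf.par1 a)) = 0 := by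
    refine opp_cases h (P := fun a => S.conf.par1 a = a ∨ dot (vec X a) (vec X (S.conf.par1 a)) = 0)
      (fun k _ => ?_) (fun i j => ?_) (fun k hk hk' => ?_) ?_ ?_ ?_ (fun k _ => ?_) (fun k _ => ?_)
      (fun k _ => ?_) (fun k _ => ?_) ?_ ?_ <;> simp [conf, Slp.par1, vec, dot, hX.z]
  exact this.resolve_left fun e => not_opp (e ▸ h)

theorem Sol.par2 {X : κ → ℝ} (hX : S.Sol X) {a : Ob κ} (h : S.conf.Opp a (S.conf.par2 a)) :
    dot (vec X a) (vec X (S.conf.par2 a)) = 0 := by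
  have : S.conf.par2 a = a ∨ dot (vec X a) (vec X (S.conf.par2 a)) = 0 := by
    refine opp_cases h (P := fun a => S.conf.par2 a = a ∨ dot (vec X a) (vec X (S.conf.par2 a)) = 0)
      (fun k _ => ?_) (fun i j => ?_) (fun k hk hk' => ?_) ?_ ?_ ?_ (fun k _ => ?_) (fun k _ => ?_)
      (fun k _ => ?_) (fun k _ => ?_) ?_ ?_
    · by_cases e : S.kind k = 0 <;> simp [conf, Slp.par2, vec, dot, e]
    · simp [conf, Slp.par2, vec, dot]
    · by_cases e : S.kind k = 1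
      · simp [conf, Slp.par2, vec, dot, e, hX.add k hk e]
      · simp [conf, Slp.par2, vec, dot, e, hX.mul k hk hk' e, mul_comm]
    · simp [conf, Slp.par2]
    · simp [conf, Slp.par2]
    · simp [conf, Slp.par2]
    · simp [conf, Slp.par2, vec, dot]
    · by_cases e : S.kind k = 0 <;> simp [conf, Slp.par2, vec, dot, e]
    all_goals simp [conf, Slp.par2, vec, dot, hX.z, hX.o]
  exact this.resolve_left fun e => not_opp (e ▸ h)

theorem Sol.dir {X : κ → ℝ} (hX : S.Sol X) (a : Ob κ) (i j : Bool) :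
    ∃ W, (S.conf.Opp a (S.conf.par1 a) → Sg i (dot W (vec X (S.conf.par1 a)))) ∧
      (S.conf.Opp a (S.conf.par2 a) → Sg j (dot W (vec X (S.conf.par2 a)))) := by
  by_cases h : ∃ b, S.conf.Opp a b
  swap
  · exact ⟨0, fun h' => absurd ⟨_, h'⟩ h, fun h' => absurd ⟨_, h'⟩ h⟩
  obtain ⟨b, h⟩ := h
  have : ∃ u v : V3, (u.1 * v.2.1 - u.2.1 * v.1 ≠ 0 ∨ u.1 * v.2.2 - u.2.2 * v.1 ≠ 0 ∨
      u.2.1 * v.2.2 - u.2.2 * v.2.1 ≠ 0) ∧ (S.conf.par1 a = a ∨ vec X (S.conf.par1 a) = u) ∧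
      (S.conf.par2 a = a ∨ vec X (S.conf.par2 a) = v) := by
    refine opp_cases h (P := fun a => ∃ u v : V3, (u.1 * v.2.1 - u.2.1 * v.1 ≠ 0 ∨
      u.1 * v.2.2 - u.2.2 * v.1 ≠ 0 ∨ u.2.1 * v.2.2 - u.2.2 * v.2.1 ≠ 0) ∧
      (S.conf.par1 a = a ∨ vec X (S.conf.par1 a) = u) ∧
      (S.conf.par2 a = a ∨ vec X (S.conf.par2 a) = v))
      (fun k _ => ⟨_, vec X (7, k, k), ?_, Or.inr rfl, ?_⟩)
      (fun i j => ⟨_, _, ?_, Or.inr rfl, Or.inr rfl⟩)
      (fun k hk hk' => ⟨_, _, ?_, Or.inr rfl, Or.inr rfl⟩) ⟨_, (1, 0, 0), ?_, Or.inr rfl, Or.inl rfl⟩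
      ⟨_, (1, 0, 0), ?_, Or.inr rfl, Or.inl rfl⟩ ⟨_, (1, 0, 0), ?_, Or.inr rfl, Or.inl rfl⟩
      (fun k _ => ⟨_, _, ?_, Or.inr rfl, Or.inr rfl⟩) (fun k _ => ⟨_, _, ?_, Or.inr rfl, Or.inr rfl⟩)
      (fun k _ => ⟨_, _, ?_, Or.inr rfl, Or.inr rfl⟩) (fun k _ => ⟨_, _, ?_, Or.inr rfl, Or.inr rfl⟩)
      ⟨_, (0, 0, 1), ?_, Or.inr rfl, Or.inl rfl⟩ ⟨(1, 0, 0), (0, 1, 0), ?_, Or.inl rfl, Or.inl rfl⟩
    · simp [conf, Slp.par1, vec]
    · by_cases e : S.kind k = 0 <;> simp [conf, Slp.par2, e]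
    · simp [conf, Slp.par1, Slp.par2, vec]
    · by_cases e : S.kind k = 1 <;> simp [conf, Slp.par1, Slp.par2, vec, e]
    · simp [conf, Slp.par1, vec]
    · simp [conf, Slp.par1, vec]
    · simp [conf, Slp.par1, vec]
    · simp [conf, Slp.par1, Slp.par2, vec]
    · by_cases e : S.kind k = 0 <;> simp [conf, Slp.par1, Slp.par2, vec, e]
    all_goals simp [conf, Slp.par1, Slp.par2, vec, hX.z, hX.o]
  obtain ⟨u, v, h1, h2, h3⟩ := this
  obtain ⟨W, w1, w2⟩ := exists_dir h1 i j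
  exact ⟨W, fun g => (h2.resolve_left fun e => not_opp (e ▸ g)) ▸ w1,
    fun g => (h3.resolve_left fun e => not_opp (e ▸ g)) ▸ w2⟩

theorem WF.generic (H : S.WF ρ) {a b : Ob κ} (ha : a ∈ S.conf.pts) (hb : b ∈ S.conf.lns)
    (h : dotZ (vec (fun k => (S.nom k : ℤ)) a) (vec (fun k => (S.nom k : ℤ)) b) = 0) :
    S.conf.IsPar a b ∨ ∃ t ∈ S.tests, a = (1, t.1, t.2) ∧ b = (8, S.omg, S.omg) := by
  have nz := H.nz
  have no := H.no
  have h6 : ∀ n i j c, n ≤ 2 → (n = 0 → i = j) → i ∈ S.vars → c ∈ S.vars →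
      dotZ (vec (fun k => (S.nom k : ℤ)) (n, i, j)) (vec (fun k => (S.nom k : ℤ)) (6, c, c)) = 0 →
      S.conf.IsPar (n, i, j) (6, c, c) := by
    intro n i j c hn hn' hi hc h
    have : c = i := H.inj _ hc _ hi (by simp [vec, dotZ, hn] at h; omega)
    subst this
    by_cases e : n = 0
    · simp [Conf.IsPar, conf, par2, e, ← hn' e]
    · simp [Conf.IsPar, conf, par1, e, hn]
  have h7 : ∀ n i j c, n ≤ 2 → j ∈ S.vars → c ∈ S.vars →
      dotZ (vec (fun k => (S.nom k : ℤ)) (n, i, j)) (vec (fun k => (S.nom k : ℤ)) (7, c, c)) = 0 →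
      c = j := by
    intro n i j c hn hi hc h
    exact H.inj _ hc _ hi (by simp [vec, dotZ, hn] at h; omega)
  rcases mem_pts.1 ha with ⟨k, hk, rfl⟩ | ⟨k, hk, rfl⟩ | ⟨k, hk, rfl⟩ | ⟨k, hk, rfl⟩ |
    ⟨k, hk, hk', rfl⟩ | rfl | rfl | rfl <;>
  rcases mem_lns.1 hb with ⟨c, hc, rfl⟩ | ⟨c, hc, rfl⟩ | ⟨c, hc, rfl⟩ | ⟨c, hc, rfl⟩ | rfl | rfl
  · exact Or.inl (h6 _ _ _ _ (by simp) (by simp) hk hc h)
  · obtain rfl := h7 _ _ _ _ (by simp) hk hc h
    by_cases e : S.kind c = 0 <;> simp [Conf.IsPar, conf, par2, e]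
  · have := H.np c hc
    simp [vec, dotZ] at h; omega
  · have := (H.nm c hc).1
    have : k = S.zero := H.inj _ hk _ H.z (by
      simp only [vec, dotZ] at h
      simp at h
      have : (S.nom k : ℤ) * (S.nom c - 1) = 0 := by linarith
      rcases mul_eq_zero.1 this with h | h <;> omega)
    simp [Conf.IsPar, conf, par1, this]
  · simp [Conf.IsPar, conf, par1]
  · simp [vec, dotZ] at h
  · exact Or.inl (h6 _ _ _ _ (by simp) (by simp) H.z hc h)
  · obtain rfl := h7 _ _ _ _ (by simp) (H.pv k hk) hc h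
    simp [Conf.IsPar, conf, par2]
  · have : c = k := H.inj _ (H.pv c hc) _ (H.pv k hk) (by simp [vec, dotZ, nz] at h; omega)
    simp [Conf.IsPar, conf, par2, this]
  · have := H.np k hk
    simp [vec, dotZ, nz] at h; omega
  · have := H.np k hk
    simp [vec, dotZ, nz] at h; omega
  · simp [vec, dotZ] at h
  · exact Or.inl (h6 _ _ _ _ (by simp) (by simp) H.o hc h)
  · obtain rfl := h7 _ _ _ _ (by simp) (H.mv k hk) hc h
    simp [Conf.IsPar, conf, par2]
  · have := (H.nm k hk).2 c hc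
    simp [vec, dotZ, no] at h; omega
  · have : c = k := H.inj _ (H.mv c hc) _ (H.mv k hk) (by simp [vec, dotZ, no] at h; omega)
    simp [Conf.IsPar, conf, par2, this]
  · have := (H.nm k hk).1
    simp [vec, dotZ, no] at h; omega
  · simp [vec, dotZ] at h
  · exact Or.inl (h6 _ _ _ _ (by simp) (by simp) (H.tv k hk).1 hc h)
  · obtain rfl := h7 _ _ _ _ (by simp) (H.tv k hk).2 hc h
    simp [Conf.IsPar, conf, par2]
  · have := (H.nt k hk).1
    have : c = S.omg := H.inj _ (H.pv c hc) _ (H.pv _ H.om) (by simp [vec, dotZ] at h; omega)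
    exact Or.inr ⟨k, hk, rfl, by rw [this]⟩
  · refine absurd ?_ ((H.nt k hk).2.2 c hc)
    simp [vec, dotZ] at h
    zify; linarith
  · have := (H.nt k hk).1
    have := H.np _ H.om
    simp [vec, dotZ] at h; omega
  · simp [vec, dotZ] at h
  · exact Or.inl (h6 _ _ _ _ (by simp) (by simp) (H.con k hk hk').1 hc h)
  · obtain rfl := h7 _ _ _ _ (by simp) hk hc h
    simp [Conf.IsPar, conf, par2, hk']
  · simp [vec, dotZ] at h
    by_cases e : S.kind k = 1
    · obtain ⟨h1, h2, -⟩ := H.add k hk e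
      have : c = S.arg k := H.inj _ (H.pv c hc) _ (H.pv _ h1) (by omega)
      simp [Conf.IsPar, conf, par2, this, e]
    · have := (H.mul k hk hk' e).2.2.2 c hc
      omega
  · simp [vec, dotZ] at h
    have h' : S.nom c * S.nom (S.pred k) = S.nom k := by zify; linarith
    by_cases e : S.kind k = 1
    · exact absurd h' ((H.add k hk e).2.2 c hc)
    · obtain ⟨h1, h2, h3, -⟩ := H.mul k hk hk' e
      have : c = S.arg k := H.inj _ (H.mv c hc) _ (H.mv _ h1)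
        (Nat.eq_of_mul_eq_mul_right (Nat.pos_of_ne_zero h3) (h'.trans h2))
      simp [Conf.IsPar, conf, par2, this, e]
  · obtain ⟨h1, h2, -⟩ := H.con k hk hk'
    have : S.pred k = k := H.inj _ h1 _ hk (by simp [vec, dotZ] at h; omega)
    rw [this] at h2; omega
  · simp [vec, dotZ] at h
  all_goals first
    | (simp [Conf.IsPar, conf, par1]; done)
    | (simp [vec, dotZ] at h; done)
    | (have := (H.nm c hc).1; simp [vec, dotZ] at h; omega)

theorem WF.complete (H : S.WF ρ) {X : ℝ → κ → ℝ} (hc : ∀ k, Continuous fun t => X t k)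
    (h0 : ∀ k, X 0 k = S.nom k) (hs : ∀ t, 0 < t → S.Sol (X t)) :
    StrongReal (Conf.mem S.conf.pts) (Conf.mem S.conf.lns) S.conf.csg := by
  have e0 : X 0 = fun k => (S.nom k : ℝ) := funext h0
  have cv : ∀ a : Ob κ, Continuous fun t => vec (X t) a := fun a => by
    unfold vec
    split_ifs <;> fun_prop
  have ev : ∀ᶠ t : ℝ in 𝓝[>] 0, (∀ a ∈ S.conf.pts, ∀ b ∈ S.conf.lns, ¬ S.conf.IsPar a b →
      Sg (S.sg a b) (dot (vec (X t) a) (vec (X t) b))) ∧
      (∀ a ∈ S.conf.pts, Sg true (dot (vec (X t) a) (1, 1, 1))) ∧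
      (∀ b ∈ S.conf.lns, Sg true (dot (vec (X t) b) (-2, -1, 3))) ∧ 0 < t := by
    refine Eventually.and ?_ (Eventually.and ?_ (Eventually.and ?_ self_mem_nhdsWithin))
    · refine (eventually_all_finite S.conf.pts.finite_toSet).2 fun a ha =>
        (eventually_all_finite S.conf.lns.finite_toSet).2 fun b hb => ?_
      by_cases hp : S.conf.IsPar a b
      · simp [hp]
      simp only [hp, not_false_eq_true, forall_const]
      by_cases h : dotZ (vec (fun k => (S.nom k : ℤ)) a) (vec (fun k => (S.nom k : ℤ)) b) = 0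
      · obtain ⟨τ, hτ, rfl, rfl⟩ := (H.generic ha hb h).resolve_left hp
        filter_upwards [self_mem_nhdsWithin] with t ht
        have := (hs t ht).test τ hτ
        rw [sg, h]
        simp [Sg, vec, dot]
        linarith
      · have := cv a
        have := cv b
        refine ev_sg (by unfold dot; fun_prop) ?_
        rw [e0, ← dotZ_cast, sg]
        rcases lt_or_gt_of_ne h with h | h
        · rw [decide_eq_false h.not_gt, sg_false]; exact_mod_cast h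
        · rw [decide_eq_true h, sg_true]; exact_mod_cast h
    · refine (eventually_all_finite S.conf.pts.finite_toSet).2 fun a ha => ?_
      have := cv a
      refine ev_sg (by unfold dot; fun_prop) ?_
      rw [e0, sg_true]
      have := pts_tag ha
      unfold vec
      split_ifs <;> first | omega | (simp [dot]; done) | (simp only [dot]; positivity)
    · refine (eventually_all_finite S.conf.lns.finite_toSet).2 fun a ha => ?_
      have := cv a
      refine ev_sg (by unfold dot; fun_prop) ?_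
      rw [e0, sg_true]
      rcases mem_lns.1 ha with ⟨c, hc, rfl⟩ | ⟨c, hc, rfl⟩ | ⟨c, hc, rfl⟩ | ⟨c, hc, rfl⟩ | rfl | rfl <;>
        simp [vec, dot]
      · positivity
      · positivity
      · have : (1 : ℝ) ≤ S.nom c := by exact_mod_cast H.np c hc
        linarith
      · have : (2 : ℝ) ≤ S.nom c := by exact_mod_cast (H.nm c hc).1
        linarith
  obtain ⟨t, h1, h2, h3, h4⟩ := ev.exists
  have hX := hs t h4
  refine H.ranked.complete (E := vec (X t)) (fun a ha b hb => ⟨?_, h1 a ha b hb⟩) hX.dir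
    (fun a ha => sg_true.1 (h2 a ha)) fun a ha => sg_true.1 (h3 a ha)
  rintro (rfl | rfl | rfl | rfl)
  · exact hX.par1 (Or.inl ⟨ha, hb⟩)
  · exact hX.par2 (Or.inl ⟨ha, hb⟩)
  · rw [dot_comm]; exact hX.par1 (Or.inr ⟨hb, ha⟩)
  · rw [dot_comm]; exact hX.par2 (Or.inr ⟨hb, ha⟩)

end Slp

end Pool.Agent.Lib.MP_32fe36_lc.ER
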