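import Pool.Agent.Lib.MP_32fe36_lc.ER.Slp

/-!
An exact realisation of the configuration gives a solution of the program.
-/

namespace Pool.Agent.Lib.MP_32fe36_lc.ER

theorem dual_basis {a1 a2 a3 b1 b2 b3 : V3} (h12 : dot b2 a1 = 0) (h13 : dot b3 a1 = 0)
    (h21 : dot b1 a2 = 0) (h23 : dot b3 a2 = 0) (h31 : dot b1 a3 = 0) (h32 : dot b2 a3 = 0)
    (h1 : dot b1 a1 ≠ 0) (h2 : dot b2 a2 ≠ 0) (h3 : dot b3 a3 ≠ 0) (p l : V3) :
    dot p l = dot p a1 * dot b1 l / dot b1 a1 + dot p a2 * dot b2 l / dot b2 a2 +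
      dot p a3 * dot b3 l / dot b3 a3 := by
  let A : Matrix (Fin 3) (Fin 3) ℝ := !![a1.1 / dot b1 a1, a1.2.1 / dot b1 a1, a1.2.2 / dot b1 a1;
    a2.1 / dot b2 a2, a2.2.1 / dot b2 a2, a2.2.2 / dot b2 a2;
    a3.1 / dot b3 a3, a3.2.1 / dot b3 a3, a3.2.2 / dot b3 a3]
  let B : Matrix (Fin 3) (Fin 3) ℝ := !![b1.1, b2.1, b3.1; b1.2.1, b2.2.1, b3.2.1;
    b1.2.2, b2.2.2, b3.2.2]
  have e : ∀ (a b : V3) (d : ℝ), a.1 / d * b.1 + a.2.1 / d * b.2.1 + a.2.2 / d * b.2.2 = dot b a / d := by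
    intro a b d; unfold dot; ring
  have hAB : A * B = 1 := by
    ext i j
    fin_cases i <;> fin_cases j <;>
      simp [A, B, Matrix.mul_apply, Fin.sum_univ_three, e, h12, h13, h21, h23, h31, h32, h1, h2, h3]
  have hBA := mul_eq_one_comm.1 hAB
  have g := fun i j => congrFun (congrFun hBA i) j
  have g00 := g 0 0
  have g01 := g 0 1
  have g02 := g 0 2
  have g10 := g 1 0
  have g11 := g 1 1
  have g12 := g 1 2
  have g20 := g 2 0
  have g21 := g 2 1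
  have g22 := g 2 2
  simp [A, B, Matrix.mul_apply, Fin.sum_univ_three] at g00 g01 g02 g10 g11 g12 g20 g21 g22
  generalize dot b1 a1 = d1 at *
  generalize dot b2 a2 = d2 at *
  generalize dot b3 a3 = d3 at *
  unfold dot
  linear_combination (-l.1 * p.1) * g00 - l.1 * p.2.1 * g01 - l.1 * p.2.2 * g02 -
    l.2.1 * p.1 * g10 - l.2.1 * p.2.1 * g11 - l.2.1 * p.2.2 * g12 -
    l.2.2 * p.1 * g20 - l.2.2 * p.2.1 * g21 - l.2.2 * p.2.2 * g22

namespace Slp

variable {κ : Type} [DecidableEq κ] {S : Slp κ} {ρ : κ → ℕ}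

theorem WF.sound (H : S.WF ρ) {E : Ob κ → V3} (hE : S.conf.Exact E) : ∃ X, S.Sol X := by
  have zo : S.zero ≠ S.one := fun h => by have := H.nz; rw [h, H.no] at this; cases this
  have m0 : ∀ k ∈ S.vars, (0, k, k) ∈ S.conf.pts := fun k hk => mem_pts.2 (Or.inl ⟨k, hk, rfl⟩)
  have m1 : ∀ k ∈ S.prims, (1, S.zero, k) ∈ S.conf.pts := fun k hk =>
    mem_pts.2 (Or.inr (Or.inl ⟨k, hk, rfl⟩))
  have m1' : ∀ k ∈ S.mults, (1, S.one, k) ∈ S.conf.pts := fun k hk =>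
    mem_pts.2 (Or.inr (Or.inr (Or.inl ⟨k, hk, rfl⟩)))
  have mt : ∀ t ∈ S.tests, (1, t.1, t.2) ∈ S.conf.pts := fun k hk =>
    mem_pts.2 (Or.inr (Or.inr (Or.inr (Or.inl ⟨k, hk, rfl⟩))))
  have m2 : ∀ k ∈ S.vars, S.kind k ≠ 0 → (2, S.pred k, k) ∈ S.conf.pts := fun k hk hk' =>
    mem_pts.2 (Or.inr (Or.inr (Or.inr (Or.inr (Or.inl ⟨k, hk, hk', rfl⟩)))))
  have m3 : (3, S.zero, S.zero) ∈ S.conf.pts := mem_pts.2 (by simp)
  have m4 : (4, S.zero, S.zero) ∈ S.conf.pts := mem_pts.2 (by simp)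
  have m5 : (5, S.zero, S.zero) ∈ S.conf.pts := mem_pts.2 (by simp)
  have m6 : ∀ k ∈ S.vars, (6, k, k) ∈ S.conf.lns := fun k hk => mem_lns.2 (Or.inl ⟨k, hk, rfl⟩)
  have m7 : ∀ k ∈ S.vars, (7, k, k) ∈ S.conf.lns := fun k hk =>
    mem_lns.2 (Or.inr (Or.inl ⟨k, hk, rfl⟩))
  have m8 : ∀ k ∈ S.prims, (8, k, k) ∈ S.conf.lns := fun k hk =>
    mem_lns.2 (Or.inr (Or.inr (Or.inl ⟨k, hk, rfl⟩)))
  have m9 : ∀ k ∈ S.mults, (9, k, k) ∈ S.conf.lns := fun k hk =>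
    mem_lns.2 (Or.inr (Or.inr (Or.inr (Or.inl ⟨k, hk, rfl⟩))))
  have m10 : (10, S.zero, S.zero) ∈ S.conf.lns := mem_lns.2 (by simp)
  have m11 : (11, S.zero, S.zero) ∈ S.conf.lns := mem_lns.2 (by simp)
  have hz : ∀ {a b}, a ∈ S.conf.pts → b ∈ S.conf.lns → S.conf.IsPar a b → dot (E a) (E b) = 0 :=
    fun ha hb => (hE _ ha _ hb).1
  have hp : ∀ {a b}, a ∈ S.conf.pts → b ∈ S.conf.lns → ¬ S.conf.IsPar a b ∧ S.sg a b = true →
      0 < dot (E a) (E b) := fun ha hb h => sg_true.1 (h.2 ▸ (hE _ ha _ hb).2 h.1)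
  have hn : ∀ {a b}, a ∈ S.conf.pts → b ∈ S.conf.lns → ¬ S.conf.IsPar a b ∧ S.sg a b = false →
      dot (E a) (E b) < 0 := fun ha hb h => sg_false.1 (h.2 ▸ (hE _ ha _ hb).2 h.1)
  have i07 : ∀ k, S.conf.IsPar (0, k, k) (7, k, k) := fun k => by
    by_cases e : S.kind k = 0 <;> simp [Conf.IsPar, conf, par2, e]
  have s1 : ∀ c ∈ S.vars, dot (E (3, S.zero, S.zero)) (E (6, c, c)) < 0 := fun c hc =>
    hn m3 (m6 c hc) (by simp [Conf.IsPar, conf, par1, par2, sg, vec, dotZ])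
  have s2 : ∀ c ∈ S.vars, dot (E (4, S.zero, S.zero)) (E (7, c, c)) < 0 := fun c hc =>
    hn m4 (m7 c hc) (by by_cases e : S.kind c = 0 <;>
      simp [Conf.IsPar, conf, par1, par2, sg, vec, dotZ, e])
  have s3 : ∀ a ∈ S.conf.pts, a.1 ≤ 2 → 0 < dot (E a) (E (11, S.zero, S.zero)) := by
    rintro ⟨n, i, j⟩ ha h
    refine hp ha m11 ?_
    dsimp only at h
    interval_cases n
    · by_cases e : S.kind i = 0 <;> simp [Conf.IsPar, conf, par1, par2, sg, vec, dotZ, e]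
    · simp [Conf.IsPar, conf, par1, par2, sg, vec, dotZ]
    · by_cases e : S.kind j = 1 <;> simp [Conf.IsPar, conf, par1, par2, sg, vec, dotZ, e]
  have c1 : dot (E (0, S.one, S.one)) (E (6, S.zero, S.zero)) < 0 :=
    hn (m0 _ H.o) (m6 _ H.z) (by by_cases e : S.kind S.one = 0 <;>
      simp [Conf.IsPar, conf, par1, par2, sg, vec, dotZ, e, zo.symm, H.nz, H.no])
  have c2 : dot (E (0, S.one, S.one)) (E (7, S.zero, S.zero)) < 0 :=
    hn (m0 _ H.o) (m7 _ H.z) (by by_cases e : S.kind S.one = 0 <;> by_cases e' : S.kind S.zero = 0 <;>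
      simp [Conf.IsPar, conf, par1, par2, sg, vec, dotZ, e, e', zo, zo.symm, H.nz, H.no])
  have c3 := s3 _ (m0 _ H.o) (by simp)
  have s6 : dot (E (5, S.zero, S.zero)) (E (6, S.zero, S.zero)) < 0 :=
    hn m5 (m6 _ H.z) (by simp [Conf.IsPar, conf, par1, par2, sg, vec, dotZ])
  have d1 := s1 _ H.z
  have d2 := s2 _ H.z
  have d3 := s3 _ (m0 _ H.z) (by simp)
  have z06 : dot (E (0, S.zero, S.zero)) (E (6, S.zero, S.zero)) = 0 :=
    hz (m0 _ H.z) (m6 _ H.z) (by simp [Conf.IsPar, conf, par2])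
  have z07 := hz (m0 _ H.z) (m7 _ H.z) (i07 _)
  have basis := dual_basis (hz m4 (m6 _ H.z) (by simp [Conf.IsPar, conf, par1])) z06
    (hz m3 (m7 _ H.z) (by simp [Conf.IsPar, conf, par1])) z07
    (hz m3 m11 (by simp [Conf.IsPar, conf, par1])) (hz m4 m11 (by simp [Conf.IsPar, conf, par1]))
    d1.ne d2.ne d3.ne'
  have z5 : dot (E (5, S.zero, S.zero)) (E (11, S.zero, S.zero)) = 0 :=
    hz m5 m11 (by simp [Conf.IsPar, conf, par1])
  obtain ⟨x, y, α, β, γ, δ1, δ2, w1, w2, F1, F2, F3, F4, p1, p2, p3, x0, y0, x1, y1⟩ :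
      ∃ (x y α β γ : Ob κ → ℝ) (δ1 δ2 w1 w2 : ℝ), (∀ a ∈ S.conf.pts, a.1 ≤ 2 → ∀ l, ∃ w, 0 < w ∧
        dot (E a) (E l) = w * (α l * x a + β l * y a + γ l)) ∧
        (∀ l, α l = w1 * dot (E (3, S.zero, S.zero)) (E l)) ∧
        (∀ l, β l = w2 * dot (E (4, S.zero, S.zero)) (E l)) ∧
        (∀ l, dot (E (5, S.zero, S.zero)) (E l) = δ1 * α l + δ2 * β l) ∧ 0 < w1 ∧ 0 < w2 ∧ 0 < δ1 ∧
        x (0, S.zero, S.zero) = 0 ∧ y (0, S.zero, S.zero) = 0 ∧ x (0, S.one, S.one) = 1 ∧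
        y (0, S.one, S.one) = 1 := by
    have c1' := c1.ne
    have c2' := c2.ne
    have c3' := c3.ne'
    have d1' := d1.ne
    have d2' := d2.ne
    have d3' := d3.ne'
    refine ⟨fun a => dot (E a) (E (6, S.zero, S.zero)) /
        dot (E (0, S.one, S.one)) (E (6, S.zero, S.zero)) / (dot (E a) (E (11, S.zero, S.zero)) /
        dot (E (0, S.one, S.one)) (E (11, S.zero, S.zero))),
      fun a => dot (E a) (E (7, S.zero, S.zero)) /
        dot (E (0, S.one, S.one)) (E (7, S.zero, S.zero)) / (dot (E a) (E (11, S.zero, S.zero)) /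
        dot (E (0, S.one, S.one)) (E (11, S.zero, S.zero))), _, _,
      fun l => dot (E (0, S.one, S.one)) (E (11, S.zero, S.zero)) /
        dot (E (0, S.zero, S.zero)) (E (11, S.zero, S.zero)) * dot (E (0, S.zero, S.zero)) (E l),
      _, dot (E (5, S.zero, S.zero)) (E (7, S.zero, S.zero)) /
        dot (E (0, S.one, S.one)) (E (7, S.zero, S.zero)), _, _,
      fun a ha h l => ⟨_, div_pos (s3 a ha h) c3, ?_⟩,
      fun _ => rfl, fun _ => rfl, fun l => ?_, div_pos_of_neg_of_neg c1 d1,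
      div_pos_of_neg_of_neg c2 d2, div_pos_of_neg_of_neg s6 c1, by simp [z06], by simp [z07],
      by simp [c1', c3'], by simp [c2', c3']⟩
    · have := (s3 a ha h).ne'
      rw [basis]
      field_simp
    · rw [basis, z5]
      field_simp
      ring
  have Z : ∀ {a l}, a ∈ S.conf.pts → a.1 ≤ 2 → l ∈ S.conf.lns → S.conf.IsPar a l →
      α l * x a + β l * y a + γ l = 0 := fun ha h hl hp => by
    obtain ⟨w, hw, e⟩ := F1 _ ha h _
    rw [hz ha hl hp] at e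
    exact (mul_eq_zero.1 e.symm).resolve_left hw.ne'
  have D1 : α (10, S.zero, S.zero) < 0 := by
    rw [F2]
    exact mul_neg_of_pos_of_neg p1 (hn m3 m10 (by simp [Conf.IsPar, conf, par1, par2, sg, vec, dotZ]))
  have D2 := Z (m0 _ H.z) (by simp) m10 (by simp [Conf.IsPar, conf, par1])
  have D3 := Z (m0 _ H.o) (by simp) m10 (by simp [Conf.IsPar, conf, par1])
  rw [x0, y0] at D2
  rw [x1, y1] at D3
  have D4 := F4 (10, S.zero, S.zero)
  rw [hz m5 m10 (by simp [Conf.IsPar, conf, par1])] at D4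
  have hδ : δ2 = δ1 := by
    have : α (10, S.zero, S.zero) * (δ1 - δ2) = 0 := by linear_combination -D4 - δ2 * D3 + δ2 * D2
    have := (mul_eq_zero.1 this).resolve_left D1.ne
    linarith
  have yx : ∀ k ∈ S.vars, y (0, k, k) = x (0, k, k) := fun k hk => by
    have := Z (m0 _ hk) (by simp) m10 (by simp [Conf.IsPar, conf, par1])
    have : α (10, S.zero, S.zero) * (x (0, k, k) - y (0, k, k)) = 0 := by
      linear_combination this - y (0, k, k) * D3 + (y (0, k, k) - 1) * D2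
    have := (mul_eq_zero.1 this).resolve_left D1.ne
    linarith
  have hV : ∀ {a k}, a ∈ S.conf.pts → a.1 ≤ 2 → k ∈ S.vars → S.conf.IsPar a (6, k, k) →
      x a = x (0, k, k) := fun {a k} ha h hk hp => by
    have e1 := Z ha h (m6 k hk) hp
    have e2 := Z (m0 k hk) (by simp) (m6 k hk) (by simp [Conf.IsPar, conf, par2])
    have e3 := F3 (6, k, k)
    rw [hz m4 (m6 k hk) (by simp [Conf.IsPar, conf, par1]), mul_zero] at e3
    have e4 : α (6, k, k) < 0 := by rw [F2]; exact mul_neg_of_pos_of_neg p1 (s1 k hk)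
    rw [e3] at e1 e2
    exact mul_left_cancel₀ e4.ne (by linarith)
  have hH : ∀ {a k}, a ∈ S.conf.pts → a.1 ≤ 2 → k ∈ S.vars → S.conf.IsPar a (7, k, k) →
      y a = x (0, k, k) := fun {a k} ha h hk hp => by
    have e1 := Z ha h (m7 k hk) hp
    have e2 := Z (m0 k hk) (by simp) (m7 k hk) (i07 k)
    have e3 := F2 (7, k, k)
    rw [hz m3 (m7 k hk) (by simp [Conf.IsPar, conf, par1]), mul_zero] at e3
    have e4 : β (7, k, k) < 0 := by rw [F3]; exact mul_neg_of_pos_of_neg p2 (s2 k hk)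
    rw [e3] at e1 e2
    rw [← yx k hk]
    exact mul_left_cancel₀ e4.ne (by linarith)
  have hG : ∀ {i j}, (1, i, j) ∈ S.conf.pts → i ∈ S.vars → j ∈ S.vars →
      x (1, i, j) = x (0, i, i) ∧ y (1, i, j) = x (0, j, j) := fun h hi hj =>
    ⟨hV h (by simp) hi (by simp [Conf.IsPar, conf, par1]),
      hH h (by simp) hj (by simp [Conf.IsPar, conf, par2])⟩
  have hR : ∀ k ∈ S.vars, S.kind k ≠ 0 → x (2, S.pred k, k) = x (0, S.pred k, S.pred k) ∧
      y (2, S.pred k, k) = x (0, k, k) := fun k hk hk' =>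
    ⟨hV (m2 k hk hk') (by simp) (H.con k hk hk').1 (by simp [Conf.IsPar, conf, par1]),
      hH (m2 k hk hk') (by simp) hk (by simp [Conf.IsPar, conf, par2, hk'])⟩
  have hA : ∀ b ∈ S.prims, 0 < α (8, b, b) ∧ ∀ u v, α (8, b, b) * u + β (8, b, b) * v + γ (8, b, b) =
      α (8, b, b) * (u - v + x (0, b, b)) := fun b hb => by
    have e1 := F4 (8, b, b)
    rw [hz m5 (m8 b hb) (by simp [Conf.IsPar, conf, par1]), hδ, ← mul_add] at e1
    have e1 := (mul_eq_zero.1 e1.symm).resolve_left p3.ne'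
    have e2 := Z (m1 b hb) (by simp) (m8 b hb) (by simp [Conf.IsPar, conf, par2])
    obtain ⟨g1, g2⟩ := hG (m1 b hb) H.z (H.pv b hb)
    rw [g1, g2, x0] at e2
    refine ⟨?_, fun u v => by linear_combination e2 + (v - x (0, b, b)) * e1⟩
    rw [F2]
    exact mul_pos p1 (hp m3 (m8 b hb) (by simp [Conf.IsPar, conf, par1, par2, sg, vec, dotZ]))
  have hM : ∀ b ∈ S.mults, 0 < β (9, b, b) ∧ ∀ u v, α (9, b, b) * u + β (9, b, b) * v + γ (9, b, b) =
      β (9, b, b) * (v - x (0, b, b) * u) := fun b hb => by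
    have e1 := Z (m0 _ H.z) (by simp) (m9 b hb) (by simp [Conf.IsPar, conf, par1])
    have e2 := Z (m1' b hb) (by simp) (m9 b hb) (by simp [Conf.IsPar, conf, par2])
    obtain ⟨g1, g2⟩ := hG (m1' b hb) H.o (H.mv b hb)
    rw [g1, g2, x1] at e2
    rw [x0, y0] at e1
    refine ⟨?_, fun u v => by linear_combination u * e2 + (1 - u) * e1⟩
    rw [F3]
    exact mul_pos p2 (hp m4 (m9 b hb) (by simp [Conf.IsPar, conf, par1, par2, sg, vec, dotZ]))
  refine ⟨fun k => x (0, k, k), x0, x1, fun k hk e => ?_, fun k hk e e' => ?_, fun t ht => ?_⟩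
  · have e0 : S.kind k ≠ 0 := by omega
    have hb := (H.add k hk e).1
    have := Z (m2 k hk e0) (by simp) (m8 _ hb) (by simp [Conf.IsPar, conf, par2, e])
    rw [(hA _ hb).2, (hR k hk e0).1, (hR k hk e0).2] at this
    have := (mul_eq_zero.1 this).resolve_left (hA _ hb).1.ne'
    linarith
  · have hb := (H.mul k hk e e').1
    have := Z (m2 k hk e) (by simp) (m9 _ hb) (by simp [Conf.IsPar, conf, par2, e'])
    rw [(hM _ hb).2, (hR k hk e).1, (hR k hk e).2] at this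
    have := (mul_eq_zero.1 this).resolve_left (hM _ hb).1.ne'
    linarith
  · obtain ⟨n1, n2, -⟩ := H.nt t ht
    have n3 : t ≠ (S.zero, S.omg) := fun h => n2 (h ▸ H.nz)
    have h1 := hn (mt t ht) (m8 _ H.om) (by
      simp [Conf.IsPar, conf, par1, par2, sg, vec, dotZ, n3, n1])
    obtain ⟨w, hw, e⟩ := F1 _ (mt t ht) (by simp) (8, S.omg, S.omg)
    obtain ⟨g1, g2⟩ := hG (mt t ht) (H.tv t ht).1 (H.tv t ht).2
    rw [e, (hA _ H.om).2, g1, g2] at h1
    have := neg_of_mul_neg_left (mul_comm (α _) _ ▸ neg_of_mul_neg_left (mul_comm w _ ▸ h1) hw.le)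
      (hA _ H.om).1.le
    linarith

end Slp

end Pool.Agent.Lib.MP_32fe36_lc.ER
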