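import Pool.Agent.Lib.MP_32fe36_lc.ER.Cells

/-!
Thickening lemma: finitely many points of a connected open plane set lie in the interior of a
simple polygon contained in the set.
-/

namespace Pool.Agent.Lib.MP_32fe36_lc.ER

open Set Filter Topology Relation

/-- Tree shaped polyominoes made of cells of `G`. -/
structure STree (G T : ℤ → ℤ → Prop) : Prop where
  tree : Tree T
  sub : ∀ i j, T i j → G i j
  hx : ∀ i j, T i j → i % 2 = 1 → j % 2 = 0 ∧ T (i - 1) j ∧ T (i + 1) j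
  hy : ∀ i j, T i j → j % 2 = 1 → T i (j - 1) ∧ T i (j + 1)

/-- A move between neighbouring nodes through cells of `G`. -/
def Step (G : ℤ → ℤ → Prop) (a b : ℤ × ℤ) : Prop :=
  ∃ e f, Dir e f ∧ b = (a.1 + e, a.2 + f) ∧ G (2 * a.1 + e) (2 * a.2 + f) ∧ G (2 * b.1) (2 * b.2)

theorem STree.step {G T : ℤ → ℤ → Prop} (h : STree G T) {a b : ℤ × ℤ} (ha : T (2 * a.1) (2 * a.2))
    (hs : Step G a b) : ∃ T', STree G T' ∧ (∀ i j, T i j → T' i j) ∧ T' (2 * b.1) (2 * b.2) := by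
  by_cases hb : T (2 * b.1) (2 * b.2)
  · exact ⟨T, h, fun _ _ => id, hb⟩
  obtain ⟨e, f, hd, rfl, g1, g2⟩ := hs
  obtain ⟨k, l⟩ := a
  dsimp only at ha hb g1 g2 ⊢
  have n1 : ∀ i j, i % 2 = 1 → j % 2 = 1 → ¬ T i j := fun i j a b c => by
    have := (h.hx i j c a).1; omega
  have n2 : ¬ T (2 * (k + e) + 1) (2 * (l + f)) := fun c =>
    hb (by simpa using (h.hx _ _ c (by omega)).2.1)
  have n3 : ¬ T (2 * (k + e) - 1) (2 * (l + f)) := fun c =>
    hb (by simpa using (h.hx _ _ c (by omega)).2.2)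
  have n4 : ¬ T (2 * (k + e)) (2 * (l + f) + 1) := fun c =>
    hb (by simpa using (h.hy _ _ c (by omega)).1)
  have n5 : ¬ T (2 * (k + e)) (2 * (l + f) - 1) := fun c =>
    hb (by simpa using (h.hy _ _ c (by omega)).2)
  have t1 := h.tree.grow (c := 2 * k + e) (d := 2 * l + f) hd (by simpa using ha)
    (by unfold Dir at hd; grind) (by unfold Dir at hd; grind)
    (n1 _ _ (by unfold Dir at hd; omega) (by unfold Dir at hd; omega))
    (n1 _ _ (by unfold Dir at hd; omega) (by unfold Dir at hd; omega))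
    (by unfold Dir at hd; grind) (by unfold Dir at hd; grind)
  have t2 := t1.grow (c := 2 * (k + e)) (d := 2 * (l + f)) hd (Or.inr ⟨by ring, by ring⟩)
    (by unfold Dir at hd; grind) (by unfold Dir at hd; grind)
    (by unfold Dir at hd; grind) (by unfold Dir at hd; grind)
    (not_or.2 ⟨n1 _ _ (by unfold Dir at hd; omega) (by unfold Dir at hd; omega),
      by unfold Dir at hd; omega⟩)
    (not_or.2 ⟨n1 _ _ (by unfold Dir at hd; omega) (by unfold Dir at hd; omega),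
      by unfold Dir at hd; omega⟩)
  refine ⟨_, ⟨t2, ?_, ?_, ?_⟩, fun _ _ g => Or.inl (Or.inl g), Or.inr ⟨rfl, rfl⟩⟩
  · rintro i j ((g | ⟨rfl, rfl⟩) | ⟨rfl, rfl⟩)
    exacts [h.sub _ _ g, g1, g2]
  · rintro i j ((g | ⟨rfl, rfl⟩) | ⟨rfl, rfl⟩) hi
    · obtain ⟨a, b, c⟩ := h.hx i j g hi
      exact ⟨a, Or.inl (Or.inl b), Or.inl (Or.inl c)⟩
    · unfold Dir at hd; grind
    · omega
  · rintro i j ((g | ⟨rfl, rfl⟩) | ⟨rfl, rfl⟩) hi
    · obtain ⟨b, c⟩ := h.hy i j g hi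
      exact ⟨Or.inl (Or.inl b), Or.inl (Or.inl c)⟩
    · unfold Dir at hd; grind
    · omega

theorem STree.reach {G T : ℤ → ℤ → Prop} (h : STree G T) {a b : ℤ × ℤ} (ha : T (2 * a.1) (2 * a.2))
    (hs : ReflTransGen (Step G) a b) :
    ∃ T', STree G T' ∧ (∀ i j, T i j → T' i j) ∧ T' (2 * b.1) (2 * b.2) := by
  induction hs with
  | refl => exact ⟨T, h, fun _ _ => id, ha⟩
  | tail _ hs ih =>
    obtain ⟨T1, h1, h2, h3⟩ := ih
    obtain ⟨T2, h4, h5, h6⟩ := h1.step h3 hs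
    exact ⟨T2, h4, fun i j g => h5 i j (h2 i j g), h6⟩

theorem exists_stree {G : ℤ → ℤ → Prop} {a : ℤ × ℤ} (ha : G (2 * a.1) (2 * a.2)) {B : Set (ℤ × ℤ)}
    (hB : B.Finite) (h : ∀ b ∈ B, ReflTransGen (Step G) a b) :
    ∃ T, STree G T ∧ T (2 * a.1) (2 * a.2) ∧ ∀ b ∈ B, T (2 * b.1) (2 * b.2) := by
  induction B, hB using Set.Finite.induction_on with
  | empty =>
    refine ⟨_, ⟨tree_single (2 * a.1) (2 * a.2), ?_, ?_, ?_⟩, ⟨rfl, rfl⟩, by simp⟩
    · rintro _ _ ⟨rfl, rfl⟩; exact ha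
    · rintro _ _ ⟨rfl, rfl⟩ g; omega
    · rintro _ _ ⟨rfl, rfl⟩ g; omega
  | insert _ _ ih =>
    obtain ⟨T, h1, h2, h3⟩ := ih fun b hb => h b (Or.inr hb)
    obtain ⟨T', h4, h5, h6⟩ := h1.reach h2 (h _ (Or.inl rfl))
    refine ⟨T', h4, h5 _ _ h2, ?_⟩
    rintro b (rfl | hb)
    exacts [h6, h5 _ _ (h3 b hb)]

theorem reach_rect {G : ℤ → ℤ → Prop} {A B C D : ℤ}
    (h : ∀ i j, 2 * A ≤ i → i ≤ 2 * B → 2 * C ≤ j → j ≤ 2 * D → G i j) (b : ℤ × ℤ)
    (hb : A ≤ b.1 ∧ b.1 ≤ B ∧ C ≤ b.2 ∧ b.2 ≤ D) (n : ℕ) : ∀ a : ℤ × ℤ,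
    A ≤ a.1 ∧ a.1 ≤ B ∧ C ≤ a.2 ∧ a.2 ≤ D → (a.1 - b.1).natAbs + (a.2 - b.2).natAbs = n →
    ReflTransGen (Step G) a b := by
  induction n with
  | zero => intro a _ e; rw [show a = b from Prod.ext (by omega) (by omega)]
  | succ n ih =>
    intro a ha e
    have key : ∀ p q, Dir p q → (A ≤ a.1 + p ∧ a.1 + p ≤ B ∧ C ≤ a.2 + q ∧ a.2 + q ≤ D) →
        (a.1 + p - b.1).natAbs + (a.2 + q - b.2).natAbs = n → ReflTransGen (Step G) a b :=
      fun p q hd g g' => .head ⟨p, q, hd, rfl, h _ _ (by omega) (by omega) (by omega) (by omega),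
        h _ _ (by dsimp only; omega) (by dsimp only; omega) (by dsimp only; omega)
          (by dsimp only; omega)⟩ (ih (a.1 + p, a.2 + q) g g')
    by_cases c1 : a.1 < b.1
    · exact key 1 0 (by simp [Dir]) (by omega) (by omega)
    by_cases c2 : b.1 < a.1
    · exact key (-1) 0 (by simp [Dir]) (by omega) (by omega)
    by_cases c3 : a.2 < b.2
    · exact key 0 1 (by simp [Dir]) (by omega) (by omega)
    · exact key 0 (-1) (by simp [Dir]) (by omega) (by omega)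

/-- The dilation used at scale `n`. -/
noncomputable def dil (n : ℕ) (x : Pt) : Pt := (2 * n * x.1 + 1 / 2, 2 * n * x.2 + 1 / 2)

/-- The node closest to a point at scale `n`. -/
noncomputable def node (n : ℕ) (x : Pt) : ℤ × ℤ := (round (n * x.1), round (n * x.2))

/-- Cells contained in `U` at scale `n`. -/
def Good (U : Set Pt) (n : ℕ) (i j : ℤ) : Prop := ∀ y, Cl i j (dil n y) → y ∈ U

theorem good_near {U : Set Pt} {x : Pt} {r : ℝ} (hr : 0 < r) (h : Metric.ball x (2 * r) ⊆ U) :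
    ∀ᶠ n : ℕ in atTop, ∃ A B C D : ℤ,
      (∀ i j, 2 * A ≤ i → i ≤ 2 * B → 2 * C ≤ j → j ≤ 2 * D → Good U n i j) ∧
      ∀ y ∈ Metric.ball x r, A ≤ (node n y).1 ∧ (node n y).1 ≤ B ∧ C ≤ (node n y).2 ∧
        (node n y).2 ≤ D := by
  filter_upwards [(tendsto_natCast_atTop_atTop (R := ℝ)).eventually_gt_atTop (1 / r)] with n hn
  have h1 : 1 < n * r := (div_lt_iff₀ hr).1 hn
  have h0 : (0 : ℝ) < n := lt_of_le_of_lt (by positivity) hn
  have one : ∀ (u v : ℝ) (i : ℤ), 2 * round (n * (u - r)) ≤ i → i ≤ 2 * round (n * (u + r)) →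
      (i : ℝ) ≤ 2 * n * v + 1 / 2 ∧ 2 * n * v + 1 / 2 ≤ i + 1 → dist v u < 2 * r := by
    intro u v i a b c
    have a' : (2 : ℝ) * round (n * (u - r)) ≤ i := by exact_mod_cast a
    have b' : (i : ℝ) ≤ 2 * round (n * (u + r)) := by exact_mod_cast b
    have p := abs_le.1 (abs_sub_round (n * (u - r)))
    have q := abs_le.1 (abs_sub_round (n * (u + r)))
    rw [Real.dist_eq, abs_lt]
    constructor
    · refine lt_of_mul_lt_mul_left ?_ h0.le; nlinarith [c.1, c.2, p.1, p.2]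
    · refine lt_of_mul_lt_mul_left ?_ h0.le; nlinarith [c.1, c.2, q.1, q.2]
  have two : ∀ u v : ℝ, dist v u < r →
      round (n * (u - r)) ≤ round (n * v) ∧ round (n * v) ≤ round (n * (u + r)) := by
    intro u v g
    rw [Real.dist_eq, abs_lt] at g
    simp only [round_eq]
    constructor <;> refine Int.floor_mono ?_ <;> nlinarith [g.1, g.2]
  refine ⟨round (n * (x.1 - r)), round (n * (x.1 + r)), round (n * (x.2 - r)), round (n * (x.2 + r)),
    fun i j a b c d y hy => h ?_, fun y hy => ?_⟩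
  · rw [Metric.mem_ball, Prod.dist_eq, max_lt_iff]
    exact ⟨one _ _ i a b hy.1, one _ _ j c d hy.2⟩
  · rw [Metric.mem_ball, Prod.dist_eq, max_lt_iff] at hy
    exact ⟨(two _ _ hy.1).1, (two _ _ hy.1).2, two _ _ hy.2⟩

theorem reach_ev {U : Set Pt} (hU : IsOpen U) (hc : IsPreconnected U) {x y : Pt} (hx : x ∈ U)
    (hy : y ∈ U) : (∀ᶠ n : ℕ in atTop, ReflTransGen (Step (Good U n)) (node n x) (node n y)) ∧
      ∀ᶠ n : ℕ in atTop, Good U n (2 * (node n x).1) (2 * (node n x).2) := by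
  have loc : ∀ x ∈ U, ∃ r > 0, Metric.ball x (2 * r) ⊆ U := fun x hx => by
    obtain ⟨e, he, h⟩ := Metric.isOpen_iff.1 hU x hx
    exact ⟨e / 2, by positivity, by rwa [mul_div_cancel₀ _ two_ne_zero]⟩
  constructor
  · refine hc.induction₂' (fun x y => ∀ᶠ n : ℕ in atTop,
      ReflTransGen (Step (Good U n)) (node n x) (node n y)) (fun x hx => ?_)
      (fun x y z _ _ _ a b => (a.and b).mono fun n g => g.1.trans g.2) hx hy
    obtain ⟨r, hr, h⟩ := loc x hx
    filter_upwards [mem_nhdsWithin_of_mem_nhds (Metric.ball_mem_nhds x hr)] with y hy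
    constructor <;> refine (good_near hr h).mono fun n ⟨A, B, C, D, g, g'⟩ => ?_
    · exact reach_rect g _ (g' y hy) _ _ (g' x (Metric.mem_ball_self hr)) rfl
    · exact reach_rect g _ (g' x (Metric.mem_ball_self hr)) _ _ (g' y hy) rfl
  · obtain ⟨r, hr, h⟩ := loc x hx
    refine (good_near hr h).mono fun n ⟨A, B, C, D, g, g'⟩ => ?_
    have := g' x (Metric.mem_ball_self hr)
    exact g _ _ (by omega) (by omega) (by omega) (by omega)

theorem dirichlet {ι : Type} [Finite ι] (u : ι → ℝ) :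
    ∃ᶠ n : ℕ in atTop, ∀ i, |n * u i - round (n * u i)| < 1 / 4 := by
  have := Fintype.ofFinite ι
  have h := (mapClusterPt_zero_atTop_nsmul (fun i => (u i : UnitAddCircle))).frequently
    (Metric.ball_mem_nhds 0 (by norm_num : (0 : ℝ) < 1 / 4))
  refine h.mono fun n hn i => ?_
  have := (pi_norm_lt_iff (by norm_num)).1 (mem_ball_zero_iff.1 hn) i
  rw [← UnitAddCircle.norm_eq]
  rwa [← nsmul_eq_mul, AddCircle.coe_nsmul]

theorem IsObstacle.preimage {C : Set Pt} (h : IsObstacle C) {a : ℝ} (ha : a ≠ 0) (b : Pt) :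
    IsObstacle ((fun x => a • x + b) ⁻¹' C) := by
  obtain ⟨n, v, x, h1, h2, h3, h4⟩ := h
  let φ : Pt ≃ₜ Pt := (Homeomorph.smulOfNeZero a ha).trans (Homeomorph.addRight b)
  have hφ : ∀ y, φ y = a • y + b := fun _ => rfl
  have lin : ∀ (p q : Pt) (s : ℝ), φ (p + s • (q - p)) = φ p + s • (φ q - φ p) := fun p q s => by
    simp only [hφ]; module
  have hb : polygonBoundary (fun i => φ.symm (v i)) = φ ⁻¹' polygonBoundary v := by
    ext y
    simp only [polygonBoundary, mem_iUnion, mem_preimage, segment_eq_image', mem_image]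
    refine exists_congr fun i => exists_congr fun s => and_congr_right fun _ => ?_
    rw [← φ.injective.eq_iff, lin, φ.apply_symm_apply, φ.apply_symm_apply]
  refine ⟨n, fun i => φ.symm (v i), φ.symm x, fun i j s t a b c d e => h1 i j s t a b c d ?_, ?_, ?_, ?_⟩
  · simpa only [lin, φ.apply_symm_apply] using congrArg φ e
  · rwa [hb, mem_preimage, φ.apply_symm_apply]
  · rw [hb, ← preimage_compl, ← φ.image_symm, ← φ.symm.image_connectedComponentIn h2, ← h3,
      φ.image_symm]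
    rfl
  · have : (fun x => a • x + b) ⁻¹' C = (fun y => a⁻¹ • (y - b)) '' C := by
      ext y
      constructor
      · exact fun g => ⟨_, g, by simp [smul_smul, ha]⟩
      · rintro ⟨z, g, rfl⟩; simpa [smul_smul, ha] using g
    rw [this]
    obtain ⟨R, hR⟩ := h4.subset_closedBall 0
    exact ((isCompact_closedBall (0 : Pt) R).image (by fun_prop)).isBounded.subset (image_mono hR)

/-- The thickening lemma. -/
theorem thicken {U : Set Pt} (hU : IsOpen U) (hc : IsPreconnected U) {x : Pt} (hx : x ∈ U)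
    {Z : Set Pt} (hZ : Z.Finite) (hZU : Z ⊆ U) : ∃ C, IsObstacle C ∧ Z ⊆ C ∧ C ⊆ U := by
  have := hZ.to_subtype
  have e1 : ∀ᶠ n : ℕ in atTop, ∀ z ∈ Z, ReflTransGen (Step (Good U n)) (node n x) (node n z) :=
    (eventually_all_finite hZ).2 fun z hz => (reach_ev hU hc hx (hZU hz)).1
  obtain ⟨n, d, g1, g2, g3⟩ := ((dirichlet fun i : Z × Bool => if i.2 then i.1.1.1 else i.1.1.2).and_eventually
    (e1.and ((reach_ev hU hc hx hx).2.and (eventually_gt_atTop 0)))).exists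
  obtain ⟨T, h1, -, h3⟩ := exists_stree g2 (hZ.image (node n)) (forall_mem_image.2 g1)
  have hn : (2 * n : ℝ) ≠ 0 := by positivity
  have hd : ∀ y : Pt, (2 * n : ℝ) • y + ((1 / 2, 1 / 2) : Pt) = dil n y := fun _ => rfl
  refine ⟨_, IsObstacle.preimage h1.tree.isObstacle hn (1 / 2, 1 / 2), fun z hz => ?_, fun y hy => ?_⟩
  · have d1 := abs_lt.1 (d (⟨z, hz⟩, true))
    have d2 := abs_lt.1 (d (⟨z, hz⟩, false))
    simp only [if_true, Bool.false_eq_true, if_false] at d1 d2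
    rw [mem_preimage, hd]
    refine rect_sub (i := 2 * (node n z).1) (j := 2 * (node n z).2) (m := 1) (n := 1)
      (fun k l a b c d => ?_) ?_
    · rw [show k = 2 * (node n z).1 by omega, show l = 2 * (node n z).2 by omega]
      exact h3 _ (mem_image_of_mem _ hz)
    · simp only [dil, node]
      refine ⟨⟨?_, ?_⟩, ?_, ?_⟩ <;> push_cast <;> linarith [d1.1, d1.2, d2.1, d2.2]
  · rw [mem_preimage, hd] at hy
    exact h1.sub _ _ (hy _ _ (cl_floor _)) y (cl_floor _)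

end Pool.Agent.Lib.MP_32fe36_lc.ER
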