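import Pool.Agent.Lib.MP_32fe36_lc.ER.Etr

/-! From formulas of the existential theory of the reals to systems of equations `a + b = c` and
`a * b = c`. -/

namespace Pool.Agent.Lib.MP_32fe36_lc.ER

abbrev RV : Type := List ℕ × ℕ
abbrev RCon : Type := Bool × RV × RV × RV

def vZ : RV := ([], 0)
def vO : RV := ([], 1)

def RHolds (f : RV → ℝ) (c : RCon) : Prop :=
  if c.1 = true then f c.2.1 + f c.2.2.1 = f c.2.2.2 else f c.2.1 * f c.2.2.1 = f c.2.2.2

def RSat (f : RV → ℝ) (cs : List RCon) : Prop := ∀ c ∈ cs, RHolds f c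

def ltg (A B R : List ℕ) (o : ℕ) : List RCon :=
  [(true, (A, 0), (R, 1), (B, 0)), (false, (R, o), (R, o), (R, o)), (true, (R, o), (R, o), (R, 2)),
    (true, (R, 3), vO, (R, 2)), (false, (R, 3), (R, 1), (R, 4)), (false, (R, 5), (R, 5), (R, 4)),
    (false, (R, 1), (R, 6), (R, o))]

def gen (k : ℕ) (A B R : List ℕ) : List RCon :=
  if k = 0 then [(true, (R, 0), vZ, vZ)]
  else if k = 1 then [(true, (R, 0), vZ, vO)]
  else if k = 2 then [(true, (A, 0), (B, 0), (R, 0))]
  else if k = 3 then [(false, (A, 0), (B, 0), (R, 0))]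
  else if k = 4 then [(true, (B, 0), (R, 0), vZ)]
  else if k = 5 then [(true, (R, 1), (B, 0), (A, 0)), (false, (R, 0), (R, 1), vZ),
    (true, (R, 0), (R, 2), vO), (false, (R, 1), (R, 3), (R, 2))]
  else if k = 6 then ltg A B R 0
  else if k = 7 then (true, (R, 0), (R, 7), vO) :: ltg B A R 7
  else if k = 8 then [(true, (R, 0), (B, 0), vO)]
  else if k = 9 then [(false, (A, 0), (B, 0), (R, 0))]
  else if k = 10 then [(false, (A, 0), (B, 0), (R, 1)), (true, (A, 0), (B, 0), (R, 2)),
    (true, (R, 0), (R, 1), (R, 2))]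
  else []

open Classical in
noncomputable def ind (p : Prop) : ℝ := if p then 1 else 0

noncomputable def ltv (a b : ℝ) (j : ℕ) : ℝ :=
  if j = 1 then b - a else if j = 2 then 2 * ind (a < b) else if j = 3 then 2 * ind (a < b) - 1
  else if j = 4 then |b - a| else if j = 5 then √|b - a| else if j = 6 then ind (a < b) / (b - a)
  else ind (a < b)

noncomputable def aux (x : ℕ → ℝ) (k : ℕ) (a b : ℝ) (j : ℕ) : ℝ :=
  if k = 0 then 0 else if k = 1 then 1 else if k = 2 then a + b else if k = 3 then a * b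
  else if k = 4 then -b
  else if k = 5 then (if j = 0 then ind (a = b) else if j = 1 then a - b
    else if j = 2 then 1 - ind (a = b) else (a - b)⁻¹)
  else if k = 6 then ltv a b j
  else if k = 7 then (if j = 0 then ind (a ≤ b) else ltv b a j)
  else if k = 8 then 1 - b else if k = 9 then a * b
  else if k = 10 then (if j = 0 then a + b - a * b else if j = 1 then a * b else a + b)
  else x (k - 11)

theorem ltg_sound {f : RV → ℝ} (h1 : f vO = 1) {A B R : List ℕ} {o : ℕ} (h : RSat f (ltg A B R o)) :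
    f (R, o) = ind (f (A, 0) < f (B, 0)) := by
  simp only [RSat, ltg, List.mem_cons, List.not_mem_nil, or_false, forall_eq_or_imp, forall_eq,
    RHolds, if_true, Bool.false_eq_true, if_false, h1] at h
  obtain ⟨a1, a2, a3, a4, a5, a6, a7⟩ := h
  have hr : f (R, o) = 0 ∨ f (R, o) = 1 := by
    rcases eq_or_ne (f (R, o)) 0 with h | h
    · exact Or.inl h
    · exact Or.inr (mul_left_cancel₀ h (by rw [a2, mul_one]))
  have hw := mul_self_nonneg (f (R, 5))
  unfold ind
  rcases hr with hr | hr
  · have : f (R, 3) = -1 := by linarith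
    rw [this] at a5
    rw [if_neg (by intro h; linarith), hr]
  · have : f (R, 3) = 1 := by linarith
    rw [this] at a5
    have h0 : f (R, 1) ≠ 0 := by
      intro h; rw [h, hr] at a7; simp at a7
    have : 0 < f (R, 1) := lt_of_le_of_ne (by linarith) h0.symm
    rw [if_pos (by linarith), hr]

theorem ltg_complete {f : RV → ℝ} (h1 : f vO = 1) {A B R : List ℕ} {o : ℕ} (ho : o = 0 ∨ o = 7)
    (h : ∀ j, j = o ∨ (1 ≤ j ∧ j ≤ 6) → f (R, j) = ltv (f (A, 0)) (f (B, 0)) j) :
    RSat f (ltg A B R o) := by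
  have e0 : f (R, o) = ind (f (A, 0) < f (B, 0)) := by
    rw [h o (Or.inl rfl)]; rcases ho with rfl | rfl <;> simp [ltv]
  simp only [RSat, ltg, List.mem_cons, List.not_mem_nil, or_false, forall_eq_or_imp, forall_eq,
    RHolds, if_true, Bool.false_eq_true, if_false, h1, e0, h 1 (by omega), h 2 (by omega),
    h 3 (by omega), h 4 (by omega), h 5 (by omega), h 6 (by omega)]
  generalize f (A, 0) = a
  generalize f (B, 0) = b
  simp only [ltv, ind, OfNat.ofNat_ne_one, Nat.reduceEqDiff, if_true, if_false]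
  rw [Real.mul_self_sqrt (abs_nonneg _)]
  by_cases hab : a < b
  · have : b - a ≠ 0 := by intro h; linarith
    simp only [hab, if_true]
    refine ⟨by ring, by ring, by ring, by ring, ?_, trivial, ?_⟩
    · rw [abs_of_pos (by linarith)]; ring
    · field_simp
  · simp only [hab, if_false]
    refine ⟨by ring, by ring, by ring, by ring, ?_, trivial, by simp⟩
    rw [abs_of_nonpos (by linarith)]; ring

theorem gen_sound {f : RV → ℝ} (h0 : f vZ = 0) (h1 : f vO = 1) (x : ℕ → ℝ) {k : ℕ} (hk : k ≤ 10)
    {A B R : List ℕ} (h : RSat f (gen k A B R)) : f (R, 0) = aux x k (f (A, 0)) (f (B, 0)) 0 := by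
  have h6 := fun h => ltg_sound h1 (A := A) (B := B) (R := R) (o := 0) h
  have h7 := fun h => ltg_sound h1 (A := B) (B := A) (R := R) (o := 7) h
  unfold RSat at h6 h7
  interval_cases k <;>
    simp only [RSat, gen, aux, List.mem_cons, List.not_mem_nil, or_false, forall_eq_or_imp, forall_eq,
      RHolds, if_true, Bool.false_eq_true, if_false, h0, h1, OfNat.ofNat_ne_zero, one_ne_zero,
      OfNat.ofNat_ne_one, Nat.reduceEqDiff] at h ⊢
  · linarith
  · linarith
  · linarith
  · linarith
  · linarith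
  · obtain ⟨a1, a2, a3, a4⟩ := h
    unfold ind
    split_ifs with hab
    · have : f (R, 1) = 0 := by linarith
      rw [this] at a4; linarith
    · exact (mul_eq_zero.1 a2).resolve_right fun h => hab (by linarith)
  · rw [h6 h]; simp [ltv]
  · have := h7 h.2
    unfold ind at this ⊢
    split_ifs at this ⊢ with c1 c2 c2 <;> linarith
  · linarith
  · linarith
  · linarith

theorem gen_complete {f : RV → ℝ} (h0 : f vZ = 0) (h1 : f vO = 1) (x : ℕ → ℝ) {k : ℕ}
    {A B R : List ℕ} {a b : ℝ} (h : ∀ j, f (R, j) = aux x k a b j)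
    (ha : 2 ≤ k → k ≠ 4 → k ≠ 8 → k ≤ 10 → f (A, 0) = a) (hb : 2 ≤ k → k ≤ 10 → f (B, 0) = b) :
    RSat f (gen k A B R) := by
  rcases le_or_gt k 10 with hk | hk
  swap
  · have : gen k A B R = [] := by
      unfold gen
      rw [if_neg (by omega), if_neg (by omega), if_neg (by omega), if_neg (by omega), if_neg (by omega),
        if_neg (by omega), if_neg (by omega), if_neg (by omega), if_neg (by omega), if_neg (by omega),
        if_neg (by omega)]
    rw [this]
    intro c hc
    simp at hc
  have h6 := fun h => ltg_complete h1 (A := A) (B := B) (R := R) (o := 0) (Or.inl rfl) h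
  have h7 := fun h => ltg_complete h1 (A := B) (B := A) (R := R) (o := 7) (Or.inr rfl) h
  unfold RSat at h6 h7
  interval_cases k <;>
    simp only [RSat, gen, aux, List.mem_cons, List.not_mem_nil, or_false, forall_eq_or_imp, forall_eq,
      RHolds, if_true, Bool.false_eq_true, if_false, h0, h1, OfNat.ofNat_ne_zero, one_ne_zero,
      OfNat.ofNat_ne_one, Nat.reduceEqDiff, Nat.reduceLeDiff, ne_eq, not_false_eq_true, le_refl,
      forall_const, not_true_eq_false, false_imp_iff] at h ha hb ⊢
  · simp [h]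
  · simp [h]
  · simp [h, ha, hb]
  · simp [h, ha, hb]
  · simp [h, hb]
  · simp only [h, ha, hb, ind]
    by_cases hab : a = b
    · simp [hab]
    · simp [hab, sub_ne_zero.2 hab]
  · exact h6 fun j _ => by rw [h, ha, hb]
  · refine ⟨?_, h7 fun j hj => by rw [h, ha, hb, if_neg (by omega)]⟩
    simp only [h, ltv, ind]
    by_cases hab : a ≤ b
    · simp [hab, not_lt.2 hab]
    · simp [hab, not_le.1 hab]
  · simp [h, hb]
  · simp [h, ha, hb]
  · simp [h, ha, hb]

end Pool.Agent.Lib.MP_32fe36_lc.ER
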